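import Pool.Agent.Helper91.SM.Model

/-!
Rules for reasoning about the programs of `Model.lean`.
-/

namespace Pool.Agent.Helper91.SM

open Finset

/-- arrays modified by a program -/
def mods : Prog → Finset ℕ
  | .assign r _ => {r}
  | .seq p q => mods p ∪ mods q
  | .loop r _ p => insert r (mods p)

lemma loopIter_frame {f : ℕ → Mem → Mem} {r : ℕ} (h : ∀ i m, f i m r = m r) (n : ℕ) (m : Mem) :
    loopIter f n m r = m r := by
  induction n with
  | zero => rfl
  | succ n ih => show f n (loopIter f n m) r = m r; rw [h, ih]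

lemma exec_frame (W : ℕ) (P : Prog) : ∀ (m : Mem) (r : ℕ), r ∉ mods P → exec W P m r = m r := by
  induction P with
  | assign r' t =>
    intro m r hr
    simp only [mods, Finset.mem_singleton] at hr
    simp only [exec]
    rw [Function.update_of_ne hr]
  | seq p q ihp ihq =>
    intro m r hr
    simp only [mods, Finset.mem_union, not_or] at hr
    simp only [exec]
    rw [ihq _ _ hr.2, ihp _ _ hr.1]
  | loop r' t p ih =>
    intro m r hr
    simp only [mods, Finset.mem_insert, not_or] at hr
    simp only [exec]
    refine loopIter_frame (fun i m => ?_) _ _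
    rw [ih _ _ hr.2, setc, Function.update_of_ne hr.1]

/-- number of executed basic commands -/
def steps (W : ℕ) : Prog → Mem → ℕ
  | .assign _ _, _ => 1
  | .seq p q, m => steps W p m + steps W q (exec W p m)
  | .loop r t p, m => 1 + ∑ i ∈ range (eval W m t (env 0 0 0)).toNat,
      (steps W p (setc W r i (loopIter (fun i m' => exec W p (setc W r i m')) i m)) + 1)

/-- size of terms -/
def tsize : Term → ℕ
  | .const _ => 1
  | .var _ => 1
  | .get _ i j k => tsize i + tsize j + tsize k + 1
  | .add s t => tsize s + tsize t + 1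
  | .sub s t => tsize s + tsize t + 1
  | .mul s t => tsize s + tsize t + 1
  | .div s t => tsize s + tsize t + 1
  | .lt s t => tsize s + tsize t + 1
  | .sum _ t => tsize t + 1

lemma cost_le (W : ℕ) (t : Term) : cost W t ≤ tsize t * (Nat.clog 2 W + 1) := by
  induction t with
  | const c => simp [cost, tsize]
  | var v => simp [cost, tsize]
  | get r i j k ih1 ih2 ih3 => simp only [cost, tsize]; nlinarith
  | add s t ih1 ih2 => simp only [cost, tsize]; nlinarith
  | sub s t ih1 ih2 => simp only [cost, tsize]; nlinarith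
  | mul s t ih1 ih2 => simp only [cost, tsize]; nlinarith
  | div s t ih1 ih2 => simp only [cost, tsize]; nlinarith
  | lt s t ih1 ih2 => simp only [cost, tsize]; nlinarith
  | sum v t ih => simp only [cost, tsize]; nlinarith

/-- size of programs -/
def psize : Prog → ℕ
  | .assign _ t => tsize t
  | .seq p q => psize p + psize q
  | .loop _ t p => tsize t + psize p + 1

theorem time_le (W : ℕ) (P : Prog) : ∀ m, time W P m ≤
    psize P * (Nat.clog 2 W + 1) * steps W P m := by
  induction P with
  | assign r t => intro m; simpa [time, psize, steps] using cost_le W t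
  | seq p q ihp ihq =>
    intro m
    simp only [time, psize, steps]
    have h1 := ihp m
    have h2 := ihq (exec W p m)
    have h3 : psize p * (Nat.clog 2 W + 1) * steps W p m ≤
        (psize p + psize q) * (Nat.clog 2 W + 1) * steps W p m := by gcongr; omega
    have h4 : psize q * (Nat.clog 2 W + 1) * steps W q (exec W p m) ≤
        (psize p + psize q) * (Nat.clog 2 W + 1) * steps W q (exec W p m) := by gcongr; omega
    rw [Nat.mul_add]
    omega
  | loop r t p ih =>
    intro m
    simp only [time, psize, steps]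
    set c := Nat.clog 2 W + 1 with hc
    have h0 : cost W t ≤ (tsize t + psize p + 1) * c := by
      have := cost_le W t
      refine this.trans ?_
      gcongr; omega
    rw [Nat.mul_add, Nat.mul_one, Finset.mul_sum]
    refine Nat.add_le_add h0 (Finset.sum_le_sum fun i _ => ?_)
    have h1 := ih (setc W r i (loopIter (fun i m' => exec W p (setc W r i m')) i m))
    set s := steps W p (setc W r i (loopIter (fun i m' => exec W p (setc W r i m')) i m))
    have h2 : psize p * c * s ≤ (tsize t + psize p + 1) * c * s := by gcongr; omega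
    have h3 : 1 ≤ (tsize t + psize p + 1) * c := by
      rw [hc]; exact Nat.mul_pos (by omega) (by omega)
    rw [Nat.mul_add, Nat.mul_one]
    omega

/-- loop rule -/
theorem loop_inv {W r : ℕ} {t : Term} {p : Prog} {m : Mem} {n : ℕ}
    (hn : (eval W m t (env 0 0 0)).toNat = n) (Inv : ℕ → Mem → Prop) (T : ℕ) (h0 : Inv 0 m)
    (hs : ∀ i < n, ∀ m', (∀ r', r' ∉ insert r (mods p) → m' r' = m r') → Inv i m' →
      Inv (i + 1) (exec W p (setc W r i m')) ∧ steps W p (setc W r i m') ≤ T) :
    Inv n (exec W (.loop r t p) m) ∧ steps W (.loop r t p) m ≤ n * (T + 1) + 1 := by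
  have hfr : ∀ i r', r' ∉ insert r (mods p) →
      loopIter (fun i m' => exec W p (setc W r i m')) i m r' = m r' := by
    intro i r' hr
    simp only [Finset.mem_insert, not_or] at hr
    refine loopIter_frame (fun i m => ?_) _ _
    rw [exec_frame _ _ _ _ hr.2, setc, Function.update_of_ne hr.1]
  have hI : ∀ i ≤ n, Inv i (loopIter (fun i m' => exec W p (setc W r i m')) i m) := by
    intro i
    induction i with
    | zero => intro _; exact h0
    | succ i ih =>
      intro hi
      exact (hs i (by omega) _ (hfr i) (ih (by omega))).1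
  constructor
  · simp only [exec, hn]
    exact hI n le_rfl
  · simp only [steps, hn]
    have : ∑ i ∈ range n, (steps W p (setc W r i
        (loopIter (fun i m' => exec W p (setc W r i m')) i m)) + 1) ≤ ∑ _i ∈ range n, (T + 1) := by
      refine Finset.sum_le_sum fun i hi => ?_
      have hi' := Finset.mem_range.mp hi
      have := (hs i hi' _ (hfr i) (hI i hi'.le)).2
      omega
    rw [Finset.sum_const, Finset.card_range, smul_eq_mul] at this
    omega

/-! ### abbreviations for terms -/

namespace Term

def nt (t : Term) : Term := .sub (.const 1) t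
def eqt (s t : Term) : Term := .mul (nt (.lt s t)) (nt (.lt t s))
def le (s t : Term) : Term := nt (.lt t s)
def ite (c s t : Term) : Term := .add (.mul c s) (.mul (nt c) t)
def sumTo (v : ℕ) (n t : Term) : Term := .sum v (.mul (.lt (.var v) n) t)
def g1 (r : ℕ) (i : Term) : Term := .get r i (.const 0) (.const 0)
def g2 (r : ℕ) (i j : Term) : Term := .get r i j (.const 0)
def g0 (r : ℕ) : Term := .get r (.const 0) (.const 0) (.const 0)

end Term

open Classical in
/-- indicator -/
noncomputable def iv (p : Prop) : ℤ := if p then 1 else 0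

lemma iv_pos {p : Prop} (h : p) : iv p = 1 := by unfold iv; exact if_pos h
lemma iv_neg {p : Prop} (h : ¬ p) : iv p = 0 := by unfold iv; exact if_neg h
lemma iv_congr {p q : Prop} (h : p ↔ q) : iv p = iv q := by rw [propext h]
lemma iv_mul (p q : Prop) : iv p * iv q = iv (p ∧ q) := by
  by_cases hp : p <;> by_cases hq : q <;> simp [iv, hp, hq]
lemma iv_nonneg (p : Prop) : 0 ≤ iv p := by
  by_cases hp : p <;> simp [iv, hp]
lemma iv_le_one (p : Prop) : iv p ≤ 1 := by
  by_cases hp : p <;> simp [iv, hp]
lemma iv_one_sub (p : Prop) : 1 - iv p = iv (¬ p) := by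
  by_cases hp : p <;> simp [iv, hp]
lemma iv_eq_zero {p : Prop} : iv p = 0 ↔ ¬ p := by
  by_cases hp : p <;> simp [iv, hp]
lemma iv_eq_one {p : Prop} : iv p = 1 ↔ p := by
  by_cases hp : p <;> simp [iv, hp]
lemma iv_inj {p q : Prop} : iv p = iv q ↔ (p ↔ q) := by
  by_cases hp : p <;> by_cases hq : q <;> simp [iv, hp, hq]

lemma eval_lt (W : ℕ) (m : Mem) (s t : Term) (e : ℕ → ℤ) : eval W m (.lt s t) e =
    iv (eval W m s e < eval W m t e) := by
  unfold iv; simp only [eval]; split_ifs <;> rfl

lemma eval_nt (W : ℕ) (m : Mem) (t : Term) (e : ℕ → ℤ) :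
    eval W m (Term.nt t) e = 1 - eval W m t e := by simp only [Term.nt, eval]

lemma eval_eqt (W : ℕ) (m : Mem) (s t : Term) (e : ℕ → ℤ) : eval W m (Term.eqt s t) e =
    iv (eval W m s e = eval W m t e) := by
  simp only [Term.eqt, Term.nt, eval, iv]
  rcases lt_trichotomy (eval W m s e) (eval W m t e) with h | h | h
  · rw [if_pos h, if_neg h.ne]; ring
  · rw [if_neg (by omega), if_neg (by omega), if_pos h]; ring
  · rw [if_neg (by omega), if_pos h, if_neg h.ne']; ring

lemma eval_le (W : ℕ) (m : Mem) (s t : Term) (e : ℕ → ℤ) : eval W m (Term.le s t) e =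
    iv (eval W m s e ≤ eval W m t e) := by
  simp only [Term.le, Term.nt, eval, iv]
  split_ifs <;> omega

lemma eval_ite_pos {W : ℕ} {m : Mem} {c s t : Term} {e : ℕ → ℤ} (hc : eval W m c e = 1) :
    eval W m (Term.ite c s t) e = eval W m s e := by
  simp only [Term.ite, Term.nt, eval, hc]; ring

lemma eval_ite_neg {W : ℕ} {m : Mem} {c s t : Term} {e : ℕ → ℤ} (hc : eval W m c e = 0) :
    eval W m (Term.ite c s t) e = eval W m t e := by
  simp only [Term.ite, Term.nt, eval, hc]; ring

lemma sum_lt (W n : ℕ) (hn : n ≤ W) (F : ℕ → ℤ) :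
    ∑ x ∈ range W, iv ((x : ℤ) < (n : ℤ)) * F x = ∑ x ∈ range n, F x := by
  have h1 : ∀ x ∈ range W, iv ((x : ℤ) < (n : ℤ)) * F x =
      if x ∈ range n then F x else 0 := by
    intro x _
    by_cases h : x < n
    · rw [iv_pos (by exact_mod_cast h), if_pos (Finset.mem_range.mpr h)]; ring
    · rw [iv_neg (by exact_mod_cast h), if_neg (by simpa using h)]; ring
  rw [Finset.sum_congr rfl h1, Finset.sum_ite_mem,
    Finset.inter_eq_right.mpr (Finset.range_mono hn)]

lemma eval_sumTo (W : ℕ) (m : Mem) (v : ℕ) (n t : Term) (e : ℕ → ℤ) (N : ℕ) (hN : N ≤ W)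
    (hn : ∀ x : ℤ, eval W m n (Function.update e v x) = N) :
    eval W m (Term.sumTo v n t) e = ∑ x ∈ range N, eval W m t (Function.update e v (x : ℤ)) := by
  have h1 : eval W m (Term.sumTo v n t) e = ∑ x ∈ range W,
      eval W m (.lt (.var v) n) (Function.update e v (x : ℤ)) *
        eval W m t (Function.update e v (x : ℤ)) := by
    simp only [Term.sumTo, eval]
  rw [h1]
  have h2 : ∀ x ∈ range W, eval W m (.lt (.var v) n) (Function.update e v (x : ℤ)) *
        eval W m t (Function.update e v (x : ℤ)) = iv ((x : ℤ) < (N : ℤ)) *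
        eval W m t (Function.update e v (x : ℤ)) := by
    intro x _
    rw [eval_lt, hn]
    have : eval W m (.var v) (Function.update e v (x : ℤ)) = x := by
      simp only [eval, Function.update_self]
    rw [this]
  rw [Finset.sum_congr rfl h2]
  exact sum_lt W N hN _

lemma store_of_lt {W : ℕ} {z : ℤ} (h : |z| < (W : ℤ)) : store W z = z := if_pos h

lemma store_nat {W n : ℕ} (h : n < W) : store W (n : ℤ) = n := by
  apply store_of_lt
  rw [abs_of_nonneg (by positivity)]
  exact_mod_cast h

end Pool.Agent.Helper91.SM
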