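import Pool.Agent.Helper91.SM.Gadget4

/-!
The harmonic evolution as a product of stochastic matrices; products by doubling with rounding.
-/

namespace Pool.Agent.Helper91.SM.Gadget

open Finset

/-- product of matrices with index set `[0, V)` -/
def mm (V : ℕ) (A B : ℕ → ℕ → ℝ) (x z : ℕ) : ℝ := ∑ y ∈ range V, A x y * B y z

lemma mm_assoc (V : ℕ) (A B C : ℕ → ℕ → ℝ) (x z : ℕ) :
    mm V (mm V A B) C x z = mm V A (mm V B C) x z := by
  unfold mm
  simp only [Finset.sum_mul, Finset.mul_sum]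
  rw [Finset.sum_comm]
  refine Finset.sum_congr rfl fun y _ => Finset.sum_congr rfl fun y' _ => by ring

/-- identity -/
def idm' (x z : ℕ) : ℝ := if x = z then 1 else 0

lemma mm_id_right (V : ℕ) (A : ℕ → ℕ → ℝ) {x z : ℕ} (hz : z < V) : mm V A idm' x z = A x z := by
  unfold mm idm'
  simp [Finset.sum_ite_eq', hz]

/-- one step matrix -/
def TM (u v : ℕ → ℕ) (a : ℕ → ℝ) (g x z : ℕ) : ℝ :=
  if x = gm v g then (if z = gm v g then 1 - a g else if z = gw u g then a g else 0)
  else if x = gw u g then (if z = gm v g then a g else if z = gw u g then 1 - a g else 0)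
  else if x = z then 1 else 0

lemma sum_two {V a b : ℕ} (ha : a < V) (hb : b < V) (hab : a ≠ b) (p q : ℝ) (F : ℕ → ℝ) :
    ∑ z ∈ range V, (if z = a then p else if z = b then q else 0) * F z = p * F a + q * F b := by
  have h1 : ∀ z ∈ range V, (if z = a then p else if z = b then q else 0) * F z =
      (if z = a then p * F a else 0) + (if z = b then q * F b else 0) := by
    intro z _
    by_cases h : z = a
    · subst h; simp [hab]
    · by_cases h' : z = b
      · subst h'; simp [h]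
      · simp [h, h']
  rw [Finset.sum_congr rfl h1, Finset.sum_add_distrib, Finset.sum_ite_eq', Finset.sum_ite_eq',
    if_pos (Finset.mem_range.mpr ha), if_pos (Finset.mem_range.mpr hb)]

lemma TM_apply {u v : ℕ → ℕ} {a : ℕ → ℝ} {g x V : ℕ} (hm : gm v g < V) (hw : gw u g < V)
    (hx : x < V) (F : ℕ → ℝ) : ∑ z ∈ range V, TM u v a g x z * F z =
      F x + (-(a g) * (F (gm v g) - F (gw u g))) *
        ((if x = gm v g then 1 else 0) - (if x = gw u g then 1 else 0)) := by
  have hne := gm_ne_gw u v g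
  unfold TM
  by_cases h1 : x = gm v g
  · subst h1
    simp only [if_true, if_neg hne]
    rw [sum_two hm hw hne]; ring
  · by_cases h2 : x = gw u g
    · subst h2
      simp only [if_true, if_neg h1]
      rw [sum_two hm hw hne]; ring
    · simp only [if_neg h1, if_neg h2]
      simp [hx]

lemma TM_row {u v : ℕ → ℕ} {a : ℕ → ℝ} {g x V : ℕ} (hm : gm v g < V) (hw : gw u g < V)
    (hx : x < V) : ∑ z ∈ range V, TM u v a g x z = 1 := by
  have := TM_apply (a := a) hm hw hx (fun _ => 1)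
  simpa using this

lemma TM_nonneg {u v : ℕ → ℕ} {a : ℕ → ℝ} {g : ℕ} (h : 0 ≤ a g ∧ a g ≤ 1) (x z : ℕ) :
    0 ≤ TM u v a g x z := by
  unfold TM
  split_ifs <;> linarith [h.1, h.2]

lemma HN_succ_TM {u v : ℕ → ℕ} {a : ℕ → ℝ} {g x V : ℕ} (hm : gm v g < V) (hw : gw u g < V)
    (hx : x < V) : HN u v a (g + 1) x = ∑ z ∈ range V, TM u v a g x z * HN u v a g z := by
  rw [TM_apply hm hw hx]
  rfl

/-- window products: `WP g n = T_g T_{g-1} ... T_{g-n+1}` -/
def WP (V : ℕ) (u v : ℕ → ℕ) (a : ℕ → ℝ) (g : ℕ) : ℕ → ℕ → ℕ → ℝ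
  | 0 => idm'
  | n + 1 => mm V (WP V u v a g n) (TM u v a (g - n))

lemma WP_one {V : ℕ} {u v : ℕ → ℕ} {a : ℕ → ℝ} {g x z : ℕ} (hx : x < V) :
    WP V u v a g 1 x z = TM u v a g x z := by
  simp only [WP, Nat.sub_zero, mm, idm']
  simp [hx]

lemma mm_congr {V : ℕ} {A A' B B' : ℕ → ℕ → ℝ} {x z : ℕ} (hA : ∀ y < V, A x y = A' x y)
    (hB : ∀ y < V, B y z = B' y z) : mm V A B x z = mm V A' B' x z := by
  unfold mm
  refine Finset.sum_congr rfl fun y hy => ?_
  rw [hA y (Finset.mem_range.mp hy), hB y (Finset.mem_range.mp hy)]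

lemma WP_add {V : ℕ} {u v : ℕ → ℕ} {a : ℕ → ℝ} (g n : ℕ) (k : ℕ) : ∀ x < V, ∀ z < V,
    WP V u v a g (n + k) x z = mm V (WP V u v a g n) (WP V u v a (g - n) k) x z := by
  induction k with
  | zero =>
    intro x hx z hz
    rw [Nat.add_zero]
    exact (mm_id_right V _ hz).symm
  | succ k ih =>
    intro x hx z hz
    show mm V (WP V u v a g (n + k)) (TM u v a (g - (n + k))) x z = _
    have e : mm V (WP V u v a g n) (WP V u v a (g - n) (k + 1)) x z =
        mm V (mm V (WP V u v a g n) (WP V u v a (g - n) k)) (TM u v a (g - n - k)) x z := by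
      rw [mm_assoc]; rfl
    rw [e, Nat.sub_sub]
    exact mm_congr (fun y hy => ih x hx y hy) (fun _ _ => rfl)

lemma WP_row {V G : ℕ} {u v : ℕ → ℕ} {a : ℕ → ℝ} (hV : V = 6 * G) {g : ℕ} (hg : g < 5 * G)
    (n : ℕ) : ∀ x < V, ∑ z ∈ range V, WP V u v a g n x z = 1 := by
  induction n with
  | zero => intro x hx; simp [WP, idm', hx]
  | succ n ih =>
    intro x hx
    simp only [WP, mm]
    rw [Finset.sum_comm]
    have : ∀ y ∈ range V, ∑ z ∈ range V, WP V u v a g n x y * TM u v a (g - n) y z =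
        WP V u v a g n x y := by
      intro y hy
      rw [← Finset.mul_sum, TM_row _ _ (Finset.mem_range.mp hy), mul_one]
      · rw [hV]; exact gm_lt (by omega)
      · rw [hV]; exact gw_lt (by omega)
    rw [Finset.sum_congr rfl this]
    exact ih x hx

lemma WP_nonneg {V : ℕ} {u v : ℕ → ℕ} {a : ℕ → ℝ} {g : ℕ} (ha : ∀ i ≤ g, 0 ≤ a i ∧ a i ≤ 1)
    (n : ℕ) : ∀ x z, 0 ≤ WP V u v a g n x z := by
  induction n with
  | zero => intro x z; simp only [WP, idm']; split_ifs <;> norm_num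
  | succ n ih =>
    intro x z
    simp only [WP, mm]
    exact Finset.sum_nonneg fun y _ => mul_nonneg (ih x y) (TM_nonneg (ha _ (by omega)) _ _)

lemma HN_WP {V G : ℕ} {u v : ℕ → ℕ} {a : ℕ → ℝ} (hV : V = 6 * G) {g : ℕ} (hg : g < 5 * G)
    (n : ℕ) (hn : n ≤ g + 1) : ∀ x < V, HN u v a (g + 1) x =
      ∑ z ∈ range V, WP V u v a g n x z * HN u v a (g + 1 - n) z := by
  induction n with
  | zero => intro x hx; simp [WP, idm', hx]
  | succ n ih =>
    intro x hx
    rw [ih (by omega) x hx]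
    simp only [WP, mm, Finset.sum_mul]
    rw [Finset.sum_comm]
    refine Finset.sum_congr rfl fun y hy => ?_
    have e : g + 1 - n = (g - n) + 1 := by omega
    rw [e, HN_succ_TM (V := V) (by rw [hV]; exact gm_lt (by omega))
      (by rw [hV]; exact gw_lt (by omega)) (Finset.mem_range.mp hy), Finset.mul_sum]
    refine Finset.sum_congr rfl fun z _ => ?_
    have e2 : g + 1 - (n + 1) = g - n := by omega
    rw [e2]; ring

/-- doubling with rounding -/
theorem doubling {V G : ℕ} {u v : ℕ → ℕ} {a : ℕ → ℝ} (hV : V = 6 * G) {Q : ℤ} (hQ : 0 < Q)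
    {E : ℕ → ℕ → ℕ → ℕ → ℤ} (ha : ∀ g < 5 * G, 0 ≤ a g ∧ a g ≤ 1)
    (hE0 : ∀ g < 5 * G, ∀ x < V, ∀ z < V, (E 0 g x z : ℝ) = Q * TM u v a g x z)
    (hEs : ∀ i, ∀ g < 5 * G, ∀ x < V, ∀ z < V, E (i + 1) g x z =
      if 2 ^ i ≤ g then (∑ y ∈ range V, E i g x y * E i (g - 2 ^ i) y z) / Q else E i g x z) :
    ∀ i, ∀ g < 5 * G, (∀ x < V, ∀ z < V, 0 ≤ E i g x z ∧
      (E i g x z : ℝ) ≤ Q * WP V u v a g (min (2 ^ i) (g + 1)) x z) ∧
      (∀ x < V, (Q : ℝ) - (2 ^ i - 1) * V ≤ ∑ z ∈ range V, (E i g x z : ℝ)) := by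
  have hQR : (0 : ℝ) < Q := by exact_mod_cast hQ
  intro i
  induction i with
  | zero =>
    intro g hg
    have e1 : min (2 ^ 0) (g + 1) = 1 := by simp
    refine ⟨?_, ?_⟩
    · intro x hx z hz
      have h1 := hE0 g hg x hx z hz
      have h2 := TM_nonneg (u := u) (v := v) (ha g hg) x z
      constructor
      · have : (0:ℝ) ≤ (E 0 g x z : ℝ) := by rw [h1]; positivity
        exact_mod_cast this
      · rw [h1, e1, WP_one hx]
    · intro x hx
      have : ∑ z ∈ range V, (E 0 g x z : ℝ) = ∑ z ∈ range V, Q * TM u v a g x z :=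
        Finset.sum_congr rfl fun z hz => hE0 g hg x hx z (Finset.mem_range.mp hz)
      rw [this, ← Finset.mul_sum, TM_row (by rw [hV]; exact gm_lt hg) (by rw [hV]; exact gw_lt hg) hx]
      simp
  | succ i ih =>
    intro g hg
    by_cases hgi : 2 ^ i ≤ g
    · have hg2 : g - 2 ^ i < 5 * G := lt_of_le_of_lt (Nat.sub_le _ _) hg
      obtain ⟨a1, a2⟩ := ih g hg
      obtain ⟨b1, b2⟩ := ih (g - 2 ^ i) hg2
      have hmin1 : min (2 ^ i) (g + 1) = 2 ^ i := by omega
      have hmin2 : min (2 ^ (i + 1)) (g + 1) = 2 ^ i + min (2 ^ i) (g - 2 ^ i + 1) := by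
        rw [pow_succ]; omega
      have hrec : ∀ x < V, ∀ z < V, E (i + 1) g x z =
          (∑ y ∈ range V, E i g x y * E i (g - 2 ^ i) y z) / Q := by
        intro x hx z hz
        rw [hEs i g hg x hx z hz, if_pos hgi]
      have hfl : ∀ x < V, ∀ z < V,
          (E (i + 1) g x z : ℝ) ≤ (∑ y ∈ range V, (E i g x y : ℝ) * E i (g - 2 ^ i) y z) / Q ∧
          (∑ y ∈ range V, (E i g x y : ℝ) * E i (g - 2 ^ i) y z) / Q - 1 ≤ E (i + 1) g x z := by
        intro x hx z hz
        rw [hrec x hx z hz]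
        set s := ∑ y ∈ range V, E i g x y * E i (g - 2 ^ i) y z with hs
        have hc : (∑ y ∈ range V, (E i g x y : ℝ) * E i (g - 2 ^ i) y z) = (s : ℝ) := by
          rw [hs]; push_cast; rfl
        rw [hc]
        constructor
        · rw [le_div_iff₀ hQR]
          exact_mod_cast Int.ediv_mul_le s hQ.ne'
        · rw [sub_le_iff_le_add, div_le_iff₀ hQR]
          have := Int.lt_ediv_add_one_mul_self s hQ
          exact_mod_cast this.le
      refine ⟨?_, ?_⟩
      · intro x hx z hz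
        constructor
        · rw [hrec x hx z hz]
          apply Int.ediv_nonneg _ hQ.le
          exact Finset.sum_nonneg fun y hy =>
            mul_nonneg (a1 x hx y (Finset.mem_range.mp hy)).1 (b1 y (Finset.mem_range.mp hy) z hz).1
        · refine (hfl x hx z hz).1.trans ?_
          rw [div_le_iff₀ hQR, hmin2, WP_add g (2 ^ i) _ x hx z hz, mm, Finset.mul_sum,
            Finset.sum_mul]
          refine Finset.sum_le_sum fun y hy => ?_
          have hy' := Finset.mem_range.mp hy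
          have c1 := (a1 x hx y hy').2
          have c2 := (b1 y hy' z hz).2
          have c3 : (0:ℝ) ≤ E i g x y := by exact_mod_cast (a1 x hx y hy').1
          have c4 : (0:ℝ) ≤ E i (g - 2 ^ i) y z := by exact_mod_cast (b1 y hy' z hz).1
          rw [hmin1] at c1
          calc (E i g x y : ℝ) * E i (g - 2 ^ i) y z
              ≤ (Q * WP V u v a g (2 ^ i) x y) *
                (Q * WP V u v a (g - 2 ^ i) (min (2 ^ i) (g - 2 ^ i + 1)) y z) :=
                mul_le_mul c1 c2 c4 (c3.trans c1)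
            _ = Q * (WP V u v a g (2 ^ i) x y *
                WP V u v a (g - 2 ^ i) (min (2 ^ i) (g - 2 ^ i + 1)) y z) * Q := by ring
      · intro x hx
        have h1 : ∑ z ∈ range V, ((∑ y ∈ range V, (E i g x y : ℝ) * E i (g - 2 ^ i) y z) / Q - 1) ≤
            ∑ z ∈ range V, (E (i + 1) g x z : ℝ) :=
          Finset.sum_le_sum fun z hz => (hfl x hx z (Finset.mem_range.mp hz)).2
        refine le_trans ?_ h1
        rw [Finset.sum_sub_distrib, Finset.sum_const, Finset.card_range, nsmul_eq_mul, mul_one,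
          ← Finset.sum_div, Finset.sum_comm]
        have h2 : ∑ y ∈ range V, (E i g x y : ℝ) * ((Q : ℝ) - (2 ^ i - 1) * V) ≤
            ∑ y ∈ range V, ∑ z ∈ range V, (E i g x y : ℝ) * E i (g - 2 ^ i) y z := by
          refine Finset.sum_le_sum fun y hy => ?_
          rw [← Finset.mul_sum]
          have c3 : (0:ℝ) ≤ E i g x y := by
            exact_mod_cast (a1 x hx y (Finset.mem_range.mp hy)).1
          exact mul_le_mul_of_nonneg_left (b2 y (Finset.mem_range.mp hy)) c3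
        rw [← Finset.sum_mul] at h2
        -- row sum of E i g x is between Q - d and Q
        have h3 : ∑ y ∈ range V, (E i g x y : ℝ) ≤ Q := by
          have : ∑ y ∈ range V, (E i g x y : ℝ) ≤
              ∑ y ∈ range V, Q * WP V u v a g (min (2 ^ i) (g + 1)) x y :=
            Finset.sum_le_sum fun y hy => (a1 x hx y (Finset.mem_range.mp hy)).2
          rw [← Finset.mul_sum, WP_row hV hg _ x hx, mul_one] at this
          exact this
        have h4 := a2 x hx
        set R := ∑ y ∈ range V, (E i g x y : ℝ) with hR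
        have hd : (0:ℝ) ≤ (2 ^ i - 1) * V := by
          have : (1:ℝ) ≤ 2 ^ i := one_le_pow₀ (by norm_num)
          have : (0:ℝ) ≤ 2 ^ i - 1 := by linarith
          positivity
        have hR0 : 0 ≤ R := Finset.sum_nonneg fun y hy => by
          exact_mod_cast (a1 x hx y (Finset.mem_range.mp hy)).1
        have h5 : (Q : ℝ) - 2 * ((2 ^ i - 1) * V) ≤ R * ((Q : ℝ) - (2 ^ i - 1) * V) / Q := by
          rw [le_div_iff₀ hQR]
          nlinarith
        have h6 : R * ((Q : ℝ) - (2 ^ i - 1) * V) / Q ≤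
            (∑ y ∈ range V, ∑ z ∈ range V, (E i g x y : ℝ) * E i (g - 2 ^ i) y z) / Q := by
          gcongr
        have h7 : (Q : ℝ) - (2 ^ (i + 1) - 1) * V = (Q : ℝ) - 2 * ((2 ^ i - 1) * V) - V := by
          rw [pow_succ]; ring
        rw [h7]
        linarith
    · have hmin : min (2 ^ (i + 1)) (g + 1) = min (2 ^ i) (g + 1) := by
        rw [pow_succ]; omega
      obtain ⟨a1, a2⟩ := ih g hg
      have hrec : ∀ x < V, ∀ z < V, E (i + 1) g x z = E i g x z := by
        intro x hx z hz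
        rw [hEs i g hg x hx z hz, if_neg hgi]
      refine ⟨?_, ?_⟩
      · intro x hx z hz
        rw [hrec x hx z hz, hmin]
        exact a1 x hx z hz
      · intro x hx
        have : ∑ z ∈ range V, (E (i + 1) g x z : ℝ) = ∑ z ∈ range V, (E i g x z : ℝ) :=
          Finset.sum_congr rfl fun z hz => by rw [hrec x hx z (Finset.mem_range.mp hz)]
        rw [this]
        refine le_trans ?_ (a2 x hx)
        have h1 : (1:ℝ) ≤ 2 ^ i := one_le_pow₀ (by norm_num)
        have h2 : (2:ℝ) ^ (i + 1) = 2 * 2 ^ i := by rw [pow_succ]; ring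
        rw [h2]
        have : (0:ℝ) ≤ V := by positivity
        nlinarith

/-- the computed harmonic evolution is close to the exact one -/
theorem HN_approx {V G : ℕ} {u v : ℕ → ℕ} {a : ℕ → ℝ} (hV : V = 6 * G) {Q : ℤ} (hQ : 0 < Q)
    {E : ℕ → ℕ → ℕ → ℕ → ℤ} (ha : ∀ g < 5 * G, 0 ≤ a g ∧ a g ≤ 1)
    (hE0 : ∀ g < 5 * G, ∀ x < V, ∀ z < V, (E 0 g x z : ℝ) = Q * TM u v a g x z)
    (hEs : ∀ i, ∀ g < 5 * G, ∀ x < V, ∀ z < V, E (i + 1) g x z =
      if 2 ^ i ≤ g then (∑ y ∈ range V, E i g x y * E i (g - 2 ^ i) y z) / Q else E i g x z)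
    {I g x : ℕ} (hg : g < 5 * G) (hI : g + 1 ≤ 2 ^ I) (hx : x < V) :
    |(∑ z ∈ range V, (E I g x z : ℝ) * (if s0 z then 1 else 0)) / Q - HN u v a (g + 1) x| ≤
      2 ^ I * V / Q ∧
    0 ≤ ∑ z ∈ range V, (E I g x z : ℝ) * (if s0 z then 1 else 0) ∧
    ∑ z ∈ range V, (E I g x z : ℝ) * (if s0 z then 1 else 0) ≤ Q := by
  have hQR : (0 : ℝ) < Q := by exact_mod_cast hQ
  obtain ⟨h1, h2⟩ := doubling hV hQ ha hE0 hEs I g hg
  have hmin : min (2 ^ I) (g + 1) = g + 1 := by omega
  rw [hmin] at h1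
  have hH := HN_WP (a := a) (u := u) (v := v) hV hg (g + 1) le_rfl x hx
  rw [Nat.sub_self] at hH
  have hH' : HN u v a (g + 1) x =
      ∑ z ∈ range V, WP V u v a g (g + 1) x z * (if s0 z then 1 else 0) := hH
  have hrow := WP_row (a := a) (u := u) (v := v) hV hg (g + 1) x hx
  have hs : ∀ z, (0:ℝ) ≤ (if s0 z then 1 else 0) ∧ (if s0 z then (1:ℝ) else 0) ≤ 1 := by
    intro z; split_ifs <;> norm_num
  -- difference
  have hdiff : ∑ z ∈ range V, ((Q : ℝ) * WP V u v a g (g + 1) x z - E I g x z) ≤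
      2 ^ I * V := by
    rw [Finset.sum_sub_distrib, ← Finset.mul_sum, hrow, mul_one]
    have := h2 x hx
    have h0 : (0:ℝ) ≤ V := by positivity
    have : ((2:ℝ) ^ I - 1) * V ≤ 2 ^ I * V := by nlinarith
    linarith
  have hnn : ∀ z ∈ range V, 0 ≤ (Q : ℝ) * WP V u v a g (g + 1) x z - E I g x z := by
    intro z hz
    linarith [(h1 x hx z (Finset.mem_range.mp hz)).2]
  have e1 : Q * HN u v a (g + 1) x - ∑ z ∈ range V, (E I g x z : ℝ) * (if s0 z then 1 else 0) =
      ∑ z ∈ range V, ((Q : ℝ) * WP V u v a g (g + 1) x z - E I g x z) *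
        (if s0 z then 1 else 0) := by
    rw [hH', Finset.mul_sum, ← Finset.sum_sub_distrib]
    refine Finset.sum_congr rfl fun z _ => by ring
  have e2 : 0 ≤ ∑ z ∈ range V, ((Q : ℝ) * WP V u v a g (g + 1) x z - E I g x z) *
        (if s0 z then 1 else 0) :=
    Finset.sum_nonneg fun z hz => mul_nonneg (hnn z hz) (hs z).1
  have e3 : ∑ z ∈ range V, ((Q : ℝ) * WP V u v a g (g + 1) x z - E I g x z) *
        (if s0 z then 1 else 0) ≤ 2 ^ I * V := by
    refine le_trans (Finset.sum_le_sum fun z hz => ?_) hdiff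
    have := mul_le_mul_of_nonneg_left (hs z).2 (hnn z hz)
    linarith
  set S := ∑ z ∈ range V, (E I g x z : ℝ) * (if s0 z then 1 else 0) with hS
  refine ⟨?_, ?_, ?_⟩
  · have : S / Q - HN u v a (g + 1) x = -(Q * HN u v a (g + 1) x - S) / Q := by
      field_simp; ring
    rw [this, abs_div, abs_of_pos hQR]
    gcongr
    rw [abs_neg, e1, abs_of_nonneg e2]
    exact e3
  · exact Finset.sum_nonneg fun z hz => mul_nonneg
      (by exact_mod_cast (h1 x hx z (Finset.mem_range.mp hz)).1) (hs z).1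
  · have : S ≤ ∑ z ∈ range V, (Q : ℝ) * WP V u v a g (g + 1) x z := by
      refine Finset.sum_le_sum fun z hz => ?_
      have c1 := (h1 x hx z (Finset.mem_range.mp hz)).2
      have c2 : (0:ℝ) ≤ E I g x z := by exact_mod_cast (h1 x hx z (Finset.mem_range.mp hz)).1
      have := mul_le_mul_of_nonneg_left (hs z).2 c2
      linarith
    rw [← Finset.mul_sum, hrow, mul_one] at this
    exact this

/-- stability of the harmonic evolution in natural labels -/
lemma HN_perturb {G : ℕ} {u v : ℕ → ℕ} {a b : ℕ → ℝ} (hG : 0 < G)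
    (ha : ∀ g < 5 * G, 0 ≤ a g ∧ a g ≤ 1) (hb : ∀ g < 5 * G, 0 ≤ b g ∧ b g ≤ 1) {e : ℝ}
    (he : ∀ g < 5 * G, |a g - b g| ≤ e) : ∀ t ≤ 5 * G, ∀ x < 6 * G,
    |HN u v a t x - HN u v b t x| ≤ t * e := by
  intro t ht x hx
  have hP : 0 < 6 * G := by omega
  have h := Net.Hs_perturb (m := mF (P := 6 * G) v hP) (w := wF (P := 6 * G) u hP) (S0 := S0F)
    (al := a) (be := b) (n := 5 * G) (fun g hg => mF_ne_wF u v hP rfl hg) ha hb
    (by intro x; unfold S0F; split_ifs <;> norm_num) t ht ⟨x, hx⟩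
  rw [Hs_HN u v hP rfl a t ht, Hs_HN u v hP rfl b t ht] at h
  refine h.trans ?_
  calc ∑ i ∈ range t, |a i - b i| ≤ ∑ _i ∈ range t, e :=
        Finset.sum_le_sum fun i hi => he i (lt_of_lt_of_le (Finset.mem_range.mp hi) ht)
    _ = t * e := by simp

lemma HN_mem {G : ℕ} {u v : ℕ → ℕ} {a : ℕ → ℝ} (hG : 0 < G)
    (ha : ∀ g < 5 * G, 0 ≤ a g ∧ a g ≤ 1) : ∀ t ≤ 5 * G, ∀ x < 6 * G,
    0 ≤ HN u v a t x ∧ HN u v a t x ≤ 1 := by
  intro t ht x hx
  have hP : 0 < 6 * G := by omega
  have h := Net.Hs_mem (m := mF (P := 6 * G) v hP) (w := wF (P := 6 * G) u hP) (S0 := S0F)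
    (al := a) (n := 5 * G) (lo := 0) (hi := 1) (fun g hg => mF_ne_wF u v hP rfl hg) ha
    (by intro x; unfold S0F; split_ifs <;> norm_num) t ht ⟨x, hx⟩
  rw [Hs_HN u v hP rfl a t ht] at h
  exact h

end Pool.Agent.Helper91.SM.Gadget
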