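import Pool.Agent.Helper91.SM.Core
import Pool.Agent.Helper91.SM.Mat

/-!
Specification of stage A of the core program.
-/

namespace Pool.Agent.Helper91.SM

open Finset Term

section Ev
variable (W : ℕ) (m : Mem) (e : ℕ → ℤ)

lemma ev_num (n : ℕ) [n.AtLeastTwo] : eval W m (no_index (OfNat.ofNat n : Term)) e = (OfNat.ofNat n : ℤ) := rfl
lemma ev_zero : eval W m (0 : Term) e = 0 := rfl
lemma ev_one : eval W m (1 : Term) e = 1 := rfl
lemma ev_add (s t : Term) : eval W m (s + t) e = eval W m s e + eval W m t e := rfl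
lemma ev_sub (s t : Term) : eval W m (s - t) e = eval W m s e - eval W m t e := rfl
lemma ev_mul (s t : Term) : eval W m (s * t) e = eval W m s e * eval W m t e := rfl
lemma ev_div (s t : Term) : eval W m (s / t) e = eval W m s e / eval W m t e := rfl
lemma ev_var (v : ℕ) : eval W m (.var v) e = e v := rfl
lemma ev_get (r : ℕ) (i j k : Term) : eval W m (.get r i j k) e =
  m r (eval W m i e).toNat (eval W m j e).toNat (eval W m k e).toNat := rfl
lemma ev_g0 (r : ℕ) : eval W m (g0 r) e = m r 0 0 0 := rfl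
lemma ev_g1 (r : ℕ) (i : Term) : eval W m (g1 r i) e = m r (eval W m i e).toNat 0 0 := rfl
lemma ev_g2 (r : ℕ) (i j : Term) : eval W m (g2 r i j) e =
  m r (eval W m i e).toNat (eval W m j e).toNat 0 := rfl
lemma ev_sum (v : ℕ) (t : Term) : eval W m (.sum v t) e =
  ∑ x ∈ range W, eval W m t (Function.update e v (x : ℤ)) := rfl
end Ev

lemma env0 (i j k : ℕ) : env i j k 0 = i := rfl
lemma env1 (i j k : ℕ) : env i j k 1 = j := rfl
lemma env2 (i j k : ℕ) : env i j k 2 = k := rfl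

lemma exec_assign (W r : ℕ) (t : Term) (m : Mem) {i j k : ℕ} (hi : i < W) (hj : j < W)
    (hk : k < W) : exec W (.assign r t) m r i j k = store W (eval W m t (env i j k)) := by
  simp only [exec, Function.update_self]
  rw [if_pos ⟨hi, hj, hk⟩]

lemma store_iv {W : ℕ} (hW : 1 < W) (p : Prop) : store W (iv p) = iv p := by
  apply store_of_lt
  rw [abs_of_nonneg (iv_nonneg p)]
  have := iv_le_one p
  omega

lemma steps_assign (W r : ℕ) (t : Term) (m : Mem) : steps W (.assign r t) m = 1 := rfl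

lemma sum_iv_eq_zero (n : ℕ) (p : ℕ → Prop) :
    (∑ x ∈ range n, iv (p x)) = 0 ↔ ∀ x < n, ¬ p x := by
  rw [Finset.sum_eq_zero_iff_of_nonneg (fun x _ => iv_nonneg _)]
  constructor
  · intro h x hx
    exact iv_eq_zero.mp (h x (Finset.mem_range.mpr hx))
  · intro h x hx
    exact iv_neg (h x (Finset.mem_range.mp hx))

lemma sum_iv_pick (n : ℕ) (p : ℕ → Prop) (F : ℕ → ℤ) {x0 : ℕ} (h0 : x0 < n)
    (hp : ∀ x < n, p x ↔ x = x0) : ∑ x ∈ range n, F x * iv (p x) = F x0 := by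
  rw [Finset.sum_eq_single x0]
  · rw [iv_pos ((hp x0 h0).mpr rfl), mul_one]
  · intro b hb hne
    rw [iv_neg (fun h => hne ((hp b (Finset.mem_range.mp hb)).mp h)), mul_zero]
  · intro h; exact absurd (Finset.mem_range.mpr h0) h

namespace Core

open Gadget

def lg (G : ℕ) : ℕ := Nat.clog 2 (G + 2)
def LL (G : ℕ) : ℕ := (lg G + 2) / 3
def DD (G : ℕ) : ℕ := 256 * LL G * 2 ^ LL G
def QQ0 (G : ℕ) : ℕ := 2 ^ 30 * (G + 2) ^ 5
def QQ (G : ℕ) : ℕ := 2 * DD G * 2 ^ LL G * QQ0 G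

/-- the word bound is large -/
def Big (G W : ℕ) : Prop := 2 ^ 50 * (G + 2) ^ 7 ≤ W

lemma big_of {G W : ℕ} (h : Big G W) {c n : ℕ} (hc : c ≤ 2 ^ 50) (hn : n ≤ 7) :
    c * (G + 2) ^ n ≤ W := by
  refine le_trans ?_ h
  exact Nat.mul_le_mul hc (Nat.pow_le_pow_right (by omega) hn)

lemma two_pow_lg (G : ℕ) : G + 2 ≤ 2 ^ lg G ∧ 2 ^ lg G < 2 * (G + 2) := by
  refine ⟨Nat.le_pow_clog (by norm_num) _, ?_⟩
  have h1 := Nat.pow_pred_clog_lt_self (b := 2) (by norm_num) (x := G + 2) (by omega)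
  have h2 : 0 < lg G := Nat.clog_pos (by norm_num) (by omega)
  unfold lg at *
  have h3 : Nat.clog 2 (G + 2) = Nat.pred (Nat.clog 2 (G + 2)) + 1 := by
    rw [Nat.pred_eq_sub_one]; omega
  rw [h3, pow_succ]
  omega

lemma lg_pos (G : ℕ) : 1 ≤ lg G := Nat.clog_pos (by norm_num) (by omega)

lemma LL_pos (G : ℕ) : 1 ≤ LL G := by
  have := lg_pos G
  unfold LL; omega

lemma LL_le (G : ℕ) : LL G ≤ lg G := by
  have := lg_pos G
  unfold LL; omega

lemma cube_LL (G : ℕ) : G + 2 ≤ (2 ^ LL G) ^ 3 ∧ (2 ^ LL G) ^ 3 ≤ 8 * (G + 2) := by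
  have h := two_pow_lg G
  rw [← pow_mul]
  have h1 : lg G ≤ LL G * 3 := by unfold LL; omega
  have h2 : LL G * 3 ≤ lg G + 2 := by unfold LL; omega
  constructor
  · exact h.1.trans (Nat.pow_le_pow_right (by norm_num) h1)
  · refine (Nat.pow_le_pow_right (by norm_num) h2).trans ?_
    rw [pow_add]; omega

lemma DD_le (G : ℕ) : DD G ≤ 256 * (2 ^ LL G) ^ 2 := by
  unfold DD
  have : LL G ≤ 2 ^ LL G := Nat.lt_two_pow_self.le
  nlinarith [Nat.two_pow_pos (LL G)]

lemma two_le_pow (G : ℕ) : 2 ≤ 2 ^ LL G := by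
  have := LL_pos G
  calc 2 = 2 ^ 1 := rfl
    _ ≤ 2 ^ LL G := Nat.pow_le_pow_right (by norm_num) this

lemma DD_pos (G : ℕ) : 512 ≤ DD G := by
  unfold DD
  have := LL_pos G
  have := two_le_pow G
  nlinarith

lemma QQ_le (G : ℕ) : QQ G ≤ 2 ^ 42 * (G + 2) ^ 6 := by
  unfold QQ QQ0
  have h1 := DD_le G
  have h2 := (cube_LL G).2
  have h3 : 2 * DD G * 2 ^ LL G ≤ 2 ^ 12 * (G + 2) := by
    calc 2 * DD G * 2 ^ LL G ≤ 2 * (256 * (2 ^ LL G) ^ 2) * 2 ^ LL G := by gcongr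
      _ = 512 * (2 ^ LL G) ^ 3 := by ring
      _ ≤ 512 * (8 * (G + 2)) := by gcongr
      _ = 2 ^ 12 * (G + 2) := by norm_num; ring
  calc 2 * DD G * 2 ^ LL G * (2 ^ 30 * (G + 2) ^ 5)
      ≤ (2 ^ 12 * (G + 2)) * (2 ^ 30 * (G + 2) ^ 5) := by gcongr
    _ = 2 ^ 42 * (G + 2) ^ 6 := by ring

lemma QQ_ge (G : ℕ) : 2048 * QQ0 G ≤ QQ G := by
  unfold QQ
  have h1 := DD_pos G
  have h2 := two_le_pow G
  have : 2048 ≤ 2 * DD G * 2 ^ LL G := by nlinarith
  exact Nat.mul_le_mul_right _ this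

/-- set-up data in memory -/
structure SA (G : ℕ) (u' v' : ℕ → ℕ) (m : Mem) : Prop where
  g : m 10 0 0 0 = G
  u : ∀ k < G, m 11 k 0 0 = u' k
  v : ∀ k < G, m 12 k 0 0 = v' k
  lg : m 15 0 0 0 = lg G
  p2 : ∀ x < Core.lg G + 5, m 16 x 0 0 = 2 ^ x
  L : m 17 0 0 0 = LL G
  D : m 18 0 0 0 = DD G
  Q0 : m 19 0 0 0 = QQ0 G
  Q : m 20 0 0 0 = QQ G
  gm : ∀ g < 5 * G, m 23 g 0 0 = Gadget.gm v' g
  gw : ∀ g < 5 * G, m 24 g 0 0 = Gadget.gw u' g
  wg : ∀ g < 5 * G, m 25 g 0 0 = Gadget.wg u' v' g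
  s0 : ∀ x < 6 * G, m 26 x 0 0 = if Gadget.s0 x then 1 else 0

lemma SA.congr {G : ℕ} {u v : ℕ → ℕ} {m m' : Mem} (h : SA G u v m)
    (he : ∀ r, 10 ≤ r → r ≤ 26 → m' r = m r) : SA G u v m' where
  g := by rw [he 10 (by norm_num) (by norm_num)]; exact h.g
  u := by rw [he 11 (by norm_num) (by norm_num)]; exact h.u
  v := by rw [he 12 (by norm_num) (by norm_num)]; exact h.v
  lg := by rw [he 15 (by norm_num) (by norm_num)]; exact h.lg
  p2 := by rw [he 16 (by norm_num) (by norm_num)]; exact h.p2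
  L := by rw [he 17 (by norm_num) (by norm_num)]; exact h.L
  D := by rw [he 18 (by norm_num) (by norm_num)]; exact h.D
  Q0 := by rw [he 19 (by norm_num) (by norm_num)]; exact h.Q0
  Q := by rw [he 20 (by norm_num) (by norm_num)]; exact h.Q
  gm := by rw [he 23 (by norm_num) (by norm_num)]; exact h.gm
  gw := by rw [he 24 (by norm_num) (by norm_num)]; exact h.gw
  wg := by rw [he 25 (by norm_num) (by norm_num)]; exact h.wg
  s0 := by rw [he 26 (by norm_num) (by norm_num)]; exact h.s0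

/-! #### powers of two -/

lemma isPow_iff {W i : ℕ} (hi : i < W) :
    (1 ≤ i ∧ ∀ d < W, ¬ (1 < d ∧ d ≤ i ∧ d % 2 = 1 ∧ d ∣ i)) ↔ ∃ e, i = 2 ^ e := by
  constructor
  · rintro ⟨h1, h2⟩
    obtain ⟨e, b, hb, he⟩ := Nat.exists_eq_two_pow_mul_odd (n := i) (by omega)
    refine ⟨e, ?_⟩
    by_contra hne
    have hb1 : b ≠ 1 := by rintro rfl; simp at he; exact hne he
    have hbpos : 0 < b := hb.pos
    have hble : b ≤ i := by
      rw [he]; exact Nat.le_mul_of_pos_left _ (by positivity)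
    exact h2 b (by omega) ⟨by omega, hble, Nat.odd_iff.mp hb, ⟨2 ^ e, by rw [he]; ring⟩⟩
  · rintro ⟨e, rfl⟩
    refine ⟨Nat.one_le_two_pow, ?_⟩
    rintro d _ ⟨h1, _, h3, h4⟩
    rw [Nat.dvd_prime_pow Nat.prime_two] at h4
    obtain ⟨k, _, rfl⟩ := h4
    cases k with
    | zero => simp at h1
    | succ k => rw [pow_succ] at h3; omega

lemma ev_tPow {W : ℕ} (m : Mem) {i j k : ℕ} (hi : i < W) :
    eval W m tPow (env i j k) = iv (∃ e, i = 2 ^ e) := by
  unfold tPow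
  rw [ev_mul, eval_le, eval_eqt, ev_sum]
  simp only [ev_mul, eval_lt, eval_le, eval_eqt, ev_sub, ev_div, ev_one, ev_zero, ev_num, ev_var,
    Function.update_self, Function.update_of_ne (show (0:ℕ) ≠ 3 by decide), env0, iv_mul]
  have h1 : (∑ x ∈ range W, iv ((1:ℤ) < (x:ℤ) ∧ (x:ℤ) ≤ (i:ℤ) ∧
      (x:ℤ) - (x:ℤ) / 2 * 2 = 1 ∧ (i:ℤ) - (i:ℤ) / (x:ℤ) * (x:ℤ) = 0)) = 0 ↔
      ∀ d < W, ¬ (1 < d ∧ d ≤ i ∧ d % 2 = 1 ∧ d ∣ i) := by
    rw [sum_iv_eq_zero]
    refine forall_congr' fun d => forall_congr' fun _ => not_congr ?_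
    have e1 : ((d:ℤ) - (d:ℤ) / 2 * 2 = 1) ↔ d % 2 = 1 := by omega
    have e2 : ((i:ℤ) - (i:ℤ) / (d:ℤ) * (d:ℤ) = 0) ↔ d ∣ i := by
      rw [mul_comm, ← Int.emod_def, ← Int.dvd_iff_emod_eq_zero, Int.natCast_dvd_natCast]
    rw [e1, e2]
    norm_cast
  rw [iv_congr (and_congr_right fun _ => h1)]
  have h2 : ((1:ℤ) ≤ (i:ℤ)) ↔ 1 ≤ i := by norm_cast
  rw [iv_congr (and_congr_left fun _ => h2), iv_congr (isPow_iff hi)]

lemma count_pow (n : ℕ) :
    (∑ x ∈ range n, iv (∃ e, x = 2 ^ e)) = Nat.clog 2 n := by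
  classical
  have h0 : (∑ x ∈ range n, iv (∃ e, x = 2 ^ e)) =
      ∑ x ∈ range n, if (∃ e, x = 2 ^ e) then (1:ℤ) else 0 := by
    refine Finset.sum_congr rfl fun x _ => ?_
    unfold iv; congr
  rw [h0, ← Finset.sum_filter, Finset.sum_const, nsmul_eq_mul, mul_one]
  have : (range n).filter (fun x => ∃ e, x = 2 ^ e) = (range (Nat.clog 2 n)).image (2 ^ ·) := by
    ext x
    simp only [Finset.mem_filter, Finset.mem_range, Finset.mem_image]
    constructor
    · rintro ⟨h1, e, rfl⟩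
      exact ⟨e, (Nat.lt_clog_iff_pow_lt (by norm_num)).mpr h1, rfl⟩
    · rintro ⟨e, h1, rfl⟩
      exact ⟨(Nat.lt_clog_iff_pow_lt (by norm_num)).mp h1, e, rfl⟩
  rw [this, Finset.card_image_of_injective _ (Nat.pow_right_injective le_rfl), Finset.card_range]

/-- specification of the first part -/
theorem stA1_spec {W G : ℕ} (hW : Big G W) {m : Mem} (hg : m 10 0 0 0 = G) :
    ((exec W stA1 m) 15 0 0 0 = lg G ∧ ∀ x < lg G + 5, (exec W stA1 m) 16 x 0 0 = 2 ^ x) ∧
    steps W stA1 m ≤ 2 * lg G + 13 := by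
  classical
  have hW0 : 0 < W := lt_of_lt_of_le (by positivity) hW
  have hlg2 := two_pow_lg G
  have hW1 : G + 2 ≤ W := by simpa using big_of hW (c := 1) (n := 1) (by norm_num) (by norm_num)
  have hW2 : 64 * (G + 2) ≤ W := by
    simpa using big_of hW (c := 64) (n := 1) (by norm_num) (by norm_num)
  set m1 := exec W (.assign 14 tPow) m with hm1
  set m2 := exec W (.assign 15 tLg) m1 with hm2
  have h14 : ∀ i < W, m1 14 i 0 0 = iv (∃ e, i = 2 ^ e) := by
    intro i hi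
    rw [hm1, exec_assign _ _ _ _ hi hW0 hW0, ev_tPow m hi, store_iv (by omega)]
  have h10 : m1 10 0 0 0 = G := by
    rw [hm1, exec_frame _ _ _ _ (by decide)]; exact hg
  have h15 : m2 15 0 0 0 = lg G := by
    rw [hm2, exec_assign _ _ _ _ hW0 hW0 hW0]
    have : eval W m1 tLg (env 0 0 0) = lg G := by
      unfold tLg
      rw [eval_sumTo W m1 3 (g0 10 + 2) _ _ (G + 2) hW1
        (by intro x; rw [ev_add, ev_g0, h10, ev_num]; push_cast; rfl)]
      simp only [ev_g1, ev_var, Function.update_self, Int.toNat_natCast]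
      rw [Finset.sum_congr rfl (fun x hx => h14 x (by
        have := Finset.mem_range.mp hx; omega)), count_pow]
      rfl
    rw [this]
    apply store_nat
    have := Nat.lt_two_pow_self (n := lg G)
    omega
  have hn : (eval W m2 (g0 15 + 5) (env 0 0 0)).toNat = lg G + 5 := by
    rw [ev_add, ev_g0, h15, ev_num]
    norm_cast
  have hloop := loop_inv (W := W) (r := 9) (t := g0 15 + 5) (p := .assign 16 tP2) (m := m2)
    (n := lg G + 5) hn (fun i m' => ∀ x < i, m' 16 x 0 0 = 2 ^ x) 1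
    (by intro x hx; omega)
    (by
      intro i hi m' _ hInv
      refine ⟨?_, by rw [steps_assign]⟩
      intro x hx
      have hxW : x < W := by
        have := Nat.lt_two_pow_self (n := lg G)
        omega
      have hpow : (2:ℤ) ^ x < W := by
        have h1 : 2 ^ x ≤ 2 ^ (lg G + 4) := Nat.pow_le_pow_right (by norm_num) (by omega)
        have h2 : 2 ^ (lg G + 4) = 16 * 2 ^ lg G := by rw [pow_add]; ring
        have h3 : 2 ^ x < W := by omega
        exact_mod_cast h3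
      have hset : setc W 9 i m' 16 = m' 16 := by
        rw [setc, Function.update_of_ne (by decide)]
      rw [exec_assign _ _ _ _ hxW hW0 hW0]
      have hev : eval W (setc W 9 i m') tP2 (env x 0 0) = 2 ^ x := by
        unfold tP2
        by_cases h0 : x = 0
        · rw [eval_ite_pos (by
            rw [eval_eqt, ev_var, env0, ev_zero]; exact iv_pos (by exact_mod_cast h0)), h0]
          rfl
        · rw [eval_ite_neg (by
            rw [eval_eqt, ev_var, env0, ev_zero]; exact iv_neg (by exact_mod_cast h0))]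
          rw [ev_mul, ev_num, ev_g1, ev_sub, ev_var, env0, ev_one, hset]
          have e1 : ((x : ℤ) - 1).toNat = x - 1 := by omega
          rw [e1, hInv (x - 1) (by omega)]
          have e2 : x = (x - 1) + 1 := by omega
          conv_rhs => rw [e2, pow_succ]
          ring
      rw [hev]
      apply store_of_lt
      rw [abs_of_nonneg (by positivity)]
      exact hpow)
  refine ⟨⟨?_, ?_⟩, ?_⟩
  · show (exec W (.loop 9 (g0 15 + 5) (.assign 16 tP2)) m2) 15 0 0 0 = lg G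
    rw [exec_frame _ _ _ _ (by decide)]
    exact h15
  · exact hloop.1
  · have := hloop.2
    show 1 + (1 + steps W (.loop 9 (g0 15 + 5) (.assign 16 tP2)) m2) ≤ _
    omega

end Core

end Pool.Agent.Helper91.SM
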