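import Pool.Agent.Helper91.SM.Hoare

/-!
The core program: greedy matching along a list of edges, by the smoothed homotopy, rounding and
merging.
-/

namespace Pool.Agent.Helper91.SM

open Term

instance : Add Term := ⟨Term.add⟩
instance : Sub Term := ⟨Term.sub⟩
instance : Mul Term := ⟨Term.mul⟩
instance : Div Term := ⟨Term.div⟩
instance (n : ℕ) : OfNat Term n := ⟨Term.const n⟩

namespace Core

/-! #### stage A: set-up.  Arrays 10 (number of edges), 11, 12 (ends of the edges) are given. -/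

/-- array 14: powers of two -/
def tPow : Term := (le 1 (.var 0)) *
  eqt (.sum 3 ((Term.lt 1 (.var 3)) * ((le (.var 3) (.var 0)) *
    ((eqt (.var 3 - (.var 3 / 2) * 2) 1) * (eqt (.var 0 - (.var 0 / .var 3) * .var 3) 0))))) 0

/-- array 15: `clog2 (G + 2)` -/
def tLg : Term := sumTo 3 (g0 10 + 2) (g1 14 (.var 3))

/-- array 16: `2 ^ x` -/
def tP2 : Term := Term.ite (eqt (.var 0) 0) 1 (2 * g1 16 (.var 0 - 1))

def stA1 : Prog := .seq (.assign 14 tPow) (.seq (.assign 15 tLg)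
  (.loop 9 (g0 15 + 5) (.assign 16 tP2)))

/-- array 17: `L` -/
def tL : Term := (g0 15 + 2) / 3
/-- array 18: `D` -/
def tD : Term := (256 * g0 17) * g1 16 (g0 17)
/-- array 19: `Q0` -/
def tQ0 : Term := 1073741824 * ((g0 10 + 2) * ((g0 10 + 2) * ((g0 10 + 2) * ((g0 10 + 2) *
  (g0 10 + 2)))))
/-- array 20: `Q` -/
def tQ : Term := ((2 * g0 18) * g1 16 (g0 17)) * g0 19
/-- arrays 21, 22: one plus the index of the previous edge with the same end -/
def tLast (r : ℕ) : Term := sumTo 3 (.var 0) ((.var 3 + 1) * ((eqt (g1 r (.var 3)) (g1 r (.var 0))) *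
  eqt (sumTo 4 (.var 0) ((Term.lt (.var 3) (.var 4)) * eqt (g1 r (.var 4)) (g1 r (.var 0)))) 0))

/-- the block and the position of a gate -/
def tk : Term := .var 0 / 5
def ti : Term := .var 0 - (.var 0 / 5) * 5

/-- array 23: first ends of the gates -/
def tGm : Term := Term.ite (eqt ti 1)
  (Term.ite (eqt (g1 22 tk) 0) (6 * tk + 5) (6 * (g1 22 tk - 1) + 3))
  (Term.ite (eqt ti 4) (6 * tk + 3) (6 * tk))
/-- array 24: second ends of the gates -/
def tGw : Term := Term.ite (eqt ti 0)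
  (Term.ite (eqt (g1 21 tk) 0) (6 * tk + 4) (6 * (g1 21 tk - 1) + 2))
  (Term.ite (eqt ti 3) (6 * tk + 2) (6 * tk + 1))
/-- array 25: weights of the gates -/
def tWg : Term := Term.ite (eqt ti 0) (Term.ite (eqt (g1 21 tk) 0) 4 6)
  (Term.ite (eqt ti 1) (Term.ite (eqt (g1 22 tk) 0) 4 6) 10)
/-- array 26: initial values -/
def tS0 : Term := (eqt (.var 0 - (.var 0 / 6) * 6) 1 + eqt (.var 0 - (.var 0 / 6) * 6) 2) +
  eqt (.var 0 - (.var 0 / 6) * 6) 5

def stA2 : Prog := .seq (.assign 17 tL) (.seq (.assign 18 tD) (.seq (.assign 19 tQ0)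
  (.seq (.assign 20 tQ) (.seq (.assign 21 (tLast 11)) (.seq (.assign 22 (tLast 12))
  (.seq (.assign 23 tGm) (.seq (.assign 24 tGw) (.seq (.assign 25 tWg) (.assign 26 tS0)))))))))

/-! #### stage B: homotopy.  Array 30: transfers; 31, 32, 33: counters. -/

/-- array 34: the smoothing scale -/
def tT : Term := ((2 * g0 18 - g0 32) * g1 16 (g0 17 - g0 31)) * g0 19
/-- value of wire `x` before gate `n`, scaled by `Q` -/
def tSt (n x : Term) : Term := g1 26 x * g0 20 + sumTo 3 n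
  (g1 30 (.var 3) * (eqt (g1 23 (.var 3)) x - eqt (g1 24 (.var 3)) x))
/-- array 35: difference of the inputs of a gate -/
def tZ : Term := tSt (.var 0) (g1 23 (.var 0)) - tSt (.var 0) (g1 24 (.var 0))
/-- array 36: the smoothing function -/
def tF : Term := .sum 3 (le ((.var 3 + 1) * (.var 3 + 1))
  (g1 35 (.var 0) * g1 35 (.var 0) + (4 * (g0 34 * g0 34)) * g1 25 (.var 0)))
/-- array 37: the slope -/
def tA : Term := ((g1 36 (.var 0) - g1 35 (.var 0)) * g0 20) / (2 * g1 36 (.var 0))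
/-- array 38: matrices -/
def tE0 : Term := Term.ite (eqt (.var 1) (g1 23 (.var 0)))
  (Term.ite (eqt (.var 2) (g1 23 (.var 0))) (g0 20 - g1 37 (.var 0))
    (Term.ite (eqt (.var 2) (g1 24 (.var 0))) (g1 37 (.var 0)) 0))
  (Term.ite (eqt (.var 1) (g1 24 (.var 0)))
    (Term.ite (eqt (.var 2) (g1 23 (.var 0))) (g1 37 (.var 0))
      (Term.ite (eqt (.var 2) (g1 24 (.var 0))) (g0 20 - g1 37 (.var 0)) 0))
    (Term.ite (eqt (.var 1) (.var 2)) (g0 20) 0))
def tE : Term := Term.ite (le (g1 16 (g0 33)) (.var 0))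
  ((sumTo 3 (6 * g0 10) (.get 38 (.var 0) (.var 1) (.var 3) *
    .get 38 (.var 0 - g1 16 (g0 33)) (.var 3) (.var 2))) / g0 20)
  (.get 38 (.var 0) (.var 1) (.var 2))
/-- array 39: harmonic evolution, time `g` -/
def tH : Term := Term.ite (eqt (.var 0) 0) (g1 26 (.var 1) * g0 20)
  (sumTo 3 (6 * g0 10) (.get 38 (.var 0 - 1) (.var 1) (.var 3) * g1 26 (.var 3)))
/-- array 40: harmonic transfers -/
def tXi : Term := (g1 37 (.var 0) * (g2 39 (.var 0) (g1 24 (.var 0)) -
  g2 39 (.var 0) (g1 23 (.var 0)))) / g0 20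
/-- new transfers -/
def tY : Term := (((2 * g0 18 - g0 32) - 1) * g1 30 (.var 0) + g1 40 (.var 0)) /
  (2 * g0 18 - g0 32)

def body : Prog := .seq (.assign 34 tT) (.seq (.assign 35 tZ) (.seq (.assign 36 tF)
  (.seq (.assign 37 tA) (.seq (.assign 38 tE0) (.seq (.loop 33 (g0 15 + 3) (.assign 38 tE))
  (.seq (.assign 39 tH) (.seq (.assign 40 tXi) (.assign 30 tY))))))))

def stB : Prog := .seq (.assign 30 (2 * g0 20)) (.loop 31 (g0 17) (.loop 32 (g0 18) body))

/-! #### stage C: rounding -/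

/-- array 50, 51: rounded states of the ends of edge `k` after edge `k` -/
def tAH : Term := Term.lt (g0 20) (2 * tSt (5 * (.var 0 + 1)) (6 * .var 0 + 2))
def tDH : Term := le (2 * tSt (5 * (.var 0 + 1)) (6 * .var 0 + 3)) (g0 20)
/-- one plus the last edge before `var 0` whose end (array `r`) is `var 1` -/
def tLast2 (r : ℕ) : Term := sumTo 3 (.var 0) ((.var 3 + 1) * ((eqt (g1 r (.var 3)) (.var 1)) *
  eqt (sumTo 4 (.var 0) ((Term.lt (.var 3) (.var 4)) * eqt (g1 r (.var 4)) (.var 1))) 0))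
/-- array 54: rounded occupation states -/
def tB : Term := Term.ite (eqt (g2 52 (.var 0) (.var 1)) 0)
  (Term.ite (eqt (g2 53 (.var 0) (.var 1)) 0) 0 (g1 51 (g2 53 (.var 0) (.var 1) - 1)))
  (g1 50 (g2 52 (.var 0) (.var 1) - 1))

def stC : Prog := .seq (.assign 50 tAH) (.seq (.assign 51 tDH) (.seq (.assign 52 (tLast2 11))
  (.seq (.assign 53 (tLast2 12)) (.assign 54 tB))))

/-! #### stage D: merging.  Arrays 60, 61: histories; 62: states at the block starts;
63, 65, 68: counters. -/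

/-- number of single insertions per level -/
def tK : Term := 2880 * g1 16 (g0 17)
/-- `2 ^ level` -/
def tB2 : Term := g1 16 (g0 63)
/-- array 64: final state of the block before `var 0` -/
def tFin : Term := Term.lt 0 (g2 62 (.var 0 - g0 70) (.var 1) + sumTo 3 (.var 0)
  ((le (.var 0) (.var 3 + g0 70)) * ((eqt (g1 60 (.var 3)) 0 * eqt (g1 61 (.var 3)) 0) *
    (eqt (g1 11 (.var 3)) (.var 1) + eqt (g1 12 (.var 3)) (.var 1)))))
/-- array 66: the first person at which the states differ -/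
def tTok : Term := sumTo 3 (2 * g0 10) (eqt (sumTo 4 (.var 3 + 1)
  (nt (eqt (g2 64 (.var 0) (.var 4)) (g2 62 (.var 0) (.var 4))))) 0)
/-- array 67: movement of the token -/
def tPhi0 : Term := Term.ite (eqt (.var 1) (g1 11 (.var 0)))
  (Term.ite (g1 61 (.var 0)) (g1 11 (.var 0)) (g1 12 (.var 0)))
  (Term.ite (eqt (.var 1) (g1 12 (.var 0)))
    (Term.ite (g1 60 (.var 0)) (g1 12 (.var 0)) (g1 11 (.var 0))) (.var 1))
/-- start of the block of `var 0` -/
def tBs : Term := (.var 0 / g0 70) * g0 70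
def tPhi : Term := Term.ite (le (tBs + g1 16 (g0 68)) (.var 0))
  (g2 67 (.var 0) (g2 67 (.var 0 - g1 16 (g0 68)) (.var 1))) (g2 67 (.var 0) (.var 1))
/-- array 69: location of the token before edge `var 0` -/
def tLoc : Term := Term.ite (eqt (.var 0) tBs) (g1 66 tBs) (g2 67 (.var 0 - 1) (g1 66 tBs))
/-- is the block of `var 0` odd -/
def tOdd : Term := eqt ((.var 0 / g0 70) - ((.var 0 / g0 70) / 2) * 2) 1
def xorT (a b : Term) : Term := (a + b) - (2 * (a * b))
def tHist (r r' : ℕ) : Term := xorT (g1 r (.var 0)) (tOdd * eqt (g1 69 (.var 0)) (g1 r' (.var 0)))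
def tIni : Term := xorT (g2 62 (.var 0) (.var 1)) (tOdd * (eqt (.var 0) tBs *
  eqt (.var 1) (g1 66 (.var 0))))

def fixP : Prog := .seq (.assign 66 tTok) (.seq (.assign 67 tPhi0)
  (.seq (.loop 68 (g0 63) (.assign 67 tPhi)) (.seq (.assign 69 tLoc)
  (.seq (.assign 60 (tHist 60 11)) (.seq (.assign 61 (tHist 61 12)) (.assign 62 tIni))))))

def levelP : Prog := .seq (.assign 70 tB2) (.seq (.assign 64 tFin) (.loop 65 tK fixP))

def stD : Prog := .seq (.assign 60 (g2 54 (.var 0) (g1 11 (.var 0))))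
  (.seq (.assign 61 (g2 54 (.var 0) (g1 12 (.var 0)))) (.seq (.assign 62 (g2 54 (.var 0) (.var 1)))
  (.loop 63 (g0 15) levelP)))

/-- array 71: is edge `k` in the greedy matching -/
def core : Prog := .seq stA1 (.seq stA2 (.seq stB (.seq stC (.seq stD
  (.assign 71 (eqt (g1 60 (.var 0)) 0 * eqt (g1 61 (.var 0)) 0))))))

end Core

end Pool.Agent.Helper91.SM
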