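import Pool.Agent.Helper91.SM.CoreA

/-!
Specification of the second part of stage A of the core program.
-/

namespace Pool.Agent.Helper91.SM

open Finset Term

lemma eval_ite_iv {W : ℕ} {m : Mem} {c s t : Term} {e : ℕ → ℤ} {p : Prop} [Decidable p]
    (hc : eval W m c e = iv p) :
    eval W m (Term.ite c s t) e = if p then eval W m s e else eval W m t e := by
  by_cases hp : p
  · rw [if_pos hp, eval_ite_pos (by rw [hc, iv_pos hp])]
  · rw [if_neg hp, eval_ite_neg (by rw [hc, iv_neg hp])]

lemma last_sum (p : ℕ → Prop) [DecidablePred p] (k : ℕ) :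
    ∑ x ∈ range k, ((x:ℤ) + 1) * iv (p x ∧ ∀ y < k, ¬ (x < y ∧ p y)) =
      Gadget.last (fun j => decide (p j)) k := by
  by_cases h : Gadget.last (fun j => decide (p j)) k = 0
  · rw [h]
    refine (Finset.sum_eq_zero fun x hx => ?_)
    have := Gadget.last_max (p := fun j => decide (p j)) (k := k) (j := x) (by omega)
      (Finset.mem_range.mp hx)
    rw [iv_neg (fun hh => by simp [hh.1] at this), mul_zero]
  · have h1 := Gadget.last_pos (p := fun j => decide (p j)) (k := k) h
    have h2 := Gadget.last_le (fun j => decide (p j)) k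
    set l := Gadget.last (fun j => decide (p j)) k with hl
    have h1' : p (l - 1) := by simpa using h1
    rw [sum_iv_pick k _ (fun x => (x:ℤ) + 1) (x0 := l - 1) (by omega)]
    · have : 1 ≤ l := by omega
      push_cast [Nat.cast_sub this]; ring
    · intro x hx
      constructor
      · rintro ⟨a, b⟩
        by_contra hne
        rcases Nat.lt_or_gt_of_ne hne with h3 | h3
        · exact b (l - 1) (by omega) ⟨h3, h1'⟩
        · have := Gadget.last_max (p := fun j => decide (p j)) (k := k) (j := x) (by omega) hx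
          simp [a] at this
      · rintro rfl
        refine ⟨h1', ?_⟩
        rintro y hy ⟨a, b⟩
        have := Gadget.last_max (p := fun j => decide (p j)) (k := k) (j := y) (by omega) hy
        simp [b] at this

namespace Core

open Gadget

lemma ev_tLast {W G r : ℕ} {m : Mem} {u : ℕ → ℕ} (hu : ∀ k < G, m r k 0 0 = u k) (hG : G ≤ W)
    {k : ℕ} (hk : k < G) (j l : ℕ) : eval W m (tLast r) (env k j l) = lu u k := by
  unfold tLast
  rw [eval_sumTo W m 3 (.var 0) _ _ k (by omega) (by
    intro x; rw [ev_var, Function.update_of_ne (by decide), env0])]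
  have h1 : ∀ x ∈ range k, eval W m ((.var 3 + 1) * ((eqt (g1 r (.var 3)) (g1 r (.var 0))) *
      eqt (sumTo 4 (.var 0) ((Term.lt (.var 3) (.var 4)) * eqt (g1 r (.var 4)) (g1 r (.var 0)))) 0))
      (Function.update (env k j l) 3 (x : ℤ)) =
      ((x:ℤ) + 1) * iv (u x = u k ∧ ∀ y < k, ¬ (x < y ∧ u y = u k)) := by
    intro x hx
    have hx' := Finset.mem_range.mp hx
    rw [ev_mul, ev_add, ev_one, ev_var, Function.update_self, ev_mul, eval_eqt, eval_eqt,
      eval_sumTo W m 4 (.var 0) _ _ k (by omega) (by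
      intro x; rw [ev_var, Function.update_of_ne (by decide), Function.update_of_ne (by decide),
        env0])]
    have h2 : ∀ y ∈ range k, eval W m ((Term.lt (.var 3) (.var 4)) *
        eqt (g1 r (.var 4)) (g1 r (.var 0)))
        (Function.update (Function.update (env k j l) 3 (x : ℤ)) 4 (y : ℤ)) =
        iv (x < y ∧ u y = u k) := by
      intro y hy
      have hy' := Finset.mem_range.mp hy
      rw [ev_mul, eval_lt, eval_eqt, ev_g1, ev_g1, ev_var, ev_var, ev_var, Function.update_self,
        Function.update_of_ne (show (3:ℕ) ≠ 4 by decide), Function.update_self,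
        Function.update_of_ne (show (0:ℕ) ≠ 4 by decide),
        Function.update_of_ne (show (0:ℕ) ≠ 3 by decide), env0, Int.toNat_natCast,
        Int.toNat_natCast, hu y (by omega), hu k hk, iv_mul]
      apply iv_congr
      norm_cast
    rw [Finset.sum_congr rfl h2, ev_g1, ev_g1, ev_var, ev_var, Function.update_self,
      Function.update_of_ne (show (0:ℕ) ≠ 3 by decide), env0, Int.toNat_natCast,
        Int.toNat_natCast, hu x (by omega), hu k hk, iv_mul, ev_zero]
    congr 1
    apply iv_congr
    rw [sum_iv_eq_zero]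
    norm_cast
  rw [Finset.sum_congr rfl h1, last_sum (fun j => u j = u k) k]
  rfl

lemma small_lt {W G n : ℕ} (hW : Big G W) (hn : n ≤ 64 * (G + 2)) : n < W := by
  have hW2 : 65 * (G + 2) ≤ W := by
    simpa using big_of hW (c := 65) (n := 1) (by norm_num) (by norm_num)
  omega

theorem stA2_spec {W G : ℕ} (hW : Big G W) {m : Mem} {u' v' : ℕ → ℕ} (hg : m 10 0 0 0 = G)
    (hu : ∀ k < G, m 11 k 0 0 = u' k) (hv : ∀ k < G, m 12 k 0 0 = v' k)
    (h15 : m 15 0 0 0 = lg G) (h16 : ∀ x < lg G + 5, m 16 x 0 0 = 2 ^ x) :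
    SA G u' v' (exec W stA2 m) ∧ steps W stA2 m ≤ 10 := by
  have hW0 : 0 < W := small_lt hW (n := 0) (by omega)
  have hW1 : 1 < W := small_lt hW (n := 1) (by omega)
  have hlg2 := two_pow_lg G
  have hlt := Nat.lt_two_pow_self (n := lg G)
  have hLL := LL_le G
  have hGW : 6 * G ≤ W := (small_lt hW (n := 6 * G) (by omega)).le
  set m1 := exec W (.assign 17 tL) m with hm1
  set m2 := exec W (.assign 18 tD) m1 with hm2
  set m3 := exec W (.assign 19 tQ0) m2 with hm3
  set m4 := exec W (.assign 20 tQ) m3 with hm4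
  set m5 := exec W (.assign 21 (tLast 11)) m4 with hm5
  set m6 := exec W (.assign 22 (tLast 12)) m5 with hm6
  set m7 := exec W (.assign 23 tGm) m6 with hm7
  set m8 := exec W (.assign 24 tGw) m7 with hm8
  set m9 := exec W (.assign 25 tWg) m8 with hm9
  set m10 := exec W (.assign 26 tS0) m9 with hm10
  have f1 : ∀ r, r ≠ 17 → m1 r = m r := fun r hr => exec_frame _ _ _ _ (by simpa [mods] using hr)
  have f2 : ∀ r, r ≠ 18 → m2 r = m1 r := fun r hr => exec_frame _ _ _ _ (by simpa [mods] using hr)
  have f3 : ∀ r, r ≠ 19 → m3 r = m2 r := fun r hr => exec_frame _ _ _ _ (by simpa [mods] using hr)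
  have f4 : ∀ r, r ≠ 20 → m4 r = m3 r := fun r hr => exec_frame _ _ _ _ (by simpa [mods] using hr)
  have f5 : ∀ r, r ≠ 21 → m5 r = m4 r := fun r hr => exec_frame _ _ _ _ (by simpa [mods] using hr)
  have f6 : ∀ r, r ≠ 22 → m6 r = m5 r := fun r hr => exec_frame _ _ _ _ (by simpa [mods] using hr)
  have f7 : ∀ r, r ≠ 23 → m7 r = m6 r := fun r hr => exec_frame _ _ _ _ (by simpa [mods] using hr)
  have f8 : ∀ r, r ≠ 24 → m8 r = m7 r := fun r hr => exec_frame _ _ _ _ (by simpa [mods] using hr)
  have f9 : ∀ r, r ≠ 25 → m9 r = m8 r := fun r hr => exec_frame _ _ _ _ (by simpa [mods] using hr)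
  have f10 : ∀ r, r ≠ 26 → m10 r = m9 r := fun r hr => exec_frame _ _ _ _ (by simpa [mods] using hr)
  -- values
  have a17 : m1 17 0 0 0 = LL G := by
    rw [hm1, exec_assign _ _ _ _ hW0 hW0 hW0]
    have : eval W m tL (env 0 0 0) = (LL G : ℕ) := by
      unfold tL LL
      rw [ev_div, ev_add, ev_g0, h15, ev_num, ev_num]
      push_cast; rfl
    rw [this]
    exact store_nat (small_lt hW (by omega))
  have e3 : ((2:ℕ) ^ LL G) ^ 2 ≤ (2 ^ LL G) ^ 3 := Nat.pow_le_pow_right (by positivity) (by norm_num)
  have e4 := (cube_LL G).2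
  have e5 := DD_le G
  have a18 : m2 18 0 0 0 = DD G := by
    rw [hm2, exec_assign _ _ _ _ hW0 hW0 hW0]
    have : eval W m1 tD (env 0 0 0) = (DD G : ℕ) := by
      unfold tD DD
      rw [ev_mul, ev_mul, ev_num, ev_g1, ev_g0, a17, Int.toNat_natCast, f1 16 (by decide),
        h16 _ (by omega)]
      push_cast; rfl
    rw [this]
    have : 4096 * (G + 2) ≤ W := by
      simpa using big_of hW (c := 4096) (n := 1) (by norm_num) (by norm_num)
    exact store_nat (by omega)
  have a19 : m3 19 0 0 0 = QQ0 G := by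
    rw [hm3, exec_assign _ _ _ _ hW0 hW0 hW0]
    have : eval W m2 tQ0 (env 0 0 0) = (QQ0 G : ℕ) := by
      unfold tQ0 QQ0
      simp only [ev_mul, ev_add, ev_num, ev_g0, f2 10 (by decide), f1 10 (by decide), hg]
      push_cast; ring
    rw [this]
    apply store_nat
    have h1 : (2 ^ 30 + 1) * (G + 2) ^ 5 ≤ W := big_of hW (by norm_num) (by norm_num)
    have h2 : 0 < (G + 2) ^ 5 := by positivity
    unfold QQ0
    calc 2 ^ 30 * (G + 2) ^ 5 < (2 ^ 30 + 1) * (G + 2) ^ 5 := Nat.mul_lt_mul_of_pos_right
            (by norm_num) h2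
      _ ≤ W := h1
  have a20 : m4 20 0 0 0 = QQ G := by
    rw [hm4, exec_assign _ _ _ _ hW0 hW0 hW0]
    have : eval W m3 tQ (env 0 0 0) = (QQ G : ℕ) := by
      unfold tQ QQ
      rw [ev_mul, ev_mul, ev_mul, ev_g0, ev_g0, ev_g1, ev_g0, a19, f3 18 (by decide), a18,
        f3 17 (by decide), f2 17 (by decide), a17, Int.toNat_natCast, f3 16 (by decide),
        f2 16 (by decide), f1 16 (by decide), h16 _ (by omega), ev_num]
      push_cast; rfl
    rw [this]
    apply store_nat
    have h1 : (2 ^ 42 + 1) * (G + 2) ^ 6 ≤ W := big_of hW (by norm_num) (by norm_num)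
    have h2 : 0 < (G + 2) ^ 6 := by positivity
    have h3 := QQ_le G
    calc QQ G ≤ 2 ^ 42 * (G + 2) ^ 6 := h3
      _ < (2 ^ 42 + 1) * (G + 2) ^ 6 := Nat.mul_lt_mul_of_pos_right (by norm_num) h2
      _ ≤ W := h1
  have u4 : ∀ k < G, m4 11 k 0 0 = u' k := by
    intro k hk
    rw [f4 11 (by decide), f3 11 (by decide), f2 11 (by decide), f1 11 (by decide), hu k hk]
  have v5 : ∀ k < G, m5 12 k 0 0 = v' k := by
    intro k hk
    rw [f5 12 (by decide), f4 12 (by decide), f3 12 (by decide), f2 12 (by decide),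
      f1 12 (by decide), hv k hk]
  have a21 : ∀ k < G, m5 21 k 0 0 = lu u' k := by
    intro k hk
    rw [hm5, exec_assign _ _ _ _ (by omega) hW0 hW0, ev_tLast u4 (by omega) hk]
    exact store_nat (lt_of_le_of_lt (lu_le _ _) (by omega))
  have a22 : ∀ k < G, m6 22 k 0 0 = lu v' k := by
    intro k hk
    rw [hm6, exec_assign _ _ _ _ (by omega) hW0 hW0, ev_tLast v5 (by omega) hk]
    exact store_nat (lt_of_le_of_lt (lu_le _ _) (by omega))
  have tk_ev : ∀ (m : Mem) (g : ℕ), eval W m tk (env g 0 0) = ((g / 5 : ℕ) : ℤ) := by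
    intro m g
    unfold tk
    rw [ev_div, ev_var, env0, ev_num]
    push_cast; rfl
  have ti_ev : ∀ (m : Mem) (g : ℕ), eval W m ti (env g 0 0) = ((g % 5 : ℕ) : ℤ) := by
    intro m g
    unfold ti
    rw [ev_sub, ev_mul, ev_div, ev_var, env0, ev_num]
    omega
  have a23 : ∀ g < 5 * G, m7 23 g 0 0 = gm v' g := by
    intro g hg
    have hgW : g < W := by omega
    rw [hm7, exec_assign _ _ _ _ hgW hW0 hW0]
    have h22 := a22 (g / 5) (by omega)
    have hlu := lu_le v' (g / 5)
    have : eval W m6 tGm (env g 0 0) = (gm v' g : ℕ) := by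
      unfold tGm gm gmB
      rw [eval_ite_iv (p := g % 5 = 1) (by
          rw [eval_eqt, ti_ev, ev_one]; apply iv_congr; norm_cast),
        eval_ite_iv (p := lu v' (g / 5) = 0) (by
          rw [eval_eqt, ev_g1, tk_ev, Int.toNat_natCast, h22, ev_zero]; apply iv_congr; norm_cast),
        eval_ite_iv (p := g % 5 = 4) (by
          rw [eval_eqt, ti_ev, ev_num]; apply iv_congr; norm_cast)]
      simp only [ev_add, ev_mul, ev_sub, ev_num, ev_one, ev_g1, tk_ev, Int.toNat_natCast, h22]
      split_ifs <;> omega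
    rw [this]
    exact store_nat (lt_of_lt_of_le (gm_lt hg) hGW)
  have a24 : ∀ g < 5 * G, m8 24 g 0 0 = gw u' g := by
    intro g hg
    have hgW : g < W := by omega
    rw [hm8, exec_assign _ _ _ _ hgW hW0 hW0]
    have h21 : m7 21 (g / 5) 0 0 = lu u' (g / 5) := by
      rw [f7 21 (by decide), f6 21 (by decide)]; exact a21 (g / 5) (by omega)
    have hlu := lu_le u' (g / 5)
    have : eval W m7 tGw (env g 0 0) = (gw u' g : ℕ) := by
      unfold tGw gw gwB
      rw [eval_ite_iv (p := g % 5 = 0) (by
          rw [eval_eqt, ti_ev, ev_zero]; apply iv_congr; norm_cast),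
        eval_ite_iv (p := lu u' (g / 5) = 0) (by
          rw [eval_eqt, ev_g1, tk_ev, Int.toNat_natCast, h21, ev_zero]; apply iv_congr; norm_cast),
        eval_ite_iv (p := g % 5 = 3) (by
          rw [eval_eqt, ti_ev, ev_num]; apply iv_congr; norm_cast)]
      simp only [ev_add, ev_mul, ev_sub, ev_num, ev_one, ev_g1, tk_ev, Int.toNat_natCast, h21]
      split_ifs <;> omega
    rw [this]
    exact store_nat (lt_of_lt_of_le (gw_lt hg) hGW)
  have a25 : ∀ g < 5 * G, m9 25 g 0 0 = wg u' v' g := by
    intro g hg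
    have hgW : g < W := by omega
    rw [hm9, exec_assign _ _ _ _ hgW hW0 hW0]
    have h21 : m8 21 (g / 5) 0 0 = lu u' (g / 5) := by
      rw [f8 21 (by decide), f7 21 (by decide), f6 21 (by decide)]; exact a21 (g / 5) (by omega)
    have h22 : m8 22 (g / 5) 0 0 = lu v' (g / 5) := by
      rw [f8 22 (by decide), f7 22 (by decide)]; exact a22 (g / 5) (by omega)
    have : eval W m8 tWg (env g 0 0) = (wg u' v' g : ℕ) := by
      unfold tWg wg wB
      rw [eval_ite_iv (p := g % 5 = 0) (by
          rw [eval_eqt, ti_ev, ev_zero]; apply iv_congr; norm_cast),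
        eval_ite_iv (p := lu u' (g / 5) = 0) (by
          rw [eval_eqt, ev_g1, tk_ev, Int.toNat_natCast, h21, ev_zero]; apply iv_congr; norm_cast),
        eval_ite_iv (p := g % 5 = 1) (by
          rw [eval_eqt, ti_ev, ev_one]; apply iv_congr; norm_cast),
        eval_ite_iv (p := lu v' (g / 5) = 0) (by
          rw [eval_eqt, ev_g1, tk_ev, Int.toNat_natCast, h22, ev_zero]; apply iv_congr; norm_cast)]
      simp only [ev_num]
      split_ifs <;> rfl
    rw [this]
    have := (wg_bound u' v' g).2
    exact store_nat (small_lt hW (by omega))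
  have a26 : ∀ x < 6 * G, m10 26 x 0 0 = if s0 x then 1 else 0 := by
    intro x hx
    have hxW : x < W := by omega
    rw [hm10, exec_assign _ _ _ _ hxW hW0 hW0]
    have : eval W m9 tS0 (env x 0 0) = iv (s0 x = true) := by
      unfold tS0 s0
      simp only [ev_add, ev_sub, ev_mul, ev_div, eval_eqt, ev_num, ev_one, ev_var, env0]
      have e1 : (x:ℤ) - (x:ℤ) / 6 * 6 = ((x % 6 : ℕ) : ℤ) := by omega
      rw [e1]
      have hlt : x % 6 < 6 := Nat.mod_lt _ (by norm_num)
      generalize x % 6 = r at hlt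
      unfold iv
      interval_cases r <;> simp
    rw [this, store_iv hW1]
    unfold iv
    split_ifs <;> rfl
  refine ⟨?_, le_refl _⟩
  show SA G u' v' m10
  constructor
  · rw [f10 10 (by decide), f9 10 (by decide), f8 10 (by decide), f7 10 (by decide),
      f6 10 (by decide), f5 10 (by decide), f4 10 (by decide), f3 10 (by decide),
      f2 10 (by decide), f1 10 (by decide), hg]
  · intro k hk
    rw [f10 11 (by decide), f9 11 (by decide), f8 11 (by decide), f7 11 (by decide),
      f6 11 (by decide), f5 11 (by decide), u4 k hk]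
  · intro k hk
    rw [f10 12 (by decide), f9 12 (by decide), f8 12 (by decide), f7 12 (by decide),
      f6 12 (by decide), v5 k hk]
  · rw [f10 15 (by decide), f9 15 (by decide), f8 15 (by decide), f7 15 (by decide),
      f6 15 (by decide), f5 15 (by decide), f4 15 (by decide), f3 15 (by decide),
      f2 15 (by decide), f1 15 (by decide), h15]
  · intro x hx
    rw [f10 16 (by decide), f9 16 (by decide), f8 16 (by decide), f7 16 (by decide),
      f6 16 (by decide), f5 16 (by decide), f4 16 (by decide), f3 16 (by decide),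
      f2 16 (by decide), f1 16 (by decide), h16 x hx]
  · rw [f10 17 (by decide), f9 17 (by decide), f8 17 (by decide), f7 17 (by decide),
      f6 17 (by decide), f5 17 (by decide), f4 17 (by decide), f3 17 (by decide),
      f2 17 (by decide), a17]
  · rw [f10 18 (by decide), f9 18 (by decide), f8 18 (by decide), f7 18 (by decide),
      f6 18 (by decide), f5 18 (by decide), f4 18 (by decide), f3 18 (by decide), a18]
  · rw [f10 19 (by decide), f9 19 (by decide), f8 19 (by decide), f7 19 (by decide),
      f6 19 (by decide), f5 19 (by decide), f4 19 (by decide), a19]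
  · rw [f10 20 (by decide), f9 20 (by decide), f8 20 (by decide), f7 20 (by decide),
      f6 20 (by decide), f5 20 (by decide), a20]
  · intro g hg
    rw [f10 23 (by decide), f9 23 (by decide), f8 23 (by decide), a23 g hg]
  · intro g hg
    rw [f10 24 (by decide), f9 24 (by decide), a24 g hg]
  · intro g hg
    rw [f10 25 (by decide), a25 g hg]
  · exact a26

end Core

end Pool.Agent.Helper91.SM
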