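import Pool.Agent.Helper91.SM.CoreA2

/-!
Error analysis of one step of the homotopy in integer arithmetic.
-/

namespace Pool.Agent.Helper91.SM

open Finset Term

namespace Core

open Gadget

/-- scaled evolution -/
noncomputable def SQ (Q : ℤ) (u v : ℕ → ℕ) (Y : ℕ → ℤ) (n x : ℕ) : ℤ :=
  (if s0 x then 1 else 0) * Q + ∑ h ∈ range n, Y h * (iv (gm v h = x) - iv (gw u h = x))

lemma SQ_SN {Q : ℤ} (hQ : 0 < Q) (u v : ℕ → ℕ) (Y : ℕ → ℤ) (n x : ℕ) :
    (SQ Q u v Y n x : ℝ) = Q * SN u v (fun g => (Y g : ℝ) / Q) n x := by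
  have hQR : (0:ℝ) < Q := by exact_mod_cast hQ
  induction n with
  | zero =>
    unfold SQ
    simp only [Finset.range_zero, Finset.sum_empty, SN]
    split_ifs <;> simp
  | succ n ih =>
    have h1 : SQ Q u v Y (n + 1) x = SQ Q u v Y n x +
        Y n * (iv (gm v n = x) - iv (gw u n = x)) := by
      unfold SQ; rw [Finset.sum_range_succ]; ring
    rw [h1, SN_succ]
    push_cast
    rw [ih]
    have h2 : ((iv (gm v n = x) : ℤ) : ℝ) = if x = gm v n then 1 else 0 := by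
      unfold iv
      by_cases h : x = gm v n
      · rw [if_pos h, if_pos h.symm]; norm_num
      · rw [if_neg h, if_neg (fun h' => h h'.symm)]; norm_num
    have h3 : ((iv (gw u n = x) : ℤ) : ℝ) = if x = gw u n then 1 else 0 := by
      unfold iv
      by_cases h : x = gw u n
      · rw [if_pos h, if_pos h.symm]; norm_num
      · rw [if_neg h, if_neg (fun h' => h h'.symm)]; norm_num
    rw [h2, h3]
    field_simp

lemma SQ_bound {Q : ℤ} (hQ : 0 < Q) (u v : ℕ → ℕ) {Y : ℕ → ℤ} {n : ℕ}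
    (hY : ∀ g < n, |Y g| ≤ 2 * Q) (x : ℕ) : |SQ Q u v Y n x| ≤ (1 + 2 * n) * Q := by
  unfold SQ
  have h1 : |∑ h ∈ range n, Y h * (iv (gm v h = x) - iv (gw u h = x))| ≤ n * (2 * Q) := by
    refine (Finset.abs_sum_le_sum_abs _ _).trans ?_
    rw [← nsmul_eq_mul]
    have : ∀ h ∈ range n, |Y h * (iv (gm v h = x) - iv (gw u h = x))| ≤ 2 * Q := by
      intro h hh
      rw [abs_mul]
      have h1 := hY h (Finset.mem_range.mp hh)
      have h2 : |iv (gm v h = x) - iv (gw u h = x)| ≤ 1 := by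
        rw [abs_le]
        have := iv_nonneg (gm v h = x)
        have := iv_nonneg (gw u h = x)
        have := iv_le_one (gm v h = x)
        have := iv_le_one (gw u h = x)
        constructor <;> omega
      calc |Y h| * |iv (gm v h = x) - iv (gw u h = x)| ≤ |Y h| * 1 := by gcongr
        _ ≤ 2 * Q := by rw [mul_one]; exact h1
    have := Finset.sum_le_card_nsmul _ _ _ this
    rwa [Finset.card_range] at this
  have h2 : |(if s0 x then (1:ℤ) else 0) * Q| ≤ Q := by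
    split_ifs
    · rw [one_mul, abs_of_pos hQ]
    · rw [zero_mul, abs_zero]; exact hQ.le
  calc _ ≤ |(if s0 x then (1:ℤ) else 0) * Q| +
      |∑ h ∈ range n, Y h * (iv (gm v h = x) - iv (gw u h = x))| := abs_add_le _ _
    _ ≤ Q + n * (2 * Q) := add_le_add h2 h1
    _ = _ := by ring

lemma sum_sqrt {W N : ℕ} (h : Nat.sqrt N ≤ W) :
    ∑ x ∈ range W, iv (((x:ℤ) + 1) * ((x:ℤ) + 1) ≤ (N:ℤ)) = Nat.sqrt N := by
  have h1 : ∀ x ∈ range W, iv (((x:ℤ) + 1) * ((x:ℤ) + 1) ≤ (N:ℤ)) =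
      iv ((x:ℤ) < ((Nat.sqrt N : ℕ) : ℤ)) * 1 := by
    intro x _
    rw [mul_one]
    apply iv_congr
    have : (x:ℤ) < ((Nat.sqrt N : ℕ) : ℤ) ↔ (x + 1) * (x + 1) ≤ N := by
      rw [← Nat.le_sqrt]; norm_cast
    rw [this]; norm_cast
  rw [Finset.sum_congr rfl h1, sum_lt W _ h]
  simp

/-- slope in integer arithmetic -/
def SA' (Q F Z : ℤ) : ℤ := ((F - Z) * Q) / (2 * F)

lemma slope_err {Q Z T : ℤ} {w N : ℕ} (hQ : 0 < Q) (hT : 0 < T) (hw : 1 ≤ w)
    (hN : (N : ℤ) = Z * Z + (4 * (T * T)) * w) :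
    0 ≤ SA' Q (Nat.sqrt N) Z ∧ SA' Q (Nat.sqrt N) Z ≤ Q ∧ 2 * T ≤ Nat.sqrt N ∧
    |Z| ≤ Nat.sqrt N ∧
    |(SA' Q (Nat.sqrt N) Z : ℝ) / Q - Net.slope ((T : ℝ) / Q) w ((Z : ℝ) / Q)| ≤
      1 / Q + 1 / (4 * T) := by
  have hQR : (0:ℝ) < Q := by exact_mod_cast hQ
  have hTR : (0:ℝ) < T := by exact_mod_cast hT
  set F : ℤ := ((Nat.sqrt N : ℕ) : ℤ) with hF
  have hZF : |Z| ≤ F := by
    have h1 : (Z.natAbs) ≤ Nat.sqrt N := by
      rw [Nat.le_sqrt]
      have : ((Z.natAbs * Z.natAbs : ℕ) : ℤ) ≤ N := by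
        push_cast
        rw [← Int.natAbs_mul_self' Z] at hN
        have : (0:ℤ) ≤ (4 * (T * T)) * w := by positivity
        rw [Int.natCast_natAbs] at hN
        omega
      exact_mod_cast this
    rw [hF, Int.abs_eq_natAbs]
    exact_mod_cast h1
  have hTF : 2 * T ≤ F := by
    have h1 : ((2 * T).toNat) ≤ Nat.sqrt N := by
      rw [Nat.le_sqrt]
      have h3 : (((2 * T).toNat : ℕ) : ℤ) = 2 * T := Int.toNat_of_nonneg (by omega)
      have : (((2 * T).toNat * (2 * T).toNat : ℕ) : ℤ) ≤ N := by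
        push_cast
        rw [h3, hN]
        have hw' : (1:ℤ) ≤ w := by exact_mod_cast hw
        nlinarith [mul_pos hT hT, mul_self_nonneg Z]
      exact_mod_cast this
    rw [hF]
    have h3 : (((2 * T).toNat : ℕ) : ℤ) = 2 * T := Int.toNat_of_nonneg (by omega)
    rw [← h3]
    exact_mod_cast h1
  have hF0 : 0 < F := by omega
  have hFR : (0:ℝ) < F := by exact_mod_cast hF0
  have hZ1 := abs_le.mp hZF
  have hA0 : 0 ≤ SA' Q F Z := by
    unfold SA'
    apply Int.ediv_nonneg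
    · exact mul_nonneg (by omega) hQ.le
    · omega
  have hA1 : SA' Q F Z ≤ Q := by
    unfold SA'
    apply Int.ediv_le_of_le_mul (by omega)
    nlinarith
  refine ⟨hA0, hA1, hTF, hZF, ?_⟩
  set φ : ℝ := √(N : ℝ) with hφ
  have hFφ : (F : ℝ) ≤ φ := by
    rw [hF, hφ]
    have := Real.nat_sqrt_le_real_sqrt (a := N)
    exact_mod_cast this
  have hφF : φ ≤ F + 1 := by
    rw [hF, hφ]
    have := (Real.real_sqrt_lt_nat_sqrt_succ (a := N)).le
    push_cast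
    exact this
  have hφ0 : 0 < φ := lt_of_lt_of_le hFR hFφ
  have hNR : (N : ℝ) = Z * Z + (4 * (T * T)) * w := by exact_mod_cast hN
  have hsf : Net.sf ((T : ℝ) / Q) w ((Z : ℝ) / Q) = φ / Q := by
    unfold Net.sf
    have : ((Z:ℝ) / Q) ^ 2 + 4 * ((T:ℝ) / Q) ^ 2 * w = (N : ℝ) / (Q:ℝ) ^ 2 := by
      rw [hNR]; field_simp
    rw [this, Real.sqrt_div (by positivity), Real.sqrt_sq hQR.le]
  have hsl : Net.slope ((T : ℝ) / Q) w ((Z : ℝ) / Q) = (1 - Z / φ) / 2 := by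
    unfold Net.slope
    rw [hsf]
    congr 2
    field_simp
  rw [hsl]
  have hZφ : |(Z:ℝ)| ≤ φ := by
    refine le_trans ?_ hFφ
    exact_mod_cast hZF
  have h1 : |(SA' Q F Z : ℝ) / Q - (F - Z) / (2 * F)| ≤ 1 / Q := by
    have a1 : (SA' Q F Z : ℝ) ≤ (F - Z) * Q / (2 * F) := by
      rw [le_div_iff₀ (by positivity)]
      unfold SA'
      have := Int.ediv_mul_le ((F - Z) * Q) (show 2 * F ≠ 0 by omega)
      exact_mod_cast this
    have a2 : (F - Z) * Q / (2 * F) ≤ (SA' Q F Z : ℝ) + 1 := by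
      rw [div_le_iff₀ (by positivity)]
      unfold SA'
      have := (Int.lt_ediv_add_one_mul_self ((F - Z) * Q) (show 0 < 2 * F by omega)).le
      exact_mod_cast this
    have e1 : (SA' Q F Z : ℝ) / Q - (F - Z) / (2 * F) =
        ((SA' Q F Z : ℝ) - (F - Z) * Q / (2 * F)) / Q := by
      field_simp
    rw [e1, abs_div, abs_of_pos hQR]
    gcongr
    rw [abs_le]
    constructor <;> linarith
  have h2 : |((F:ℝ) - Z) / (2 * F) - (1 - Z / φ) / 2| ≤ 1 / (4 * T) := by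
    have e1 : ((F:ℝ) - Z) / (2 * F) - (1 - Z / φ) / 2 = -(Z / φ) * (φ - F) / (2 * F) := by
      field_simp; ring
    rw [e1, abs_div, abs_mul, abs_neg, abs_div, abs_of_pos hφ0, abs_of_pos (by positivity : (0:ℝ) < 2 * F)]
    have b1 : |(Z:ℝ)| / φ ≤ 1 := by rw [div_le_one hφ0]; exact hZφ
    have b2 : |φ - F| ≤ 1 := by rw [abs_le]; constructor <;> linarith
    have b3 : |(Z:ℝ)| / φ * |φ - F| ≤ 1 := by
      calc |(Z:ℝ)| / φ * |φ - F| ≤ 1 * 1 := by gcongr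
        _ = 1 := by ring
    have b4 : (2:ℝ) * T ≤ F := by exact_mod_cast hTF
    calc |(Z:ℝ)| / φ * |φ - F| / (2 * F) ≤ 1 / (2 * F) := by gcongr
      _ ≤ 1 / (4 * T) := by
        apply one_div_le_one_div_of_le (by positivity)
        linarith
  calc _ ≤ |(SA' Q F Z : ℝ) / Q - (F - Z) / (2 * F)| +
        |((F:ℝ) - Z) / (2 * F) - (1 - Z / φ) / 2| := by
        have := abs_add_le ((SA' Q F Z : ℝ) / Q - (F - Z) / (2 * F))
          (((F:ℝ) - Z) / (2 * F) - (1 - Z / φ) / 2)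
        refine le_trans (le_of_eq ?_) this
        congr 1; ring
    _ ≤ _ := add_le_add h1 h2

lemma floor_err {a b : ℤ} (hb : 0 < b) : |((a / b : ℤ) : ℝ) - (a : ℝ) / b| ≤ 1 := by
  have hbR : (0:ℝ) < b := by exact_mod_cast hb
  have a1 : ((a / b : ℤ) : ℝ) ≤ (a : ℝ) / b := by
    rw [le_div_iff₀ hbR]
    exact_mod_cast Int.ediv_mul_le a hb.ne'
  have a2 : (a : ℝ) / b ≤ ((a / b : ℤ) : ℝ) + 1 := by
    rw [div_le_iff₀ hbR]
    exact_mod_cast (Int.lt_ediv_add_one_mul_self a hb).le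
  rw [abs_le]; constructor <;> linarith

/-- matrices -/
noncomputable def Em (V : ℕ) (Q : ℤ) (u v : ℕ → ℕ) (A : ℕ → ℤ) : ℕ → ℕ → ℕ → ℕ → ℤ
  | 0 => fun g x z => if x = gm v g then (if z = gm v g then Q - A g else
      if z = gw u g then A g else 0)
      else if x = gw u g then (if z = gm v g then A g else if z = gw u g then Q - A g else 0)
      else if x = z then Q else 0
  | i + 1 => fun g x z => if 2 ^ i ≤ g then
      (∑ y ∈ range V, Em V Q u v A i g x y * Em V Q u v A i (g - 2 ^ i) y z) / Q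
      else Em V Q u v A i g x z

lemma Em_zero {V : ℕ} {Q : ℤ} (hQ : 0 < Q) {u v : ℕ → ℕ} {A : ℕ → ℤ} (g x z : ℕ) :
    (Em V Q u v A 0 g x z : ℝ) = Q * TM u v (fun g => (A g : ℝ) / Q) g x z := by
  have hQR : (0:ℝ) < Q := by exact_mod_cast hQ
  unfold Em TM
  split_ifs <;> push_cast <;> field_simp <;> simp

lemma Em_bound {V G : ℕ} (hV : V = 6 * G) {Q : ℤ} (hQ : 0 < Q) {u v : ℕ → ℕ} {A : ℕ → ℤ}
    (hA : ∀ g < 5 * G, 0 ≤ A g ∧ A g ≤ Q) (i : ℕ) {g x z : ℕ} (hg : g < 5 * G) (hx : x < V)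
    (hz : z < V) : 0 ≤ Em V Q u v A i g x z ∧ Em V Q u v A i g x z ≤ Q := by
  have hQR : (0:ℝ) < Q := by exact_mod_cast hQ
  have ha : ∀ g < 5 * G, 0 ≤ (fun g => (A g : ℝ) / Q) g ∧ (fun g => (A g : ℝ) / Q) g ≤ 1 := by
    intro g hg
    have h1 : (0:ℝ) ≤ A g := by exact_mod_cast (hA g hg).1
    have h2 : (A g : ℝ) ≤ Q := by exact_mod_cast (hA g hg).2
    exact ⟨by positivity, by rw [div_le_one hQR]; exact h2⟩
  have h := (doubling (a := fun g => (A g : ℝ) / Q) (E := Em V Q u v A) (u := u) (v := v) hV hQ ha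
    (fun g _ x _ z _ => Em_zero hQ g x z) (fun i g _ x _ z _ => rfl) i g hg).1 x hx z hz
  refine ⟨h.1, ?_⟩
  have h2 : WP V u v (fun g => (A g : ℝ) / Q) g (min (2 ^ i) (g + 1)) x z ≤ 1 := by
    rw [← WP_row (a := fun g => (A g : ℝ) / Q) (u := u) (v := v) hV hg (min (2 ^ i) (g + 1)) x hx]
    exact Finset.single_le_sum (f := fun z => WP V u v (fun g => (A g : ℝ) / Q) g
      (min (2 ^ i) (g + 1)) x z) (fun z _ => WP_nonneg (fun i hi => ha i (by omega)) _ x z)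
      (Finset.mem_range.mpr hz)
  have h3 : (Em V Q u v A i g x z : ℝ) ≤ Q := by
    refine h.2.trans ?_
    calc (Q:ℝ) * _ ≤ Q * 1 := by gcongr
      _ = Q := by ring
  exact_mod_cast h3

/-- harmonic evolution in integer arithmetic -/
noncomputable def Hm (V : ℕ) (Q : ℤ) (u v : ℕ → ℕ) (A : ℕ → ℤ) (I g x : ℕ) : ℤ :=
  if g = 0 then (if s0 x then 1 else 0) * Q
  else ∑ z ∈ range V, Em V Q u v A I (g - 1) x z * (if s0 z then 1 else 0)

lemma Hm_spec {V G I : ℕ} (hV : V = 6 * G) {Q : ℤ} (hQ : 0 < Q) {u v : ℕ → ℕ} {A : ℕ → ℤ}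
    (hA : ∀ g < 5 * G, 0 ≤ A g ∧ A g ≤ Q) (hI : 5 * G ≤ 2 ^ I) {g x : ℕ} (hg : g ≤ 5 * G)
    (hx : x < V) : 0 ≤ Hm V Q u v A I g x ∧ Hm V Q u v A I g x ≤ Q ∧
      |(Hm V Q u v A I g x : ℝ) / Q - HN u v (fun g => (A g : ℝ) / Q) g x| ≤ 2 ^ I * V / Q := by
  have hQR : (0:ℝ) < Q := by exact_mod_cast hQ
  have ha : ∀ g < 5 * G, 0 ≤ (fun g => (A g : ℝ) / Q) g ∧ (fun g => (A g : ℝ) / Q) g ≤ 1 := by
    intro g hg
    have h1 : (0:ℝ) ≤ A g := by exact_mod_cast (hA g hg).1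
    have h2 : (A g : ℝ) ≤ Q := by exact_mod_cast (hA g hg).2
    exact ⟨by positivity, by rw [div_le_one hQR]; exact h2⟩
  unfold Hm
  by_cases h0 : g = 0
  · subst h0
    simp only [if_true, HN]
    refine ⟨by split_ifs <;> omega, by split_ifs <;> omega, ?_⟩
    have : ((((if s0 x then (1:ℤ) else 0) * Q : ℤ) : ℝ)) / Q - (if s0 x then 1 else 0) = 0 := by
      split_ifs <;> push_cast <;> field_simp <;> simp
    rw [this, abs_zero]
    positivity
  · rw [if_neg h0]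
    obtain ⟨h1, h2, h3⟩ := HN_approx (a := fun g => (A g : ℝ) / Q) (E := Em V Q u v A) (u := u)
      (v := v) hV hQ ha (fun g _ x _ z _ => Em_zero hQ g x z) (fun i g _ x _ z _ => rfl)
      (I := I) (g := g - 1) (x := x) (by omega) (by omega) hx
    have e1 : g - 1 + 1 = g := by omega
    rw [e1] at h1
    have e2 : ((∑ z ∈ range V, Em V Q u v A I (g - 1) x z * (if s0 z then 1 else 0) : ℤ) : ℝ) =
        ∑ z ∈ range V, (Em V Q u v A I (g - 1) x z : ℝ) * (if s0 z then 1 else 0) := by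
      push_cast; rfl
    rw [← e2] at h1 h2 h3
    exact ⟨by exact_mod_cast h2, by exact_mod_cast h3, h1⟩

/-- the new transfer -/
noncomputable def Yn (V : ℕ) (Q : ℤ) (u v : ℕ → ℕ) (A Y : ℕ → ℤ) (I : ℕ) (l : ℤ) (g : ℕ) : ℤ :=
  ((l - 1) * Y g + (A g * (Hm V Q u v A I g (gw u g) - Hm V Q u v A I g (gm v g))) / Q) / l

lemma Yn_bound {V G I : ℕ} (hV : V = 6 * G) {Q : ℤ} (hQ : 0 < Q) {u v : ℕ → ℕ} {A Y : ℕ → ℤ}
    (hA : ∀ g < 5 * G, 0 ≤ A g ∧ A g ≤ Q) (hY : ∀ g < 5 * G, |Y g| ≤ 2 * Q)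
    (hI : 5 * G ≤ 2 ^ I) {l : ℤ} (hl : 1 ≤ l) {g : ℕ} (hg : g < 5 * G) :
    |Yn V Q u v A Y I l g| ≤ 2 * Q ∧
    |(A g * (Hm V Q u v A I g (gw u g) - Hm V Q u v A I g (gm v g))) / Q| ≤ Q := by
  obtain ⟨a1, a2⟩ := hA g hg
  obtain ⟨b1, b2, _⟩ := Hm_spec hV hQ hA hI (u := u) (v := v) hg.le (x := gw u g)
    (by rw [hV]; exact gw_lt hg)
  obtain ⟨c1, c2, _⟩ := Hm_spec hV hQ hA hI (u := u) (v := v) hg.le (x := gm v g)
    (by rw [hV]; exact gm_lt hg)
  have hy := abs_le.mp (hY g hg)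
  unfold Yn
  set h1 := Hm V Q u v A I g (gw u g)
  set h2 := Hm V Q u v A I g (gm v g)
  have hx : |A g * (h1 - h2)| ≤ Q * Q := by
    rw [abs_mul]
    have : |A g| ≤ Q := by rw [abs_le]; constructor <;> omega
    have : |h1 - h2| ≤ Q := by rw [abs_le]; constructor <;> omega
    gcongr
  have hx' := abs_le.mp hx
  have hX : |A g * (h1 - h2) / Q| ≤ Q := by
    rw [abs_le]
    constructor
    · apply Int.le_ediv_of_mul_le hQ
      nlinarith
    · apply Int.ediv_le_of_le_mul hQ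
      exact hx'.2
  refine ⟨?_, hX⟩
  have hX' := abs_le.mp hX
  rw [abs_le]
  constructor
  · apply Int.le_ediv_of_mul_le (by omega)
    nlinarith
  · apply Int.ediv_le_of_le_mul (by omega)
    nlinarith

lemma Yn_err {V G I : ℕ} (hG : 0 < G) (hV : V = 6 * G) {Q : ℤ} (hQ : 0 < Q) {u v : ℕ → ℕ}
    {A Y : ℕ → ℤ} {al : ℕ → ℝ} {es : ℝ} (hal : ∀ g < 5 * G, 0 ≤ al g ∧ al g ≤ 1)
    (hA : ∀ g < 5 * G, 0 ≤ A g ∧ A g ≤ Q) (hes : ∀ g < 5 * G, |(A g : ℝ) / Q - al g| ≤ es)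
    (hI : 5 * G ≤ 2 ^ I) {l : ℤ} (hl : 2 ≤ l) {g : ℕ} (hg : g < 5 * G) :
    |(Yn V Q u v A Y I l g : ℝ) / Q - ((1 - 1 / (l:ℝ)) * ((Y g : ℝ) / Q) +
      1 / (l:ℝ) * xiN u v al g)| ≤ 2 / Q + es + 2 * (2 ^ I * V / Q + 5 * G * es) := by
  have hQR : (0:ℝ) < Q := by exact_mod_cast hQ
  have hlR : (2:ℝ) ≤ l := by exact_mod_cast hl
  have ha : ∀ g < 5 * G, 0 ≤ (fun g => (A g : ℝ) / Q) g ∧ (fun g => (A g : ℝ) / Q) g ≤ 1 := by
    intro g hg
    have h1 : (0:ℝ) ≤ A g := by exact_mod_cast (hA g hg).1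
    have h2 : (A g : ℝ) ≤ Q := by exact_mod_cast (hA g hg).2
    exact ⟨by positivity, by rw [div_le_one hQR]; exact h2⟩
  have hes0 : 0 ≤ es := le_trans (abs_nonneg _) (hes g hg)
  have hwV : gw u g < V := by rw [hV]; exact gw_lt hg
  have hmV : gm v g < V := by rw [hV]; exact gm_lt hg
  have pert : ∀ x < V, |(Hm V Q u v A I g x : ℝ) / Q - HN u v al g x| ≤
      2 ^ I * V / Q + 5 * G * es := by
    intro x hx
    have h1 := (Hm_spec hV hQ hA hI (u := u) (v := v) hg.le hx).2.2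
    have h2 := HN_perturb (u := u) (v := v) hG ha hal (e := es) hes g hg.le x (by omega)
    have h3 : (g:ℝ) * es ≤ 5 * G * es := by
      gcongr
      exact_mod_cast hg.le
    calc |(Hm V Q u v A I g x : ℝ) / Q - HN u v al g x| ≤
        |(Hm V Q u v A I g x : ℝ) / Q - HN u v (fun g => (A g : ℝ) / Q) g x| +
        |HN u v (fun g => (A g : ℝ) / Q) g x - HN u v al g x| := by
          have := abs_add_le ((Hm V Q u v A I g x : ℝ) / Q - HN u v (fun g => (A g : ℝ) / Q) g x)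
            (HN u v (fun g => (A g : ℝ) / Q) g x - HN u v al g x)
          refine le_trans (le_of_eq ?_) this
          congr 1; ring
      _ ≤ _ := by linarith
  have pw := pert _ hwV
  have pm := pert _ hmV
  obtain ⟨b1, b2, _⟩ := Hm_spec hV hQ hA hI (u := u) (v := v) hg.le hwV
  obtain ⟨c1, c2, _⟩ := Hm_spec hV hQ hA hI (u := u) (v := v) hg.le hmV
  have hHw := HN_mem (u := u) (v := v) hG hal g hg.le (gw u g) (by omega)
  have hHm := HN_mem (u := u) (v := v) hG hal g hg.le (gm v g) (by omega)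
  have hAg := ha g hg
  have hesg := hes g hg
  unfold Yn
  set hw := Hm V Q u v A I g (gw u g)
  set hm := Hm V Q u v A I g (gm v g)
  set X : ℤ := (A g * (hw - hm)) / Q with hX
  have f1 := floor_err (a := (l - 1) * Y g + X) (b := l) (by omega)
  have f2 := floor_err (a := A g * (hw - hm)) (b := Q) hQ
  rw [← hX] at f2
  set δ := 2 ^ I * V / Q + 5 * G * es with hδ
  -- xi error
  have hxi : |(X : ℝ) / Q - xiN u v al g| ≤ 1 / Q + es + 2 * δ := by
    unfold xiN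
    have e1 : (X:ℝ) / Q - -al g * (HN u v al g (gm v g) - HN u v al g (gw u g)) =
        ((X : ℝ) - ((A g * (hw - hm) : ℤ) : ℝ) / Q) / Q +
        ((A g : ℝ) / Q * (((hw : ℝ) / Q - HN u v al g (gw u g)) -
          ((hm : ℝ) / Q - HN u v al g (gm v g))) +
        ((A g : ℝ) / Q - al g) * (HN u v al g (gw u g) - HN u v al g (gm v g))) := by
      push_cast
      field_simp
      ring
    rw [e1]
    have g1 : |((X : ℝ) - ((A g * (hw - hm) : ℤ) : ℝ) / Q) / Q| ≤ 1 / Q := by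
      rw [abs_div, abs_of_pos hQR]; gcongr
    have g2 : |(A g : ℝ) / Q * (((hw : ℝ) / Q - HN u v al g (gw u g)) -
          ((hm : ℝ) / Q - HN u v al g (gm v g)))| ≤ 2 * δ := by
      rw [abs_mul, abs_of_nonneg hAg.1]
      have : |((hw : ℝ) / Q - HN u v al g (gw u g)) - ((hm : ℝ) / Q - HN u v al g (gm v g))| ≤
          2 * δ := by
        have := abs_sub ((hw : ℝ) / Q - HN u v al g (gw u g)) ((hm : ℝ) / Q - HN u v al g (gm v g))
        linarith
      calc (A g : ℝ) / Q * _ ≤ 1 * (2 * δ) := by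
            apply mul_le_mul hAg.2 this (abs_nonneg _) (by norm_num)
        _ = 2 * δ := by ring
    have g3 : |((A g : ℝ) / Q - al g) * (HN u v al g (gw u g) - HN u v al g (gm v g))| ≤ es := by
      rw [abs_mul]
      have : |HN u v al g (gw u g) - HN u v al g (gm v g)| ≤ 1 := by
        rw [abs_le]; constructor <;> linarith [hHw.1, hHw.2, hHm.1, hHm.2]
      calc _ ≤ es * 1 := mul_le_mul hesg this (abs_nonneg _) hes0
        _ = es := by ring
    have t1 := abs_add_le (((X : ℝ) - ((A g * (hw - hm) : ℤ) : ℝ) / Q) / Q)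
      ((A g : ℝ) / Q * (((hw : ℝ) / Q - HN u v al g (gw u g)) -
          ((hm : ℝ) / Q - HN u v al g (gm v g))) +
        ((A g : ℝ) / Q - al g) * (HN u v al g (gw u g) - HN u v al g (gm v g)))
    have t2 := abs_add_le ((A g : ℝ) / Q * (((hw : ℝ) / Q - HN u v al g (gw u g)) -
          ((hm : ℝ) / Q - HN u v al g (gm v g))))
        (((A g : ℝ) / Q - al g) * (HN u v al g (gw u g) - HN u v al g (gm v g)))
    linarith
  have e2 : ((((l - 1) * Y g + X) / l : ℤ) : ℝ) / Q - ((1 - 1 / (l:ℝ)) * ((Y g : ℝ) / Q) +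
      1 / (l:ℝ) * xiN u v al g) =
      (((((l - 1) * Y g + X) / l : ℤ) : ℝ) - (((l - 1) * Y g + X : ℤ) : ℝ) / l) / Q +
      1 / (l:ℝ) * ((X : ℝ) / Q - xiN u v al g) := by
    have : (l:ℝ) ≠ 0 := by positivity
    push_cast
    field_simp
    ring
  rw [e2]
  have g1 : |(((((l - 1) * Y g + X) / l : ℤ) : ℝ) - (((l - 1) * Y g + X : ℤ) : ℝ) / l) / Q| ≤
      1 / Q := by
    rw [abs_div, abs_of_pos hQR]; gcongr
  have g2 : |1 / (l:ℝ) * ((X : ℝ) / Q - xiN u v al g)| ≤ 1 / Q + es + 2 * δ := by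
    rw [abs_mul, abs_of_nonneg (by positivity : (0:ℝ) ≤ 1 / (l:ℝ))]
    have : 1 / (l:ℝ) ≤ 1 := by rw [div_le_one (by linarith)]; linarith
    calc 1 / (l:ℝ) * |(X : ℝ) / Q - xiN u v al g| ≤ 1 * (1 / Q + es + 2 * δ) := by
          apply mul_le_mul this hxi (abs_nonneg _) (by norm_num)
      _ = _ := by ring
  have := abs_add_le ((((((l - 1) * Y g + X) / l : ℤ) : ℝ) -
    (((l - 1) * Y g + X : ℤ) : ℝ) / l) / Q) (1 / (l:ℝ) * ((X : ℝ) / Q - xiN u v al g))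
  have e3 : (2:ℝ) / Q = 1 / Q + 1 / Q := by ring
  linarith

end Core

end Pool.Agent.Helper91.SM
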