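import Pool.Agent.Helper91.SM.CoreB1

/-!
Specification of the body of the homotopy loop.
-/

namespace Pool.Agent.Helper91.SM

open Finset Term

namespace Core

open Gadget

/-- smoothing scale of a step -/
def Tj (G ph j : ℕ) : ℕ := (2 * DD G - j) * 2 ^ (LL G - ph) * QQ0 G

noncomputable def Zj (G : ℕ) (u v : ℕ → ℕ) (Y : ℕ → ℤ) (g : ℕ) : ℤ :=
  SQ (QQ G) u v Y g (gm v g) - SQ (QQ G) u v Y g (gw u g)

noncomputable def Nj (G : ℕ) (u v : ℕ → ℕ) (ph j : ℕ) (Y : ℕ → ℤ) (g : ℕ) : ℕ :=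
  (Zj G u v Y g * Zj G u v Y g + (4 * ((Tj G ph j : ℤ) * (Tj G ph j : ℤ))) * wg u v g).toNat

noncomputable def Aj (G : ℕ) (u v : ℕ → ℕ) (ph j : ℕ) (Y : ℕ → ℤ) (g : ℕ) : ℤ :=
  SA' (QQ G) (Nat.sqrt (Nj G u v ph j Y g)) (Zj G u v Y g)

noncomputable def Yj (G : ℕ) (u v : ℕ → ℕ) (ph j : ℕ) (Y : ℕ → ℤ) (g : ℕ) : ℤ :=
  Yn (6 * G) (QQ G) u v (Aj G u v ph j Y) Y (lg G + 3) (2 * (DD G : ℤ) - j) g

lemma Nj_eq (G : ℕ) (u v : ℕ → ℕ) (ph j : ℕ) (Y : ℕ → ℤ) (g : ℕ) : (Nj G u v ph j Y g : ℤ) =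
    Zj G u v Y g * Zj G u v Y g + (4 * ((Tj G ph j : ℤ) * (Tj G ph j : ℤ))) * wg u v g := by
  unfold Nj
  rw [Int.toNat_of_nonneg]
  have := mul_self_nonneg (Zj G u v Y g)
  positivity

lemma QQ_pos (G : ℕ) : (0:ℤ) < QQ G := by
  unfold QQ QQ0
  have := DD_pos G
  have : 0 < DD G := by omega
  positivity

lemma Tj_pos {G ph j : ℕ} (hj : j < DD G) : 0 < Tj G ph j := by
  unfold Tj QQ0
  have : 0 < 2 * DD G - j := by omega
  positivity

lemma Tj_le (G ph j : ℕ) : Tj G ph j ≤ QQ G := by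
  unfold Tj QQ
  gcongr
  · omega
  · norm_num
  · omega

lemma Zj_bound {G : ℕ} {u v : ℕ → ℕ} {Y : ℕ → ℤ} (hY : ∀ g < 5 * G, |Y g| ≤ 2 * (QQ G : ℤ))
    {g : ℕ} (hg : g < 5 * G) : |Zj G u v Y g| ≤ 20 * ((G : ℤ) + 2) * QQ G := by
  have hQ := QQ_pos G
  have h1 := SQ_bound hQ u v (Y := Y) (n := g) (fun h hh => hY h (by omega)) (gm v g)
  have h2 := SQ_bound hQ u v (Y := Y) (n := g) (fun h hh => hY h (by omega)) (gw u g)
  have h3 := abs_sub (SQ (QQ G) u v Y g (gm v g)) (SQ (QQ G) u v Y g (gw u g))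
  have h4 : 2 * ((1 + 2 * (g:ℤ)) * QQ G) ≤ 20 * ((G : ℤ) + 2) * QQ G := by
    have : (g:ℤ) < 5 * G := by exact_mod_cast hg
    nlinarith
  unfold Zj
  linarith

lemma Nj_bound {G : ℕ} {u v : ℕ → ℕ} {Y : ℕ → ℤ} (hY : ∀ g < 5 * G, |Y g| ≤ 2 * (QQ G : ℤ))
    {g ph j : ℕ} (hg : g < 5 * G) : Nat.sqrt (Nj G u v ph j Y g) ≤ 40 * (G + 2) * QQ G := by
  have h1 := Zj_bound (u := u) (v := v) hY hg
  have h2 : ((Tj G ph j : ℕ) : ℤ) ≤ QQ G := by exact_mod_cast Tj_le G ph j
  have h3 : ((wg u v g : ℕ) : ℤ) ≤ 18 := by exact_mod_cast (wg_bound u v g).2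
  have hTgen : ∀ T Q w : ℤ, 0 ≤ T → T ≤ Q → 0 ≤ w → w ≤ 18 →
      (4 * (T * T)) * w ≤ (4 * (Q * Q)) * 18 := by
    intro T Q w h1 h2 h3 h4
    have hQ : 0 ≤ Q := h1.trans h2
    gcongr
  have h4 : (Nj G u v ph j Y g : ℤ) ≤ ((40 * (G + 2) * QQ G : ℕ) : ℤ) ^ 2 := by
    rw [Nj_eq]
    push_cast
    have hQ := QQ_pos G
    have hz : Zj G u v Y g * Zj G u v Y g ≤ (20 * ((G : ℤ) + 2) * QQ G) ^ 2 := by
      rw [← sq, ← sq_abs]
      exact pow_le_pow_left₀ (abs_nonneg _) h1 2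
    have hT : (4 * ((Tj G ph j : ℤ) * (Tj G ph j : ℤ))) * wg u v g ≤
        (4 * ((QQ G : ℤ) * QQ G)) * 18 :=
      hTgen _ _ _ (Int.natCast_nonneg _) h2 (Int.natCast_nonneg _) h3
    have hG2 : (1:ℤ) ≤ ((G:ℤ) + 2) ^ 2 := by nlinarith
    have h5 : (QQ G : ℤ) * QQ G ≤ ((G:ℤ) + 2) ^ 2 * (QQ G * QQ G) :=
      le_mul_of_one_le_left (by positivity) hG2
    nlinarith
  have h5 : Nj G u v ph j Y g ≤ (40 * (G + 2) * QQ G) ^ 2 := by exact_mod_cast h4
  calc Nat.sqrt (Nj G u v ph j Y g) ≤ Nat.sqrt ((40 * (G + 2) * QQ G) ^ 2) := Nat.sqrt_le_sqrt h5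
    _ = _ := Nat.sqrt_eq' _

lemma big_lt {G W : ℕ} (hW : Big G W) : 40 * (G + 2) * QQ G < W := by
  have h1 := QQ_le G
  have h2 : 0 < (G + 2) ^ 7 := by positivity
  calc 40 * (G + 2) * QQ G ≤ 40 * (G + 2) * (2 ^ 42 * (G + 2) ^ 6) := by gcongr
    _ = (40 * 2 ^ 42) * (G + 2) ^ 7 := by ring
    _ < 2 ^ 50 * (G + 2) ^ 7 := Nat.mul_lt_mul_of_pos_right (by norm_num) h2
    _ ≤ W := hW

lemma store_big {G W : ℕ} (hW : Big G W) {z : ℤ} (hz : |z| ≤ 40 * ((G:ℤ) + 2) * QQ G) :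
    store W z = z := by
  apply store_of_lt
  refine lt_of_le_of_lt hz ?_
  exact_mod_cast big_lt hW

lemma store_QQ {G W : ℕ} (hW : Big G W) {z : ℤ} (hz : |z| ≤ 2 * QQ G) : store W z = z := by
  apply store_big hW
  have := QQ_pos G
  nlinarith

lemma Aj_spec {G : ℕ} {u v : ℕ → ℕ} {Y : ℕ → ℤ} {g ph j : ℕ} (hj : j < DD G) :
    0 ≤ Aj G u v ph j Y g ∧ Aj G u v ph j Y g ≤ QQ G ∧
    |(Aj G u v ph j Y g : ℝ) / (QQ G : ℤ) - Net.slope (((Tj G ph j : ℤ) : ℝ) / (QQ G : ℤ)) (wg u v g)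
      ((Zj G u v Y g : ℝ) / (QQ G : ℤ))| ≤ 1 / ((QQ G : ℤ) : ℝ) + 1 / (4 * ((Tj G ph j : ℤ) : ℝ)) := by
  have h := slope_err (Q := QQ G) (Z := Zj G u v Y g) (T := Tj G ph j) (w := wg u v g)
    (N := Nj G u v ph j Y g) (QQ_pos G) (by exact_mod_cast Tj_pos hj) (wg_bound u v g).1
    (Nj_eq G u v ph j Y g)
  exact ⟨h.1, h.2.1, h.2.2.2.2⟩

lemma ev_tSt {W G : ℕ} {m : Mem} {u v : ℕ → ℕ} {Y : ℕ → ℤ} (hW : Big G W) (hs : SA G u v m)
    (hY : ∀ g < 5 * G, m 30 g 0 0 = Y g) {n x : Term} {e : ℕ → ℤ} {N X : ℕ}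
    (hn : ∀ y : ℤ, eval W m n (Function.update e 3 y) = N)
    (hx : ∀ y : ℤ, eval W m x (Function.update e 3 y) = X) (hx0 : eval W m x e = X)
    (hN : N ≤ 5 * G) (hX : X < 6 * G) :
    eval W m (tSt n x) e = SQ (QQ G) u v Y N X := by
  have hNW : N ≤ W := (small_lt hW (n := N) (by omega)).le
  unfold tSt SQ
  rw [ev_add, ev_mul, ev_g1, hx0, Int.toNat_natCast, hs.s0 X hX, ev_g0, hs.Q,
    eval_sumTo W m 3 n _ _ N hNW hn]
  congr 1
  refine Finset.sum_congr rfl fun h hh => ?_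
  have hh' := Finset.mem_range.mp hh
  rw [ev_mul, ev_sub, eval_eqt, eval_eqt, hx, ev_g1, ev_g1, ev_g1, ev_var, Function.update_self,
    Int.toNat_natCast, hY h (by omega), hs.gm h (by omega), hs.gw h (by omega)]
  congr 1
  rw [iv_congr (Nat.cast_inj (R := ℤ)), iv_congr (Nat.cast_inj (R := ℤ))]

theorem body_spec {W G : ℕ} (hW : Big G W) {m : Mem} {u v : ℕ → ℕ} {Y : ℕ → ℤ}
    (hs : SA G u v m) (hY : ∀ g < 5 * G, m 30 g 0 0 = Y g)
    (hYb : ∀ g < 5 * G, |Y g| ≤ 2 * (QQ G : ℤ)) {ph j : ℕ} (hph : ph < LL G) (hj : j < DD G)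
    (h31 : m 31 0 0 0 = ph) (h32 : m 32 0 0 0 = j) :
    (∀ g < 5 * G, (exec W body m) 30 g 0 0 = Yj G u v ph j Y g) ∧
    steps W body m ≤ 2 * lg G + 15 := by
  have hW0 : 0 < W := small_lt hW (n := 0) (by omega)
  have hQ := QQ_pos G
  have hlg2 := two_pow_lg G
  have hlt := Nat.lt_two_pow_self (n := lg G)
  have hLL := LL_le G
  have hGW : 6 * G < W := small_lt hW (by omega)
  set m1 := exec W (.assign 34 tT) m with hm1
  set m2 := exec W (.assign 35 tZ) m1 with hm2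
  set m3 := exec W (.assign 36 tF) m2 with hm3
  set m4 := exec W (.assign 37 tA) m3 with hm4
  set m5 := exec W (.assign 38 tE0) m4 with hm5
  set m6 := exec W (.loop 33 (g0 15 + 3) (.assign 38 tE)) m5 with hm6
  set m7 := exec W (.assign 39 tH) m6 with hm7
  set m8 := exec W (.assign 40 tXi) m7 with hm8
  have f1 : ∀ r, r ≠ 34 → m1 r = m r := fun r hr => exec_frame _ _ _ _ (by simpa [mods] using hr)
  have f2 : ∀ r, r ≠ 35 → m2 r = m1 r := fun r hr => exec_frame _ _ _ _ (by simpa [mods] using hr)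
  have f3 : ∀ r, r ≠ 36 → m3 r = m2 r := fun r hr => exec_frame _ _ _ _ (by simpa [mods] using hr)
  have f4 : ∀ r, r ≠ 37 → m4 r = m3 r := fun r hr => exec_frame _ _ _ _ (by simpa [mods] using hr)
  have f5 : ∀ r, r ≠ 38 → m5 r = m4 r := fun r hr => exec_frame _ _ _ _ (by simpa [mods] using hr)
  have f6 : ∀ r, r ≠ 33 → r ≠ 38 → m6 r = m5 r := fun r hr hr' =>
    exec_frame _ _ _ _ (by simp [mods, hr, hr'])
  have f7 : ∀ r, r ≠ 39 → m7 r = m6 r := fun r hr => exec_frame _ _ _ _ (by simpa [mods] using hr)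
  have f8 : ∀ r, r ≠ 40 → m8 r = m7 r := fun r hr => exec_frame _ _ _ _ (by simpa [mods] using hr)
  -- the input data in all memories
  have s1 : SA G u v m1 := hs.congr fun r h1 h2 => f1 r (by omega)
  have s2 : SA G u v m2 := s1.congr fun r h1 h2 => f2 r (by omega)
  have s3 : SA G u v m3 := s2.congr fun r h1 h2 => f3 r (by omega)
  have s4 : SA G u v m4 := s3.congr fun r h1 h2 => f4 r (by omega)
  have s5 : SA G u v m5 := s4.congr fun r h1 h2 => f5 r (by omega)
  have s6 : SA G u v m6 := s5.congr fun r h1 h2 => f6 r (by omega) (by omega)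
  have s7 : SA G u v m7 := s6.congr fun r h1 h2 => f7 r (by omega)
  have s8 : SA G u v m8 := s7.congr fun r h1 h2 => f8 r (by omega)
  have y1 : ∀ g < 5 * G, m1 30 g 0 0 = Y g := fun g hg => by rw [f1 30 (by decide), hY g hg]
  -- smoothing scale
  have a34 : m1 34 0 0 0 = Tj G ph j := by
    rw [hm1, exec_assign _ _ _ _ hW0 hW0 hW0]
    have : eval W m tT (env 0 0 0) = (Tj G ph j : ℕ) := by
      unfold tT Tj
      rw [ev_mul, ev_mul, ev_sub, ev_mul, ev_num, ev_g0, ev_g0, ev_g1, ev_sub, ev_g0, ev_g0, ev_g0,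
        hs.D, h32, hs.L, h31, hs.Q0]
      have e1 : ((LL G : ℤ) - (ph : ℤ)).toNat = LL G - ph := by omega
      rw [e1, hs.p2 _ (by omega)]
      have e2 : j ≤ 2 * DD G := by omega
      push_cast [Nat.cast_sub e2]
      rfl
    rw [this]
    apply store_QQ hW
    have := Tj_le G ph j
    rw [abs_of_nonneg (Int.natCast_nonneg _)]
    have : ((Tj G ph j : ℕ) : ℤ) ≤ QQ G := by exact_mod_cast this
    omega
  -- inputs
  have a35 : ∀ g < 5 * G, m2 35 g 0 0 = Zj G u v Y g := by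
    intro g hg
    rw [hm2, exec_assign _ _ _ _ (by omega) hW0 hW0]
    have : eval W m1 tZ (env g 0 0) = Zj G u v Y g := by
      unfold tZ Zj
      rw [ev_sub, ev_tSt hW s1 y1 (N := g) (X := gm v g)
          (by intro y; rw [ev_var, Function.update_of_ne (by decide), env0])
          (by intro y; rw [ev_g1, ev_var, Function.update_of_ne (by decide), env0,
            Int.toNat_natCast, s1.gm g hg])
          (by rw [ev_g1, ev_var, env0, Int.toNat_natCast, s1.gm g hg]) hg.le (gm_lt hg),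
        ev_tSt hW s1 y1 (N := g) (X := gw u g)
          (by intro y; rw [ev_var, Function.update_of_ne (by decide), env0])
          (by intro y; rw [ev_g1, ev_var, Function.update_of_ne (by decide), env0,
            Int.toNat_natCast, s1.gw g hg])
          (by rw [ev_g1, ev_var, env0, Int.toNat_natCast, s1.gw g hg]) hg.le (gw_lt hg)]
    rw [this]
    apply store_big hW
    refine (Zj_bound hYb hg).trans ?_
    gcongr
    norm_num
  -- smoothing function
  have a36 : ∀ g < 5 * G, m3 36 g 0 0 = Nat.sqrt (Nj G u v ph j Y g) := by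
    intro g hg
    rw [hm3, exec_assign _ _ _ _ (by omega) hW0 hW0]
    have hb := Nj_bound (u := u) (v := v) (ph := ph) (j := j) hYb hg
    have hb2 := big_lt hW
    have : eval W m2 tF (env g 0 0) = (Nat.sqrt (Nj G u v ph j Y g) : ℕ) := by
      unfold tF
      rw [ev_sum, ← sum_sqrt (W := W) (N := Nj G u v ph j Y g) (by omega)]
      refine Finset.sum_congr rfl fun x _ => ?_
      rw [eval_le]
      simp only [ev_mul, ev_add, ev_num, ev_one, ev_var, ev_g1, ev_g0, Function.update_self,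
        Function.update_of_ne (show (0:ℕ) ≠ 3 by decide), env0, Int.toNat_natCast]
      rw [a35 g hg, f2 34 (by decide), a34, s2.wg g hg, Nj_eq]
    rw [this]
    exact store_nat (by omega)
  -- slopes
  have a37 : ∀ g < 5 * G, m4 37 g 0 0 = Aj G u v ph j Y g := by
    intro g hg
    rw [hm4, exec_assign _ _ _ _ (by omega) hW0 hW0]
    have : eval W m3 tA (env g 0 0) = Aj G u v ph j Y g := by
      unfold tA Aj SA'
      rw [ev_div, ev_mul, ev_sub, ev_mul, ev_num, ev_g1, ev_g1, ev_g0, ev_var, env0,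
        Int.toNat_natCast, a36 g hg, f3 35 (by decide), a35 g hg, s3.Q]
    rw [this]
    obtain ⟨b1, b2, _⟩ := Aj_spec (u := u) (v := v) (Y := Y) (g := g) (ph := ph) hj
    apply store_QQ hW
    rw [abs_of_nonneg b1]; omega
  have hA : ∀ g < 5 * G, 0 ≤ Aj G u v ph j Y g ∧ Aj G u v ph j Y g ≤ QQ G := fun g _ =>
    ⟨(Aj_spec (u := u) (v := v) (Y := Y) (g := g) (ph := ph) hj).1,
      (Aj_spec (u := u) (v := v) (Y := Y) (g := g) (ph := ph) hj).2.1⟩
  set A := Aj G u v ph j Y with hAdef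
  have hEb : ∀ i, ∀ g < 5 * G, ∀ x < 6 * G, ∀ z < 6 * G,
      store W (Em (6 * G) (QQ G) u v A i g x z) = Em (6 * G) (QQ G) u v A i g x z := by
    intro i g hg x hx z hz
    have := Em_bound (u := u) (v := v) rfl hQ hA i hg hx hz
    apply store_QQ hW
    rw [abs_of_nonneg this.1]; omega
  -- matrices, initial
  have a38 : ∀ g < 5 * G, ∀ x < 6 * G, ∀ z < 6 * G,
      m5 38 g x z = Em (6 * G) (QQ G) u v A 0 g x z := by
    intro g hg x hx z hz
    rw [hm5, exec_assign _ _ _ _ (by omega) (by omega) (by omega), ← hEb 0 g hg x hx z hz]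
    congr 1
    unfold tE0 Em
    have hA' : m4 37 g 0 0 = A g := a37 g hg
    rw [eval_ite_iv (p := x = gm v g) (by
        rw [eval_eqt, ev_var, env1, ev_g1, ev_var, env0, Int.toNat_natCast, s4.gm g hg]
        exact iv_congr Nat.cast_inj),
      eval_ite_iv (p := z = gm v g) (by
        rw [eval_eqt, ev_var, env2, ev_g1, ev_var, env0, Int.toNat_natCast, s4.gm g hg]
        exact iv_congr Nat.cast_inj),
      eval_ite_iv (p := z = gw u g) (by
        rw [eval_eqt, ev_var, env2, ev_g1, ev_var, env0, Int.toNat_natCast, s4.gw g hg]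
        exact iv_congr Nat.cast_inj),
      eval_ite_iv (p := x = gw u g) (by
        rw [eval_eqt, ev_var, env1, ev_g1, ev_var, env0, Int.toNat_natCast, s4.gw g hg]
        exact iv_congr Nat.cast_inj),
      eval_ite_iv (p := z = gm v g) (by
        rw [eval_eqt, ev_var, env2, ev_g1, ev_var, env0, Int.toNat_natCast, s4.gm g hg]
        exact iv_congr Nat.cast_inj),
      eval_ite_iv (p := z = gw u g) (by
        rw [eval_eqt, ev_var, env2, ev_g1, ev_var, env0, Int.toNat_natCast, s4.gw g hg]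
        exact iv_congr Nat.cast_inj),
      eval_ite_iv (p := x = z) (by
        rw [eval_eqt, ev_var, env1, ev_var, env2]
        exact iv_congr Nat.cast_inj)]
    simp only [ev_sub, ev_g0, ev_g1, ev_zero, ev_var, env0, Int.toNat_natCast, hA', s4.Q]
  -- loop
  have hn : (eval W m5 (g0 15 + 3) (env 0 0 0)).toNat = lg G + 3 := by
    rw [ev_add, ev_g0, s5.lg, ev_num]
    norm_cast
  have hloop := loop_inv (W := W) (r := 33) (t := g0 15 + 3) (p := .assign 38 tE) (m := m5)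
    (n := lg G + 3) hn (fun i m' => ∀ g < 5 * G, ∀ x < 6 * G, ∀ z < 6 * G,
      m' 38 g x z = Em (6 * G) (QQ G) u v A i g x z) 1 a38
    (by
      intro i hi m' hfr hInv
      refine ⟨?_, by rw [steps_assign]⟩
      intro g hg x hx z hz
      have hfr' : ∀ r', r' ≠ 33 → r' ≠ 38 → setc W 33 i m' r' = m5 r' := by
        intro r' h1 h2
        rw [setc, Function.update_of_ne h1]
        exact hfr r' (by simp [mods, h1, h2])
      have h38 : setc W 33 i m' 38 = m' 38 := by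
        rw [setc, Function.update_of_ne (by decide)]
      have h33 : setc W 33 i m' 33 0 0 0 = i := by
        rw [setc, Function.update_self]
        exact store_nat (small_lt hW (by omega))
      have h16 : setc W 33 i m' 16 i 0 0 = 2 ^ i := by
        rw [hfr' 16 (by decide) (by decide)]
        exact s5.p2 i (by omega)
      have h10 : setc W 33 i m' 10 0 0 0 = G := by
        rw [hfr' 10 (by decide) (by decide)]
        exact s5.g
      have h20 : setc W 33 i m' 20 0 0 0 = QQ G := by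
        rw [hfr' 20 (by decide) (by decide)]
        exact s5.Q
      rw [exec_assign _ _ _ _ (by omega) (by omega) (by omega), ← hEb (i + 1) g hg x hx z hz]
      congr 1
      unfold tE
      rw [eval_ite_iv (p := 2 ^ i ≤ g) (by
        rw [eval_le, ev_g1, ev_g0, h33, Int.toNat_natCast, h16, ev_var, env0]
        apply iv_congr; norm_cast)]
      have hrhs : Em (6 * G) (QQ G) u v A (i + 1) g x z = if 2 ^ i ≤ g then
        (∑ y ∈ range (6 * G), Em (6 * G) (QQ G) u v A i g x y *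
          Em (6 * G) (QQ G) u v A i (g - 2 ^ i) y z) / (QQ G : ℤ)
        else Em (6 * G) (QQ G) u v A i g x z := rfl
      rw [hrhs]
      by_cases hg2 : 2 ^ i ≤ g
      · rw [if_pos hg2, if_pos hg2, ev_div, ev_g0, h20,
          eval_sumTo W _ 3 _ _ _ (6 * G) hGW.le
            (by intro y; rw [ev_mul, ev_num, ev_g0, h10]; push_cast; rfl)]
        congr 1
        refine Finset.sum_congr rfl fun y hy => ?_
        have hy' := Finset.mem_range.mp hy
        rw [ev_mul, ev_get, ev_get, ev_sub, ev_g1, ev_g0, h33, Int.toNat_natCast, h16]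
        simp only [ev_var, Function.update_self, Function.update_of_ne (show (0:ℕ) ≠ 3 by decide),
          Function.update_of_ne (show (1:ℕ) ≠ 3 by decide),
          Function.update_of_ne (show (2:ℕ) ≠ 3 by decide), env0, env1, env2, Int.toNat_natCast]
        have e1 : ((g : ℤ) - 2 ^ i).toNat = g - 2 ^ i := by
          have : ((g : ℤ) - 2 ^ i) = ((g - 2 ^ i : ℕ) : ℤ) := by push_cast [Nat.cast_sub hg2]; rfl
          rw [this, Int.toNat_natCast]
        rw [e1, h38, hInv g hg x hx y hy', hInv (g - 2 ^ i) (lt_of_le_of_lt (Nat.sub_le _ _) hg)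
          y hy' z hz]
      · rw [if_neg hg2, if_neg hg2, ev_get]
        simp only [ev_var, env0, env1, env2, Int.toNat_natCast]
        rw [h38, hInv g hg x hx z hz])
  have b38 : ∀ g < 5 * G, ∀ x < 6 * G, ∀ z < 6 * G,
      m6 38 g x z = Em (6 * G) (QQ G) u v A (lg G + 3) g x z := hloop.1
  have hI : 5 * G ≤ 2 ^ (lg G + 3) := by
    rw [pow_add]; omega
  have hHb : ∀ g ≤ 5 * G, ∀ x < 6 * G, store W (Hm (6 * G) (QQ G) u v A (lg G + 3) g x) =
      Hm (6 * G) (QQ G) u v A (lg G + 3) g x := by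
    intro g hg x hx
    have := Hm_spec (u := u) (v := v) rfl hQ hA hI hg hx
    apply store_QQ hW
    rw [abs_of_nonneg this.1]; omega
  have a39 : ∀ g < 5 * G, ∀ x < 6 * G, m7 39 g x 0 =
      Hm (6 * G) (QQ G) u v A (lg G + 3) g x := by
    intro g hg x hx
    rw [hm7, exec_assign _ _ _ _ (by omega) (by omega) hW0, ← hHb g hg.le x hx]
    congr 1
    unfold tH Hm
    rw [eval_ite_iv (p := g = 0) (by
      rw [eval_eqt, ev_var, env0, ev_zero]; apply iv_congr; norm_cast)]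
    by_cases h0 : g = 0
    · rw [if_pos h0, if_pos h0, ev_mul, ev_g1, ev_g0, ev_var, env1, Int.toNat_natCast,
        s6.s0 x hx, s6.Q]
    · rw [if_neg h0, if_neg h0, eval_sumTo W _ 3 _ _ _ (6 * G) hGW.le
            (by intro y; rw [ev_mul, ev_num, ev_g0, s6.g]; push_cast; rfl)]
      refine Finset.sum_congr rfl fun z hz => ?_
      have hz' := Finset.mem_range.mp hz
      rw [ev_mul, ev_get, ev_sub, ev_one, ev_g1]
      simp only [ev_var, Function.update_self, Function.update_of_ne (show (0:ℕ) ≠ 3 by decide),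
          Function.update_of_ne (show (1:ℕ) ≠ 3 by decide), env0, env1, Int.toNat_natCast]
      have e1 : ((g : ℤ) - 1).toNat = g - 1 := by omega
      rw [e1, b38 (g - 1) (by omega) x hx z hz', s6.s0 z hz']
  have m7_37 : ∀ g < 5 * G, m7 37 g 0 0 = A g := by
    intro g hg
    rw [f7 37 (by decide), f6 37 (by decide) (by decide), f5 37 (by decide), a37 g hg]
  have hl1 : (1:ℤ) ≤ 2 * (DD G : ℤ) - j := by omega
  have a40 : ∀ g < 5 * G, m8 40 g 0 0 = (A g * (Hm (6 * G) (QQ G) u v A (lg G + 3) g (gw u g) -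
      Hm (6 * G) (QQ G) u v A (lg G + 3) g (gm v g))) / (QQ G : ℤ) := by
    intro g hg
    rw [hm8, exec_assign _ _ _ _ (by omega) hW0 hW0]
    have : eval W m7 tXi (env g 0 0) =
      (A g * (Hm (6 * G) (QQ G) u v A (lg G + 3) g (gw u g) -
      Hm (6 * G) (QQ G) u v A (lg G + 3) g (gm v g))) / (QQ G : ℤ) := by
      unfold tXi
      simp only [ev_div, ev_mul, ev_sub, ev_g1, ev_g2, ev_g0, ev_var, env0, Int.toNat_natCast]
      rw [s7.Q, s7.gm g hg, s7.gw g hg, m7_37 g hg, Int.toNat_natCast, Int.toNat_natCast,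
        a39 g hg _ (gw_lt hg), a39 g hg _ (gm_lt hg)]
    rw [this]
    apply store_QQ hW
    have := (Yn_bound (u := u) (v := v) rfl hQ hA hYb hI hl1 hg).2
    omega
  refine ⟨?_, ?_⟩
  · intro g hg
    show (exec W (.assign 30 tY) m8) 30 g 0 0 = _
    rw [exec_assign _ _ _ _ (by omega) hW0 hW0]
    have h30 : m8 30 g 0 0 = Y g := by
      rw [f8 30 (by decide), f7 30 (by decide), f6 30 (by decide) (by decide), f5 30 (by decide),
        f4 30 (by decide), f3 30 (by decide), f2 30 (by decide), y1 g hg]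
    have h32' : m8 32 0 0 0 = j := by
      rw [f8 32 (by decide), f7 32 (by decide), f6 32 (by decide) (by decide), f5 32 (by decide),
        f4 32 (by decide), f3 32 (by decide), f2 32 (by decide), f1 32 (by decide), h32]
    have : eval W m8 tY (env g 0 0) = Yj G u v ph j Y g := by
      unfold tY Yj Yn
      simp only [ev_div, ev_mul, ev_sub, ev_add, ev_one, ev_num, ev_g1, ev_g0, ev_var, env0,
        Int.toNat_natCast]
      rw [s8.D, h32', h30, a40 g hg]
    rw [this]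
    apply store_QQ hW
    exact (Yn_bound (u := u) (v := v) rfl hQ hA hYb hI hl1 hg).1
  · have := hloop.2
    show 1 + (1 + (1 + (1 + (1 + (steps W (.loop 33 (g0 15 + 3) (.assign 38 tE)) m5 +
      (1 + (1 + 1))))))) ≤ _
    omega

end Core

end Pool.Agent.Helper91.SM
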