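import Pool.Agent.Helper91.SM.CoreB2

/-!
The homotopy loop: specification and the final bound.
-/

namespace Pool.Agent.Helper91.SM

open Finset Term

namespace Core

open Gadget

attribute [local irreducible] QQ DD QQ0 LL lg Tj

noncomputable def ee (G : ℕ) : ℝ := ((G : ℝ) + 2) ^ 2 / QQ0 G
noncomputable def lamk (G k : ℕ) : ℝ := 1 / (2 * (DD G : ℝ) - (k % DD G : ℕ))
noncomputable def tauk (G k : ℕ) : ℝ :=
  (2 * (DD G : ℝ) - (k % DD G : ℕ)) / (2 * DD G) / 2 ^ (k / DD G)

lemma QQ0_pos (G : ℕ) : (0:ℝ) < QQ0 G := by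
  unfold QQ0; positivity

lemma step_num {g q Qr Tr I : ℝ} {V : ℝ} (hg : 0 ≤ g) (hq : 0 < q) (hQ : 2048 * q ≤ Qr)
    (hT : 1024 * q ≤ Tr) (hI0 : 0 ≤ I) (hI : I ≤ 16 * (g + 2)) (hV : V = 6 * g) :
    2 / Qr + (1 / Qr + 1 / (4 * Tr)) + 2 * (I * V / Qr + 5 * g * (1 / Qr + 1 / (4 * Tr))) ≤
      (g + 2) ^ 2 / q := by
  have hQ0 : 0 < Qr := by linarith
  have hT0 : 0 < Tr := by linarith
  have b1 : 1 / Qr ≤ 1 / (2048 * q) := one_div_le_one_div_of_le (by positivity) hQ
  have b2 : 1 / (4 * Tr) ≤ 1 / (4096 * q) :=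
    one_div_le_one_div_of_le (by positivity) (by linarith)
  have b3 : (1:ℝ) / (2048 * q) = (1 / q) * (1 / 2048) := by field_simp
  have b4 : (1:ℝ) / (4096 * q) = (1 / q) * (1 / 4096) := by field_simp
  rw [b3] at b1
  rw [b4] at b2
  have hiq0 : 0 < 1 / q := by positivity
  have b5 : I * V / Qr ≤ 16 * (g + 2) * (6 * (g + 2)) * ((1 / q) * (1 / 2048)) := by
    rw [div_eq_mul_one_div]
    have h1 : I * V ≤ 16 * (g + 2) * (6 * (g + 2)) := by
      rw [hV]
      gcongr
      linarith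
    exact mul_le_mul h1 b1 (by positivity) (by positivity)
  have b6 : 5 * g * (1 / Qr + 1 / (4 * Tr)) ≤
      5 * (g + 2) * ((1 / q) * (1 / 2048) + (1 / q) * (1 / 4096)) := by
    have h0 : (0:ℝ) ≤ 1 / Qr + 1 / (4 * Tr) := by positivity
    have h1 : 5 * g ≤ 5 * (g + 2) := by linarith
    exact mul_le_mul h1 (by linarith) h0 (by positivity)
  have b7 : (2:ℝ) / Qr = 2 * (1 / Qr) := by ring
  have b8 : (g + 2) ^ 2 / q = (g + 2) ^ 2 * (1 / q) := by ring
  rw [b7, b8]
  generalize 1 / q = iq at *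
  generalize 1 / Qr = iQ at *
  generalize 1 / (4 * Tr) = iT at *
  generalize I * V / Qr = z at *
  generalize 5 * g * (iQ + iT) = z2 at *
  have hc2 : (2:ℝ) ≤ g + 2 := by linarith
  generalize g + 2 = c at *
  have k1 : c ≤ c ^ 2 := by nlinarith
  have k2 : (1:ℝ) ≤ c ^ 2 := by nlinarith
  have k3 := mul_le_mul_of_nonneg_right k1 hiq0.le
  have k4 := mul_le_mul_of_nonneg_right k2 hiq0.le
  nlinarith

lemma step_err {G : ℕ} (hG : 0 < G) {u v : ℕ → ℕ} {Y : ℕ → ℤ} {ph j : ℕ} (hph : ph < LL G)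
    (hj : j < DD G) {g : ℕ} (hg : g < 5 * G) :
    |(Yj G u v ph j Y g : ℝ) / (QQ G : ℤ) - ((1 - lamk G (ph * DD G + j)) *
      ((Y g : ℝ) / (QQ G : ℤ)) + lamk G (ph * DD G + j) *
      xiN u v (alN u v (tauk G (ph * DD G + j)) (fun g => (Y g : ℝ) / (QQ G : ℤ))) g)| ≤ ee G := by
  have hQ := QQ_pos G
  have hQR : (0:ℝ) < ((QQ G : ℤ) : ℝ) := by exact_mod_cast hQ
  have hQ0 := QQ0_pos G
  have hD512 := DD_pos G
  have hD : 0 < DD G := by omega
  have hDR : (512:ℝ) ≤ DD G := by exact_mod_cast hD512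
  have e1 : (ph * DD G + j) % DD G = j := by
    rw [Nat.add_comm, Nat.add_mul_mod_self_right, Nat.mod_eq_of_lt hj]
  have e2 : (ph * DD G + j) / DD G = ph := by
    rw [Nat.add_comm, Nat.add_mul_div_right _ _ hD, Nat.div_eq_of_lt hj, Nat.zero_add]
  have hT := Tj_pos (ph := ph) hj
  have hTR : (0:ℝ) < ((Tj G ph j : ℤ) : ℝ) := by exact_mod_cast hT
  have hjR : (j:ℝ) < DD G := by exact_mod_cast hj
  have hτ : tauk G (ph * DD G + j) = ((Tj G ph j : ℤ) : ℝ) / (QQ G : ℤ) := by
    unfold tauk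
    rw [e1, e2]
    unfold Tj QQ
    push_cast [Nat.cast_sub (show j ≤ 2 * DD G by omega)]
    have h2 : (2:ℝ) ^ LL G = 2 ^ (LL G - ph) * 2 ^ ph := by
      rw [← pow_add]; congr 1; omega
    rw [h2]
    field_simp
  have hl : lamk G (ph * DD G + j) = 1 / (((2 * (DD G : ℤ) - j : ℤ)) : ℝ) := by
    unfold lamk
    rw [e1]; push_cast; rfl
  have hzz : ∀ g, zN u v (fun g => (Y g : ℝ) / (QQ G : ℤ)) g =
      (Zj G u v Y g : ℝ) / (QQ G : ℤ) := by
    intro g
    unfold zN Zj
    push_cast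
    have h1 := SQ_SN hQ u v Y g (gm v g)
    have h2 := SQ_SN hQ u v Y g (gw u g)
    push_cast at h1 h2
    rw [h1, h2]
    have : (QQ G : ℝ) ≠ 0 := by
      have := hQR.ne'
      push_cast at this
      exact this
    field_simp
  have hal : ∀ g < 5 * G, 0 ≤ alN u v (tauk G (ph * DD G + j))
      (fun g => (Y g : ℝ) / (QQ G : ℤ)) g ∧
      alN u v (tauk G (ph * DD G + j)) (fun g => (Y g : ℝ) / (QQ G : ℤ)) g ≤ 1 := by
    intro g _
    unfold alN
    have hw1 : (1:ℝ) ≤ wg u v g := by exact_mod_cast (wg_bound u v g).1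
    have := Net.slope_mem (τ := tauk G (ph * DD G + j)) (wt := wg u v g)
      (z := zN u v (fun g => (Y g : ℝ) / (QQ G : ℤ)) g) hw1 (by rw [hτ]; exact div_pos hTR hQR)
    exact ⟨this.1, by linarith [this.2]⟩
  have hes : ∀ g < 5 * G, |(Aj G u v ph j Y g : ℝ) / (QQ G : ℤ) -
      alN u v (tauk G (ph * DD G + j)) (fun g => (Y g : ℝ) / (QQ G : ℤ)) g| ≤
      1 / ((QQ G : ℤ) : ℝ) + 1 / (4 * ((Tj G ph j : ℤ) : ℝ)) := by
    intro g _
    unfold alN
    rw [hτ, hzz]
    exact (Aj_spec (u := u) (v := v) (Y := Y) (g := g) (ph := ph) hj).2.2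
  have hlg2 := two_pow_lg G
  have hI : 5 * G ≤ 2 ^ (lg G + 3) := by
    rw [pow_add]; omega
  have hmain := Yn_err (u := u) (v := v) (A := Aj G u v ph j Y) (Y := Y) hG rfl hQ hal
    (fun g _ => ⟨(Aj_spec (u := u) (v := v) (Y := Y) (g := g) (ph := ph) hj).1,
      (Aj_spec (u := u) (v := v) (Y := Y) (g := g) (ph := ph) hj).2.1⟩) hes hI
    (l := 2 * (DD G : ℤ) - j) (by omega) hg
  rw [hl]
  refine hmain.trans ?_
  -- numerical bound
  have hTge : 1024 * (QQ0 G : ℝ) ≤ ((Tj G ph j : ℤ) : ℝ) := by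
    have : 1024 * QQ0 G ≤ Tj G ph j := by
      unfold Tj
      apply Nat.mul_le_mul_right
      have h1 : 512 ≤ 2 * DD G - j := by omega
      have h2 : 2 ≤ 2 ^ (LL G - ph) := by
        calc 2 = 2 ^ 1 := rfl
          _ ≤ 2 ^ (LL G - ph) := Nat.pow_le_pow_right (by norm_num) (by omega)
      nlinarith
    exact_mod_cast this
  have hQge : 2048 * (QQ0 G : ℝ) ≤ ((QQ G : ℤ) : ℝ) := by
    exact_mod_cast QQ_ge G
  have hIR : ((2:ℝ) ^ (lg G + 3)) ≤ 16 * ((G:ℝ) + 2) := by
    have : 2 ^ (lg G + 3) ≤ 16 * (G + 2) := by rw [pow_add]; omega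
    exact_mod_cast this
  exact step_num (Nat.cast_nonneg G) hQ0 hQge hTge (by positivity) hIR (by push_cast; ring)

/-- a chain of approximate steps -/
def Chain (G : ℕ) (u v : ℕ → ℕ) (K : ℕ) (y : ℕ → ℝ) : Prop :=
  ∃ Ys : ℕ → ℕ → ℝ, (∀ g < 5 * G, Ys 0 g = 2) ∧
    (∀ k < K, ∀ g < 5 * G, |Ys (k + 1) g - ((1 - lamk G k) * Ys k g +
      lamk G k * xiN u v (alN u v (tauk G k) (Ys k)) g)| ≤ ee G) ∧ Ys K = y

lemma Chain_zero {G : ℕ} {u v : ℕ → ℕ} {y : ℕ → ℝ} (hy : ∀ g < 5 * G, y g = 2) :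
    Chain G u v 0 y := ⟨fun _ => y, hy, by intro k hk; omega, rfl⟩

lemma Chain_succ {G : ℕ} {u v : ℕ → ℕ} {K : ℕ} {y y' : ℕ → ℝ} (h : Chain G u v K y)
    (hs : ∀ g < 5 * G, |y' g - ((1 - lamk G K) * y g +
      lamk G K * xiN u v (alN u v (tauk G K) y) g)| ≤ ee G) : Chain G u v (K + 1) y' := by
  obtain ⟨Ys, h0, h1, h2⟩ := h
  refine ⟨fun k => if k = K + 1 then y' else Ys k, ?_, ?_, ?_⟩
  · intro g hg
    simp only
    rw [if_neg (by omega)]
    exact h0 g hg
  · intro k hk g hg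
    by_cases hkK : k = K
    · subst hkK
      simp only [if_true, if_neg (show k ≠ k + 1 by omega)]
      rw [h2]
      exact hs g hg
    · simp only [if_neg (show k + 1 ≠ K + 1 by omega), if_neg (show k ≠ K + 1 by omega)]
      exact h1 k (by omega) g hg
  · simp

lemma body_mods {r : ℕ} (h : r ∈ mods body) : 30 ≤ r := by
  simp only [mods, body, Finset.mem_union, Finset.mem_insert, Finset.mem_singleton] at h
  omega

/-- loop invariant -/
def InvB (G : ℕ) (u v : ℕ → ℕ) (K : ℕ) (m : Mem) : Prop :=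
  SA G u v m ∧ (∀ g < 5 * G, |m 30 g 0 0| ≤ 2 * (QQ G : ℤ)) ∧
    Chain G u v K (fun g => (m 30 g 0 0 : ℝ) / (QQ G : ℤ))

theorem stB_spec {W G : ℕ} (hG : 0 < G) (hW : Big G W) {m : Mem} {u v : ℕ → ℕ}
    (hs : SA G u v m) : InvB G u v (LL G * DD G) (exec W stB m) ∧
    steps W stB m ≤ LL G * (DD G * (2 * lg G + 16) + 2) + 2 := by
  have hW0 : 0 < W := small_lt hW (n := 0) (by omega)
  have hQ := QQ_pos G
  have hQR : (0:ℝ) < ((QQ G : ℤ) : ℝ) := by exact_mod_cast hQ
  have hGW : 6 * G < W := small_lt hW (by omega)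
  set m0 := exec W (.assign 30 (2 * g0 20)) m with hm0
  have f0 : ∀ r, r ≠ 30 → m0 r = m r := fun r hr => exec_frame _ _ _ _ (by simpa [mods] using hr)
  have s0 : SA G u v m0 := hs.congr fun r h1 h2 => f0 r (by omega)
  have v0 : ∀ g < 5 * G, m0 30 g 0 0 = 2 * QQ G := by
    intro g hg
    rw [hm0, exec_assign _ _ _ _ (by omega) hW0 hW0]
    have : eval W m (2 * g0 20) (env g 0 0) = 2 * QQ G := by
      rw [ev_mul, ev_num, ev_g0, hs.Q]
    rw [this]
    apply store_QQ hW
    rw [abs_of_nonneg (by positivity)]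
  have i0 : InvB G u v 0 m0 := by
    refine ⟨s0, ?_, ?_⟩
    · intro g hg
      rw [v0 g hg, abs_of_nonneg (by positivity)]
    · apply Chain_zero
      intro g hg
      rw [v0 g hg]
      push_cast
      push_cast at hQR
      field_simp
  have hLW : LL G < W := small_lt hW (by
    have := LL_le G
    have := Nat.lt_two_pow_self (n := lg G)
    have := two_pow_lg G
    omega)
  have hDW : DD G < W := by
    have e3 : ((2:ℕ) ^ LL G) ^ 2 ≤ (2 ^ LL G) ^ 3 :=
      Nat.pow_le_pow_right (by positivity) (by norm_num)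
    have e4 := (cube_LL G).2
    have e5 := DD_le G
    have : 4096 * (G + 2) ≤ W := by
      simpa using big_of hW (c := 4096) (n := 1) (by norm_num) (by norm_num)
    omega
  have hn : (eval W m0 (g0 17) (env 0 0 0)).toNat = LL G := by
    rw [ev_g0, s0.L, Int.toNat_natCast]
  have houter := loop_inv (W := W) (r := 31) (t := g0 17) (p := .loop 32 (g0 18) body) (m := m0)
    (n := LL G) hn (fun ph m' => InvB G u v (ph * DD G) m') (DD G * (2 * lg G + 16) + 1)
    (by simpa using i0)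
    (by
      intro ph hph m' _ hInv
      set m1 := setc W 31 ph m' with hm1
      have g1 : ∀ r, r ≠ 31 → m1 r = m' r := fun r hr => by
        rw [hm1, setc, Function.update_of_ne hr]
      have h31 : m1 31 0 0 0 = ph := by
        rw [hm1, setc, Function.update_self]
        exact store_nat (by omega)
      have i1 : InvB G u v (ph * DD G) m1 := by
        refine ⟨hInv.1.congr fun r a b => g1 r (by omega), ?_, ?_⟩
        · intro g hg; rw [g1 30 (by decide)]; exact hInv.2.1 g hg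
        · rw [g1 30 (by decide)]; exact hInv.2.2
      have hn1 : (eval W m1 (g0 18) (env 0 0 0)).toNat = DD G := by
        rw [ev_g0, i1.1.D, Int.toNat_natCast]
      have hinner := loop_inv (W := W) (r := 32) (t := g0 18) (p := body) (m := m1)
        (n := DD G) hn1 (fun j m' => InvB G u v (ph * DD G + j) m') (2 * lg G + 15)
        (by simpa using i1)
        (by
          intro j hj m2 hfr hI2
          set m3 := setc W 32 j m2 with hm3
          have g3 : ∀ r, r ≠ 32 → m3 r = m2 r := fun r hr => by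
            rw [hm3, setc, Function.update_of_ne hr]
          have h32 : m3 32 0 0 0 = j := by
            rw [hm3, setc, Function.update_self]
            exact store_nat (by omega)
          have h31' : m3 31 0 0 0 = ph := by
            rw [g3 31 (by decide), hfr 31 (by decide)]
            exact h31
          have s3 : SA G u v m3 := hI2.1.congr fun r a b => g3 r (by omega)
          have hb3 : ∀ g < 5 * G, |m3 30 g 0 0| ≤ 2 * (QQ G : ℤ) := by
            intro g hg; rw [g3 30 (by decide)]; exact hI2.2.1 g hg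
          have hc3 : Chain G u v (ph * DD G + j) (fun g => (m3 30 g 0 0 : ℝ) / (QQ G : ℤ)) := by
            rw [g3 30 (by decide)]; exact hI2.2.2
          obtain ⟨hv, hst⟩ := body_spec hW s3 (Y := fun g => m3 30 g 0 0) (fun _ _ => rfl) hb3
            hph hj h31' h32
          have hI : 5 * G ≤ 2 ^ (lg G + 3) := by
            have := two_pow_lg G
            rw [pow_add]; omega
          refine ⟨⟨?_, ?_, ?_⟩, hst⟩
          · exact s3.congr fun r a b => exec_frame _ _ _ _ (fun h => by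
              have := body_mods h
              omega)
          · intro g hg
            rw [hv g hg]
            exact (Yn_bound (u := u) (v := v) rfl hQ (fun g _ =>
              ⟨(Aj_spec (u := u) (v := v) (Y := fun g => m3 30 g 0 0) (g := g) (ph := ph) hj).1,
                (Aj_spec (u := u) (v := v) (Y := fun g => m3 30 g 0 0) (g := g)
                  (ph := ph) hj).2.1⟩) hb3 hI (by omega) hg).1
          · rw [← Nat.add_assoc]
            refine Chain_succ hc3 ?_
            intro g hg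
            rw [hv g hg]
            exact step_err hG hph hj hg)
      refine ⟨?_, ?_⟩
      · have h := hinner.1
        have e : (ph + 1) * DD G = ph * DD G + DD G := by ring
        rw [e]
        exact h
      · have h := hinner.2
        exact h)
  refine ⟨houter.1, ?_⟩
  have h := houter.2
  show 1 + steps W (.loop 31 (g0 17) (.loop 32 (g0 18) body)) m0 ≤ _
  have e : LL G * (DD G * (2 * lg G + 16) + 1 + 1) = LL G * (DD G * (2 * lg G + 16) + 2) := by ring
  rw [e] at h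
  omega

lemma tauk_zero (G : ℕ) : tauk G 0 = 1 := by
  have hD : (512:ℝ) ≤ DD G := by exact_mod_cast DD_pos G
  unfold tauk
  rw [Nat.zero_mod, Nat.zero_div]
  push_cast
  field_simp
  simp

lemma sched {G k : ℕ} (hk : k < LL G * DD G) :
    tauk G (k + 1) = (1 - lamk G k) * tauk G k ∧ 0 < lamk G k ∧ lamk G k < 1 ∧
    lamk G k / (1 - lamk G k) ≤ 1 / DD G := by
  have hD512 := DD_pos G
  have hDpos : 0 < DD G := by omega
  have hD : (512:ℝ) ≤ DD G := by exact_mod_cast hD512
  have hj := Nat.mod_lt k hDpos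
  have hdm := Nat.div_add_mod k (DD G)
  set j := k % DD G with hjdef
  set ph := k / DD G with hphdef
  have hjR : (j:ℝ) + 1 ≤ DD G := by exact_mod_cast hj
  have hj0 : (0:ℝ) ≤ j := by positivity
  have hl0 : 0 < 2 * (DD G : ℝ) - j := by linarith
  have hl1 : 0 < 2 * (DD G : ℝ) - j - 1 := by linarith
  refine ⟨?_, ?_, ?_, ?_⟩
  · unfold tauk lamk
    rw [← hjdef, ← hphdef]
    by_cases h : j + 1 < DD G
    · have e1 : (k + 1) % DD G = j + 1 := by
        rw [← hdm, Nat.mul_comm, Nat.add_assoc, Nat.add_comm, Nat.add_mul_mod_self_right,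
          Nat.mod_eq_of_lt h]
      have e2 : (k + 1) / DD G = ph := by
        rw [← hdm, Nat.mul_comm, Nat.add_assoc, Nat.add_comm, Nat.add_mul_div_right _ _ hDpos,
          Nat.div_eq_of_lt h, Nat.zero_add]
      rw [e1, e2]
      push_cast
      field_simp
      ring
    · have hjD : j + 1 = DD G := by omega
      have e0 : k + 1 = (ph + 1) * DD G := by
        rw [← hdm, Nat.add_assoc, hjD]; ring
      have e1 : (k + 1) % DD G = 0 := by rw [e0]; exact Nat.mul_mod_left _ _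
      have e2 : (k + 1) / DD G = ph + 1 := by rw [e0]; exact Nat.mul_div_cancel _ hDpos
      have hjDR : (j:ℝ) = DD G - 1 := by
        have : (j:ℝ) + 1 = DD G := by exact_mod_cast hjD
        linarith
      rw [e1, e2, hjDR]
      push_cast
      rw [pow_succ]
      have : (2 * (DD G : ℝ) - (DD G - 1)) ≠ 0 := by
        have : 2 * (DD G : ℝ) - (DD G - 1) = DD G + 1 := by ring
        rw [this]; positivity
      field_simp
      ring
  · unfold lamk; rw [← hjdef]; positivity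
  · unfold lamk; rw [← hjdef, div_lt_one hl0]; linarith
  · unfold lamk
    rw [← hjdef]
    have e : 1 / (2 * (DD G : ℝ) - j) / (1 - 1 / (2 * (DD G : ℝ) - j)) =
        1 / (2 * (DD G : ℝ) - j - 1) := by
      field_simp
    rw [e]
    apply one_div_le_one_div_of_le (by positivity)
    linarith

lemma tauk_ge {G k : ℕ} (hk : k ≤ LL G * DD G) : 1 / 2 ^ LL G ≤ tauk G k := by
  have hD512 := DD_pos G
  have hDpos : 0 < DD G := by omega
  have hD : (512:ℝ) ≤ DD G := by exact_mod_cast hD512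
  have hj := Nat.mod_lt k hDpos
  have hjR : ((k % DD G : ℕ) : ℝ) ≤ DD G := by exact_mod_cast hj.le
  unfold tauk
  by_cases h : k = LL G * DD G
  · have e1 : k % DD G = 0 := by rw [h]; exact Nat.mul_mod_left _ _
    have e2 : k / DD G = LL G := by rw [h]; exact Nat.mul_div_cancel _ hDpos
    rw [e1, e2]
    push_cast
    rw [sub_zero, div_self (by positivity)]
  · have h2 : k / DD G < LL G := by
      rw [Nat.div_lt_iff_lt_mul hDpos]; omega
    have h3 : (2:ℝ) ^ (k / DD G) * 2 ≤ 2 ^ LL G := by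
      rw [← pow_succ]
      exact pow_le_pow_right₀ (by norm_num) h2
    have h4 : (1:ℝ) / 2 ≤ (2 * (DD G : ℝ) - ((k % DD G : ℕ) : ℝ)) / (2 * DD G) := by
      rw [div_le_div_iff₀ (by norm_num) (by positivity)]
      linarith
    calc (1:ℝ) / 2 ^ LL G ≤ 1 / (2 ^ (k / DD G) * 2) :=
          one_div_le_one_div_of_le (by positivity) h3
      _ = (1 / 2) / 2 ^ (k / DD G) := by field_simp
      _ ≤ _ := by gcongr

lemma tauk_N (G : ℕ) : tauk G (LL G * DD G) = 1 / 2 ^ LL G := by
  have hD512 := DD_pos G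
  have hDpos : 0 < DD G := by omega
  have hD : (512:ℝ) ≤ DD G := by exact_mod_cast hD512
  unfold tauk
  have e1 : LL G * DD G % DD G = 0 := Nat.mul_mod_left _ _
  have e2 : LL G * DD G / DD G = LL G := Nat.mul_div_cancel _ hDpos
  rw [e1, e2]
  push_cast
  rw [sub_zero, div_self (by positivity)]

theorem chain_bound {G : ℕ} (hG : 0 < G) {u v : ℕ → ℕ} {y : ℕ → ℝ}
    (h : Chain G u v (LL G * DD G) y) : ∀ t ≤ 5 * G,
    ∑ x ∈ range (6 * G), (SN u v y t x - if ex u v t x then 1 else 0) ^ 2 ≤ 360 * 2 ^ LL G := by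
  intro t ht
  obtain ⟨Ys, h0, h1, h2⟩ := h
  have hL1 := LL_pos G
  have hLR : (1:ℝ) ≤ LL G := by exact_mod_cast hL1
  have hcube := cube_LL G
  set a : ℝ := 2 ^ LL G with ha
  have ha2 : (2:ℝ) ≤ a := by
    rw [ha]
    exact_mod_cast two_le_pow G
  have hLa : (LL G : ℝ) ≤ a := by
    have : LL G ≤ 2 ^ LL G := Nat.lt_two_pow_self.le
    rw [ha]; exact_mod_cast this
  have hDa : (DD G : ℝ) = 256 * LL G * a := by
    unfold DD; push_cast; rw [ha]
  have hc1 : (G:ℝ) + 2 ≤ a ^ 3 := by rw [ha]; exact_mod_cast hcube.1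
  have hc2 : a ^ 3 ≤ 8 * ((G:ℝ) + 2) := by rw [ha]; exact_mod_cast hcube.2
  have hGR : (0:ℝ) ≤ G := by positivity
  set c := (G:ℝ) + 2 with hc
  have hc0 : (2:ℝ) ≤ c := by linarith
  have hee : ee G = 1 / (2 ^ 30 * c ^ 3) := by
    unfold ee QQ0
    push_cast
    rw [← hc]
    field_simp
    norm_num
  have hN : ((LL G * DD G : ℕ) : ℝ) ≤ 2048 * c := by
    push_cast
    rw [hDa]
    have hLL : (LL G : ℝ) * LL G ≤ a * a := by gcongr
    calc (LL G : ℝ) * (256 * LL G * a) = 256 * (LL G * LL G) * a := by ring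
      _ ≤ 256 * (a * a) * a := by gcongr
      _ = 256 * a ^ 3 := by ring
      _ ≤ 256 * (8 * c) := by gcongr
      _ = 2048 * c := by ring
  have hNpos : (0:ℝ) ≤ ((LL G * DD G : ℕ) : ℝ) := by positivity
  have h5G : ((5 * G : ℕ) : ℝ) ≤ 5 * c := by push_cast; linarith
  have hee0 : 0 ≤ ee G := by rw [hee]; positivity
  have hmain := ipm_nat (u := u) (v := v) (G := G) (N := LL G * DD G) hG (Y := Ys) (τ := tauk G)
    (lam := lamk G) (M := 1 / DD G) (τf := 1 / a) (e := ee G) (tauk_zero G)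
    (fun k hk => (sched hk).1) (fun k hk => (sched hk).2) (by positivity)
    (fun k hk => by rw [ha]; exact tauk_ge hk)
    (by
      rw [hDa]
      apply one_div_le_one_div_of_le (by positivity)
      nlinarith)
    hee0
    (by
      calc ((LL G * DD G : ℕ) : ℝ) * (((5 * G : ℕ) : ℝ) * ee G) ≤
          (2048 * c) * ((5 * c) * ee G) := by gcongr
        _ = 10240 * c ^ 2 / (2 ^ 30 * c ^ 3) := by rw [hee]; ring
        _ ≤ 1 := by
          rw [div_le_one (by positivity)]
          nlinarith [pow_pos (show (0:ℝ) < c by linarith) 2])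
    h0 h1 t ht
  rw [h2, tauk_N, ← ha] at hmain
  refine hmain.trans ?_
  -- sum of weights
  set Sw := ∑ g ∈ range (5 * G), (wg u v g : ℝ) with hSw
  have hSw1 : Sw ≤ 90 * c := by
    have h1 : Sw ≤ ∑ _g ∈ range (5 * G), (18:ℝ) := by
      refine Finset.sum_le_sum fun g _ => ?_
      exact_mod_cast (wg_bound u v g).2
    rw [Finset.sum_const, Finset.card_range, nsmul_eq_mul] at h1
    linarith
  have hSw0 : 0 ≤ Sw := Finset.sum_nonneg fun g _ => by positivity
  have hLa0 : (0:ℝ) < LL G := by linarith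
  -- exponential factor
  have hx : (1 + (1 / (DD G:ℝ)) ^ 2 * 64 / (1 / a)) ^ (LL G * DD G) ≤ 3 := by
    set x := (1 / (DD G:ℝ)) ^ 2 * 64 / (1 / a) with hxdef
    have hx0 : 0 ≤ x := by positivity
    have h1 : (1 + x) ^ (LL G * DD G) ≤ Real.exp (((LL G * DD G : ℕ) : ℝ) * x) := by
      rw [Real.exp_nat_mul]
      apply pow_le_pow_left₀ (by positivity)
      rw [add_comm]
      exact Real.add_one_le_exp x
    have h2 : ((LL G * DD G : ℕ) : ℝ) * x = 1 / 4 := by
      rw [hxdef]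
      push_cast
      rw [hDa]
      field_simp
      norm_num
    rw [h2] at h1
    refine h1.trans ?_
    have h3 := Real.exp_one_lt_d9
    have h4 : Real.exp (1 / 4) ≤ Real.exp 1 := Real.exp_le_exp.mpr (by norm_num)
    linarith
  -- main part
  have hNM : ((LL G * DD G : ℕ) : ℝ) * (1 / (DD G : ℝ)) ^ 2 = 1 / (256 * a) := by
    push_cast
    rw [hDa]
    field_simp
  have hErr : ((LL G * DD G : ℕ) : ℝ) * (((5 * G : ℕ) : ℝ) *
      ((1 + 2 * ((5 * G : ℕ) : ℝ)) * ee G) / (1 / a)) ≤ a / 1000 := by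
    have h10 : 1 + 2 * ((5 * G : ℕ) : ℝ) ≤ 10 * c := by push_cast; linarith
    calc ((LL G * DD G : ℕ) : ℝ) * (((5 * G : ℕ) : ℝ) *
        ((1 + 2 * ((5 * G : ℕ) : ℝ)) * ee G) / (1 / a)) ≤
        (2048 * c) * ((5 * c) * ((10 * c) * ee G) / (1 / a)) := by gcongr
      _ = a * (102400 / 2 ^ 30) := by rw [hee]; field_simp; ring
      _ ≤ a / 1000 := by
        have h1 : (102400:ℝ) / 2 ^ 30 ≤ 1 / 1000 := by norm_num
        have h2 := mul_le_mul_of_nonneg_left h1 (show (0:ℝ) ≤ a by linarith)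
        linarith
  have hsum : ((LL G * DD G : ℕ) : ℝ) * ((1 / (DD G : ℝ)) ^ 2 * Sw + ((5 * G : ℕ) : ℝ) *
      ((1 + 2 * ((5 * G : ℕ) : ℝ)) * ee G) / (1 / a)) ≤ Sw / (256 * a) + a / 1000 := by
    rw [mul_add, ← mul_assoc, hNM]
    have : 1 / (256 * a) * Sw = Sw / (256 * a) := by ring
    rw [this]
    linarith
  have hpos1 : 0 ≤ Sw / (256 * a) + a / 1000 := by positivity
  have hprod : ((LL G * DD G : ℕ) : ℝ) * ((1 / (DD G : ℝ)) ^ 2 * Sw + ((5 * G : ℕ) : ℝ) *
      ((1 + 2 * ((5 * G : ℕ) : ℝ)) * ee G) / (1 / a)) *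
      (1 + (1 / (DD G:ℝ)) ^ 2 * 64 / (1 / a)) ^ (LL G * DD G) ≤
      (Sw / (256 * a) + a / 1000) * 3 := by
    apply mul_le_mul hsum hx (by positivity) hpos1
  have hfin : 2 * ((1 / a) ^ 2 * Sw) + 2 * (64 * ((1 / a) * ((Sw / (256 * a) + a / 1000) * 3))) ≤
      360 * a := by
    have e : 2 * ((1 / a) ^ 2 * Sw) + 2 * (64 * ((1 / a) * ((Sw / (256 * a) + a / 1000) * 3))) =
        (7 / 2) * (Sw / a ^ 2) + 384 / 1000 := by
      field_simp
      ring
    rw [e]
    have h1 : Sw / a ^ 2 ≤ 90 * a := by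
      rw [div_le_iff₀ (by positivity)]
      calc Sw ≤ 90 * c := hSw1
        _ ≤ 90 * a ^ 3 := by gcongr
        _ = 90 * a * a ^ 2 := by ring
    linarith
  refine le_trans ?_ hfin
  have h1 := mul_le_mul_of_nonneg_left hprod (show (0:ℝ) ≤ 1 / a by positivity)
  linarith

end Core

end Pool.Agent.Helper91.SM
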