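import Pool.Agent.Helper91.SM.Greedy

/-!
Facts on greedy runs used for merging histories of consecutive blocks.
-/

namespace Pool.Agent.Helper91.SM.Greedy

open Finset

lemma run_or (u v : ℕ → ℕ) (s : ℕ → Bool) (t n x : ℕ) : run u v s t n x = true ↔
    (s x = true ∨ ∃ j < n, (run u v s t j (u (t + j)) = false ∧
      run u v s t j (v (t + j)) = false) ∧ (u (t + j) = x ∨ v (t + j) = x)) := by
  induction n with
  | zero =>
    constructor
    · intro h; exact Or.inl h
    · rintro (h | ⟨j, hj, _⟩)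
      · exact h
      · omega
  | succ n ih =>
    have hs : run u v s t (n + 1) x = gstep (u (t + n)) (v (t + n)) (run u v s t n) x := rfl
    rw [hs]
    unfold gstep
    constructor
    · intro h
      rw [Bool.or_eq_true] at h
      rcases h with h | h
      · rcases ih.mp h with h | ⟨j, hj, h2⟩
        · exact Or.inl h
        · exact Or.inr ⟨j, by omega, h2⟩
      · right
        refine ⟨n, by omega, ?_⟩
        simp only [Bool.and_eq_true, Bool.not_eq_true', Bool.or_eq_true, decide_eq_true_eq] at h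
        exact ⟨h.1, by tauto⟩
    · intro h
      rw [Bool.or_eq_true]
      rcases h with h | ⟨j, hj, h1, h2⟩
      · exact Or.inl (ih.mpr (Or.inl h))
      · by_cases hjn : j = n
        · subst hjn
          right
          simp only [Bool.and_eq_true, Bool.not_eq_true', Bool.or_eq_true, decide_eq_true_eq]
          exact ⟨h1, by tauto⟩
        · exact Or.inl (ih.mpr (Or.inr ⟨j, by omega, h1, h2⟩))

/-- first point below `P` where `p` holds, or `P` -/
def fm (p : ℕ → Prop) [DecidablePred p] : ℕ → ℕ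
  | 0 => 0
  | P + 1 => if ∀ y < P + 1, ¬ p y then fm p P + 1 else fm p P

lemma fm_succ (p : ℕ → Prop) [DecidablePred p] (P : ℕ) :
    fm p (P + 1) = if ∀ y < P + 1, ¬ p y then fm p P + 1 else fm p P := rfl

lemma fm_spec (p : ℕ → Prop) [DecidablePred p] (P : ℕ) :
    ((∀ y < P, ¬ p y) ∧ fm p P = P) ∨ (fm p P < P ∧ p (fm p P)) := by
  induction P with
  | zero => left; exact ⟨by intro y hy; omega, rfl⟩
  | succ P ih =>
    unfold fm
    by_cases h : ∀ y < P + 1, ¬ p y
    · left
      rw [if_pos h]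
      refine ⟨h, ?_⟩
      rcases ih with ⟨_, h2⟩ | ⟨h1, h2⟩
      · rw [h2]
      · exact absurd h2 (h _ (by omega))
    · right
      rw [if_neg h]
      rcases ih with ⟨h1, h2⟩ | ⟨h1, h2⟩
      · push Not at h
        obtain ⟨y, hy, hpy⟩ := h
        have : y = P := by
          by_contra hne
          exact h1 y (by omega) hpy
        subst this
        rw [h2]
        exact ⟨by omega, hpy⟩
      · exact ⟨by omega, h2⟩

lemma fm_le (p : ℕ → Prop) [DecidablePred p] (P : ℕ) : fm p P ≤ P := by
  rcases fm_spec p P with h | h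
  · rw [h.2]
  · exact h.1.le

lemma flip_far {s : ℕ → Bool} {x y : ℕ} (h : y ≠ x) : flip s x y = s y := by
  unfold flip; rw [if_neg h]

lemma ham_flip {P : ℕ} {f g : ℕ → Bool} {x : ℕ} (hx : x < P) (h : f x ≠ g x) :
    ham P f (flip g x) + 1 = ham P f g := by
  unfold ham
  have hmem : x ∈ range P := mem_range.mpr hx
  rw [← Finset.add_sum_erase _ _ hmem, ← Finset.add_sum_erase _ _ hmem]
  have hrest : (∑ y ∈ (range P).erase x, if f y = flip g x y then 0 else 1) =
      ∑ y ∈ (range P).erase x, if f y = g y then 0 else 1 := by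
    refine Finset.sum_congr rfl fun y hy => ?_
    rw [flip_far (Finset.ne_of_mem_erase hy)]
  rw [hrest, if_neg h]
  have : f x = flip g x x := by
    unfold flip
    rw [if_pos rfl]
    cases hf : f x <;> cases hg : g x <;> simp_all
  rw [if_pos this]
  omega

lemma ham_zero {P : ℕ} {f g : ℕ → Bool} (h : ham P f g = 0) : ∀ x < P, f x = g x := by
  intro x hx
  unfold ham at h
  rw [Finset.sum_eq_zero_iff] at h
  have := h x (mem_range.mpr hx)
  by_contra hne
  rw [if_neg hne] at this
  omega

lemma ham_congr {P : ℕ} {f g g' : ℕ → Bool} (h : ∀ x < P, g x = g' x) : ham P f g = ham P f g' := by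
  unfold ham
  refine Finset.sum_congr rfl fun x hx => ?_
  rw [h x (mem_range.mp hx)]

/-- one repair -/
def fixI (P : ℕ) (f g : ℕ → Bool) : ℕ → Bool := flip g (fm (fun x => f x ≠ g x) P)

lemma ham_fixI {P n : ℕ} {f g : ℕ → Bool} (h : ham P f g ≤ n) : ham P f (fixI P f g) ≤ n - 1 := by
  unfold fixI
  rcases fm_spec (fun x => f x ≠ g x) P with ⟨h1, h2⟩ | ⟨h1, h2⟩
  · rw [h2]
    have : ham P f (flip g P) = 0 := by
      unfold ham
      refine Finset.sum_eq_zero fun x hx => ?_
      have hx' := mem_range.mp hx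
      rw [flip_far (by omega), if_pos (by have := h1 x hx'; simpa using this)]
    omega
  · have := ham_flip h1 h2
    omega

/-- compose maps `ph a, ..., ph (a + n - 1)` -/
def pc (ph : ℕ → ℕ → ℕ) (a : ℕ) : ℕ → ℕ → ℕ
  | 0 => fun x => x
  | n + 1 => fun x => ph (a + n) (pc ph a n x)

lemma pc_add (ph : ℕ → ℕ → ℕ) (a n k x : ℕ) : pc ph a (n + k) x = pc ph (a + n) k (pc ph a n x) := by
  induction k with
  | zero => rfl
  | succ k ih =>
    show ph (a + (n + k)) (pc ph a (n + k) x) = ph (a + n + k) _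
    rw [ih, Nat.add_assoc]

lemma pc_one (ph : ℕ → ℕ → ℕ) (a x : ℕ) : pc ph a 1 x = ph a x := rfl

lemma phi_le {A C : Bool} {a b x P : ℕ} (ha : a < P) (hb : b < P) (hx : x ≤ P) :
    phi A C a b x ≤ P := by
  unfold phi
  split_ifs <;> omega

lemma pc_le {ph : ℕ → ℕ → ℕ} {P a n : ℕ} (h : ∀ k, a ≤ k → k < a + n → ∀ x ≤ P, ph k x ≤ P)
    {x : ℕ} (hx : x ≤ P) : pc ph a n x ≤ P := by
  induction n with
  | zero => exact hx
  | succ n ih => exact h (a + n) (by omega) (by omega) _ (ih (fun k h1 h2 => h k h1 (by omega)))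

lemma loc_pc {u v : ℕ → ℕ} {s : ℕ → Bool} {t n : ℕ} {A C : ℕ → Bool}
    (hA : ∀ j < n, A (t + j) = run u v s t j (u (t + j)))
    (hC : ∀ j < n, C (t + j) = run u v s t j (v (t + j))) (x : ℕ) :
    loc u v s t x n = pc (fun k y => phi (A k) (C k) (u k) (v k) y) t n x := by
  induction n with
  | zero => rfl
  | succ n ih =>
    show phi _ _ _ _ (loc u v s t x n) = phi _ _ _ _ (pc _ t n x)
    rw [ih (fun j hj => hA j (by omega)) (fun j hj => hC j (by omega)), hA n (by omega),
      hC n (by omega)]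

/-- windows of the doubling scheme -/
lemma pc_double {ph : ℕ → ℕ → ℕ} {b k q x : ℕ} (hb : b ≤ k) :
    (if b + q ≤ k then
      pc ph (k + 1 - min q (k + 1 - b)) (min q (k + 1 - b))
        (pc ph (k - q + 1 - min q (k - q + 1 - b)) (min q (k - q + 1 - b)) x)
    else pc ph (k + 1 - min q (k + 1 - b)) (min q (k + 1 - b)) x) =
      pc ph (k + 1 - min (2 * q) (k + 1 - b)) (min (2 * q) (k + 1 - b)) x := by
  split_ifs with h
  · have e1 : min q (k + 1 - b) = q := by omega
    set w := min q (k - q + 1 - b) with hw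
    have e2 : min (2 * q) (k + 1 - b) = w + q := by omega
    rw [e1, e2, pc_add]
    have e3 : k + 1 - (w + q) + w = k + 1 - q := by omega
    have e4 : k - q + 1 - w = k + 1 - (w + q) := by omega
    rw [e3, e4]
  · have e1 : min q (k + 1 - b) = k + 1 - b := by omega
    have e2 : min (2 * q) (k + 1 - b) = k + 1 - b := by omega
    rw [e1, e2]

end Pool.Agent.Helper91.SM.Greedy
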