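import Pool.Agent.Helper91.SM.CoreB3
import Pool.Agent.Helper91.SM.Merge

/-!
Rounding stage: specification.
-/

namespace Pool.Agent.Helper91.SM

open Finset Term

namespace Core

open Gadget Greedy

attribute [local irreducible] QQ DD QQ0 LL lg Tj

lemma ev_tLast2 {W G r : ℕ} {m : Mem} {u : ℕ → ℕ} (hu : ∀ k < G, m r k 0 0 = u k) {t x : ℕ}
    (ht : t ≤ G) (hW : t ≤ W) : eval W m (tLast2 r) (env t x 0) =
    last (fun j => decide (u j = x)) t := by
  unfold tLast2
  rw [eval_sumTo W m 3 (.var 0) _ _ t hW (by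
    intro y; rw [ev_var, Function.update_of_ne (by decide), env0])]
  have h1 : ∀ y ∈ range t, eval W m ((.var 3 + 1) * ((eqt (g1 r (.var 3)) (.var 1)) *
      eqt (sumTo 4 (.var 0) ((Term.lt (.var 3) (.var 4)) * eqt (g1 r (.var 4)) (.var 1))) 0))
      (Function.update (env t x 0) 3 (y : ℤ)) =
      ((y:ℤ) + 1) * iv (u y = x ∧ ∀ z < t, ¬ (y < z ∧ u z = x)) := by
    intro y hy
    have hy' := Finset.mem_range.mp hy
    rw [ev_mul, ev_add, ev_one, ev_var, Function.update_self, ev_mul, eval_eqt, eval_eqt,
      eval_sumTo W m 4 (.var 0) _ _ t hW (by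
      intro z; rw [ev_var, Function.update_of_ne (by decide), Function.update_of_ne (by decide),
        env0])]
    have h2 : ∀ z ∈ range t, eval W m ((Term.lt (.var 3) (.var 4)) *
        eqt (g1 r (.var 4)) (.var 1))
        (Function.update (Function.update (env t x 0) 3 (y : ℤ)) 4 (z : ℤ)) =
        iv (y < z ∧ u z = x) := by
      intro z hz
      have hz' := Finset.mem_range.mp hz
      rw [ev_mul, eval_lt, eval_eqt, ev_g1, ev_var, ev_var, ev_var, Function.update_self,
        Function.update_of_ne (show (3:ℕ) ≠ 4 by decide), Function.update_self,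
        Function.update_of_ne (show (1:ℕ) ≠ 4 by decide),
        Function.update_of_ne (show (1:ℕ) ≠ 3 by decide), env1, Int.toNat_natCast,
        hu z (by omega), iv_mul]
      apply iv_congr
      norm_cast
    rw [Finset.sum_congr rfl h2, ev_g1, ev_var, ev_var, Function.update_self,
      Function.update_of_ne (show (1:ℕ) ≠ 3 by decide), env1, Int.toNat_natCast,
      hu y (by omega), iv_mul, ev_zero]
    congr 1
    apply iv_congr
    rw [sum_iv_eq_zero]
    norm_cast
  rw [Finset.sum_congr rfl h1, last_sum (fun j => u j = x) t]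

open Classical in
/-- rounded states of the ends -/
noncomputable def aH (u v : ℕ → ℕ) (y : ℕ → ℝ) (j : ℕ) : Bool :=
  decide (1 / 2 < SN u v y (5 * (j + 1)) (6 * j + 2))

open Classical in
noncomputable def dH (u v : ℕ → ℕ) (y : ℕ → ℝ) (j : ℕ) : Bool :=
  decide (SN u v y (5 * (j + 1)) (6 * j + 3) ≤ 1 / 2)

theorem stC_spec {W G : ℕ} (hW : Big G W) {m : Mem} {u v : ℕ → ℕ} (hs : SA G u v m) :
    SA G u v (exec W stC m) ∧
    (∀ t ≤ G, ∀ x < 2 * G, (exec W stC m) 54 t x 0 = iv (occHat u v
      (aH u v (fun g => (m 30 g 0 0 : ℝ) / (QQ G : ℤ)))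
      (dH u v (fun g => (m 30 g 0 0 : ℝ) / (QQ G : ℤ))) t x = true)) ∧
    steps W stC m ≤ 5 := by
  have hW0 : 0 < W := small_lt hW (n := 0) (by omega)
  have hW1 : 1 < W := small_lt hW (n := 1) (by omega)
  have hQ := QQ_pos G
  have hQR : (0:ℝ) < ((QQ G : ℤ) : ℝ) := by exact_mod_cast hQ
  have hGW : 6 * G < W := small_lt hW (by omega)
  set y : ℕ → ℝ := fun g => (m 30 g 0 0 : ℝ) / (QQ G : ℤ) with hy
  set m1 := exec W (.assign 50 tAH) m with hm1
  set m2 := exec W (.assign 51 tDH) m1 with hm2
  set m3 := exec W (.assign 52 (tLast2 11)) m2 with hm3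
  set m4 := exec W (.assign 53 (tLast2 12)) m3 with hm4
  set m5 := exec W (.assign 54 tB) m4 with hm5
  have f1 : ∀ r, r ≠ 50 → m1 r = m r := fun r hr => exec_frame _ _ _ _ (by simpa [mods] using hr)
  have f2 : ∀ r, r ≠ 51 → m2 r = m1 r := fun r hr => exec_frame _ _ _ _ (by simpa [mods] using hr)
  have f3 : ∀ r, r ≠ 52 → m3 r = m2 r := fun r hr => exec_frame _ _ _ _ (by simpa [mods] using hr)
  have f4 : ∀ r, r ≠ 53 → m4 r = m3 r := fun r hr => exec_frame _ _ _ _ (by simpa [mods] using hr)
  have f5 : ∀ r, r ≠ 54 → m5 r = m4 r := fun r hr => exec_frame _ _ _ _ (by simpa [mods] using hr)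
  have s1 : SA G u v m1 := hs.congr fun r h1 h2 => f1 r (by omega)
  have s2 : SA G u v m2 := s1.congr fun r h1 h2 => f2 r (by omega)
  have s3 : SA G u v m3 := s2.congr fun r h1 h2 => f3 r (by omega)
  have s4 : SA G u v m4 := s3.congr fun r h1 h2 => f4 r (by omega)
  have s5 : SA G u v m5 := s4.congr fun r h1 h2 => f5 r (by omega)
  have a50 : ∀ k < G, m1 50 k 0 0 = iv (aH u v y k = true) := by
    intro k hk
    rw [hm1, exec_assign _ _ _ _ (by omega) hW0 hW0]
    have hst := ev_tSt hW hs (Y := fun g => m 30 g 0 0) (fun _ _ => rfl)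
      (n := 5 * (.var 0 + 1)) (x := 6 * .var 0 + 2) (e := env k 0 0) (N := 5 * (k + 1))
      (X := 6 * k + 2)
      (by
        intro y
        rw [ev_mul, ev_num, ev_add, ev_var, ev_one, Function.update_of_ne (by decide), env0]
        push_cast; rfl)
      (by
        intro y
        rw [ev_add, ev_mul, ev_num, ev_num, ev_var, Function.update_of_ne (by decide), env0]
        push_cast; rfl)
      (by
        rw [ev_add, ev_mul, ev_num, ev_num, ev_var, env0]
        push_cast; rfl) (by omega) (by omega)
    have : eval W m tAH (env k 0 0) = iv (aH u v y k = true) := by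
      unfold tAH
      rw [eval_lt, ev_g0, hs.Q, ev_mul, ev_num, hst]
      apply iv_congr
      unfold aH
      rw [decide_eq_true_eq]
      have h1 := SQ_SN hQ u v (fun g => m 30 g 0 0) (5 * (k + 1)) (6 * k + 2)
      have h2 : ((QQ G : ℤ) < 2 * SQ (QQ G) u v (fun g => m 30 g 0 0) (5 * (k + 1)) (6 * k + 2)) ↔
          (((QQ G : ℤ) : ℝ) < 2 * (SQ (QQ G) u v (fun g => m 30 g 0 0) (5 * (k + 1)) (6 * k + 2) : ℝ)) := by
        norm_cast
      rw [h2, h1]
      constructor
      · intro h
        have : ((QQ G : ℤ) : ℝ) * 1 < ((QQ G : ℤ) : ℝ) * (2 * SN u v y (5 * (k + 1)) (6 * k + 2)) := by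
          linarith
        have := lt_of_mul_lt_mul_left this hQR.le
        linarith
      · intro h
        have := mul_lt_mul_of_pos_left h hQR
        linarith
    rw [this, store_iv hW1]
  have y1 : m1 30 = m 30 := f1 30 (by decide)
  have a51 : ∀ k < G, m2 51 k 0 0 = iv (dH u v y k = true) := by
    intro k hk
    rw [hm2, exec_assign _ _ _ _ (by omega) hW0 hW0]
    have hst := ev_tSt hW s1 (Y := fun g => m 30 g 0 0) (fun _ _ => by rw [y1])
      (n := 5 * (.var 0 + 1)) (x := 6 * .var 0 + 3) (e := env k 0 0) (N := 5 * (k + 1))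
      (X := 6 * k + 3)
      (by
        intro y
        rw [ev_mul, ev_num, ev_add, ev_var, ev_one, Function.update_of_ne (by decide), env0]
        push_cast; rfl)
      (by
        intro y
        rw [ev_add, ev_mul, ev_num, ev_num, ev_var, Function.update_of_ne (by decide), env0]
        push_cast; rfl)
      (by
        rw [ev_add, ev_mul, ev_num, ev_num, ev_var, env0]
        push_cast; rfl) (by omega) (by omega)
    have : eval W m1 tDH (env k 0 0) = iv (dH u v y k = true) := by
      unfold tDH
      rw [eval_le, ev_g0, s1.Q, ev_mul, ev_num, hst]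
      apply iv_congr
      unfold dH
      rw [decide_eq_true_eq]
      have h1 := SQ_SN hQ u v (fun g => m 30 g 0 0) (5 * (k + 1)) (6 * k + 3)
      have h2 : (2 * SQ (QQ G) u v (fun g => m 30 g 0 0) (5 * (k + 1)) (6 * k + 3) ≤ (QQ G : ℤ)) ↔
          (2 * (SQ (QQ G) u v (fun g => m 30 g 0 0) (5 * (k + 1)) (6 * k + 3) : ℝ) ≤
            ((QQ G : ℤ) : ℝ)) := by
        norm_cast
      rw [h2, h1]
      constructor
      · intro h
        have : ((QQ G : ℤ) : ℝ) * (2 * SN u v y (5 * (k + 1)) (6 * k + 3)) ≤
            ((QQ G : ℤ) : ℝ) * 1 := by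
          linarith
        have := le_of_mul_le_mul_left this hQR
        linarith
      · intro h
        have := mul_le_mul_of_nonneg_left h hQR.le
        linarith
    rw [this, store_iv hW1]
  have a52 : ∀ t ≤ G, ∀ x < 2 * G, m3 52 t x 0 = last (fun j => decide (u j = x)) t := by
    intro t ht x hx
    rw [hm3, exec_assign _ _ _ _ (by omega) (by omega) hW0, ev_tLast2 s2.u ht (by omega)]
    exact store_nat (lt_of_le_of_lt (last_le _ _) (by omega))
  have a53 : ∀ t ≤ G, ∀ x < 2 * G, m4 53 t x 0 = last (fun j => decide (v j = x)) t := by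
    intro t ht x hx
    rw [hm4, exec_assign _ _ _ _ (by omega) (by omega) hW0, ev_tLast2 s3.v ht (by omega)]
    exact store_nat (lt_of_le_of_lt (last_le _ _) (by omega))
  refine ⟨s5, ?_, le_refl _⟩
  intro t ht x hx
  show m5 54 t x 0 = _
  rw [hm5, exec_assign _ _ _ _ (by omega) (by omega) hW0]
  have h52 : m4 52 t x 0 = last (fun j => decide (u j = x)) t := by
    rw [f4 52 (by decide)]; exact a52 t ht x hx
  have h53 := a53 t ht x hx
  have hl1 := last_le (fun j => decide (u j = x)) t
  have hl2 := last_le (fun j => decide (v j = x)) t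
  have : eval W m4 tB (env t x 0) = iv (occHat u v (aH u v y) (dH u v y) t x = true) := by
    unfold tB occHat
    rw [eval_ite_iv (p := last (fun j => decide (u j = x)) t = 0) (by
        rw [eval_eqt, ev_g2, ev_var, ev_var, env0, env1, Int.toNat_natCast, Int.toNat_natCast, h52,
          ev_zero]
        apply iv_congr; norm_cast),
      eval_ite_iv (p := last (fun j => decide (v j = x)) t = 0) (by
        rw [eval_eqt, ev_g2, ev_var, ev_var, env0, env1, Int.toNat_natCast, Int.toNat_natCast, h53,
          ev_zero]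
        apply iv_congr; norm_cast)]
    rw [ev_zero, ev_g1, ev_g1, ev_sub, ev_sub, ev_g2, ev_g2, ev_var, ev_var, env0, env1, ev_one,
      Int.toNat_natCast, Int.toNat_natCast, h52, h53]
    by_cases h1 : last (fun j => decide (u j = x)) t = 0
    · have h1' : ¬ (last (fun j => decide (u j = x)) t ≠ 0) := by simpa using h1
      rw [if_pos h1, if_neg h1']
      by_cases h2 : last (fun j => decide (v j = x)) t = 0
      · have h2' : ¬ (last (fun j => decide (v j = x)) t ≠ 0) := by simpa using h2
        rw [if_pos h2, if_neg h2']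
        simp [iv]
      · rw [if_neg h2, if_pos h2]
        have e : ((last (fun j => decide (v j = x)) t : ℤ) - 1).toNat =
            last (fun j => decide (v j = x)) t - 1 := by omega
        rw [e, f4 51 (by decide), f3 51 (by decide), a51 _ (by omega)]
    · rw [if_neg h1, if_pos h1]
      have e : ((last (fun j => decide (u j = x)) t : ℤ) - 1).toNat =
            last (fun j => decide (u j = x)) t - 1 := by omega
      rw [e, f4 50 (by decide), f3 50 (by decide), f2 50 (by decide), a50 _ (by omega)]
  rw [this, store_iv hW1]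

end Core

end Pool.Agent.Helper91.SM
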