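import Pool.Agent.Helper91.SM.CoreC

/-!
Merging stage: one repair step.
-/

namespace Pool.Agent.Helper91.SM

open Finset Term

namespace Core

open Gadget Greedy

attribute [local irreducible] QQ DD QQ0 LL lg Tj

/-- start of the block of length `q` containing `k` -/
def bsq (q k : ℕ) : ℕ := k / q * q

lemma bsq_le (q k : ℕ) : bsq q k ≤ k := Nat.div_mul_le_self k q

lemma dvd_bsq (q k : ℕ) : q ∣ bsq q k := Dvd.intro_left _ rfl

lemma bsq_div {q : ℕ} (hq : 0 < q) (k : ℕ) : bsq q k / q = k / q := Nat.mul_div_cancel _ hq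

lemma lt_bsq {q : ℕ} (hq : 0 < q) (k : ℕ) : k < bsq q k + q := by
  unfold bsq
  have h1 := Nat.div_add_mod k q
  have h2 := Nat.mod_lt k hq
  rw [Nat.mul_comm] at h1
  omega

lemma bsq_of_dvd {q s : ℕ} (h : q ∣ s) : bsq q s = s := Nat.div_mul_cancel h

lemma bsq_mid {q j k : ℕ} (hq : 0 < q) (h1 : bsq q k ≤ j) (h2 : j ≤ k) : bsq q j = bsq q k := by
  have h3 : k / q ≤ j / q := by
    rw [Nat.le_div_iff_mul_le hq]; exact h1
  have h4 : j / q ≤ k / q := Nat.div_le_div_right h2
  unfold bsq
  rw [le_antisymm h4 h3]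

/-- memory holds the histories of all blocks of length `q` with initial states `I` -/
structure HI (G q : ℕ) (u v : ℕ → ℕ) (I : ℕ → ℕ → Bool) (m : Mem) : Prop where
  a : ∀ k < G, m 60 k 0 0 = iv (run u v (I (bsq q k)) (bsq q k) (k - bsq q k) (u k) = true)
  c : ∀ k < G, m 61 k 0 0 = iv (run u v (I (bsq q k)) (bsq q k) (k - bsq q k) (v k) = true)
  i : ∀ s < G, q ∣ s → ∀ x < 2 * G, m 62 s x 0 = iv (I s x = true)

lemma fm_sum (p : ℕ → Prop) [DecidablePred p] (P : ℕ) :
    ∑ x ∈ range P, iv (∀ y < x + 1, ¬ p y) = fm p P := by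
  induction P with
  | zero => rfl
  | succ P ih =>
    rw [Finset.sum_range_succ, ih, fm_succ]
    by_cases h : ∀ y < P + 1, ¬ p y
    · rw [if_pos h, iv_pos h]; push_cast; rfl
    · rw [if_neg h, iv_neg h, add_zero]

lemma ev_tBs {W : ℕ} {m : Mem} {q : ℕ} (h70 : m 70 0 0 0 = q) (k j l : ℕ) :
    eval W m tBs (env k j l) = (bsq q k : ℕ) := by
  unfold tBs bsq
  rw [ev_mul, ev_div, ev_g0, h70, ev_var, env0]
  push_cast; rfl

lemma ev_tOdd {W : ℕ} {m : Mem} {q : ℕ} (h70 : m 70 0 0 0 = q) (k j l : ℕ) :
    eval W m tOdd (env k j l) = iv ((k / q) % 2 = 1) := by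
  unfold tOdd
  rw [eval_eqt]
  simp only [ev_sub, ev_mul, ev_div, ev_g0, h70, ev_var, env0, ev_num, ev_one]
  apply iv_congr
  rw [← Int.natCast_div]
  omega

lemma ev_xor {W : ℕ} {m : Mem} {a b : Term} {e : ℕ → ℤ} {p r : Prop} (ha : eval W m a e = iv p)
    (hb : eval W m b e = iv r) : eval W m (xorT a b) e = iv ((p ∧ ¬ r) ∨ (r ∧ ¬ p)) := by
  unfold xorT
  rw [ev_sub, ev_add, ev_mul, ev_mul, ev_num, ha, hb]
  by_cases hp : p <;> by_cases hr : r <;> simp [iv, hp, hr]

/-- new initial states -/
def nextI (G q : ℕ) (F I : ℕ → ℕ → Bool) (s : ℕ) : ℕ → Bool :=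
  if (s / q) % 2 = 1 then fixI (2 * G) (F s) (I s) else I s

theorem fixP_spec {W G l : ℕ} (hW : Big G W) {m : Mem} {u v : ℕ → ℕ}
    (huv : ∀ k < G, u k < 2 * G ∧ v k < 2 * G ∧ u k ≠ v k) {F I : ℕ → ℕ → Bool}
    (hs : SA G u v m) (hl : l < lg G + 5) (h70 : m 70 0 0 0 = ((2 ^ l : ℕ) : ℤ))
    (h63 : m 63 0 0 0 = l) (hI : HI G (2 ^ l) u v I m)
    (h64 : ∀ s < G, 2 ^ l ∣ s → (s / 2 ^ l) % 2 = 1 → ∀ x < 2 * G, m 64 s x 0 = iv (F s x = true)) :
    HI G (2 ^ l) u v (nextI G (2 ^ l) F I) (exec W fixP m) ∧ steps W fixP m ≤ 2 * l + 7 := by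
  have hW0 : 0 < W := small_lt hW (n := 0) (by omega)
  have hW1 : 1 < W := small_lt hW (n := 1) (by omega)
  have hGW : 6 * G < W := small_lt hW (by omega)
  have hlW : l < W := small_lt hW (by
    have h1 : lg G < 2 ^ lg G := Nat.lt_two_pow_self
    have h2 := two_pow_lg G
    omega)
  set q := 2 ^ l with hq
  have hq0 : 0 < q := by positivity
  set m1 := exec W (.assign 66 tTok) m with hm1
  set m2 := exec W (.assign 67 tPhi0) m1 with hm2
  set m3 := exec W (.loop 68 (g0 63) (.assign 67 tPhi)) m2 with hm3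
  set m4 := exec W (.assign 69 tLoc) m3 with hm4
  set m5 := exec W (.assign 60 (tHist 60 11)) m4 with hm5
  set m6 := exec W (.assign 61 (tHist 61 12)) m5 with hm6
  set m7 := exec W (.assign 62 tIni) m6 with hm7
  have f1 : ∀ r, r ≠ 66 → m1 r = m r := fun r hr => exec_frame _ _ _ _ (by simpa [mods] using hr)
  have f2 : ∀ r, r ≠ 67 → m2 r = m1 r := fun r hr => exec_frame _ _ _ _ (by simpa [mods] using hr)
  have f3 : ∀ r, r ≠ 67 → r ≠ 68 → m3 r = m2 r := fun r hr hr' =>
    exec_frame _ _ _ _ (by simp [mods, hr, hr'])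
  have f4 : ∀ r, r ≠ 69 → m4 r = m3 r := fun r hr => exec_frame _ _ _ _ (by simpa [mods] using hr)
  have f5 : ∀ r, r ≠ 60 → m5 r = m4 r := fun r hr => exec_frame _ _ _ _ (by simpa [mods] using hr)
  have f6 : ∀ r, r ≠ 61 → m6 r = m5 r := fun r hr => exec_frame _ _ _ _ (by simpa [mods] using hr)
  have f7 : ∀ r, r ≠ 62 → m7 r = m6 r := fun r hr => exec_frame _ _ _ _ (by simpa [mods] using hr)
  -- token
  set tok : ℕ → ℕ := fun s => fm (fun x => F s x ≠ I s x) (2 * G) with htok
  have a66 : ∀ s < G, q ∣ s → (s / q) % 2 = 1 → m1 66 s 0 0 = tok s := by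
    intro s hsG hqs hodd
    rw [hm1, exec_assign _ _ _ _ (by omega) hW0 hW0]
    have : eval W m tTok (env s 0 0) = (tok s : ℕ) := by
      unfold tTok
      rw [eval_sumTo W m 3 (2 * g0 10) _ _ (2 * G) (by omega)
        (by intro y; rw [ev_mul, ev_num, ev_g0, hs.g]; push_cast; rfl), htok,
        ← fm_sum (fun x => F s x ≠ I s x) (2 * G)]
      refine Finset.sum_congr rfl fun x hx => ?_
      have hx' := Finset.mem_range.mp hx
      rw [eval_eqt, eval_sumTo W m 4 (.var 3 + 1) _ _ (x + 1) (by omega)
        (by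
          intro y
          rw [ev_add, ev_var, ev_one, Function.update_of_ne (by decide), Function.update_self]
          push_cast; rfl), ev_zero]
      have h2 : ∀ y ∈ range (x + 1), eval W m (nt (eqt (g2 64 (.var 0) (.var 4))
          (g2 62 (.var 0) (.var 4))))
          (Function.update (Function.update (env s 0 0) 3 (x : ℤ)) 4 (y : ℤ)) =
          iv (F s y ≠ I s y) := by
        intro y hy
        have hy' := Finset.mem_range.mp hy
        rw [eval_nt, eval_eqt, ev_g2, ev_g2, ev_var, ev_var, Function.update_self,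
          Function.update_of_ne (show (0:ℕ) ≠ 4 by decide),
          Function.update_of_ne (show (0:ℕ) ≠ 3 by decide), env0, Int.toNat_natCast,
          Int.toNat_natCast, h64 s hsG hqs hodd y (by omega), hI.i s hsG hqs y (by omega), iv_inj,
          iv_one_sub]
        apply iv_congr
        cases F s y <;> cases I s y <;> simp
      rw [Finset.sum_congr rfl h2]
      apply iv_congr
      rw [sum_iv_eq_zero]
    rw [this]
    apply store_nat
    have := fm_le (fun x => F s x ≠ I s x) (2 * G)
    simp only [htok]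
    omega
  -- token movement
  set A : ℕ → Bool := fun k => run u v (I (bsq q k)) (bsq q k) (k - bsq q k) (u k) with hA
  set C : ℕ → Bool := fun k => run u v (I (bsq q k)) (bsq q k) (k - bsq q k) (v k) with hC
  set ph : ℕ → ℕ → ℕ := fun k y => phi (A k) (C k) (u k) (v k) y with hph
  have hphle : ∀ k < G, ∀ x ≤ 2 * G, ph k x ≤ 2 * G := fun k hk x hx =>
    phi_le (huv k hk).1 (huv k hk).2.1 hx
  have a67 : ∀ k < G, ∀ x ≤ 2 * G, m2 67 k x 0 = ph k x := by
    intro k hk x hx
    rw [hm2, exec_assign _ _ _ _ (by omega) (by omega) hW0]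
    have e11 : m1 11 k 0 0 = u k := by rw [f1 11 (by decide)]; exact hs.u k hk
    have e12 : m1 12 k 0 0 = v k := by rw [f1 12 (by decide)]; exact hs.v k hk
    have e60 : m1 60 k 0 0 = iv (A k = true) := by rw [f1 60 (by decide)]; exact hI.a k hk
    have e61 : m1 61 k 0 0 = iv (C k = true) := by rw [f1 61 (by decide)]; exact hI.c k hk
    have : eval W m1 tPhi0 (env k x 0) = (ph k x : ℕ) := by
      unfold tPhi0
      rw [eval_ite_iv (p := x = u k) (by
          rw [eval_eqt, ev_var, env1, ev_g1, ev_var, env0, Int.toNat_natCast, e11]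
          exact iv_congr Nat.cast_inj),
        eval_ite_iv (p := C k = true) (by
          rw [ev_g1, ev_var, env0, Int.toNat_natCast, e61]),
        eval_ite_iv (p := x = v k) (by
          rw [eval_eqt, ev_var, env1, ev_g1, ev_var, env0, Int.toNat_natCast, e12]
          exact iv_congr Nat.cast_inj),
        eval_ite_iv (p := A k = true) (by
          rw [ev_g1, ev_var, env0, Int.toNat_natCast, e60])]
      simp only [ev_g1, ev_var, env0, env1, Int.toNat_natCast, e11, e12, hph]
      unfold phi
      split_ifs <;> rfl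
    rw [this]
    exact store_nat (lt_of_le_of_lt (hphle k hk x hx) (by omega))
  have hn : (eval W m2 (g0 63) (env 0 0 0)).toNat = l := by
    rw [ev_g0, f2 63 (by decide), f1 63 (by decide), h63, Int.toNat_natCast]
  have hpcle : ∀ k < G, ∀ w ≤ k + 1, ∀ x ≤ 2 * G, pc ph (k + 1 - w) w x ≤ 2 * G := by
    intro k hk w hw x hx
    exact pc_le (fun j h1 h2 => hphle j (by omega)) hx
  have hloop := loop_inv (W := W) (r := 68) (t := g0 63) (p := .assign 67 tPhi) (m := m2)
    (n := l) hn (fun i m' => ∀ k < G, ∀ x ≤ 2 * G, m' 67 k x 0 =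
      (pc ph (k + 1 - min (2 ^ i) (k + 1 - bsq q k)) (min (2 ^ i) (k + 1 - bsq q k)) x : ℕ)) 1
    (by
      intro k hk x hx
      rw [a67 k hk x hx]
      have := bsq_le q k
      have e : min (2 ^ 0) (k + 1 - bsq q k) = 1 := by
        rw [pow_zero]; omega
      rw [e, Nat.add_sub_cancel, pc_one])
    (by
      intro i hi m' hfr hInv
      refine ⟨?_, by rw [steps_assign]⟩
      intro k hk x hx
      have hfr' : ∀ r', r' ≠ 67 → r' ≠ 68 → setc W 68 i m' r' = m2 r' := by
        intro r' h1 h2
        rw [setc, Function.update_of_ne h2]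
        exact hfr r' (by simp [mods, h1, h2])
      have e67 : setc W 68 i m' 67 = m' 67 := by rw [setc, Function.update_of_ne (by decide)]
      have e68 : setc W 68 i m' 68 0 0 0 = i := by
        rw [setc, Function.update_self]; exact store_nat (by omega)
      have e16 : setc W 68 i m' 16 i 0 0 = ((2 ^ i : ℕ) : ℤ) := by
        rw [hfr' 16 (by decide) (by decide), f2 16 (by decide), f1 16 (by decide),
          hs.p2 i (by omega)]
        push_cast; rfl
      have e70 : setc W 68 i m' 70 0 0 0 = (q : ℤ) := by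
        rw [hfr' 70 (by decide) (by decide), f2 70 (by decide), f1 70 (by decide), h70]
      have hbl := bsq_le q k
      have h2i : 0 < 2 ^ i := Nat.two_pow_pos i
      rw [exec_assign _ _ _ _ (by omega) (by omega) hW0]
      have : eval W (setc W 68 i m') tPhi (env k x 0) =
          (pc ph (k + 1 - min (2 ^ (i + 1)) (k + 1 - bsq q k)) (min (2 ^ (i + 1))
            (k + 1 - bsq q k)) x : ℕ) := by
        unfold tPhi
        rw [eval_ite_iv (p := bsq q k + 2 ^ i ≤ k) (by
          rw [eval_le, ev_add, ev_tBs e70, ev_g1, ev_g0, e68, Int.toNat_natCast, e16, ev_var, env0]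
          apply iv_congr; norm_cast), pow_succ, Nat.mul_comm (2 ^ i) 2, ← pc_double hbl]
        by_cases hk2 : bsq q k + 2 ^ i ≤ k
        · rw [if_pos hk2, if_pos hk2]
          have hik : 2 ^ i ≤ k := by omega
          have e1 : ((k : ℤ) - ((2 ^ i : ℕ) : ℤ)).toNat = k - 2 ^ i := by omega
          have hmid : bsq q (k - 2 ^ i) = bsq q k := bsq_mid hq0 (by omega) (by omega)
          have i2 := hInv (k - 2 ^ i) (by omega) x hx
          rw [hmid] at i2
          rw [ev_g2, ev_g2, ev_sub, ev_g1, ev_g0, ev_var, ev_var, env0, env1, e68,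
            Int.toNat_natCast, Int.toNat_natCast, e16, e1, Int.toNat_natCast, e67, i2,
            Int.toNat_natCast]
          exact hInv k hk _ (hpcle (k - 2 ^ i) (by omega) _ (by omega) x hx)
        · rw [if_neg hk2, if_neg hk2, ev_g2, ev_var, ev_var, env0, env1, Int.toNat_natCast,
            Int.toNat_natCast, e67]
          exact hInv k hk x hx
      rw [this]
      exact store_nat (lt_of_le_of_lt (hpcle k hk _ (by omega) x hx) (by omega)))
  have a67' : ∀ k < G, ∀ x ≤ 2 * G, m3 67 k x 0 = (pc ph (bsq q k) (k + 1 - bsq q k) x : ℕ) := by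
    intro k hk x hx
    have h := hloop.1 k hk x hx
    have h1 := lt_bsq hq0 k
    have h2 := bsq_le q k
    have e : min (2 ^ l) (k + 1 - bsq q k) = k + 1 - bsq q k := by
      rw [← hq]; omega
    rw [e] at h
    have e2 : k + 1 - (k + 1 - bsq q k) = bsq q k := by omega
    rw [e2] at h
    exact h
  have b66 : ∀ s < G, q ∣ s → (s / q) % 2 = 1 → m3 66 s 0 0 = tok s := by
    intro s h1 h2 h3
    rw [f3 66 (by decide) (by decide), f2 66 (by decide)]
    exact a66 s h1 h2 h3
  have htokle : ∀ s, tok s ≤ 2 * G := fun s => fm_le _ _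
  have b70 : m3 70 0 0 0 = (q : ℤ) := by
    rw [f3 70 (by decide) (by decide), f2 70 (by decide), f1 70 (by decide), h70]
  -- location
  have a69 : ∀ k < G, (k / q) % 2 = 1 → m4 69 k 0 0 =
      (loc u v (I (bsq q k)) (bsq q k) (tok (bsq q k)) (k - bsq q k) : ℕ) := by
    intro k hk hodd
    rw [hm4, exec_assign _ _ _ _ (by omega) hW0 hW0]
    have hbl := bsq_le q k
    have hloc : loc u v (I (bsq q k)) (bsq q k) (tok (bsq q k)) (k - bsq q k) =
        pc ph (bsq q k) (k - bsq q k) (tok (bsq q k)) := by
      apply loc_pc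
      · intro j hj
        simp only [hA]
        rw [bsq_mid (k := k) hq0 (by omega) (by omega)]
        congr 1
        omega
      · intro j hj
        simp only [hC]
        rw [bsq_mid (k := k) hq0 (by omega) (by omega)]
        congr 1
        omega
    have htk : m3 66 (bsq q k) 0 0 = tok (bsq q k) :=
      b66 _ (by omega) (dvd_bsq q k) (by rw [bsq_div hq0]; exact hodd)
    have : eval W m3 tLoc (env k 0 0) =
        (loc u v (I (bsq q k)) (bsq q k) (tok (bsq q k)) (k - bsq q k) : ℕ) := by
      unfold tLoc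
      rw [eval_ite_iv (p := k = bsq q k) (by
        rw [eval_eqt, ev_var, env0, ev_tBs b70]
        exact iv_congr Nat.cast_inj), hloc]
      by_cases hkb : k = bsq q k
      · rw [if_pos hkb, ev_g1, ev_tBs b70, Int.toNat_natCast, htk]
        have : k - bsq q k = 0 := by omega
        rw [this]
        rfl
      · rw [if_neg hkb, ev_g2, ev_sub, ev_one, ev_var, env0, ev_g1, ev_tBs b70, Int.toNat_natCast,
          htk]
        have e1 : ((k:ℤ) - 1).toNat = k - 1 := by omega
        rw [e1, Int.toNat_natCast, a67' (k - 1) (by omega) _ (htokle _),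
          bsq_mid (k := k) (j := k - 1) hq0 (by omega) (by omega)]
        have e2 : k - 1 + 1 - bsq q k = k - bsq q k := by omega
        rw [e2]
    rw [this, hloc]
    exact store_nat (lt_of_le_of_lt (pc_le (fun j h1 h2 => hphle j (by omega)) (htokle _))
      (by omega))
  have c70 : m4 70 0 0 0 = (q : ℤ) := by rw [f4 70 (by decide)]; exact b70
  have d70 : m5 70 0 0 0 = (q : ℤ) := by rw [f5 70 (by decide)]; exact c70
  have g70 : m6 70 0 0 0 = (q : ℤ) := by rw [f6 70 (by decide)]; exact d70
  -- effect of a flip on the histories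
  have hflip : ∀ k < G, (k / q) % 2 = 1 → ∀ y,
      run u v (nextI G q F I (bsq q k)) (bsq q k) (k - bsq q k) y =
      flip (run u v (I (bsq q k)) (bsq q k) (k - bsq q k))
        (loc u v (I (bsq q k)) (bsq q k) (tok (bsq q k)) (k - bsq q k)) y := by
    intro k hk hodd y
    have h1 : nextI G q F I (bsq q k) = flip (I (bsq q k)) (tok (bsq q k)) := by
      unfold nextI
      rw [bsq_div hq0, if_pos hodd]
      rfl
    have hbl := bsq_le q k
    rw [h1, run_flip (fun j h2 h3 => (huv j (by omega)).2.2)]
  have heven : ∀ k, ¬ (k / q) % 2 = 1 → nextI G q F I (bsq q k) = I (bsq q k) := by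
    intro k hodd
    unfold nextI
    rw [bsq_div hq0, if_neg hodd]
  refine ⟨⟨?_, ?_, ?_⟩, ?_⟩
  · intro k hk
    show m7 60 k 0 0 = _
    rw [f7 60 (by decide), f6 60 (by decide), hm5, exec_assign _ _ _ _ (by omega) hW0 hW0]
    have e60 : m4 60 k 0 0 = iv (A k = true) := by
      rw [f4 60 (by decide), f3 60 (by decide) (by decide), f2 60 (by decide), f1 60 (by decide)]
      exact hI.a k hk
    have e11 : m4 11 k 0 0 = u k := by
      rw [f4 11 (by decide), f3 11 (by decide) (by decide), f2 11 (by decide), f1 11 (by decide)]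
      exact hs.u k hk
    by_cases hodd : (k / q) % 2 = 1
    · have h := ev_xor (W := W) (m := m4) (e := env k 0 0) (a := g1 60 (.var 0))
        (b := tOdd * eqt (g1 69 (.var 0)) (g1 11 (.var 0))) (p := A k = true)
        (r := loc u v (I (bsq q k)) (bsq q k) (tok (bsq q k)) (k - bsq q k) = u k)
        (by rw [ev_g1, ev_var, env0, Int.toNat_natCast, e60])
        (by
          rw [ev_mul, ev_tOdd c70, iv_pos hodd, one_mul, eval_eqt, ev_g1, ev_g1, ev_var, env0,
            Int.toNat_natCast, e11, a69 k hk hodd]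
          exact iv_congr Nat.cast_inj)
      unfold tHist
      rw [h, store_iv hW1, hflip k hk hodd]
      apply iv_congr
      unfold Greedy.flip
      simp only [hA]
      by_cases hx : u k = loc u v (I (bsq q k)) (bsq q k) (tok (bsq q k)) (k - bsq q k)
      · rw [if_pos hx]
        cases hr : run u v (I (bsq q k)) (bsq q k) (k - bsq q k) (u k) <;> simp [← hx]
      · rw [if_neg hx]
        have hx' : ¬ loc u v (I (bsq q k)) (bsq q k) (tok (bsq q k)) (k - bsq q k) = u k :=
          fun h => hx h.symm
        cases hr : run u v (I (bsq q k)) (bsq q k) (k - bsq q k) (u k) <;> simp [hx']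
    · have h := ev_xor (W := W) (m := m4) (e := env k 0 0) (a := g1 60 (.var 0))
        (b := tOdd * eqt (g1 69 (.var 0)) (g1 11 (.var 0))) (p := A k = true)
        (r := False)
        (by rw [ev_g1, ev_var, env0, Int.toNat_natCast, e60])
        (by rw [ev_mul, ev_tOdd c70, iv_neg hodd, zero_mul]; exact (iv_neg (fun h => h)).symm)
      unfold tHist
      rw [h, store_iv hW1, heven k hodd]
      apply iv_congr
      simp only [hA]
      tauto
  · intro k hk
    show m7 61 k 0 0 = _
    rw [f7 61 (by decide), hm6, exec_assign _ _ _ _ (by omega) hW0 hW0]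
    have e61 : m5 61 k 0 0 = iv (C k = true) := by
      rw [f5 61 (by decide), f4 61 (by decide), f3 61 (by decide) (by decide), f2 61 (by decide),
        f1 61 (by decide)]
      exact hI.c k hk
    have e12 : m5 12 k 0 0 = v k := by
      rw [f5 12 (by decide), f4 12 (by decide), f3 12 (by decide) (by decide), f2 12 (by decide),
        f1 12 (by decide)]
      exact hs.v k hk
    by_cases hodd : (k / q) % 2 = 1
    · have h := ev_xor (W := W) (m := m5) (e := env k 0 0) (a := g1 61 (.var 0))
        (b := tOdd * eqt (g1 69 (.var 0)) (g1 12 (.var 0))) (p := C k = true)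
        (r := loc u v (I (bsq q k)) (bsq q k) (tok (bsq q k)) (k - bsq q k) = v k)
        (by rw [ev_g1, ev_var, env0, Int.toNat_natCast, e61])
        (by
          rw [ev_mul, ev_tOdd d70, iv_pos hodd, one_mul, eval_eqt, ev_g1, ev_g1, ev_var, env0,
            Int.toNat_natCast, e12, f5 69 (by decide), a69 k hk hodd]
          exact iv_congr Nat.cast_inj)
      unfold tHist
      rw [h, store_iv hW1, hflip k hk hodd]
      apply iv_congr
      unfold Greedy.flip
      simp only [hC]
      by_cases hx : v k = loc u v (I (bsq q k)) (bsq q k) (tok (bsq q k)) (k - bsq q k)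
      · rw [if_pos hx]
        cases hr : run u v (I (bsq q k)) (bsq q k) (k - bsq q k) (v k) <;> simp [← hx]
      · rw [if_neg hx]
        have hx' : ¬ loc u v (I (bsq q k)) (bsq q k) (tok (bsq q k)) (k - bsq q k) = v k :=
          fun h => hx h.symm
        cases hr : run u v (I (bsq q k)) (bsq q k) (k - bsq q k) (v k) <;> simp [hx']
    · have h := ev_xor (W := W) (m := m5) (e := env k 0 0) (a := g1 61 (.var 0))
        (b := tOdd * eqt (g1 69 (.var 0)) (g1 12 (.var 0))) (p := C k = true)
        (r := False)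
        (by rw [ev_g1, ev_var, env0, Int.toNat_natCast, e61])
        (by rw [ev_mul, ev_tOdd d70, iv_neg hodd, zero_mul]; exact (iv_neg (fun h => h)).symm)
      unfold tHist
      rw [h, store_iv hW1, heven k hodd]
      apply iv_congr
      simp only [hC]
      tauto
  · intro s hsG hqs x hx
    show m7 62 s x 0 = _
    rw [hm7, exec_assign _ _ _ _ (by omega) (by omega) hW0]
    have e62 : m6 62 s x 0 = iv (I s x = true) := by
      rw [f6 62 (by decide), f5 62 (by decide), f4 62 (by decide), f3 62 (by decide) (by decide),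
        f2 62 (by decide), f1 62 (by decide)]
      exact hI.i s hsG hqs x hx
    have hbs : bsq q s = s := bsq_of_dvd hqs
    by_cases hodd : (s / q) % 2 = 1
    · have e66 : m6 66 s 0 0 = tok s := by
        rw [f6 66 (by decide), f5 66 (by decide), f4 66 (by decide)]
        exact b66 s hsG hqs hodd
      have h := ev_xor (W := W) (m := m6) (e := env s x 0) (a := g2 62 (.var 0) (.var 1))
        (b := tOdd * (eqt (.var 0) tBs * eqt (.var 1) (g1 66 (.var 0)))) (p := I s x = true)
        (r := x = tok s)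
        (by rw [ev_g2, ev_var, ev_var, env0, env1, Int.toNat_natCast, Int.toNat_natCast, e62])
        (by
          rw [ev_mul, ev_tOdd g70, iv_pos hodd, one_mul, ev_mul, eval_eqt, eval_eqt, ev_tBs g70,
            hbs, ev_g1, ev_var, ev_var, env0, env1, Int.toNat_natCast, e66, iv_pos rfl, one_mul]
          exact iv_congr Nat.cast_inj)
      unfold tIni
      rw [h, store_iv hW1]
      apply iv_congr
      have h1 : nextI G q F I s = flip (I s) (tok s) := by
        unfold nextI
        rw [if_pos hodd]
        rfl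
      rw [h1]
      unfold Greedy.flip
      by_cases hx' : x = tok s
      · rw [if_pos hx']
        cases hr : I s x <;> simp [hx']
      · rw [if_neg hx']
        cases hr : I s x <;> simp [hx']
    · have h := ev_xor (W := W) (m := m6) (e := env s x 0) (a := g2 62 (.var 0) (.var 1))
        (b := tOdd * (eqt (.var 0) tBs * eqt (.var 1) (g1 66 (.var 0)))) (p := I s x = true)
        (r := False)
        (by rw [ev_g2, ev_var, ev_var, env0, env1, Int.toNat_natCast, Int.toNat_natCast, e62])
        (by rw [ev_mul, ev_tOdd g70, iv_neg hodd, zero_mul]; exact (iv_neg (fun h => h)).symm)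
      unfold tIni
      rw [h, store_iv hW1]
      apply iv_congr
      have h1 : nextI G q F I s = I s := by
        unfold nextI
        rw [if_neg hodd]
      rw [h1]
      tauto
  · have := hloop.2
    show 1 + (1 + (steps W (.loop 68 (g0 63) (.assign 67 tPhi)) m2 + (1 + (1 + (1 + 1))))) ≤ _
    omega

end Core

end Pool.Agent.Helper91.SM
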