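import Pool.Agent.Helper91.SM.CoreD1

/-!
Merging stage: levels, and the specification of the core program.
-/

namespace Pool.Agent.Helper91.SM

open Finset Term

namespace Core

open Gadget Greedy

attribute [local irreducible] QQ DD QQ0 LL lg Tj

lemma bsq_double {q : ℕ} (hq : 0 < q) (k : ℕ) : bsq (2 * q) k =
    if (k / q) % 2 = 1 then bsq q k - q else bsq q k := by
  have h1 : k / (2 * q) = k / q / 2 := by rw [Nat.mul_comm, Nat.div_div_eq_div_mul]
  unfold bsq
  rw [h1]
  clear h1
  generalize k / q = a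
  split_ifs with h
  · have e : a * q - q = (a - 1) * q := by rw [Nat.sub_mul, Nat.one_mul]
    rw [e]
    have e2 : a - 1 = a / 2 * 2 := by omega
    rw [e2]; ring
  · have e2 : a = a / 2 * 2 := by omega
    conv_rhs => rw [e2]
    ring

lemma bsq_odd_ge {q : ℕ} (k : ℕ) (h : (k / q) % 2 = 1) : q ≤ bsq q k := by
  unfold bsq
  have : 1 ≤ k / q := by
    rw [Nat.one_le_iff_ne_zero]
    intro h0
    rw [h0] at h
    simp at h
  exact Nat.le_mul_of_pos_left q this

lemma sum_pos_iff {n : ℕ} {b : ℤ} {F : ℕ → ℤ} (hb : 0 ≤ b) (hF : ∀ k < n, 0 ≤ F k) :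
    0 < b + ∑ k ∈ range n, F k ↔ (0 < b ∨ ∃ k < n, 0 < F k) := by
  have hs : 0 ≤ ∑ k ∈ range n, F k := Finset.sum_nonneg fun k hk => hF k (Finset.mem_range.mp hk)
  constructor
  · intro h
    by_contra hcon
    push Not at hcon
    obtain ⟨h1, h2⟩ := hcon
    have : ∑ k ∈ range n, F k ≤ 0 := Finset.sum_nonpos fun k hk => h2 k (Finset.mem_range.mp hk)
    omega
  · rintro (h | ⟨k, hk, h⟩)
    · omega
    · have := Finset.single_le_sum (f := F) (fun i hi => hF i (Finset.mem_range.mp hi))
        (Finset.mem_range.mpr hk)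
      omega

/-- the final state of the block preceding `s` -/
def Fs (u v : ℕ → ℕ) (B : ℕ → ℕ → Bool) (q s : ℕ) : ℕ → Bool := run u v (B (s - q)) (s - q) q

/-- number of repairs -/
def K2 (G : ℕ) : ℕ := 2880 * 2 ^ LL G

theorem levelP_spec {W G l : ℕ} (hW : Big G W) {m : Mem} {u v : ℕ → ℕ}
    (huv : ∀ k < G, u k < 2 * G ∧ v k < 2 * G ∧ u k ≠ v k) {B : ℕ → ℕ → Bool}
    (hB : ∀ t ≤ G, ham (2 * G) (B t) (run u v (fun _ => false) 0 t) ≤ 1440 * 2 ^ LL G)
    (hs : SA G u v m) (hl : l < lg G + 5) (h63 : m 63 0 0 0 = l) (hI : HI G (2 ^ l) u v B m) :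
    HI G (2 ^ (l + 1)) u v B (exec W levelP m) ∧ SA G u v (exec W levelP m) ∧
      steps W levelP m ≤ K2 G * (2 * l + 8) + 3 := by
  have hW0 : 0 < W := small_lt hW (n := 0) (by omega)
  have hW1 : 1 < W := small_lt hW (n := 1) (by omega)
  have hGW : 6 * G < W := small_lt hW (by omega)
  have hpW : 2 ^ l < W := by
    have h1 : 2 ^ l ≤ 2 ^ (lg G + 4) := Nat.pow_le_pow_right (by norm_num) (by omega)
    have h2 : 2 ^ (lg G + 4) = 16 * 2 ^ lg G := by rw [pow_add]; ring
    have h3 := two_pow_lg G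
    exact small_lt hW (by omega)
  have hLL := LL_le G
  set q := 2 ^ l with hq
  have hq0 : 0 < q := by positivity
  set m1 := exec W (.assign 70 tB2) m with hm1
  set m2 := exec W (.assign 64 tFin) m1 with hm2
  set m3 := exec W (.loop 65 tK fixP) m2 with hm3
  have f1 : ∀ r, r ≠ 70 → m1 r = m r := fun r hr => exec_frame _ _ _ _ (by simpa [mods] using hr)
  have f2 : ∀ r, r ≠ 64 → m2 r = m1 r := fun r hr => exec_frame _ _ _ _ (by simpa [mods] using hr)
  have s1 : SA G u v m1 := hs.congr fun r h1 h2 => f1 r (by omega)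
  have s2 : SA G u v m2 := s1.congr fun r h1 h2 => f2 r (by omega)
  have a70 : m1 70 0 0 0 = (q : ℤ) := by
    rw [hm1, exec_assign _ _ _ _ hW0 hW0 hW0]
    have : eval W m tB2 (env 0 0 0) = (q : ℕ) := by
      unfold tB2
      rw [ev_g1, ev_g0, h63, Int.toNat_natCast, hs.p2 l hl, hq]
      push_cast; rfl
    rw [this]
    exact store_nat hpW
  have b70 : m2 70 0 0 0 = (q : ℤ) := by rw [f2 70 (by decide), a70]
  -- final states of the blocks
  set F : ℕ → ℕ → Bool := Fs u v B q with hF
  have a64 : ∀ s < G, q ∣ s → (s / q) % 2 = 1 → ∀ x < 2 * G, m2 64 s x 0 = iv (F s x = true) := by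
    intro s hsG hqs hodd x hx
    rw [hm2, exec_assign _ _ _ _ (by omega) (by omega) hW0]
    have hbs : bsq q s = s := bsq_of_dvd hqs
    have hqle : q ≤ s := by
      have := bsq_odd_ge s hodd
      rwa [hbs] at this
    have hdvd : q ∣ s - q := Nat.dvd_sub hqs (dvd_refl q)
    have hblk : ∀ k, s - q ≤ k → k < s → bsq q k = s - q := by
      intro k h1 h2
      have h3 : bsq q k ≤ k := bsq_le q k
      obtain ⟨c, hc⟩ := hqs
      have hcpos : 1 ≤ c := by
        rcases Nat.eq_zero_or_pos c with h | h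
        · subst h; omega
        · exact h
      have e1 : s - q = (c - 1) * q := by
        rw [hc, Nat.sub_mul, Nat.one_mul, Nat.mul_comm]
      have e2 : k / q = c - 1 := by
        apply Nat.div_eq_of_lt_le
        · rw [← e1]; exact h1
        · have : (c - 1 + 1) * q = s := by
            rw [Nat.sub_add_cancel hcpos, hc, Nat.mul_comm]
          rw [this]; exact h2
      unfold bsq
      rw [e2, e1]
    have : eval W m1 tFin (env s x 0) = iv (F s x = true) := by
      unfold tFin
      rw [eval_lt, ev_zero, ev_add, ev_g2, ev_sub, ev_g0, a70, ev_var, ev_var, env0, env1,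
        Int.toNat_natCast]
      have e1 : ((s:ℤ) - (q:ℤ)).toNat = s - q := by omega
      rw [e1, f1 62 (by decide), hI.i (s - q) (by omega) hdvd x hx,
        eval_sumTo W m1 3 (.var 0) _ _ s (by omega)
          (by intro y; rw [ev_var, Function.update_of_ne (by decide), env0])]
      have hterm : ∀ k ∈ range s, eval W m1 ((le (.var 0) (.var 3 + g0 70)) *
          ((eqt (g1 60 (.var 3)) 0 * eqt (g1 61 (.var 3)) 0) *
          (eqt (g1 11 (.var 3)) (.var 1) + eqt (g1 12 (.var 3)) (.var 1))))
          (Function.update (env s x 0) 3 (k : ℤ)) =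
          iv (s ≤ k + q) * ((iv (m 60 k 0 0 = 0) * iv (m 61 k 0 0 = 0)) *
            (iv (u k = x) + iv (v k = x))) := by
        intro k hk
        have hk' := Finset.mem_range.mp hk
        rw [ev_mul, ev_mul, ev_mul, ev_add, eval_le, eval_eqt, eval_eqt, eval_eqt, eval_eqt,
          ev_add, ev_g0, a70, ev_g1, ev_g1, ev_g1, ev_g1, ev_zero, ev_var, ev_var, ev_var,
          Function.update_self, Function.update_of_ne (show (0:ℕ) ≠ 3 by decide),
          Function.update_of_ne (show (1:ℕ) ≠ 3 by decide), env0, env1, Int.toNat_natCast,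
          s1.u k (by omega), s1.v k (by omega), f1 60 (by decide), f1 61 (by decide),
          iv_congr (Nat.cast_inj (R := ℤ) (m := u k) (n := x)),
          iv_congr (Nat.cast_inj (R := ℤ) (m := v k) (n := x))]
        congr 1
        apply iv_congr
        norm_cast
      rw [Finset.sum_congr rfl hterm]
      apply iv_congr
      rw [sum_pos_iff (iv_nonneg _) (by
        intro k _
        have h1 := iv_nonneg (s ≤ k + q)
        have h2 := iv_nonneg (m 60 k 0 0 = 0)
        have h3 := iv_nonneg (m 61 k 0 0 = 0)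
        have h4 := iv_nonneg (u k = x)
        have h5 := iv_nonneg (v k = x)
        positivity)]
      simp only [hF, Fs]
      rw [run_or]
      have hivpos : ∀ p : Prop, (0 < iv p) ↔ p := by
        intro p
        by_cases hp : p <;> simp [iv, hp]
      rw [hivpos]
      constructor
      · rintro (h | ⟨k, hk, h⟩)
        · exact Or.inl h
        · right
          have hk1 : s ≤ k + q := by
            by_contra hcon
            rw [iv_neg hcon] at h
            simp at h
          have hb := hblk k (by omega) hk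
          refine ⟨k - (s - q), by omega, ?_, ?_⟩
          · have e2 : s - q + (k - (s - q)) = k := by omega
            rw [e2]
            have h60 : m 60 k 0 0 = 0 := by
              by_contra hcon
              rw [iv_neg hcon] at h
              simp at h
            have h61 : m 61 k 0 0 = 0 := by
              by_contra hcon
              rw [iv_neg hcon] at h
              simp at h
            rw [hI.a k (by omega), hb, iv_eq_zero, Bool.not_eq_true] at h60
            rw [hI.c k (by omega), hb, iv_eq_zero, Bool.not_eq_true] at h61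
            exact ⟨h60, h61⟩
          · have e2 : s - q + (k - (s - q)) = k := by omega
            rw [e2]
            by_contra hcon
            push Not at hcon
            rw [iv_neg hcon.1, iv_neg hcon.2] at h
            simp at h
      · rintro (h | ⟨j, hj, ⟨h1, h2⟩, h3⟩)
        · exact Or.inl h
        · right
          have hb := hblk (s - q + j) (by omega) (by omega)
          refine ⟨s - q + j, by omega, ?_⟩
          have e2 : s - q + j - (s - q) = j := by omega
          have h60 : m 60 (s - q + j) 0 0 = 0 := by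
            rw [hI.a _ (by omega), hb, e2, iv_eq_zero, Bool.not_eq_true]; exact h1
          have h61 : m 61 (s - q + j) 0 0 = 0 := by
            rw [hI.c _ (by omega), hb, e2, iv_eq_zero, Bool.not_eq_true]; exact h2
          rw [iv_pos (show s ≤ s - q + j + q by omega), iv_pos h60, iv_pos h61]
          have h4 := iv_nonneg (u (s - q + j) = x)
          have h5 := iv_nonneg (v (s - q + j) = x)
          rcases h3 with h3 | h3
          · rw [iv_pos h3]; omega
          · rw [iv_pos h3]; omega
    rw [this, store_iv hW1]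
  -- initial distances
  have hd0 : ∀ s < G, q ∣ s → (s / q) % 2 = 1 → ham (2 * G) (F s) (B s) ≤ K2 G := by
    intro s hsG hqs hodd
    have hbs : bsq q s = s := bsq_of_dvd hqs
    have hqle : q ≤ s := by
      have := bsq_odd_ge s hodd
      rwa [hbs] at this
    have h1 := hB s hsG.le
    have h2 := hB (s - q) (by omega)
    have h3 := ham_run (P := 2 * G) (u := u) (v := v) (t := s - q) (n := q)
      (fun k h4 h5 => ⟨(huv k (by omega)).2.2, (huv k (by omega)).1, (huv k (by omega)).2.1⟩)
      (B (s - q)) (run u v (fun _ => false) 0 (s - q))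
    have h4 : run u v (run u v (fun _ => false) 0 (s - q)) (s - q) q =
        run u v (fun _ => false) 0 s := by
      have := run_add u v (fun _ => false) 0 (s - q) q
      rw [Nat.zero_add, Nat.sub_add_cancel hqle] at this
      exact this.symm
    rw [h4] at h3
    have h5 := ham_triangle (2 * G) (F s) (run u v (fun _ => false) 0 s) (B s)
    rw [ham_symm (2 * G) (run u v (fun _ => false) 0 s) (B s)] at h5
    have h6 : ham (2 * G) (F s) (run u v (fun _ => false) 0 s) ≤
        ham (2 * G) (B (s - q)) (run u v (fun _ => false) 0 (s - q)) := h3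
    unfold K2
    omega
  -- loop
  have hn : (eval W m2 tK (env 0 0 0)).toNat = K2 G := by
    unfold tK K2
    rw [ev_mul, ev_num, ev_g1, ev_g0, s2.L, Int.toNat_natCast, s2.p2 _ (by omega)]
    norm_cast
  have hI2 : HI G q u v B m2 := by
    refine ⟨?_, ?_, ?_⟩
    · intro k hk; rw [f2 60 (by decide), f1 60 (by decide)]; exact hI.a k hk
    · intro k hk; rw [f2 61 (by decide), f1 61 (by decide)]; exact hI.c k hk
    · intro s h1 h2 x hx; rw [f2 62 (by decide), f1 62 (by decide)]; exact hI.i s h1 h2 x hx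
  have hloop := loop_inv (W := W) (r := 65) (t := tK) (p := fixP) (m := m2)
    (n := K2 G) hn (fun i m' => SA G u v m' ∧ ∃ I : ℕ → ℕ → Bool, HI G q u v I m' ∧
      (∀ s, (s / q) % 2 ≠ 1 → I s = B s) ∧
      (∀ s < G, q ∣ s → (s / q) % 2 = 1 → ham (2 * G) (F s) (I s) ≤ K2 G - i)) (2 * l + 7)
    ⟨s2, B, hI2, fun _ _ => rfl, by simpa using hd0⟩
    (by
      rintro i hi m' hfr ⟨hs', I, hI', hev, hod⟩
      set m4 := setc W 65 i m' with hm4
      have g4 : ∀ r, r ≠ 65 → m4 r = m' r := fun r hr => by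
        rw [hm4, setc, Function.update_of_ne hr]
      have s4 : SA G u v m4 := hs'.congr fun r a b => g4 r (by omega)
      have e70 : m4 70 0 0 0 = ((2 ^ l : ℕ) : ℤ) := by
        rw [g4 70 (by decide), hfr 70 (by decide)]; exact b70
      have e63 : m4 63 0 0 0 = l := by
        rw [g4 63 (by decide), hfr 63 (by decide), f2 63 (by decide), f1 63 (by decide)]; exact h63
      have hI4 : HI G (2 ^ l) u v I m4 := by
        refine ⟨?_, ?_, ?_⟩
        · intro k hk; rw [g4 60 (by decide)]; exact hI'.a k hk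
        · intro k hk; rw [g4 61 (by decide)]; exact hI'.c k hk
        · intro s h1 h2 x hx; rw [g4 62 (by decide)]; exact hI'.i s h1 h2 x hx
      obtain ⟨r1, r2⟩ := fixP_spec hW huv (F := F) s4 hl e70 e63 hI4
        (by
          intro s h1 h2 h3 x hx
          rw [g4 64 (by decide), hfr 64 (by decide)]
          exact a64 s h1 h2 h3 x hx)
      refine ⟨⟨?_, nextI G q F I, r1, ?_, ?_⟩, r2⟩
      · refine s4.congr fun r a b => exec_frame _ _ _ _ (fun h => ?_)
        simp only [mods, fixP, Finset.mem_union, Finset.mem_insert, Finset.mem_singleton] at h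
        omega
      · intro s hodd
        unfold nextI
        rw [if_neg hodd]
        exact hev s hodd
      · intro s h1 h2 h3
        unfold nextI
        rw [if_pos h3]
        have := ham_fixI (hod s h1 h2 h3)
        omega)
  obtain ⟨⟨sfin, I, hIf, hev, hod⟩, hst⟩ := hloop
  have hqq : 2 ^ (l + 1) = 2 * q := by rw [pow_succ, hq]; ring
  -- final histories
  have hist : ∀ k < G, ∀ x < 2 * G, run u v (I (bsq q k)) (bsq q k) (k - bsq q k) x =
      run u v (B (bsq (2 * q) k)) (bsq (2 * q) k) (k - bsq (2 * q) k) x := by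
    intro k hk x hx
    rw [bsq_double hq0]
    by_cases hodd : (k / q) % 2 = 1
    · rw [if_pos hodd]
      have hge := bsq_odd_ge k hodd
      have hle := bsq_le q k
      have h1 := hod (bsq q k) (by omega) (dvd_bsq q k) (by rw [bsq_div hq0]; exact hodd)
      have h2 : ham (2 * G) (F (bsq q k)) (I (bsq q k)) = 0 := by omega
      have h3 := ham_zero h2
      have h4 := run_congr (P := 2 * G) (u := u) (v := v) (t := bsq q k) (n := k - bsq q k)
        (fun j a b => ⟨(huv j (by omega)).1, (huv j (by omega)).2.1⟩) h3 x hx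
      rw [← h4]
      have h5 := run_add u v (B (bsq q k - q)) (bsq q k - q) q (k - bsq q k)
      have e1 : bsq q k - q + q = bsq q k := by omega
      have e2 : q + (k - bsq q k) = k - (bsq q k - q) := by omega
      rw [e1, e2] at h5
      rw [h5]
      rfl
    · rw [if_neg hodd, hev _ (by rw [bsq_div hq0]; exact hodd)]
  refine ⟨⟨?_, ?_, ?_⟩, sfin, ?_⟩
  · intro k hk
    rw [hqq, ← hist k hk _ (huv k hk).1]
    exact hIf.a k hk
  · intro k hk
    rw [hqq, ← hist k hk _ (huv k hk).2.1]
    exact hIf.c k hk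
  · intro s h1 h2 x hx
    rw [hqq] at h2
    have h3 : q ∣ s := (Dvd.intro_left 2 rfl).trans h2
    have h4 : (s / q) % 2 ≠ 1 := by
      obtain ⟨c, hc⟩ := h2
      have : s / q = 2 * c := by
        rw [hc, Nat.mul_assoc, Nat.mul_comm 2, Nat.mul_assoc, Nat.mul_div_cancel_left _ hq0,
          Nat.mul_comm]
      omega
    have h5 := hIf.i s h1 h3 x hx
    rw [hev s h4] at h5
    exact h5
  · show 1 + (1 + steps W (.loop 65 tK fixP) m2) ≤ _
    have e : K2 G * (2 * l + 7 + 1) = K2 G * (2 * l + 8) := by ring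
    rw [e] at hst
    omega

theorem stD_spec {W G : ℕ} (hW : Big G W) {m : Mem} {u v : ℕ → ℕ}
    (huv : ∀ k < G, u k < 2 * G ∧ v k < 2 * G ∧ u k ≠ v k) {B : ℕ → ℕ → Bool}
    (hB : ∀ t ≤ G, ham (2 * G) (B t) (run u v (fun _ => false) 0 t) ≤ 1440 * 2 ^ LL G)
    (hB0 : B 0 = fun _ => false)
    (hs : SA G u v m) (h54 : ∀ t ≤ G, ∀ x < 2 * G, m 54 t x 0 = iv (B t x = true)) :
    (∀ k < G, (exec W stD m) 60 k 0 0 = iv (run u v (fun _ => false) 0 k (u k) = true)) ∧
    (∀ k < G, (exec W stD m) 61 k 0 0 = iv (run u v (fun _ => false) 0 k (v k) = true)) ∧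
    steps W stD m ≤ lg G * (K2 G * (2 * lg G + 8) + 4) + 4 := by
  have hW0 : 0 < W := small_lt hW (n := 0) (by omega)
  have hW1 : 1 < W := small_lt hW (n := 1) (by omega)
  have hGW : 6 * G < W := small_lt hW (by omega)
  have hlgW : lg G < W := small_lt hW (by
    have h1 : lg G < 2 ^ lg G := Nat.lt_two_pow_self
    have h2 := two_pow_lg G
    omega)
  set m1 := exec W (.assign 60 (g2 54 (.var 0) (g1 11 (.var 0)))) m with hm1
  set m2 := exec W (.assign 61 (g2 54 (.var 0) (g1 12 (.var 0)))) m1 with hm2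
  set m3 := exec W (.assign 62 (g2 54 (.var 0) (.var 1))) m2 with hm3
  have f1 : ∀ r, r ≠ 60 → m1 r = m r := fun r hr => exec_frame _ _ _ _ (by simpa [mods] using hr)
  have f2 : ∀ r, r ≠ 61 → m2 r = m1 r := fun r hr => exec_frame _ _ _ _ (by simpa [mods] using hr)
  have f3 : ∀ r, r ≠ 62 → m3 r = m2 r := fun r hr => exec_frame _ _ _ _ (by simpa [mods] using hr)
  have s1 : SA G u v m1 := hs.congr fun r h1 h2 => f1 r (by omega)
  have s2 : SA G u v m2 := s1.congr fun r h1 h2 => f2 r (by omega)
  have s3 : SA G u v m3 := s2.congr fun r h1 h2 => f3 r (by omega)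
  have hb1 : ∀ k, bsq 1 k = k := fun k => by unfold bsq; rw [Nat.div_one, Nat.mul_one]
  have a60 : ∀ k < G, m1 60 k 0 0 = iv (B k (u k) = true) := by
    intro k hk
    rw [hm1, exec_assign _ _ _ _ (by omega) hW0 hW0, ev_g2, ev_g1, ev_var, env0,
      Int.toNat_natCast, hs.u k hk, Int.toNat_natCast, h54 k hk.le _ (huv k hk).1, store_iv hW1]
  have a61 : ∀ k < G, m2 61 k 0 0 = iv (B k (v k) = true) := by
    intro k hk
    rw [hm2, exec_assign _ _ _ _ (by omega) hW0 hW0, ev_g2, ev_g1, ev_var, env0,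
      Int.toNat_natCast, s1.v k hk, Int.toNat_natCast, f1 54 (by decide),
      h54 k hk.le _ (huv k hk).2.1, store_iv hW1]
  have i0 : HI G (2 ^ 0) u v B m3 := by
    refine ⟨?_, ?_, ?_⟩
    · intro k hk
      rw [f3 60 (by decide), f2 60 (by decide), a60 k hk, pow_zero, hb1, Nat.sub_self]
      rfl
    · intro k hk
      rw [f3 61 (by decide), a61 k hk, pow_zero, hb1, Nat.sub_self]
      rfl
    · intro s hsG _ x hx
      rw [hm3, exec_assign _ _ _ _ (by omega) (by omega) hW0, ev_g2, ev_var, ev_var, env0, env1,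
        Int.toNat_natCast, Int.toNat_natCast, f2 54 (by decide), f1 54 (by decide),
        h54 s hsG.le x hx, store_iv hW1]
  have hn : (eval W m3 (g0 15) (env 0 0 0)).toNat = lg G := by
    rw [ev_g0, s3.lg, Int.toNat_natCast]
  have hloop := loop_inv (W := W) (r := 63) (t := g0 15) (p := levelP) (m := m3)
    (n := lg G) hn (fun l m' => SA G u v m' ∧ HI G (2 ^ l) u v B m')
    (K2 G * (2 * lg G + 8) + 3) ⟨s3, i0⟩
    (by
      rintro l hl m' hfr ⟨hs', hI'⟩
      set m4 := setc W 63 l m' with hm4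
      have g4 : ∀ r, r ≠ 63 → m4 r = m' r := fun r hr => by
        rw [hm4, setc, Function.update_of_ne hr]
      have s4 : SA G u v m4 := hs'.congr fun r a b => g4 r (by omega)
      have e63 : m4 63 0 0 0 = l := by
        rw [hm4, setc, Function.update_self]; exact store_nat (by omega)
      have hI4 : HI G (2 ^ l) u v B m4 := by
        refine ⟨?_, ?_, ?_⟩
        · intro k hk; rw [g4 60 (by decide)]; exact hI'.a k hk
        · intro k hk; rw [g4 61 (by decide)]; exact hI'.c k hk
        · intro s h1 h2 x hx; rw [g4 62 (by decide)]; exact hI'.i s h1 h2 x hx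
      obtain ⟨r1, r2, r3⟩ := levelP_spec hW huv hB s4 (by omega) e63 hI4
      refine ⟨⟨r2, r1⟩, r3.trans ?_⟩
      gcongr)
  obtain ⟨⟨_, hIf⟩, hst⟩ := hloop
  have hbig := (two_pow_lg G).1
  have hbz : ∀ k < G, bsq (2 ^ lg G) k = 0 := by
    intro k hk
    unfold bsq
    rw [Nat.div_eq_of_lt (by omega), Nat.zero_mul]
  refine ⟨?_, ?_, ?_⟩
  · intro k hk
    have h := hIf.a k hk
    rw [hbz k hk, hB0, Nat.sub_zero] at h
    exact h
  · intro k hk
    have h := hIf.c k hk
    rw [hbz k hk, hB0, Nat.sub_zero] at h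
    exact h
  · show 1 + (1 + (1 + steps W (.loop 63 (g0 15) levelP) m3)) ≤ _
    have e : lg G * (K2 G * (2 * lg G + 8) + 3 + 1) = lg G * (K2 G * (2 * lg G + 8) + 4) := by ring
    rw [e] at hst
    omega

lemma core_steps {l L D A : ℕ} (hl : 1 ≤ l) (hL : L ≤ l) (hA : 1 ≤ A) (hD : D = 256 * L * A) :
    (2 * l + 13) + 10 + (L * (D * (2 * l + 16) + 2) + 2) + 5 +
      (l * (2880 * A * (2 * l + 8) + 4) + 4) + 1 ≤ 40000 * l ^ 3 * A := by
  have h1 : L * (D * (2 * l + 16) + 2) ≤ l * (256 * l * A * (18 * l) + 2) := by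
    rw [hD]
    gcongr
    omega
  have h2 : l * (2880 * A * (2 * l + 8) + 4) ≤ l * (2880 * A * (10 * l) + 4) := by
    gcongr
    omega
  have h3 : l ≤ l ^ 3 * A := by
    calc l = l * 1 * 1 * 1 := by ring
      _ ≤ l * l * l * A := by gcongr
      _ = l ^ 3 * A := by ring
  have h4 : l * (256 * l * A * (18 * l) + 2) = 4608 * (l ^ 3 * A) + 2 * l := by ring
  have h5 : l * (2880 * A * (10 * l) + 4) ≤ 28800 * (l ^ 3 * A) + 4 * l := by
    have : l * (2880 * A * (10 * l) + 4) = 28800 * (l ^ 2 * A) + 4 * l := by ring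
    rw [this]
    have h6 : l ^ 2 * A ≤ l ^ 3 * A := by
      gcongr
      norm_num
    omega
  have h7 : 40000 * l ^ 3 * A = 40000 * (l ^ 3 * A) := by ring
  rw [h7]
  have h8 : 1 ≤ l ^ 3 * A := le_trans hl h3
  omega

theorem core_spec {W G : ℕ} (hG : 0 < G) (hW : Big G W) {m : Mem} {u v : ℕ → ℕ}
    (hne : ∀ j j', u j ≠ v j') (hlt : ∀ k < G, u k < 2 * G ∧ v k < 2 * G)
    (hg : m 10 0 0 0 = G) (hu : ∀ k < G, m 11 k 0 0 = u k) (hv : ∀ k < G, m 12 k 0 0 = v k) :
    (∀ k < G, (exec W core m) 71 k 0 0 = iv (run u v (fun _ => false) 0 k (u k) = false ∧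
      run u v (fun _ => false) 0 k (v k) = false)) ∧
    steps W core m ≤ 40000 * lg G ^ 3 * 2 ^ LL G := by
  have hW0 : 0 < W := small_lt hW (n := 0) (by omega)
  have hW1 : 1 < W := small_lt hW (n := 1) (by omega)
  have hGW : 6 * G < W := small_lt hW (by omega)
  have huv : ∀ k < G, u k < 2 * G ∧ v k < 2 * G ∧ u k ≠ v k := fun k hk =>
    ⟨(hlt k hk).1, (hlt k hk).2, hne k k⟩
  set m1 := exec W stA1 m with hm1
  set m2 := exec W stA2 m1 with hm2
  set m3 := exec W stB m2 with hm3
  set m4 := exec W stC m3 with hm4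
  set m5 := exec W stD m4 with hm5
  have f1 : ∀ r, r ∉ mods stA1 → m1 r = m r := fun r hr => exec_frame _ _ _ _ hr
  obtain ⟨⟨a15, a16⟩, stepA1⟩ := stA1_spec hW (m := m) hg
  obtain ⟨s2, stepA2⟩ := stA2_spec hW (m := m1) (u' := u) (v' := v)
    (by rw [f1 10 (by decide)]; exact hg) (by rw [f1 11 (by decide)]; exact hu)
    (by rw [f1 12 (by decide)]; exact hv) a15 a16
  obtain ⟨⟨s3, _, hch⟩, stepB⟩ := stB_spec hG hW s2
  obtain ⟨s4, h54, stepC⟩ := stC_spec hW s3
  set y : ℕ → ℝ := fun g => (m3 30 g 0 0 : ℝ) / (QQ G : ℤ) with hy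
  have hR := chain_bound hG hch
  have hB : ∀ t ≤ G, ham (2 * G) (occHat u v (aH u v y) (dH u v y) t)
      (run u v (fun _ => false) 0 t) ≤ 1440 * 2 ^ LL G := by
    intro t ht
    have h := ham_occHat (P := 2 * G) hne (y := y) (R := 360 * 2 ^ LL G) (aH := aH u v y)
      (dH := dH u v y) hR (fun j _ => rfl) (fun j _ => rfl) t ht
    have h2 : (ham (2 * G) (occHat u v (aH u v y) (dH u v y) t)
      (run u v (fun _ => false) 0 t) : ℝ) ≤ 1440 * 2 ^ LL G := by linarith
    exact_mod_cast h2
  obtain ⟨h60, h61, stepD⟩ := stD_spec hW huv hB rfl s4 h54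
  have h60' : ∀ k < G, m5 60 k 0 0 = iv (run u v (fun _ => false) 0 k (u k) = true) := h60
  have h61' : ∀ k < G, m5 61 k 0 0 = iv (run u v (fun _ => false) 0 k (v k) = true) := h61
  have stepB' : steps W stB m2 ≤ LL G * (DD G * (2 * lg G + 16) + 2) + 2 := stepB
  have stepC' : steps W stC m3 ≤ 5 := stepC
  have stepD' : steps W stD m4 ≤ lg G * (K2 G * (2 * lg G + 8) + 4) + 4 := stepD
  refine ⟨?_, ?_⟩
  · intro k hk
    show (exec W (.assign 71 (eqt (g1 60 (.var 0)) 0 * eqt (g1 61 (.var 0)) 0)) m5) 71 k 0 0 = _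
    rw [exec_assign _ _ _ _ (by omega) hW0 hW0, ev_mul, eval_eqt, eval_eqt, ev_g1, ev_g1, ev_var,
      env0, Int.toNat_natCast, ev_zero, h60' k hk, h61' k hk, iv_mul, store_iv hW1]
    apply iv_congr
    rw [iv_eq_zero, iv_eq_zero, Bool.not_eq_true, Bool.not_eq_true]
  · show steps W stA1 m + (steps W stA2 m1 + (steps W stB m2 + (steps W stC m3 +
      (steps W stD m4 + 1)))) ≤ _
    have hD : DD G = 256 * LL G * 2 ^ LL G := by unfold DD; rfl
    have h := core_steps (lg_pos G) (LL_le G) (Nat.one_le_two_pow (n := LL G)) hD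
    unfold K2 at stepD'
    omega

end Core

end Pool.Agent.Helper91.SM
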