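import Pool.Agent.Helper91.SM.Full2

/-!
The running time of the complete program in terms of the size of the instance.
-/

namespace Pool.Agent.Helper91.SM

open Finset

namespace Full

open Core

lemma size_bounds (I : SMI) : GG I + 2 ≤ (I.size + 2) ^ 2 ∧ GG I + 2 ≤ 2 * (I.size + 2) ∧
    I.nm * I.nw + 1 ≤ (I.size + 2) ^ 2 := by
  have h1 := num_le I
  have h2 : GG I ≤ I.size + 1 := by unfold GG; omega
  have h3 : I.nm * I.nw ≤ I.size * I.size := Nat.mul_le_mul (nm_le I) (nw_le I)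
  refine ⟨by nlinarith, by omega, by nlinarith⟩

lemma clog_pow_le (s k : ℕ) : Nat.clog 2 ((s + 2) ^ k) ≤ k * Nat.clog 2 (s + 2) := by
  apply Nat.clog_le_of_le_pow
  calc (s + 2) ^ k ≤ (2 ^ Nat.clog 2 (s + 2)) ^ k :=
        Nat.pow_le_pow_left (Nat.le_pow_clog (by norm_num) _) _
    _ = 2 ^ (k * Nat.clog 2 (s + 2)) := by rw [← pow_mul, Nat.mul_comm]

lemma steps_arith {l t g A : ℕ} (hl : 1 ≤ l) (ht : t ≤ 2 * l) (hg : g ≤ 2 * l) (hA : 1 ≤ A) :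
    2 * t + 20 + 40000 * g ^ 3 * A ≤ 320024 * l ^ 3 * A := by
  have h1 : 40000 * g ^ 3 * A ≤ 40000 * (2 * l) ^ 3 * A := by gcongr
  have h2 : 40000 * (2 * l) ^ 3 * A = 320000 * (l ^ 3 * A) := by ring
  have h3 : l ≤ l ^ 3 * A := by
    calc l = l * 1 * 1 * 1 := by ring
      _ ≤ l * l * l * A := by gcongr
      _ = l ^ 3 * A := by ring
  have h4 : 320024 * l ^ 3 * A = 320024 * (l ^ 3 * A) := by ring
  omega

lemma cube_root_bound {G s : ℕ} (h : G + 2 ≤ 2 * (s + 2)) :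
    ((2 ^ LL G : ℕ) : ℝ) ≤ 3 * ((s : ℝ) + 2) ^ ((1 : ℝ) / 3) := by
  have h1 : (2 ^ LL G) ^ 3 ≤ 16 * (s + 2) := by
    have := (cube_LL G).2
    omega
  have h2 : (((2 ^ LL G : ℕ) : ℝ)) ^ 3 ≤ 16 * ((s : ℝ) + 2) := by exact_mod_cast h1
  have hs : (0:ℝ) ≤ (s : ℝ) + 2 := by positivity
  have h3 : (3 * ((s : ℝ) + 2) ^ ((1 : ℝ) / 3)) ^ 3 = 27 * ((s : ℝ) + 2) := by
    rw [mul_pow, ← Real.rpow_natCast (((s : ℝ) + 2) ^ ((1 : ℝ) / 3)) 3, ← Real.rpow_mul hs]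
    norm_num
  have h4 : (((2 ^ LL G : ℕ) : ℝ)) ^ 3 ≤ (3 * ((s : ℝ) + 2) ^ ((1 : ℝ) / 3)) ^ 3 := by
    rw [h3]
    linarith
  exact le_of_pow_le_pow_left₀ (by norm_num) (by positivity) h4

lemma clog_le_logb (s : ℕ) : (Nat.clog 2 (s + 2) : ℝ) ≤ 2 * Real.logb 2 ((s : ℝ) + 2) := by
  have h1 : 2 ^ (Nat.clog 2 (s + 2) - 1) < s + 2 := by
    have := Nat.pow_pred_clog_lt_self (b := 2) (by norm_num) (x := s + 2) (by omega)
    rwa [Nat.pred_eq_sub_one] at this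
  have h0 : 1 ≤ Nat.clog 2 (s + 2) := Nat.clog_pos (by norm_num) (by omega)
  have h2 : ((Nat.clog 2 (s + 2) : ℝ) - 1) ≤ Real.logb 2 ((s : ℝ) + 2) := by
    rw [Real.le_logb_iff_rpow_le (by norm_num) (by positivity)]
    have e : ((Nat.clog 2 (s + 2) : ℝ) - 1) = ((Nat.clog 2 (s + 2) - 1 : ℕ) : ℝ) := by
      push_cast [Nat.cast_sub h0]; ring
    rw [e, Real.rpow_natCast]
    exact_mod_cast h1.le
  have h3 : 1 ≤ Real.logb 2 ((s : ℝ) + 2) := by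
    rw [Real.le_logb_iff_rpow_le (by norm_num) (by positivity), Real.rpow_one]
    have : (0:ℝ) ≤ s := by positivity
    linarith
  linarith

lemma final_arith {t : ℝ} {p l : ℕ} {A x y : ℝ}
    (h : t ≤ p * (65 * l) * (320024 * l ^ 3 * A)) (hx : 0 ≤ x) (hA : A ≤ 3 * x)
    (hy : (l : ℝ) ≤ 2 * y) : t ≤ (p * 1100000000 : ℕ) * x * y ^ 4 := by
  refine h.trans ?_
  have hp : (0:ℝ) ≤ p := by positivity
  have hl0 : (0:ℝ) ≤ l := by positivity
  have h10 : (l : ℝ) ^ 4 ≤ (2 * y) ^ 4 := pow_le_pow_left₀ hl0 hy 4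
  have hy4 : (0:ℝ) ≤ y ^ 4 := by positivity
  calc (p : ℝ) * (65 * l) * (320024 * l ^ 3 * A)
      ≤ (p : ℝ) * (65 * l) * (320024 * l ^ 3 * (3 * x)) := by gcongr
    _ = p * 62404680 * x * (l : ℝ) ^ 4 := by ring
    _ ≤ p * 62404680 * x * (2 * y) ^ 4 := by gcongr
    _ = 998474880 * (p * x * y ^ 4) := by ring
    _ ≤ 1100000000 * (p * x * y ^ 4) := by
      have : 0 ≤ p * x * y ^ 4 := by positivity
      linarith
    _ = _ := by push_cast; ring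

theorem main (I : SMI) (hI : I.Acyclic) :
    I.Stable (fun i j => i < I.nm ∧
      exec ((I.size + 2) ^ 64) full I.encode 3 i 0 0 = (j : ℤ) + 1) ∧
    (time ((I.size + 2) ^ 64) full I.encode : ℝ) ≤
      (psize full * 1100000000 : ℕ) * ((I.size : ℝ) + 2) ^ ((1 : ℝ) / 3) *
        Real.logb 2 ((I.size : ℝ) + 2) ^ 4 := by
  obtain ⟨h1, h2⟩ := full_spec (W := (I.size + 2) ^ 64) hI le_rfl
  refine ⟨h1, ?_⟩
  obtain ⟨b1, b2, b3⟩ := size_bounds I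
  set s := I.size with hs
  set l := Nat.clog 2 (s + 2) with hl
  have hl1 : 1 ≤ l := Nat.clog_pos (by norm_num) (by omega)
  have ht : Nat.clog 2 (I.nm * I.nw + 1) ≤ 2 * l :=
    (Nat.clog_mono_right 2 b3).trans (clog_pow_le s 2)
  have hg : lg (GG I) ≤ 2 * l := (Nat.clog_mono_right 2 b1).trans (clog_pow_le s 2)
  have h3 := steps_arith hl1 ht hg (Nat.one_le_two_pow (n := LL (GG I)))
  have h4 := time_le ((s + 2) ^ 64) full I.encode
  have h5 : Nat.clog 2 ((s + 2) ^ 64) + 1 ≤ 65 * l := by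
    have := clog_pow_le s 64
    omega
  have h6 : time ((s + 2) ^ 64) full I.encode ≤
      psize full * (65 * l) * (320024 * l ^ 3 * 2 ^ LL (GG I)) :=
    h4.trans (Nat.mul_le_mul (Nat.mul_le_mul_left _ h5) (h2.trans h3))
  have h7 : (time ((s + 2) ^ 64) full I.encode : ℝ) ≤
      psize full * (65 * l) * (320024 * l ^ 3 * ((2 ^ LL (GG I) : ℕ) : ℝ)) := by
    exact_mod_cast h6
  exact final_arith h7 (by positivity) (cube_root_bound b2) (clog_le_logb s)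

end Full

end Pool.Agent.Helper91.SM
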