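import Mathlib

/-!
Topological sorting of a finite acyclic relation by counting ancestors.
-/

namespace Pool.Agent.Helper91.SM.Topo

open Finset

/-- chains of length `n` -/
def Qn (St : ℕ → ℕ → Prop) (A : ℕ → Prop) : ℕ → ℕ → ℕ → Prop
  | 0, e, f => e = f ∧ A e
  | n + 1, e, f => ∃ g, Qn St A n e g ∧ St g f

/-- repeated squaring -/
def Mt (E : ℕ) (St : ℕ → ℕ → Prop) (A : ℕ → Prop) : ℕ → ℕ → ℕ → Prop
  | 0, e, f => (A e ∧ A f) ∧ (e = f ∨ St e f)
  | t + 1, e, f => ∃ g < E, Mt E St A t e g ∧ Mt E St A t g f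

variable {E : ℕ} {St : ℕ → ℕ → Prop} {A : ℕ → Prop}

lemma Qn_A (hSt : ∀ e f, St e f → A e ∧ A f) {n e f : ℕ} (h : Qn St A n e f) : A e ∧ A f := by
  induction n generalizing f with
  | zero => exact ⟨h.2, h.1 ▸ h.2⟩
  | succ n ih =>
    obtain ⟨g, h1, h2⟩ := h
    exact ⟨(ih h1).1, (hSt _ _ h2).2⟩

lemma Qn_add (hSt : ∀ e f, St e f → A e ∧ A f) (n k e f : ℕ) :
    Qn St A (n + k) e f ↔ ∃ g, Qn St A n e g ∧ Qn St A k g f := by
  induction k generalizing f with
  | zero =>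
    constructor
    · intro h; exact ⟨f, h, rfl, (Qn_A hSt h).2⟩
    · rintro ⟨g, h1, h2, _⟩; subst h2; exact h1
  | succ k ih =>
    constructor
    · rintro ⟨g, h1, h2⟩
      obtain ⟨g', h3, h4⟩ := (ih g).mp h1
      exact ⟨g', h3, g, h4, h2⟩
    · rintro ⟨g', h3, g, h4, h2⟩
      exact ⟨g, (ih g).mpr ⟨g', h3, h4⟩, h2⟩

lemma Mt_iff (hSt : ∀ e f, St e f → A e ∧ A f) (hE : ∀ e, A e → e < E) (t e f : ℕ) :
    Mt E St A t e f ↔ ∃ m ≤ 2 ^ t, Qn St A m e f := by
  induction t generalizing e f with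
  | zero =>
    constructor
    · rintro ⟨⟨h1, h2⟩, h | h⟩
      · exact ⟨0, by norm_num, h, h1⟩
      · exact ⟨1, by norm_num, e, ⟨rfl, h1⟩, h⟩
    · rintro ⟨m, hm, h⟩
      have hA := Qn_A hSt h
      refine ⟨hA, ?_⟩
      rw [pow_zero] at hm
      interval_cases m
      · exact Or.inl h.1
      · obtain ⟨g, ⟨h1, _⟩, h2⟩ := h
        subst h1; exact Or.inr h2
  | succ t ih =>
    constructor
    · rintro ⟨g, hg, h1, h2⟩
      obtain ⟨m, hm, h1⟩ := (ih _ _).mp h1
      obtain ⟨m', hm', h2⟩ := (ih _ _).mp h2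
      exact ⟨m + m', by rw [pow_succ]; omega, (Qn_add hSt _ _ _ _).mpr ⟨g, h1, h2⟩⟩
    · rintro ⟨m, hm, h⟩
      rw [pow_succ] at hm
      have e1 : m = min m (2 ^ t) + (m - min m (2 ^ t)) := by omega
      rw [e1, Qn_add hSt] at h
      obtain ⟨g, h1, h2⟩ := h
      exact ⟨g, hE g (Qn_A hSt h1).2, (ih _ _).mpr ⟨_, by omega, h1⟩,
        (ih _ _).mpr ⟨_, by omega, h2⟩⟩

lemma Qn_rho (hSt : ∀ e f, St e f → A e ∧ A f) {ρ : ℕ → ℕ} (hρ : ∀ e f, St e f → ρ e < ρ f)
    {n e f : ℕ} (h : Qn St A n e f) : ρ e ≤ ρ f := by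
  induction n generalizing f with
  | zero => rw [h.1]
  | succ n ih =>
    obtain ⟨g, h1, h2⟩ := h
    exact (ih h1).trans (hρ _ _ h2).le

open Classical in
lemma Qn_len (hSt : ∀ e f, St e f → A e ∧ A f) (hE : ∀ e, A e → e < E) {ρ : ℕ → ℕ}
    (hρ : ∀ e f, St e f → ρ e < ρ f) {n e f : ℕ} (h : Qn St A n e f) :
    n + 1 ≤ ((range E).filter (fun x => ρ x ≤ ρ f)).card := by
  induction n generalizing f with
  | zero =>
    rw [Nat.zero_add, Nat.one_le_iff_ne_zero, ← Nat.pos_iff_ne_zero, Finset.card_pos]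
    have hf : A f := (Qn_A hSt h).2
    exact ⟨f, by simp [hE f hf]⟩
  | succ n ih =>
    obtain ⟨g, h1, h2⟩ := h
    have h3 := ih h1
    have h4 := hρ _ _ h2
    have hf : A f := (hSt _ _ h2).2
    have hsub : insert f ((range E).filter (fun x => ρ x ≤ ρ g)) ⊆
        (range E).filter (fun x => ρ x ≤ ρ f) := by
      intro x hx
      rw [Finset.mem_insert] at hx
      rcases hx with hx | hx
      · subst hx; simp [hE x hf]
      · rw [Finset.mem_filter] at hx ⊢
        exact ⟨hx.1, hx.2.trans h4.le⟩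
    have h5 := Finset.card_le_card hsub
    rw [Finset.card_insert_of_notMem (by simp; omega)] at h5
    omega

/-- reachability -/
def Reach (St : ℕ → ℕ → Prop) (A : ℕ → Prop) (e f : ℕ) : Prop := ∃ m, Qn St A m e f

lemma Mt_reach (hSt : ∀ e f, St e f → A e ∧ A f) (hE : ∀ e, A e → e < E) {ρ : ℕ → ℕ}
    (hρ : ∀ e f, St e f → ρ e < ρ f) {T : ℕ} (hT : E ≤ 2 ^ T) (e f : ℕ) :
    Mt E St A T e f ↔ Reach St A e f := by
  rw [Mt_iff hSt hE]
  constructor
  · rintro ⟨m, _, h⟩; exact ⟨m, h⟩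
  · rintro ⟨m, h⟩
    have h1 := Qn_len hSt hE hρ h
    have h2 : ((range E).filter (fun x => ρ x ≤ ρ f)).card ≤ E := by
      have := Finset.card_filter_le (range E) (fun x => ρ x ≤ ρ f)
      rwa [Finset.card_range] at this
    classical
    refine ⟨m, ?_, h⟩
    have h3 : m + 1 ≤ E := by
      refine h1.trans (le_trans (le_of_eq ?_) h2)
      congr
    omega

open Classical in
/-- number of ancestors -/
noncomputable def anc (E : ℕ) (St : ℕ → ℕ → Prop) (A : ℕ → Prop) (f : ℕ) : ℕ :=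
  ((range E).filter (fun g => Reach St A g f)).card

lemma anc_lt (hSt : ∀ e f, St e f → A e ∧ A f) (hE : ∀ e, A e → e < E) {ρ : ℕ → ℕ}
    (hρ : ∀ e f, St e f → ρ e < ρ f) {e f : ℕ} (h : St e f) :
    anc E St A e < anc E St A f := by
  classical
  unfold anc
  apply Finset.card_lt_card
  rw [Finset.ssubset_iff_of_subset]
  · have hf := (hSt _ _ h).2
    refine ⟨f, ?_, ?_⟩
    · rw [Finset.mem_filter, Finset.mem_range]
      exact ⟨hE f hf, 0, rfl, hf⟩
    · rw [Finset.mem_filter]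
      rintro ⟨_, m, hm⟩
      have := Qn_rho hSt hρ hm
      have := hρ _ _ h
      omega
  · intro g hg
    rw [Finset.mem_filter] at hg ⊢
    obtain ⟨h1, m, hm⟩ := hg
    exact ⟨h1, m + 1, e, hm, h⟩

/-- comparison of keys -/
def Key (an : ℕ → ℕ) (e f : ℕ) : Prop := an e < an f ∨ (an e = an f ∧ e < f)

lemma Key_trans {an : ℕ → ℕ} {e f g : ℕ} (h1 : Key an e f) (h2 : Key an f g) : Key an e g := by
  unfold Key at *; omega

lemma Key_irrefl {an : ℕ → ℕ} {e : ℕ} : ¬ Key an e e := by unfold Key; omega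

lemma Key_total {an : ℕ → ℕ} {e f : ℕ} (h : e ≠ f) : Key an e f ∨ Key an f e := by
  unfold Key; omega

open Classical in
/-- position in the sorted list -/
noncomputable def pos (E : ℕ) (A : ℕ → Prop) (an : ℕ → ℕ) (f : ℕ) : ℕ :=
  ((range E).filter (fun g => A g ∧ Key an g f)).card

open Classical in
/-- number of elements -/
noncomputable def num (E : ℕ) (A : ℕ → Prop) : ℕ := ((range E).filter (fun g => A g)).card

lemma pos_lt_pos (hE : ∀ e, A e → e < E) {an : ℕ → ℕ} {e f : ℕ} (he : A e) (h : Key an e f) :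
    pos E A an e < pos E A an f := by
  classical
  unfold pos
  apply Finset.card_lt_card
  rw [Finset.ssubset_iff_of_subset]
  · refine ⟨e, ?_, ?_⟩
    · rw [Finset.mem_filter, Finset.mem_range]
      exact ⟨hE e he, he, h⟩
    · rw [Finset.mem_filter]
      rintro ⟨_, _, h2⟩
      exact Key_irrefl h2
  · intro g hg
    rw [Finset.mem_filter] at hg ⊢
    exact ⟨hg.1, hg.2.1, Key_trans hg.2.2 h⟩

lemma pos_lt_num (hE : ∀ e, A e → e < E) {an : ℕ → ℕ} {f : ℕ} (hf : A f) :
    pos E A an f < num E A := by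
  classical
  unfold pos num
  apply Finset.card_lt_card
  rw [Finset.ssubset_iff_of_subset]
  · refine ⟨f, ?_, ?_⟩
    · rw [Finset.mem_filter, Finset.mem_range]
      exact ⟨hE f hf, hf⟩
    · rw [Finset.mem_filter]
      rintro ⟨_, _, h2⟩
      exact Key_irrefl h2
  · intro g hg
    rw [Finset.mem_filter] at hg ⊢
    exact ⟨hg.1, hg.2.1⟩

lemma pos_inj (hE : ∀ e, A e → e < E) {an : ℕ → ℕ} {e f : ℕ} (he : A e) (hf : A f)
    (h : pos E A an e = pos E A an f) : e = f := by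
  by_contra hne
  rcases Key_total (an := an) hne with h1 | h1
  · have := pos_lt_pos hE he h1; omega
  · have := pos_lt_pos hE hf h1; omega

lemma exists_pos (hE : ∀ e, A e → e < E) {an : ℕ → ℕ} {k : ℕ} (hk : k < num E A) :
    ∃ f, A f ∧ pos E A an f = k := by
  classical
  have himg : ((range E).filter (fun g => A g)).image (pos E A an) = range (num E A) := by
    apply Finset.eq_of_subset_of_card_le
    · intro x hx
      rw [Finset.mem_image] at hx
      obtain ⟨f, hf, rfl⟩ := hx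
      rw [Finset.mem_filter] at hf
      exact Finset.mem_range.mpr (pos_lt_num hE hf.2)
    · rw [Finset.card_range, Finset.card_image_of_injOn]
      · unfold num
        apply le_of_eq
        congr
      · intro e he f hf h
        rw [Finset.mem_coe, Finset.mem_filter] at he hf
        exact pos_inj hE he.2 hf.2 h
  have : k ∈ ((range E).filter (fun g => A g)).image (pos E A an) := by
    rw [himg]; exact Finset.mem_range.mpr hk
  rw [Finset.mem_image] at this
  obtain ⟨f, hf, hfk⟩ := this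
  rw [Finset.mem_filter] at hf
  exact ⟨f, hf.2, hfk⟩

open Classical in
/-- the element at position `k` -/
noncomputable def ed (E : ℕ) (A : ℕ → Prop) (an : ℕ → ℕ) (k : ℕ) : ℕ :=
  if h : ∃ f, A f ∧ pos E A an f = k then h.choose else 0

lemma ed_spec (hE : ∀ e, A e → e < E) {an : ℕ → ℕ} {k : ℕ} (hk : k < num E A) :
    A (ed E A an k) ∧ pos E A an (ed E A an k) = k := by
  have h := exists_pos (an := an) hE hk
  unfold ed
  rw [dif_pos h]
  exact h.choose_spec

lemma ed_pos (hE : ∀ e, A e → e < E) {an : ℕ → ℕ} {f : ℕ} (hf : A f) :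
    ed E A an (pos E A an f) = f :=
  pos_inj hE (ed_spec hE (pos_lt_num hE hf)).1 hf (ed_spec hE (pos_lt_num hE hf)).2

lemma ed_not {an : ℕ → ℕ} {k : ℕ} (h : ¬ ∃ f, A f ∧ pos E A an f = k) : ed E A an k = 0 := by
  unfold ed; rw [dif_neg h]

end Pool.Agent.Helper91.SM.Topo
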