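import Pool.Agent.Helper91.SM.SMI
import Pool.Agent.Helper91.SM.Merge
import Pool.Agent.Helper91.SM.Topo
import Pool.Agent.Helper91.SM.Hoare

/-!
The greedy matching along a topologically sorted list of the acceptable pairs is stable.
-/

namespace Pool.Agent.Helper91.SM

open Finset Greedy

lemma code_iff {l : List ℕ} (hl : l.Nodup) (k j : ℕ) :
    SMI.code l k = (j : ℤ) + 1 ↔ j ∈ l ∧ k = l.idxOf j := by
  unfold SMI.code
  constructor
  · intro h
    cases hk : l[k]? with
    | none => rw [hk] at h; simp only at h; omega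
    | some x =>
      rw [hk] at h
      have hx : x = j := by simp only at h; omega
      subst hx
      rw [List.getElem?_eq_some_iff] at hk
      obtain ⟨h1, h2⟩ := hk
      refine ⟨by rw [← h2]; exact List.getElem_mem h1, ?_⟩
      rw [← h2]
      exact (List.Nodup.idxOf_getElem hl k h1).symm
  · rintro ⟨h1, rfl⟩
    rw [List.getElem?_idxOf h1]

lemma code_sum {W : ℕ} {l : List ℕ} (hl : l.Nodup) (hW : l.length ≤ W) (j : ℕ) :
    ∑ k ∈ range W, ((k:ℤ) + 1) * iv (SMI.code l k = (j : ℤ) + 1) =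
      if j ∈ l then (l.idxOf j : ℤ) + 1 else 0 := by
  by_cases h : j ∈ l
  · rw [if_pos h]
    have hlt : l.idxOf j < l.length := List.idxOf_lt_length_iff.mpr h
    have e : ∀ k ∈ range W, ((k:ℤ) + 1) * iv (SMI.code l k = (j : ℤ) + 1) =
        ((k:ℤ) + 1) * iv (k = l.idxOf j) := by
      intro k _
      congr 1
      apply iv_congr
      rw [code_iff hl]
      tauto
    rw [Finset.sum_congr rfl e, Finset.sum_eq_single (l.idxOf j)]
    · rw [iv_pos rfl, mul_one]
    · intro b _ hne; rw [iv_neg hne, mul_zero]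
    · intro hn; exact absurd (Finset.mem_range.mpr (lt_of_lt_of_le hlt hW)) hn
  · rw [if_neg h]
    refine Finset.sum_eq_zero fun k _ => ?_
    rw [iv_neg, mul_zero]
    rw [code_iff hl]
    exact fun hh => h hh.1

/-- label -/
noncomputable def lab (f : ℕ → ℕ) (G k : ℕ) : ℕ := fm (fun x => f x = f k) G

lemma lab_spec {f : ℕ → ℕ} {G k : ℕ} (hk : k < G) : lab f G k < G ∧ f (lab f G k) = f k := by
  unfold lab
  rcases fm_spec (fun x => f x = f k) G with ⟨h1, _⟩ | h
  · exact absurd rfl (h1 k hk)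
  · exact h

lemma lab_inj {f : ℕ → ℕ} {G j k : ℕ} (hj : j < G) (hk : k < G) :
    lab f G j = lab f G k ↔ f j = f k := by
  constructor
  · intro h
    have h1 := (lab_spec (f := f) hj).2
    have h2 := (lab_spec (f := f) hk).2
    rw [h] at h1
    exact h1.symm.trans h2
  · intro h
    unfold lab
    simp only [h]

/-- greedy matching -/
def Mat (u v : ℕ → ℕ) (k : ℕ) : Prop :=
  run u v (fun _ => false) 0 k (u k) = false ∧ run u v (fun _ => false) 0 k (v k) = false

lemma run_Mat (u v : ℕ → ℕ) (k x : ℕ) : run u v (fun _ => false) 0 k x = true ↔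
    ∃ j < k, Mat u v j ∧ (u j = x ∨ v j = x) := by
  rw [run_or]
  constructor
  · rintro (h | ⟨j, hj, h1, h2⟩)
    · simp at h
    · rw [Nat.zero_add] at h1 h2
      exact ⟨j, hj, h1, h2⟩
  · rintro ⟨j, hj, h1, h2⟩
    right
    refine ⟨j, hj, ?_⟩
    rw [Nat.zero_add]
    exact ⟨h1, h2⟩

/-- sorted lists of the acceptable pairs -/
structure Sorted (I : SMI) (G : ℕ) (mn wn : ℕ → ℕ) : Prop where
  ok : ∀ k < G, mn k < I.nm ∧ wn k < I.nw ∧ wn k ∈ I.men (mn k)
  all : ∀ i < I.nm, ∀ j < I.nw, j ∈ I.men i → ∃ k < G, mn k = i ∧ wn k = j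
  m : ∀ k k', k < k' → k' < G → mn k = mn k' → SMI.Prefers (I.men (mn k)) (wn k) (wn k')
  w : ∀ k k', k < k' → k' < G → wn k = wn k' → SMI.Prefers (I.women (wn k)) (mn k) (mn k')

section
variable {I : SMI} {G G' : ℕ} {mn wn : ℕ → ℕ}

/-- the matching -/
def MM (G : ℕ) (mn wn : ℕ → ℕ) (u v : ℕ → ℕ) (i j : ℕ) : Prop :=
  ∃ k < G, Mat u v k ∧ mn k = i ∧ wn k = j

theorem MM_stable (h : Sorted I G mn wn) {u v : ℕ → ℕ} (huv : ∀ j j', u j ≠ v j')
    (hu : ∀ j < G, ∀ k < G, (u j = u k ↔ mn j = mn k))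
    (hv : ∀ j < G, ∀ k < G, (v j = v k ↔ wn j = wn k)) :
    I.Stable (MM G mn wn u v) := by
  have key1 : ∀ k < G, ∀ k' < G, Mat u v k → Mat u v k' → mn k = mn k' → ¬ k < k' := by
    intro k hk k' hk' h1 h2 h3 hlt
    have : run u v (fun _ => false) 0 k' (u k') = true :=
      (run_Mat u v k' _).mpr ⟨k, hlt, h1, Or.inl ((hu k hk k' hk').mpr h3)⟩
    rw [h2.1] at this
    simp at this
  have key2 : ∀ k < G, ∀ k' < G, Mat u v k → Mat u v k' → wn k = wn k' → ¬ k < k' := by
    intro k hk k' hk' h1 h2 h3 hlt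
    have : run u v (fun _ => false) 0 k' (v k') = true :=
      (run_Mat u v k' _).mpr ⟨k, hlt, h1, Or.inr ((hv k hk k' hk').mpr h3)⟩
    rw [h2.2] at this
    simp at this
  refine ⟨⟨?_, ?_, ?_⟩, ?_⟩
  · rintro i j ⟨k, hk, _, rfl, rfl⟩
    exact h.ok k hk
  · rintro i j j' ⟨k, hk, h1, h2, h3⟩ ⟨k', hk', h1', h2', h3'⟩
    have e : mn k = mn k' := h2.trans h2'.symm
    have : k = k' := by
      have a := key1 k hk k' hk' h1 h1' e
      have b := key1 k' hk' k hk h1' h1 e.symm
      omega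
    subst this
    exact h3.symm.trans h3'
  · rintro i i' j ⟨k, hk, h1, h2, h3⟩ ⟨k', hk', h1', h2', h3'⟩
    have e : wn k = wn k' := h3.trans h3'.symm
    have : k = k' := by
      have a := key2 k hk k' hk' h1 h1' e
      have b := key2 k' hk' k hk h1' h1 e.symm
      omega
    subst this
    exact h2.symm.trans h2'
  · rintro i j ⟨hi, hj, hij, hnM, hbm, hbw⟩
    obtain ⟨k, hk, hmk, hwk⟩ := h.all i hi j hj hij
    by_cases hM : Mat u v k
    · exact hnM ⟨k, hk, hM, hmk, hwk⟩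
    · unfold Mat at hM
      rw [not_and_or] at hM
      rcases hM with hM | hM
      · rw [Bool.not_eq_false, run_Mat] at hM
        obtain ⟨k', hlt, h1, h2⟩ := hM
        have h3 : u k' = u k := h2.resolve_right (fun h => huv k k' h.symm)
        have h4 : mn k' = mn k := (hu k' (by omega) k hk).mp h3
        have h5 := hbm (wn k') ⟨k', by omega, h1, by rw [h4, hmk], rfl⟩
        have h6 := h.m k' k hlt hk h4
        rw [h4, hmk, hwk] at h6
        unfold SMI.Prefers at h5 h6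
        omega
      · rw [Bool.not_eq_false, run_Mat] at hM
        obtain ⟨k', hlt, h1, h2⟩ := hM
        have h3 : v k' = v k := h2.resolve_left (fun h => huv k' k h)
        have h4 : wn k' = wn k := (hv k' (by omega) k hk).mp h3
        have h5 := hbw (mn k') ⟨k', by omega, h1, rfl, by rw [h4, hwk]⟩
        have h6 := h.w k' k hlt hk h4
        rw [h4, hmk, hwk] at h6
        unfold SMI.Prefers at h5 h6
        omega

/-- decoding the output -/
theorem out_iff (h : Sorted I G mn wn) {u v : ℕ → ℕ}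
    (hu : ∀ j < G, ∀ k < G, (u j = u k ↔ mn j = mn k)) (i j : ℕ) :
    (∑ k ∈ range G, iv (Mat u v k) * (iv (mn k = i) * ((wn k : ℤ) + 1)) = (j : ℤ) + 1) ↔
      MM G mn wn u v i j := by
  have key1 : ∀ k < G, ∀ k' < G, Mat u v k → Mat u v k' → mn k = mn k' → ¬ k < k' := by
    intro k hk k' hk' h1 h2 h3 hlt
    have : run u v (fun _ => false) 0 k' (u k') = true :=
      (run_Mat u v k' _).mpr ⟨k, hlt, h1, Or.inl ((hu k hk k' hk').mpr h3)⟩
    rw [h2.1] at this
    simp at this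
  by_cases hex : ∃ k < G, Mat u v k ∧ mn k = i
  · obtain ⟨k, hk, h1, h2⟩ := hex
    have hs : ∑ k ∈ range G, iv (Mat u v k) * (iv (mn k = i) * ((wn k : ℤ) + 1)) =
        (wn k : ℤ) + 1 := by
      rw [Finset.sum_eq_single k]
      · rw [iv_pos h1, iv_pos h2]; ring
      · intro b hb hne
        by_cases hb1 : Mat u v b
        · by_cases hb2 : mn b = i
          · exfalso
            have hb' := Finset.mem_range.mp hb
            have e : mn b = mn k := hb2.trans h2.symm
            have c1 := key1 b hb' k hk hb1 h1 e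
            have c2 := key1 k hk b hb' h1 hb1 e.symm
            omega
          · rw [iv_neg hb2]; ring
        · rw [iv_neg hb1]; ring
      · intro hn; exact absurd (Finset.mem_range.mpr hk) hn
    rw [hs]
    constructor
    · intro hh
      have : wn k = j := by omega
      exact ⟨k, hk, h1, h2, this⟩
    · rintro ⟨k', hk', h1', h2', h3'⟩
      have e : mn k = mn k' := h2.trans h2'.symm
      have : k = k' := by
        have a := key1 k hk k' hk' h1 h1' e
        have b := key1 k' hk' k hk h1' h1 e.symm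
        omega
      subst this
      rw [h3']
  · have hs : ∑ k ∈ range G, iv (Mat u v k) * (iv (mn k = i) * ((wn k : ℤ) + 1)) = 0 := by
      refine Finset.sum_eq_zero fun b hb => ?_
      by_cases hb1 : Mat u v b
      · by_cases hb2 : mn b = i
        · exact absurd ⟨b, Finset.mem_range.mp hb, hb1, hb2⟩ hex
        · rw [iv_neg hb2]; ring
      · rw [iv_neg hb1]; ring
    rw [hs]
    constructor
    · intro hh; omega
    · rintro ⟨k', hk', h1', h2', _⟩
      exact absurd ⟨k', hk', h1', h2'⟩ hex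

lemma out_bound (h : Sorted I G mn wn) {u v : ℕ → ℕ}
    (hu : ∀ j < G, ∀ k < G, (u j = u k ↔ mn j = mn k)) (i : ℕ) :
    0 ≤ ∑ k ∈ range G, iv (Mat u v k) * (iv (mn k = i) * ((wn k : ℤ) + 1)) ∧
    ∑ k ∈ range G, iv (Mat u v k) * (iv (mn k = i) * ((wn k : ℤ) + 1)) ≤ I.nw := by
  have h0 : 0 ≤ ∑ k ∈ range G, iv (Mat u v k) * (iv (mn k = i) * ((wn k : ℤ) + 1)) := by
    refine Finset.sum_nonneg fun k _ => ?_
    have := iv_nonneg (Mat u v k)
    have := iv_nonneg (mn k = i)
    positivity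
  refine ⟨h0, ?_⟩
  by_contra hcon
  push Not at hcon
  obtain ⟨j, hj⟩ : ∃ j : ℕ, ∑ k ∈ range G, iv (Mat u v k) * (iv (mn k = i) * ((wn k : ℤ) + 1)) =
      (j : ℤ) + 1 := by
    refine ⟨(∑ k ∈ range G, iv (Mat u v k) * (iv (mn k = i) * ((wn k : ℤ) + 1)) - 1).toNat, ?_⟩
    omega
  obtain ⟨k, hk, _, _, h3⟩ := (out_iff h hu i j).mp hj
  have := (h.ok k hk).2.1
  omega

end

/-! #### cells -/

section Cells
variable (I : SMI)

/-- acceptable cells -/
def AC (e : ℕ) : Prop := e < I.nm * I.nw ∧ e % I.nw ∈ I.men (e / I.nw)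

/-- immediate precedence -/
def SC (e f : ℕ) : Prop := (AC I e ∧ AC I f) ∧
  ((e / I.nw = f / I.nw ∧ (I.men (e / I.nw)).idxOf (e % I.nw) <
      (I.men (f / I.nw)).idxOf (f % I.nw)) ∨
   (e % I.nw = f % I.nw ∧ (I.women (e % I.nw)).idxOf (e / I.nw) <
      (I.women (f % I.nw)).idxOf (f / I.nw)))

variable {I}

lemma AC_facts {e : ℕ} (h : AC I e) : 0 < I.nw ∧ e / I.nw < I.nm ∧ e % I.nw < I.nw ∧
    e / I.nw ∈ I.women (e % I.nw) := by
  obtain ⟨h1, h2⟩ := h
  have hnw : 0 < I.nw := by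
    rcases Nat.eq_zero_or_pos I.nw with h0 | h0
    · rw [h0, Nat.mul_zero] at h1; omega
    · exact h0
  have h3 : e / I.nw < I.nm := by
    rw [Nat.div_lt_iff_lt_mul hnw]; exact h1
  have h4 := Nat.mod_lt e hnw
  exact ⟨hnw, h3, h4, (I.both _ h3 _ h4).mp h2⟩

lemma SC_AC (e f : ℕ) (h : SC I e f) : AC I e ∧ AC I f := h.1

lemma idx_rho {l : List ℕ} {r : ℕ → ℕ} (hp : l.Pairwise (fun x y => r x < r y)) {x y : ℕ}
    (hx : x ∈ l) (hy : y ∈ l) (h : l.idxOf x < l.idxOf y) : r x < r y := by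
  rw [List.pairwise_iff_getElem] at hp
  have h1 : l.idxOf x < l.length := List.idxOf_lt_length_iff.mpr hx
  have h2 : l.idxOf y < l.length := List.idxOf_lt_length_iff.mpr hy
  have h3 := hp _ _ h1 h2 h
  rwa [List.getElem_idxOf, List.getElem_idxOf] at h3

lemma SC_rho {ρ : ℕ → ℕ → ℕ}
    (h1 : ∀ i < I.nm, (I.men i).Pairwise (fun j j' => ρ i j < ρ i j'))
    (h2 : ∀ j < I.nw, (I.women j).Pairwise (fun i i' => ρ i j < ρ i' j)) (e f : ℕ)
    (h : SC I e f) : ρ (e / I.nw) (e % I.nw) < ρ (f / I.nw) (f % I.nw) := by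
  obtain ⟨⟨he, hf⟩, h | h⟩ := h
  · obtain ⟨h3, h4⟩ := h
    rw [← h3] at h4 ⊢
    exact idx_rho (h1 _ (AC_facts he).2.1) he.2 (by rw [h3]; exact hf.2) h4
  · obtain ⟨h3, h4⟩ := h
    rw [← h3] at h4 ⊢
    exact idx_rho (r := fun i => ρ i (e % I.nw)) (h2 _ (AC_facts he).2.2.1) (AC_facts he).2.2.2
      (by rw [h3]; exact (AC_facts hf).2.2.2) h4

lemma AC_E {e : ℕ} (h : AC I e) : e < I.nm * I.nw := h.1

/-- the sorted list of cells gives a sorted list of pairs -/
theorem sorted_cells (hI : I.Acyclic) :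
    Sorted I (Topo.num (I.nm * I.nw) (AC I))
      (fun k => Topo.ed (I.nm * I.nw) (AC I) (Topo.anc (I.nm * I.nw) (SC I) (AC I)) k / I.nw)
      (fun k => Topo.ed (I.nm * I.nw) (AC I) (Topo.anc (I.nm * I.nw) (SC I) (AC I)) k % I.nw) := by
  obtain ⟨ρ, h1, h2⟩ := hI
  set E := I.nm * I.nw with hE
  set an := Topo.anc E (SC I) (AC I) with han
  have hAE : ∀ e, AC I e → e < E := fun e h => h.1
  have hSρ : ∀ e f, SC I e f → (fun e => ρ (e / I.nw) (e % I.nw)) e <
      (fun e => ρ (e / I.nw) (e % I.nw)) f := fun e f h => SC_rho h1 h2 e f h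
  have hanlt : ∀ e f, SC I e f → an e < an f := fun e f h =>
    Topo.anc_lt SC_AC hAE hSρ h
  have hord : ∀ k k', k < k' → k' < Topo.num E (AC I) →
      ¬ SC I (Topo.ed E (AC I) an k') (Topo.ed E (AC I) an k) := by
    intro k k' hkk hk' hS
    have a := Topo.ed_spec (an := an) hAE (show k < Topo.num E (AC I) by omega)
    have b := Topo.ed_spec (an := an) hAE hk'
    have c := Topo.pos_lt_pos (an := an) hAE b.1 (Or.inl (hanlt _ _ hS))
    rw [a.2, b.2] at c
    omega
  have hcell : ∀ {e f : ℕ}, AC I e → AC I f → e / I.nw = f / I.nw → e % I.nw = f % I.nw → e = f := by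
    intro e f _ _ a b
    rw [← Nat.div_add_mod e I.nw, ← Nat.div_add_mod f I.nw, a, b]
  have hne : ∀ k k', k < k' → k' < Topo.num E (AC I) →
      Topo.ed E (AC I) an k ≠ Topo.ed E (AC I) an k' := by
    intro k k' hkk hk' h
    have a := Topo.ed_spec (an := an) hAE (show k < Topo.num E (AC I) by omega)
    have b := Topo.ed_spec (an := an) hAE hk'
    rw [h] at a
    have := a.2.symm.trans b.2
    omega
  refine ⟨?_, ?_, ?_, ?_⟩
  · intro k hk
    have a := Topo.ed_spec (an := an) hAE hk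
    have b := AC_facts a.1
    exact ⟨b.2.1, b.2.2.1, a.1.2⟩
  · intro i hi j hj hij
    have hnw : 0 < I.nw := by omega
    have e1 : (i * I.nw + j) / I.nw = i := by
      rw [Nat.add_comm, Nat.add_mul_div_right _ _ hnw, Nat.div_eq_of_lt hj, Nat.zero_add]
    have e2 : (i * I.nw + j) % I.nw = j := by
      rw [Nat.add_comm, Nat.add_mul_mod_self_right, Nat.mod_eq_of_lt hj]
    have hA : AC I (i * I.nw + j) := by
      refine ⟨?_, by rw [e1, e2]; exact hij⟩
      calc i * I.nw + j < i * I.nw + I.nw := by omega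
        _ = (i + 1) * I.nw := by ring
        _ ≤ I.nm * I.nw := Nat.mul_le_mul_right _ hi
    refine ⟨Topo.pos E (AC I) an (i * I.nw + j), Topo.pos_lt_num hAE hA, ?_, ?_⟩
    · rw [Topo.ed_pos hAE hA, e1]
    · rw [Topo.ed_pos hAE hA, e2]
  · intro k k' hkk hk' h
    have a := Topo.ed_spec (an := an) hAE (show k < Topo.num E (AC I) by omega)
    have b := Topo.ed_spec (an := an) hAE hk'
    unfold SMI.Prefers
    by_contra hcon
    rcases Nat.lt_or_ge ((I.men (Topo.ed E (AC I) an k' / I.nw)).idxOf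
      (Topo.ed E (AC I) an k' % I.nw)) ((I.men (Topo.ed E (AC I) an k / I.nw)).idxOf
      (Topo.ed E (AC I) an k % I.nw)) with h3 | h3
    · exact hord k k' hkk hk' ⟨⟨b.1, a.1⟩, Or.inl ⟨h.symm, h3⟩⟩
    · have h4 : (I.men (Topo.ed E (AC I) an k / I.nw)).idxOf (Topo.ed E (AC I) an k % I.nw) =
          (I.men (Topo.ed E (AC I) an k / I.nw)).idxOf (Topo.ed E (AC I) an k' % I.nw) := by
        rw [← h] at h3
        omega
      have h5 := (List.idxOf_inj a.1.2).mp h4
      exact hne k k' hkk hk' (hcell a.1 b.1 h h5)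
  · intro k k' hkk hk' h
    have a := Topo.ed_spec (an := an) hAE (show k < Topo.num E (AC I) by omega)
    have b := Topo.ed_spec (an := an) hAE hk'
    unfold SMI.Prefers
    by_contra hcon
    rcases Nat.lt_or_ge ((I.women (Topo.ed E (AC I) an k' % I.nw)).idxOf
      (Topo.ed E (AC I) an k' / I.nw)) ((I.women (Topo.ed E (AC I) an k % I.nw)).idxOf
      (Topo.ed E (AC I) an k / I.nw)) with h3 | h3
    · exact hord k k' hkk hk' ⟨⟨b.1, a.1⟩, Or.inr ⟨h.symm, h3⟩⟩
    · have h4 : (I.women (Topo.ed E (AC I) an k % I.nw)).idxOf (Topo.ed E (AC I) an k / I.nw) =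
          (I.women (Topo.ed E (AC I) an k % I.nw)).idxOf (Topo.ed E (AC I) an k' / I.nw) := by
        rw [← h] at h3
        omega
      have h5 := (List.idxOf_inj (AC_facts a.1).2.2.2).mp h4
      exact hne k k' hkk hk' (hcell a.1 b.1 h5 h)

end Cells

end Pool.Agent.Helper91.SM
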