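import Pool.Agent.Helper91.SM.CoreD2
import Pool.Agent.Helper91.SM.Match

/-!
The complete program and its specification.
-/

namespace Pool.Agent.Helper91.SM

open Finset Term

namespace Full

open Core Greedy

/-- arrays 80, 81: one plus the position of woman `var 1` on the list of man `var 0`, and of man
`var 0` on the list of woman `var 1`; zero if not acceptable -/
def tPosM : Term := .sum 3 ((.var 3 + 1) * eqt (g2 1 (.var 0) (.var 3)) (.var 1 + 1))
def tPosW : Term := .sum 3 ((.var 3 + 1) * eqt (g2 2 (.var 1) (.var 3)) (.var 0 + 1))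
/-- array 82: number of cells -/
def tE : Term := g0 0 * g1 0 1
/-- arrays 83, 84: man and woman of a cell -/
def tI : Term := .var 0 / g1 0 1
def tJ : Term := .var 0 - (.var 0 / g1 0 1) * g1 0 1
/-- arrays 85, 86: positions on the lists -/
def tPM : Term := g2 80 (g1 83 (.var 0)) (g1 84 (.var 0))
def tPW : Term := g2 81 (g1 83 (.var 0)) (g1 84 (.var 0))
/-- array 87: precedence -/
def tR0 : Term := (Term.lt 0 (g1 85 (.var 0)) * Term.lt 0 (g1 85 (.var 1))) *
  Term.lt 0 (eqt (.var 0) (.var 1) +
    (eqt (g1 83 (.var 0)) (g1 83 (.var 1)) * Term.lt (g1 85 (.var 0)) (g1 85 (.var 1)) +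
     eqt (g1 84 (.var 0)) (g1 84 (.var 1)) * Term.lt (g1 86 (.var 0)) (g1 86 (.var 1))))
def tRounds : Term := sumTo 3 (g0 82 + 1) (g1 14 (.var 3))
def tR : Term := Term.lt 0 (sumTo 3 (g0 82) (g2 87 (.var 0) (.var 3) * g2 87 (.var 3) (.var 1)))
/-- array 89: number of ancestors -/
def tAnc : Term := sumTo 3 (g0 82) (g2 87 (.var 3) (.var 0))
/-- array 90: positions in the sorted list -/
def tPos : Term := sumTo 3 (g0 82) (Term.lt 0 (g1 85 (.var 3)) *
  Term.lt 0 (Term.lt (g1 89 (.var 3)) (g1 89 (.var 0)) +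
    eqt (g1 89 (.var 3)) (g1 89 (.var 0)) * Term.lt (.var 3) (.var 0)))
/-- array 91: number of acceptable pairs -/
def tG : Term := sumTo 3 (g0 82) (Term.lt 0 (g1 85 (.var 3)))
/-- array 10: the same, at least one -/
def tG1 : Term := g0 91 + eqt (g0 91) 0
/-- array 92: sorted list of the cells -/
def tEd : Term := sumTo 3 (g0 82) (.var 3 *
  (Term.lt 0 (g1 85 (.var 3)) * eqt (g1 90 (.var 3)) (.var 0)))
/-- arrays 93, 94: men and women of the sorted list -/
def tMn : Term := g1 83 (g1 92 (.var 0))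
def tWn : Term := g1 84 (g1 92 (.var 0))
/-- arrays 11, 12: labels -/
def tLab (r : ℕ) : Term := sumTo 3 (g0 10) (eqt (sumTo 4 (.var 3 + 1)
  (eqt (g1 r (.var 4)) (g1 r (.var 0)))) 0)
/-- array 3: output -/
def tOut : Term := sumTo 3 (g0 91) (g1 71 (.var 3) *
  (eqt (g1 93 (.var 3)) (.var 0) * (g1 94 (.var 3) + 1)))

def pre1 : Prog := .seq (.assign 14 tPow) (.seq (.assign 80 tPosM) (.seq (.assign 81 tPosW)
  (.seq (.assign 82 tE) (.seq (.assign 83 tI) (.seq (.assign 84 tJ) (.seq (.assign 85 tPM)
  (.seq (.assign 86 tPW) (.seq (.assign 87 tR0) (.loop 88 tRounds (.assign 87 tR))))))))))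

def pre2 : Prog := .seq (.assign 89 tAnc) (.seq (.assign 90 tPos) (.seq (.assign 91 tG)
  (.seq (.assign 10 tG1) (.seq (.assign 92 tEd) (.seq (.assign 93 tMn) (.seq (.assign 94 tWn)
  (.seq (.assign 11 (2 * tLab 93)) (.assign 12 (2 * tLab 94 + 1)))))))))

/-- the program -/
def full : Prog := .seq pre1 (.seq pre2 (.seq core (.assign 3 tOut)))

/-! #### sizes -/

section Sizes
variable (I : SMI)

lemma nm_le : I.nm ≤ I.size := by
  unfold SMI.size
  have : I.nm ≤ ∑ i ∈ range I.nm, ((I.men i).length + 1) := by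
    calc I.nm = ∑ _i ∈ range I.nm, 1 := by simp
      _ ≤ _ := Finset.sum_le_sum fun i _ => by omega
  omega

lemma nw_le : I.nw ≤ I.size := by
  unfold SMI.size
  have : I.nw ≤ ∑ j ∈ range I.nw, ((I.women j).length + 1) := by
    calc I.nw = ∑ _i ∈ range I.nw, 1 := by simp
      _ ≤ _ := Finset.sum_le_sum fun i _ => by omega
  omega

lemma men_len {i : ℕ} (hi : i < I.nm) : (I.men i).length ≤ I.size := by
  unfold SMI.size
  have := Finset.single_le_sum (f := fun i => (I.men i).length + 1) (fun i _ => Nat.zero_le _)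
    (Finset.mem_range.mpr hi)
  omega

lemma women_len {j : ℕ} (hj : j < I.nw) : (I.women j).length ≤ I.size := by
  unfold SMI.size
  have := Finset.single_le_sum (f := fun i => (I.women i).length + 1) (fun i _ => Nat.zero_le _)
    (Finset.mem_range.mpr hj)
  omega

lemma num_le : Topo.num (I.nm * I.nw) (AC I) ≤ I.size := by
  classical
  have h1 : Topo.num (I.nm * I.nw) (AC I) ≤ ∑ i ∈ range I.nm, (I.men i).length := by
    unfold Topo.num
    have h2 : (((range (I.nm * I.nw)).filter (fun g => AC I g)).image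
        (fun e => (⟨e / I.nw, e % I.nw⟩ : (_ : ℕ) × ℕ))) ⊆
        (range I.nm).sigma (fun i => (I.men i).toFinset) := by
      intro x hx
      rw [Finset.mem_image] at hx
      obtain ⟨e, he, rfl⟩ := hx
      rw [Finset.mem_filter] at he
      rw [Finset.mem_sigma]
      exact ⟨Finset.mem_range.mpr (AC_facts he.2).2.1, List.mem_toFinset.mpr he.2.2⟩
    have h3 := Finset.card_le_card h2
    rw [Finset.card_image_of_injOn, Finset.card_sigma] at h3
    · refine le_trans (le_of_eq ?_) (h3.trans (Finset.sum_le_sum fun i _ =>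
        List.toFinset_card_le _))
      congr
    · intro e _ f _ h
      simp only [Sigma.mk.injEq, heq_eq_eq] at h
      rw [← Nat.div_add_mod e I.nw, ← Nat.div_add_mod f I.nw, h.1, h.2]
  unfold SMI.size
  have h4 : ∑ i ∈ range I.nm, (I.men i).length ≤ ∑ i ∈ range I.nm, ((I.men i).length + 1) :=
    Finset.sum_le_sum fun i _ => by omega
  omega

end Sizes

lemma sum_iv_card (n : ℕ) (p : ℕ → Prop) [DecidablePred p] :
    ∑ x ∈ range n, iv (p x) = (((range n).filter p).card : ℤ) := by
  classical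
  have h0 : (∑ x ∈ range n, iv (p x)) = ∑ x ∈ range n, if p x then (1:ℤ) else 0 := by
    refine Finset.sum_congr rfl fun x _ => ?_
    by_cases h : p x
    · rw [iv_pos h, if_pos h]
    · rw [iv_neg h, if_neg h]
  rw [h0, ← Finset.sum_filter, Finset.sum_const, nsmul_eq_mul, mul_one]

lemma iv_pos_iff (p : Prop) : (0 < iv p) ↔ p := by
  by_cases hp : p <;> simp [iv, hp]

/-- position plus one, or zero -/
def pMf (I : SMI) (e : ℕ) : ℤ :=
  if e % I.nw ∈ I.men (e / I.nw) then ((I.men (e / I.nw)).idxOf (e % I.nw) : ℤ) + 1 else 0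
def pWf (I : SMI) (e : ℕ) : ℤ :=
  if e / I.nw ∈ I.women (e % I.nw) then ((I.women (e % I.nw)).idxOf (e / I.nw) : ℤ) + 1 else 0

/-- data after the first part -/
structure P1 (I : SMI) (T : ℕ) (m : Mem) : Prop where
  nm : m 0 0 0 0 = I.nm
  nw : m 0 1 0 0 = I.nw
  e : m 82 0 0 0 = (I.nm * I.nw : ℕ)
  i : ∀ e < I.nm * I.nw + 1, m 83 e 0 0 = (e / I.nw : ℕ)
  j : ∀ e < I.nm * I.nw + 1, m 84 e 0 0 = (e % I.nw : ℕ)
  pm : ∀ e < I.nm * I.nw, m 85 e 0 0 = pMf I e
  pw : ∀ e < I.nm * I.nw, m 86 e 0 0 = pWf I e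
  r : ∀ e < I.nm * I.nw, ∀ f < I.nm * I.nw,
    m 87 e f 0 = iv (Topo.Mt (I.nm * I.nw) (SC I) (AC I) T e f)

lemma cell_lt {I : SMI} {e : ℕ} (he : e < I.nm * I.nw) : e / I.nw < I.nm ∧ e % I.nw < I.nw := by
  have hnw : 0 < I.nw := by
    rcases Nat.eq_zero_or_pos I.nw with h0 | h0
    · rw [h0, Nat.mul_zero] at he; omega
    · exact h0
  exact ⟨by rw [Nat.div_lt_iff_lt_mul hnw]; exact he, Nat.mod_lt e hnw⟩

lemma pMf_pos {I : SMI} {e : ℕ} (he : e < I.nm * I.nw) : 0 < pMf I e ↔ AC I e := by
  unfold pMf AC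
  split_ifs with h
  · simp only [he, h, and_self, iff_true]; omega
  · simp [h]

lemma R0_iff {I : SMI} {e f : ℕ} (he : AC I e) (hf : AC I f) :
    (0 < iv (e = f) + (iv (e / I.nw = f / I.nw) * iv (pMf I e < pMf I f) +
      iv (e % I.nw = f % I.nw) * iv (pWf I e < pWf I f))) ↔ (e = f ∨ SC I e f) := by
  have a := AC_facts he
  have b := AC_facts hf
  have e1 : pMf I e < pMf I f ↔ (I.men (e / I.nw)).idxOf (e % I.nw) <
      (I.men (f / I.nw)).idxOf (f % I.nw) := by
    unfold pMf
    rw [if_pos he.2, if_pos hf.2]; omega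
  have e2 : pWf I e < pWf I f ↔ (I.women (e % I.nw)).idxOf (e / I.nw) <
      (I.women (f % I.nw)).idxOf (f / I.nw) := by
    unfold pWf
    rw [if_pos a.2.2.2, if_pos b.2.2.2]; omega
  rw [iv_mul, iv_mul, e1, e2]
  set p1 := e = f
  set p2 := e / I.nw = f / I.nw ∧ (I.men (e / I.nw)).idxOf (e % I.nw) <
      (I.men (f / I.nw)).idxOf (f % I.nw)
  set p3 := e % I.nw = f % I.nw ∧ (I.women (e % I.nw)).idxOf (e / I.nw) <
      (I.women (f % I.nw)).idxOf (f / I.nw)
  have h1 : SC I e f ↔ p2 ∨ p3 := by
    unfold SC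
    constructor
    · intro h; exact h.2
    · intro h; exact ⟨⟨he, hf⟩, h⟩
  rw [h1]
  have n1 := iv_nonneg p1
  have n2 := iv_nonneg p2
  have n3 := iv_nonneg p3
  constructor
  · intro h
    by_contra hcon
    push Not at hcon
    rw [iv_neg hcon.1, iv_neg hcon.2.1, iv_neg hcon.2.2] at h
    omega
  · rintro (h | h | h)
    · rw [iv_pos h]; omega
    · rw [iv_pos h]; omega
    · rw [iv_pos h]; omega

theorem pre1_spec {W : ℕ} {I : SMI} (hW : (I.size + 2) ^ 64 ≤ W) :
    P1 I (Nat.clog 2 (I.nm * I.nw + 1)) (exec W pre1 I.encode) ∧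
    steps W pre1 I.encode ≤ 2 * Nat.clog 2 (I.nm * I.nw + 1) + 10 := by
  have hW3 : (I.size + 2) ^ 3 ≤ W :=
    (Nat.pow_le_pow_right (by omega) (by norm_num)).trans hW
  have hnm := nm_le I
  have hnw := nw_le I
  have hE1 : I.nm * I.nw ≤ I.size * I.size := Nat.mul_le_mul hnm hnw
  have hexp : (I.size + 2) ^ 3 = I.size * I.size * I.size + 6 * (I.size * I.size) +
      12 * I.size + 8 := by ring
  have hEW : I.nm * I.nw + 2 < W := by nlinarith
  have hsW : I.size + 2 < W := by nlinarith
  have hW0 : 0 < W := by omega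
  have hW1 : 1 < W := by omega
  set m0 := I.encode with hm0
  set E := I.nm * I.nw with hE
  set m1 := exec W (.assign 14 tPow) m0 with hm1
  set m2 := exec W (.assign 80 tPosM) m1 with hm2
  set m3 := exec W (.assign 81 tPosW) m2 with hm3
  set m4 := exec W (.assign 82 tE) m3 with hm4
  set m5 := exec W (.assign 83 tI) m4 with hm5
  set m6 := exec W (.assign 84 tJ) m5 with hm6
  set m7 := exec W (.assign 85 tPM) m6 with hm7
  set m8 := exec W (.assign 86 tPW) m7 with hm8
  set m9 := exec W (.assign 87 tR0) m8 with hm9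
  have f1 : ∀ r, r ≠ 14 → m1 r = m0 r := fun r hr => exec_frame _ _ _ _ (by simpa [mods] using hr)
  have f2 : ∀ r, r ≠ 80 → m2 r = m1 r := fun r hr => exec_frame _ _ _ _ (by simpa [mods] using hr)
  have f3 : ∀ r, r ≠ 81 → m3 r = m2 r := fun r hr => exec_frame _ _ _ _ (by simpa [mods] using hr)
  have f4 : ∀ r, r ≠ 82 → m4 r = m3 r := fun r hr => exec_frame _ _ _ _ (by simpa [mods] using hr)
  have f5 : ∀ r, r ≠ 83 → m5 r = m4 r := fun r hr => exec_frame _ _ _ _ (by simpa [mods] using hr)
  have f6 : ∀ r, r ≠ 84 → m6 r = m5 r := fun r hr => exec_frame _ _ _ _ (by simpa [mods] using hr)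
  have f7 : ∀ r, r ≠ 85 → m7 r = m6 r := fun r hr => exec_frame _ _ _ _ (by simpa [mods] using hr)
  have f8 : ∀ r, r ≠ 86 → m8 r = m7 r := fun r hr => exec_frame _ _ _ _ (by simpa [mods] using hr)
  have f9 : ∀ r, r ≠ 87 → m9 r = m8 r := fun r hr => exec_frame _ _ _ _ (by simpa [mods] using hr)
  have a14 : ∀ i < W, m1 14 i 0 0 = iv (∃ e, i = 2 ^ e) := by
    intro i hi
    rw [hm1, exec_assign _ _ _ _ hi hW0 hW0, ev_tPow m0 hi, store_iv hW1]
  have hm0nm : m0 0 0 0 0 = I.nm := rfl
  have hm0nw : m0 0 1 0 0 = I.nw := rfl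
  have hm0men : ∀ i < I.nm, ∀ k, m0 1 i k 0 = SMI.code (I.men i) k := by
    intro i hi k
    rw [hm0]; unfold SMI.encode
    simp [hi]
  have hm0wom : ∀ j < I.nw, ∀ k, m0 2 j k 0 = SMI.code (I.women j) k := by
    intro j hj k
    rw [hm0]; unfold SMI.encode
    simp [hj]
  have a80 : ∀ i < I.nm, ∀ j < I.nw, m2 80 i j 0 =
      if j ∈ I.men i then ((I.men i).idxOf j : ℤ) + 1 else 0 := by
    intro i hi j hj
    rw [hm2, exec_assign _ _ _ _ (by omega) (by omega) hW0]
    have hlen := men_len I hi
    have : eval W m1 tPosM (env i j 0) = if j ∈ I.men i then ((I.men i).idxOf j : ℤ) + 1 else 0 := by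
      unfold tPosM
      rw [ev_sum, ← code_sum (I.men_nodup i hi) (show (I.men i).length ≤ W by omega) j]
      refine Finset.sum_congr rfl fun k _ => ?_
      rw [ev_mul, ev_add, ev_one, ev_var, Function.update_self, eval_eqt, ev_g2, ev_add, ev_one,
        ev_var, ev_var, ev_var, Function.update_self,
        Function.update_of_ne (show (0:ℕ) ≠ 3 by decide),
        Function.update_of_ne (show (1:ℕ) ≠ 3 by decide), env0, env1, Int.toNat_natCast,
        Int.toNat_natCast, f1 1 (by decide), hm0men i hi]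
    rw [this]
    apply store_of_lt
    by_cases hmem : j ∈ I.men i
    · rw [if_pos hmem]
      have := List.idxOf_lt_length_iff.mpr hmem
      rw [abs_of_nonneg (by positivity)]
      omega
    · rw [if_neg hmem, abs_zero]; omega
  have a81 : ∀ i < I.nm, ∀ j < I.nw, m3 81 i j 0 =
      if i ∈ I.women j then ((I.women j).idxOf i : ℤ) + 1 else 0 := by
    intro i hi j hj
    rw [hm3, exec_assign _ _ _ _ (by omega) (by omega) hW0]
    have hlen := women_len I hj
    have : eval W m2 tPosW (env i j 0) = if i ∈ I.women j then ((I.women j).idxOf i : ℤ) + 1 else 0 := by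
      unfold tPosW
      rw [ev_sum, ← code_sum (I.women_nodup j hj) (show (I.women j).length ≤ W by omega) i]
      refine Finset.sum_congr rfl fun k _ => ?_
      rw [ev_mul, ev_add, ev_one, ev_var, Function.update_self, eval_eqt, ev_g2, ev_add, ev_one,
        ev_var, ev_var, ev_var, Function.update_self,
        Function.update_of_ne (show (0:ℕ) ≠ 3 by decide),
        Function.update_of_ne (show (1:ℕ) ≠ 3 by decide), env0, env1, Int.toNat_natCast,
        Int.toNat_natCast, f2 2 (by decide), f1 2 (by decide), hm0wom j hj]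
    rw [this]
    apply store_of_lt
    by_cases hmem : i ∈ I.women j
    · rw [if_pos hmem]
      have := List.idxOf_lt_length_iff.mpr hmem
      rw [abs_of_nonneg (by positivity)]
      omega
    · rw [if_neg hmem, abs_zero]; omega
  have m3nm : m3 0 0 0 0 = I.nm := by
    rw [f3 0 (by decide), f2 0 (by decide), f1 0 (by decide)]; exact hm0nm
  have m3nw : m3 0 1 0 0 = I.nw := by
    rw [f3 0 (by decide), f2 0 (by decide), f1 0 (by decide)]; exact hm0nw
  have a82 : m4 82 0 0 0 = (E : ℕ) := by
    rw [hm4, exec_assign _ _ _ _ hW0 hW0 hW0]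
    have : eval W m3 tE (env 0 0 0) = (E : ℕ) := by
      unfold tE
      rw [ev_mul, ev_g0, ev_g1, ev_one, m3nm]
      have : (1:ℤ).toNat = 1 := rfl
      rw [this, m3nw, hE]
      push_cast; rfl
    rw [this]
    exact store_nat (by omega)
  have one_toNat : (1:ℤ).toNat = 1 := rfl
  have a83 : ∀ e < E + 1, m5 83 e 0 0 = (e / I.nw : ℕ) := by
    intro e he
    rw [hm5, exec_assign _ _ _ _ (by omega) hW0 hW0]
    have : eval W m4 tI (env e 0 0) = (e / I.nw : ℕ) := by
      unfold tI
      rw [ev_div, ev_var, env0, ev_g1, ev_one, one_toNat, f4 0 (by decide), m3nw]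
      push_cast; rfl
    rw [this]
    exact store_nat (lt_of_le_of_lt (Nat.div_le_self _ _) (by omega))
  have a84 : ∀ e < E + 1, m6 84 e 0 0 = (e % I.nw : ℕ) := by
    intro e he
    rw [hm6, exec_assign _ _ _ _ (by omega) hW0 hW0]
    have : eval W m5 tJ (env e 0 0) = (e % I.nw : ℕ) := by
      unfold tJ
      rw [ev_sub, ev_mul, ev_div, ev_var, env0, ev_g1, ev_one, one_toNat, f5 0 (by decide),
        f4 0 (by decide), m3nw]
      push_cast
      rw [Int.emod_def]
      ring
    rw [this]
    exact store_nat (lt_of_le_of_lt (Nat.mod_le _ _) (by omega))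
  have a85 : ∀ e < E, m7 85 e 0 0 = pMf I e := by
    intro e he
    obtain ⟨hi, hj⟩ := cell_lt he
    rw [hm7, exec_assign _ _ _ _ (by omega) hW0 hW0]
    have : eval W m6 tPM (env e 0 0) = pMf I e := by
      unfold tPM pMf
      rw [ev_g2, ev_g1, ev_g1, ev_var, env0, Int.toNat_natCast, a84 e (by omega),
        f6 83 (by decide), a83 e (by omega), Int.toNat_natCast, Int.toNat_natCast,
        f6 80 (by decide), f5 80 (by decide), f4 80 (by decide), f3 80 (by decide), a80 _ hi _ hj]
    rw [this]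
    apply store_of_lt
    unfold pMf
    by_cases hmem : e % I.nw ∈ I.men (e / I.nw)
    · rw [if_pos hmem]
      have := List.idxOf_lt_length_iff.mpr hmem
      have := men_len I hi
      rw [abs_of_nonneg (by positivity)]
      omega
    · rw [if_neg hmem, abs_zero]; omega
  have a86 : ∀ e < E, m8 86 e 0 0 = pWf I e := by
    intro e he
    obtain ⟨hi, hj⟩ := cell_lt he
    rw [hm8, exec_assign _ _ _ _ (by omega) hW0 hW0]
    have : eval W m7 tPW (env e 0 0) = pWf I e := by
      unfold tPW pWf
      rw [ev_g2, ev_g1, ev_g1, ev_var, env0, Int.toNat_natCast, f7 84 (by decide),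
        a84 e (by omega), f7 83 (by decide), f6 83 (by decide), a83 e (by omega),
        Int.toNat_natCast, Int.toNat_natCast, f7 81 (by decide), f6 81 (by decide),
        f5 81 (by decide), f4 81 (by decide), a81 _ hi _ hj]
    rw [this]
    apply store_of_lt
    unfold pWf
    by_cases hmem : e / I.nw ∈ I.women (e % I.nw)
    · rw [if_pos hmem]
      have := List.idxOf_lt_length_iff.mpr hmem
      have := women_len I hj
      rw [abs_of_nonneg (by positivity)]
      omega
    · rw [if_neg hmem, abs_zero]; omega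
  have b83 : ∀ e < E + 1, m8 83 e 0 0 = (e / I.nw : ℕ) := by
    intro e he
    rw [f8 83 (by decide), f7 83 (by decide), f6 83 (by decide), a83 e he]
  have b84 : ∀ e < E + 1, m8 84 e 0 0 = (e % I.nw : ℕ) := by
    intro e he
    rw [f8 84 (by decide), f7 84 (by decide), a84 e he]
  have b85 : ∀ e < E, m8 85 e 0 0 = pMf I e := by
    intro e he; rw [f8 85 (by decide), a85 e he]
  have a87 : ∀ e < E, ∀ f < E, m9 87 e f 0 = iv (Topo.Mt E (SC I) (AC I) 0 e f) := by
    intro e he f hf
    rw [hm9, exec_assign _ _ _ _ (by omega) (by omega) hW0]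
    have : eval W m8 tR0 (env e f 0) = iv (Topo.Mt E (SC I) (AC I) 0 e f) := by
      unfold tR0
      simp only [ev_mul, ev_add, eval_lt, eval_eqt, ev_zero, ev_g1, ev_var, env0, env1,
        Int.toNat_natCast]
      rw [b83 e (by omega), b83 f (by omega), b84 e (by omega), b84 f (by omega), b85 e he,
        b85 f hf, a86 e he, a86 f hf]
      simp only [Nat.cast_inj, pMf_pos he, pMf_pos hf]
      by_cases h1 : AC I e
      · by_cases h2 : AC I f
        · rw [iv_pos h1, iv_pos h2, one_mul, one_mul, iv_congr (R0_iff h1 h2)]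
          apply iv_congr
          show _ ↔ ((AC I e ∧ AC I f) ∧ (e = f ∨ SC I e f))
          tauto
        · rw [iv_neg h2, mul_zero, zero_mul]
          exact (iv_neg (fun h => h2 h.1.2)).symm
      · rw [iv_neg h1, zero_mul, zero_mul]
        exact (iv_neg (fun h => h1 h.1.1)).symm
    rw [this, store_iv hW1]
  have hn : (eval W m9 tRounds (env 0 0 0)).toNat = Nat.clog 2 (E + 1) := by
    unfold tRounds
    have c82 : m9 82 0 0 0 = (E : ℕ) := by
      rw [f9 82 (by decide), f8 82 (by decide), f7 82 (by decide), f6 82 (by decide),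
        f5 82 (by decide), a82]
    rw [eval_sumTo W m9 3 (g0 82 + 1) _ _ (E + 1) (by omega)
      (by intro x; rw [ev_add, ev_g0, c82, ev_one]; push_cast; rfl)]
    simp only [ev_g1, ev_var, Function.update_self, Int.toNat_natCast]
    have c14 : m9 14 = m1 14 := by
      rw [f9 14 (by decide), f8 14 (by decide), f7 14 (by decide), f6 14 (by decide),
        f5 14 (by decide), f4 14 (by decide), f3 14 (by decide), f2 14 (by decide)]
    rw [c14, Finset.sum_congr rfl (fun x hx => a14 x (by
        have := Finset.mem_range.mp hx; omega)), count_pow, Int.toNat_natCast]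
  have hloop := loop_inv (W := W) (r := 88) (t := tRounds) (p := .assign 87 tR) (m := m9)
    (n := Nat.clog 2 (E + 1)) hn (fun t m' => ∀ e < E, ∀ f < E,
      m' 87 e f 0 = iv (Topo.Mt E (SC I) (AC I) t e f)) 1 a87
    (by
      intro t ht m' hfr hInv
      refine ⟨?_, by rw [steps_assign]⟩
      intro e he f hf
      have e87 : setc W 88 t m' 87 = m' 87 := by rw [setc, Function.update_of_ne (by decide)]
      have e82 : setc W 88 t m' 82 0 0 0 = (E : ℕ) := by
        rw [setc, Function.update_of_ne (by decide), hfr 82 (by decide), f9 82 (by decide),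
          f8 82 (by decide), f7 82 (by decide), f6 82 (by decide), f5 82 (by decide), a82]
      rw [exec_assign _ _ _ _ (by omega) (by omega) hW0]
      have : eval W (setc W 88 t m') tR (env e f 0) =
          iv (Topo.Mt E (SC I) (AC I) (t + 1) e f) := by
        unfold tR
        rw [eval_lt, ev_zero, eval_sumTo W _ 3 (g0 82) _ _ E (by omega)
          (by intro x; rw [ev_g0, e82])]
        have hterm : ∀ g ∈ range E, eval W (setc W 88 t m')
            (g2 87 (.var 0) (.var 3) * g2 87 (.var 3) (.var 1))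
            (Function.update (env e f 0) 3 (g : ℤ)) =
            iv (Topo.Mt E (SC I) (AC I) t e g ∧ Topo.Mt E (SC I) (AC I) t g f) := by
          intro g hg
          have hg' := Finset.mem_range.mp hg
          rw [ev_mul, ev_g2, ev_g2, ev_var, ev_var, ev_var, Function.update_self,
            Function.update_of_ne (show (0:ℕ) ≠ 3 by decide),
            Function.update_of_ne (show (1:ℕ) ≠ 3 by decide), env0, env1, Int.toNat_natCast,
            Int.toNat_natCast, Int.toNat_natCast, e87, hInv e he g hg', hInv g hg' f hf, iv_mul]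
        rw [Finset.sum_congr rfl hterm]
        apply iv_congr
        have h0 := sum_pos_iff (n := E) (b := 0) (F := fun g => iv (Topo.Mt E (SC I) (AC I) t e g ∧
          Topo.Mt E (SC I) (AC I) t g f)) le_rfl (fun _ _ => iv_nonneg _)
        rw [zero_add] at h0
        rw [h0]
        constructor
        · rintro (h | ⟨g, hg, h⟩)
          · omega
          · exact ⟨g, hg, (iv_pos_iff _).mp h⟩
        · rintro ⟨g, hg, h⟩
          exact Or.inr ⟨g, hg, (iv_pos_iff _).mpr h⟩
      rw [this, store_iv hW1])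
  have g9 : ∀ r, r ≠ 87 → r ≠ 88 → exec W pre1 I.encode r = m9 r := by
    intro r h1 h2
    show (exec W (.loop 88 tRounds (.assign 87 tR)) m9) r = m9 r
    exact exec_frame _ _ _ _ (by simp [mods, h1, h2])
  refine ⟨⟨?_, ?_, ?_, ?_, ?_, ?_, ?_, ?_⟩, ?_⟩
  · rw [g9 0 (by decide) (by decide), f9 0 (by decide), f8 0 (by decide), f7 0 (by decide),
      f6 0 (by decide), f5 0 (by decide), f4 0 (by decide), m3nm]
  · rw [g9 0 (by decide) (by decide), f9 0 (by decide), f8 0 (by decide), f7 0 (by decide),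
      f6 0 (by decide), f5 0 (by decide), f4 0 (by decide), m3nw]
  · rw [g9 82 (by decide) (by decide), f9 82 (by decide), f8 82 (by decide), f7 82 (by decide),
      f6 82 (by decide), f5 82 (by decide), a82]
  · intro e he
    rw [g9 83 (by decide) (by decide), f9 83 (by decide), b83 e he]
  · intro e he
    rw [g9 84 (by decide) (by decide), f9 84 (by decide), b84 e he]
  · intro e he
    rw [g9 85 (by decide) (by decide), f9 85 (by decide), b85 e he]
  · intro e he
    rw [g9 86 (by decide) (by decide), f9 86 (by decide), a86 e he]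
  · exact hloop.1
  · have := hloop.2
    show 1 + (1 + (1 + (1 + (1 + (1 + (1 + (1 + (1 +
      steps W (.loop 88 tRounds (.assign 87 tR)) m9)))))))) ≤ _
    omega

end Full

end Pool.Agent.Helper91.SM
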