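import Pool.Agent.Helper91.SM.Full

/-!
The complete program: sorting, the core, the output, and the final theorem.
-/

namespace Pool.Agent.Helper91.SM

open Finset Term

namespace Full

open Core Greedy

/-- number of edges, at least one -/
noncomputable def GG (I : SMI) : ℕ := max (Topo.num (I.nm * I.nw) (AC I)) 1
/-- sorted list of cells -/
noncomputable def edI (I : SMI) (k : ℕ) : ℕ :=
  Topo.ed (I.nm * I.nw) (AC I) (Topo.anc (I.nm * I.nw) (SC I) (AC I)) k
noncomputable def mnI (I : SMI) (k : ℕ) : ℕ := edI I k / I.nw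
noncomputable def wnI (I : SMI) (k : ℕ) : ℕ := edI I k % I.nw
noncomputable def uI (I : SMI) (k : ℕ) : ℕ := 2 * lab (mnI I) (GG I) k
noncomputable def vI (I : SMI) (k : ℕ) : ℕ := 2 * lab (wnI I) (GG I) k + 1

/-- data after the second part -/
structure P2 (I : SMI) (m : Mem) : Prop where
  g : m 10 0 0 0 = (GG I : ℕ)
  n : m 91 0 0 0 = (Topo.num (I.nm * I.nw) (AC I) : ℕ)
  mn : ∀ k < GG I, m 93 k 0 0 = (mnI I k : ℕ)
  wn : ∀ k < GG I, m 94 k 0 0 = (wnI I k : ℕ)
  u : ∀ k < GG I, m 11 k 0 0 = (uI I k : ℕ)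
  v : ∀ k < GG I, m 12 k 0 0 = (vI I k : ℕ)

lemma edI_lt (I : SMI) (k : ℕ) : edI I k < I.nm * I.nw + 1 := by
  classical
  unfold edI
  by_cases h : ∃ f, AC I f ∧ Topo.pos (I.nm * I.nw) (AC I)
      (Topo.anc (I.nm * I.nw) (SC I) (AC I)) f = k
  · unfold Topo.ed
    rw [dif_pos h]
    have := h.choose_spec.1.1
    omega
  · rw [Topo.ed_not h]; omega

lemma ev_tLab {W G r : ℕ} {m : Mem} {f : ℕ → ℕ} (h10 : m 10 0 0 0 = G) (hG : G + 1 ≤ W)
    (hf : ∀ k < G, m r k 0 0 = f k) {k : ℕ} (hk : k < G) :
    eval W m (tLab r) (env k 0 0) = (lab f G k : ℕ) := by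
  unfold tLab lab
  rw [eval_sumTo W m 3 (g0 10) _ _ G (by omega) (by intro y; rw [ev_g0, h10]),
    ← fm_sum (fun x => f x = f k) G]
  refine Finset.sum_congr rfl fun x hx => ?_
  have hx' := Finset.mem_range.mp hx
  rw [eval_eqt, eval_sumTo W m 4 (.var 3 + 1) _ _ (x + 1) (by omega)
    (by
      intro y
      rw [ev_add, ev_var, ev_one, Function.update_of_ne (by decide), Function.update_self]
      push_cast; rfl), ev_zero]
  have h2 : ∀ y ∈ range (x + 1), eval W m (eqt (g1 r (.var 4)) (g1 r (.var 0)))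
      (Function.update (Function.update (env k 0 0) 3 (x : ℤ)) 4 (y : ℤ)) =
      iv (f y = f k) := by
    intro y hy
    have hy' := Finset.mem_range.mp hy
    rw [eval_eqt, ev_g1, ev_g1, ev_var, ev_var, Function.update_self,
      Function.update_of_ne (show (0:ℕ) ≠ 4 by decide),
      Function.update_of_ne (show (0:ℕ) ≠ 3 by decide), env0, Int.toNat_natCast,
      Int.toNat_natCast, hf y (by omega), hf k hk]
    exact iv_congr Nat.cast_inj
  rw [Finset.sum_congr rfl h2]
  apply iv_congr
  rw [sum_iv_eq_zero]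

theorem pre2_spec {W T : ℕ} {I : SMI} (hI : I.Acyclic) (hW : (I.size + 2) ^ 64 ≤ W) {m : Mem}
    (hT : I.nm * I.nw ≤ 2 ^ T) (h1 : P1 I T m) :
    P2 I (exec W pre2 m) ∧ steps W pre2 m ≤ 9 := by
  classical
  have hW3 : (I.size + 2) ^ 3 ≤ W :=
    (Nat.pow_le_pow_right (by omega) (by norm_num)).trans hW
  have hnm := nm_le I
  have hnw := nw_le I
  have hnum := num_le I
  have hE1 : I.nm * I.nw ≤ I.size * I.size := Nat.mul_le_mul hnm hnw
  have hexp : (I.size + 2) ^ 3 = I.size * I.size * I.size + 6 * (I.size * I.size) +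
      12 * I.size + 8 := by ring
  have hEW : I.nm * I.nw + 2 < W := by nlinarith
  have hsW : 3 * I.size + 7 < W := by nlinarith
  have hW0 : 0 < W := by omega
  have hW1 : 1 < W := by omega
  obtain ⟨ρ, hρ1, hρ2⟩ := hI
  set E := I.nm * I.nw with hE
  have hAE : ∀ e, AC I e → e < E := fun e h => h.1
  have hSρ : ∀ e f, SC I e f → (fun e => ρ (e / I.nw) (e % I.nw)) e <
      (fun e => ρ (e / I.nw) (e % I.nw)) f := fun e f h => SC_rho hρ1 hρ2 e f h
  set an := Topo.anc E (SC I) (AC I) with han
  set N := Topo.num E (AC I) with hN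
  set m1 := exec W (.assign 89 tAnc) m with hm1
  set m2 := exec W (.assign 90 tPos) m1 with hm2
  set m3 := exec W (.assign 91 tG) m2 with hm3
  set m4 := exec W (.assign 10 tG1) m3 with hm4
  set m5 := exec W (.assign 92 tEd) m4 with hm5
  set m6 := exec W (.assign 93 tMn) m5 with hm6
  set m7 := exec W (.assign 94 tWn) m6 with hm7
  set m8 := exec W (.assign 11 (2 * tLab 93)) m7 with hm8
  set m9 := exec W (.assign 12 (2 * tLab 94 + 1)) m8 with hm9
  have f1 : ∀ r, r ≠ 89 → m1 r = m r := fun r hr => exec_frame _ _ _ _ (by simpa [mods] using hr)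
  have f2 : ∀ r, r ≠ 90 → m2 r = m1 r := fun r hr => exec_frame _ _ _ _ (by simpa [mods] using hr)
  have f3 : ∀ r, r ≠ 91 → m3 r = m2 r := fun r hr => exec_frame _ _ _ _ (by simpa [mods] using hr)
  have f4 : ∀ r, r ≠ 10 → m4 r = m3 r := fun r hr => exec_frame _ _ _ _ (by simpa [mods] using hr)
  have f5 : ∀ r, r ≠ 92 → m5 r = m4 r := fun r hr => exec_frame _ _ _ _ (by simpa [mods] using hr)
  have f6 : ∀ r, r ≠ 93 → m6 r = m5 r := fun r hr => exec_frame _ _ _ _ (by simpa [mods] using hr)
  have f7 : ∀ r, r ≠ 94 → m7 r = m6 r := fun r hr => exec_frame _ _ _ _ (by simpa [mods] using hr)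
  have f8 : ∀ r, r ≠ 11 → m8 r = m7 r := fun r hr => exec_frame _ _ _ _ (by simpa [mods] using hr)
  have f9 : ∀ r, r ≠ 12 → m9 r = m8 r := fun r hr => exec_frame _ _ _ _ (by simpa [mods] using hr)
  -- ancestors
  have han_le : ∀ f, an f ≤ E := by
    intro f
    have := Finset.card_filter_le (range E) (fun g => Topo.Reach (SC I) (AC I) g f)
    rw [Finset.card_range] at this
    exact this
  have a89 : ∀ f < E, m1 89 f 0 0 = (an f : ℕ) := by
    intro f hf
    rw [hm1, exec_assign _ _ _ _ (by omega) hW0 hW0]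
    have : eval W m tAnc (env f 0 0) = (an f : ℕ) := by
      unfold tAnc
      rw [eval_sumTo W m 3 (g0 82) _ _ E (by omega) (by intro y; rw [ev_g0, h1.e])]
      have hterm : ∀ g ∈ range E, eval W m (g2 87 (.var 3) (.var 0))
          (Function.update (env f 0 0) 3 (g : ℤ)) = iv (Topo.Reach (SC I) (AC I) g f) := by
        intro g hg
        rw [ev_g2, ev_var, ev_var, Function.update_self,
          Function.update_of_ne (show (0:ℕ) ≠ 3 by decide), env0, Int.toNat_natCast,
          Int.toNat_natCast, h1.r g (Finset.mem_range.mp hg) f hf]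
        exact iv_congr (Topo.Mt_reach SC_AC hAE hSρ hT g f)
      rw [Finset.sum_congr rfl hterm, sum_iv_card]
      rfl
    rw [this]
    exact store_nat (lt_of_le_of_lt (han_le f) (by omega))
  -- positions
  have hpos_le : ∀ f, Topo.pos E (AC I) an f ≤ E := by
    intro f
    have := Finset.card_filter_le (range E) (fun g => AC I g ∧ Topo.Key an g f)
    rw [Finset.card_range] at this
    exact this
  have a90 : ∀ f < E, m2 90 f 0 0 = (Topo.pos E (AC I) an f : ℕ) := by
    intro f hf
    rw [hm2, exec_assign _ _ _ _ (by omega) hW0 hW0]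
    have : eval W m1 tPos (env f 0 0) = (Topo.pos E (AC I) an f : ℕ) := by
      unfold tPos
      rw [eval_sumTo W m1 3 (g0 82) _ _ E (by omega)
        (by intro y; rw [ev_g0, f1 82 (by decide), h1.e])]
      have hterm : ∀ g ∈ range E, eval W m1 (Term.lt 0 (g1 85 (.var 3)) *
          Term.lt 0 (Term.lt (g1 89 (.var 3)) (g1 89 (.var 0)) +
          eqt (g1 89 (.var 3)) (g1 89 (.var 0)) * Term.lt (.var 3) (.var 0)))
          (Function.update (env f 0 0) 3 (g : ℤ)) = iv (AC I g ∧ Topo.Key an g f) := by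
        intro g hg
        have hg' := Finset.mem_range.mp hg
        simp only [ev_mul, ev_add, eval_lt, eval_eqt, ev_zero, ev_g1, ev_var, Function.update_self,
          Function.update_of_ne (show (0:ℕ) ≠ 3 by decide), env0, Int.toNat_natCast]
        rw [f1 85 (by decide), h1.pm g hg', a89 g hg', a89 f hf]
        simp only [Nat.cast_inj, Nat.cast_lt, pMf_pos hg']
        rw [iv_mul, iv_mul]
        apply iv_congr
        apply and_congr_right
        intro _
        unfold Topo.Key
        have n1 := iv_nonneg (an g < an f)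
        have n2 := iv_nonneg (an g = an f ∧ g < f)
        constructor
        · intro h
          by_contra hcon
          push Not at hcon
          rw [iv_neg (not_lt.mpr hcon.1), iv_neg (fun hh => absurd hh.2 (not_lt.mpr (hcon.2 hh.1)))]
            at h
          omega
        · rintro (h | h)
          · rw [iv_pos h]; omega
          · rw [iv_pos h]; omega
      rw [Finset.sum_congr rfl hterm, sum_iv_card]
      rfl
    rw [this]
    exact store_nat (lt_of_le_of_lt (hpos_le f) (by omega))
  have a91 : m3 91 0 0 0 = (N : ℕ) := by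
    rw [hm3, exec_assign _ _ _ _ hW0 hW0 hW0]
    have : eval W m2 tG (env 0 0 0) = (N : ℕ) := by
      unfold tG
      rw [eval_sumTo W m2 3 (g0 82) _ _ E (by omega)
        (by intro y; rw [ev_g0, f2 82 (by decide), f1 82 (by decide), h1.e])]
      have hterm : ∀ g ∈ range E, eval W m2 (Term.lt 0 (g1 85 (.var 3)))
          (Function.update (env 0 0 0) 3 (g : ℤ)) = iv (AC I g) := by
        intro g hg
        have hg' := Finset.mem_range.mp hg
        rw [eval_lt, ev_zero, ev_g1, ev_var, Function.update_self, Int.toNat_natCast,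
          f2 85 (by decide), f1 85 (by decide), h1.pm g hg']
        exact iv_congr (pMf_pos hg')
      rw [Finset.sum_congr rfl hterm, sum_iv_card]
      rfl
    rw [this]
    exact store_nat (by omega)
  have hGG : GG I = max N 1 := rfl
  have hGle : GG I ≤ I.size + 1 := by rw [hGG]; omega
  have hGpos : 0 < GG I := by rw [hGG]; omega
  have a10 : m4 10 0 0 0 = (GG I : ℕ) := by
    rw [hm4, exec_assign _ _ _ _ hW0 hW0 hW0]
    have : eval W m3 tG1 (env 0 0 0) = (GG I : ℕ) := by
      unfold tG1
      rw [ev_add, eval_eqt, ev_g0, a91, ev_zero, hGG]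
      by_cases h0 : N = 0
      · rw [h0, iv_pos (by norm_num)]; norm_num
      · rw [iv_neg (by exact_mod_cast h0)]
        have : max N 1 = N := by omega
        rw [this, add_zero]
    rw [this]
    exact store_nat (by omega)
  have a92 : ∀ k < GG I, m5 92 k 0 0 = (edI I k : ℕ) := by
    intro k hk
    rw [hm5, exec_assign _ _ _ _ (by omega) hW0 hW0]
    have : eval W m4 tEd (env k 0 0) = (edI I k : ℕ) := by
      unfold tEd
      rw [eval_sumTo W m4 3 (g0 82) _ _ E (by omega)
        (by intro y; rw [ev_g0, f4 82 (by decide), f3 82 (by decide), f2 82 (by decide),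
              f1 82 (by decide), h1.e])]
      have hterm : ∀ g ∈ range E, eval W m4 (.var 3 *
          (Term.lt 0 (g1 85 (.var 3)) * eqt (g1 90 (.var 3)) (.var 0)))
          (Function.update (env k 0 0) 3 (g : ℤ)) =
          (g : ℤ) * iv (AC I g ∧ Topo.pos E (AC I) an g = k) := by
        intro g hg
        have hg' := Finset.mem_range.mp hg
        rw [ev_mul, ev_mul, eval_lt, ev_zero, eval_eqt, ev_g1, ev_g1, ev_var, ev_var,
          Function.update_self, Function.update_of_ne (show (0:ℕ) ≠ 3 by decide), env0,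
          Int.toNat_natCast, f4 85 (by decide), f3 85 (by decide), f2 85 (by decide),
          f1 85 (by decide), h1.pm g hg', f4 90 (by decide), f3 90 (by decide), a90 g hg', iv_mul]
        congr 1
        apply iv_congr
        rw [pMf_pos hg', Nat.cast_inj]
      rw [Finset.sum_congr rfl hterm]
      by_cases hex : ∃ f, AC I f ∧ Topo.pos E (AC I) an f = k
      · have hed : edI I k = hex.choose := by
          unfold edI Topo.ed
          rw [dif_pos hex]
        have hsp := hex.choose_spec
        rw [← hed] at hsp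
        rw [sum_iv_pick E _ (fun x => (x:ℤ)) (x0 := edI I k) (hAE _ hsp.1)]
        intro x hx
        constructor
        · rintro ⟨b1, b2⟩
          exact Topo.pos_inj hAE b1 hsp.1 (b2.trans hsp.2.symm)
        · rintro rfl; exact hsp
      · have hed : edI I k = 0 := Topo.ed_not hex
        rw [hed]
        push_cast
        refine Finset.sum_eq_zero fun g _ => ?_
        rw [iv_neg (fun h => hex ⟨g, h⟩), mul_zero]
    rw [this]
    exact store_nat (lt_trans (edI_lt I k) (by omega))
  have a93 : ∀ k < GG I, m6 93 k 0 0 = (mnI I k : ℕ) := by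
    intro k hk
    rw [hm6, exec_assign _ _ _ _ (by omega) hW0 hW0]
    have : eval W m5 tMn (env k 0 0) = (mnI I k : ℕ) := by
      unfold tMn
      rw [ev_g1, ev_g1, ev_var, env0, Int.toNat_natCast, a92 k hk, Int.toNat_natCast,
        f5 83 (by decide), f4 83 (by decide), f3 83 (by decide), f2 83 (by decide),
        f1 83 (by decide), h1.i _ (edI_lt I k)]
      rfl
    rw [this]
    exact store_nat (lt_of_le_of_lt (Nat.div_le_self _ _) (lt_trans (edI_lt I k) (by omega)))
  have a94 : ∀ k < GG I, m7 94 k 0 0 = (wnI I k : ℕ) := by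
    intro k hk
    rw [hm7, exec_assign _ _ _ _ (by omega) hW0 hW0]
    have : eval W m6 tWn (env k 0 0) = (wnI I k : ℕ) := by
      unfold tWn
      rw [ev_g1, ev_g1, ev_var, env0, Int.toNat_natCast, f6 92 (by decide), a92 k hk,
        Int.toNat_natCast, f6 84 (by decide), f5 84 (by decide), f4 84 (by decide),
        f3 84 (by decide), f2 84 (by decide), f1 84 (by decide), h1.j _ (edI_lt I k)]
      rfl
    rw [this]
    exact store_nat (lt_of_le_of_lt (Nat.mod_le _ _) (lt_trans (edI_lt I k) (by omega)))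
  have m7_10 : m7 10 0 0 0 = (GG I : ℕ) := by
    rw [f7 10 (by decide), f6 10 (by decide), f5 10 (by decide), a10]
  have a11 : ∀ k < GG I, m8 11 k 0 0 = (uI I k : ℕ) := by
    intro k hk
    rw [hm8, exec_assign _ _ _ _ (by omega) hW0 hW0]
    have : eval W m7 (2 * tLab 93) (env k 0 0) = (uI I k : ℕ) := by
      rw [ev_mul, ev_num, ev_tLab (f := mnI I) m7_10 (by omega)
        (by intro k hk; rw [f7 93 (by decide), a93 k hk]) hk]
      unfold uI
      push_cast; rfl
    rw [this]
    have := (lab_spec (f := mnI I) hk).1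
    unfold uI
    exact store_nat (by omega)
  have a12 : ∀ k < GG I, m9 12 k 0 0 = (vI I k : ℕ) := by
    intro k hk
    rw [hm9, exec_assign _ _ _ _ (by omega) hW0 hW0]
    have : eval W m8 (2 * tLab 94 + 1) (env k 0 0) = (vI I k : ℕ) := by
      rw [ev_add, ev_mul, ev_num, ev_one, ev_tLab (f := wnI I) (by rw [f8 10 (by decide), m7_10])
        (by omega) (by intro k hk; rw [f8 94 (by decide), a94 k hk]) hk]
      unfold vI
      push_cast; rfl
    rw [this]
    have := (lab_spec (f := wnI I) hk).1
    unfold vI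
    exact store_nat (by omega)
  refine ⟨?_, le_refl _⟩
  show P2 I m9
  refine ⟨?_, ?_, ?_, ?_, ?_, a12⟩
  · rw [f9 10 (by decide), f8 10 (by decide), m7_10]
  · rw [f9 91 (by decide), f8 91 (by decide), f7 91 (by decide), f6 91 (by decide),
      f5 91 (by decide), f4 91 (by decide), a91]
  · intro k hk
    rw [f9 93 (by decide), f8 93 (by decide), f7 93 (by decide), a93 k hk]
  · intro k hk
    rw [f9 94 (by decide), f8 94 (by decide), a94 k hk]
  · intro k hk
    rw [f9 11 (by decide), a11 k hk]

lemma big_of_size {W : ℕ} {I : SMI} (hW : (I.size + 2) ^ 64 ≤ W) : Big (GG I) W := by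
  unfold Big
  have h1 : GG I + 2 ≤ (I.size + 2) ^ 2 := by
    have := num_le I
    have : GG I ≤ I.size + 1 := by unfold GG; omega
    nlinarith
  have h2 : 2 ^ 50 ≤ (I.size + 2) ^ 50 := Nat.pow_le_pow_left (by omega) _
  calc 2 ^ 50 * (GG I + 2) ^ 7 ≤ (I.size + 2) ^ 50 * ((I.size + 2) ^ 2) ^ 7 :=
        Nat.mul_le_mul h2 (Nat.pow_le_pow_left h1 _)
    _ = (I.size + 2) ^ 64 := by rw [← pow_mul, ← pow_add]
    _ ≤ W := hW

lemma core_mods {r : ℕ} (h : r ∈ mods core) : r ≤ 71 := by
  simp only [mods, core, stA1, stA2, stB, body, stC, stD, levelP, fixP, Finset.mem_union,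
    Finset.mem_insert, Finset.mem_singleton] at h
  omega

theorem full_spec {W : ℕ} {I : SMI} (hI : I.Acyclic) (hW : (I.size + 2) ^ 64 ≤ W) :
    I.Stable (fun i j => i < I.nm ∧ exec W full I.encode 3 i 0 0 = (j : ℤ) + 1) ∧
    steps W full I.encode ≤ 2 * Nat.clog 2 (I.nm * I.nw + 1) + 20 +
      40000 * lg (GG I) ^ 3 * 2 ^ LL (GG I) := by
  have hW3 : (I.size + 2) ^ 3 ≤ W :=
    (Nat.pow_le_pow_right (by omega) (by norm_num)).trans hW
  have hnm := nm_le I
  have hnw := nw_le I
  have hnum := num_le I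
  have hexp : (I.size + 2) ^ 3 = I.size * I.size * I.size + 6 * (I.size * I.size) +
      12 * I.size + 8 := by ring
  have hsW : 3 * I.size + 7 < W := by nlinarith
  have hW0 : 0 < W := by omega
  have hW1 : 1 < W := by omega
  have hbig := big_of_size hW
  obtain ⟨p1, st1⟩ := pre1_spec hW
  have hT : I.nm * I.nw ≤ 2 ^ Nat.clog 2 (I.nm * I.nw + 1) := by
    have := Nat.le_pow_clog (b := 2) (by norm_num) (I.nm * I.nw + 1)
    omega
  obtain ⟨p2, st2⟩ := pre2_spec hI hW hT p1
  set m1 := exec W pre1 I.encode with hm1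
  set m2 := exec W pre2 m1 with hm2
  set m3 := exec W core m2 with hm3
  set m4 := exec W (.assign 3 tOut) m3 with hm4
  have hGpos : 0 < GG I := by unfold GG; omega
  have hNG : Topo.num (I.nm * I.nw) (AC I) ≤ GG I := by unfold GG; omega
  have hlt : ∀ k < GG I, uI I k < 2 * GG I ∧ vI I k < 2 * GG I := by
    intro k hk
    have h1 := (lab_spec (f := mnI I) hk).1
    have h2 := (lab_spec (f := wnI I) hk).1
    unfold uI vI
    omega
  have hne : ∀ j j', uI I j ≠ vI I j' := by
    intro j j'; unfold uI vI; omega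
  obtain ⟨h71, st3⟩ := core_spec hGpos hbig hne hlt p2.g p2.u p2.v
  have hu : ∀ j < Topo.num (I.nm * I.nw) (AC I), ∀ k < Topo.num (I.nm * I.nw) (AC I),
      (uI I j = uI I k ↔ mnI I j = mnI I k) := by
    intro j hj k hk
    rw [← lab_inj (f := mnI I) (show j < GG I by omega) (show k < GG I by omega)]
    unfold uI; omega
  have hv : ∀ j < Topo.num (I.nm * I.nw) (AC I), ∀ k < Topo.num (I.nm * I.nw) (AC I),
      (vI I j = vI I k ↔ wnI I j = wnI I k) := by
    intro j hj k hk
    rw [← lab_inj (f := wnI I) (show j < GG I by omega) (show k < GG I by omega)]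
    unfold vI; omega
  have hsort : Sorted I (Topo.num (I.nm * I.nw) (AC I)) (mnI I) (wnI I) := sorted_cells hI
  have hstab := MM_stable hsort hne hu hv
  have fr : ∀ r, r = 91 ∨ r = 93 ∨ r = 94 → m3 r = m2 r := by
    intro r hr
    refine exec_frame _ _ _ _ (fun h => ?_)
    have := core_mods h
    omega
  have h71' : ∀ k < GG I, m3 71 k 0 0 = iv (Mat (uI I) (vI I) k) := h71
  have hout : ∀ i < I.nm, m4 3 i 0 0 = ∑ k ∈ range (Topo.num (I.nm * I.nw) (AC I)),
      iv (Mat (uI I) (vI I) k) * (iv (mnI I k = i) * ((wnI I k : ℤ) + 1)) := by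
    intro i hi
    rw [hm4, exec_assign _ _ _ _ (by omega) hW0 hW0]
    have : eval W m3 tOut (env i 0 0) = ∑ k ∈ range (Topo.num (I.nm * I.nw) (AC I)),
      iv (Mat (uI I) (vI I) k) * (iv (mnI I k = i) * ((wnI I k : ℤ) + 1)) := by
      unfold tOut
      rw [eval_sumTo W m3 3 (g0 91) _ _ (Topo.num (I.nm * I.nw) (AC I)) (by omega)
        (by intro y; rw [ev_g0, fr 91 (by simp), p2.n])]
      refine Finset.sum_congr rfl fun k hk => ?_
      have hk' := Finset.mem_range.mp hk
      rw [ev_mul, ev_mul, ev_add, ev_one, eval_eqt, ev_g1, ev_g1, ev_g1, ev_var, ev_var,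
        Function.update_self, Function.update_of_ne (show (0:ℕ) ≠ 3 by decide), env0,
        Int.toNat_natCast, fr 93 (by simp), fr 94 (by simp), p2.mn k (by omega),
        p2.wn k (by omega), h71' k (by omega), iv_congr (Nat.cast_inj (R := ℤ))]
    rw [this]
    have hb := out_bound (v := vI I) hsort hu i
    apply store_of_lt
    rw [abs_of_nonneg hb.1]
    have : ((I.nw : ℕ) : ℤ) < W := by exact_mod_cast (show I.nw < W by omega)
    omega
  refine ⟨?_, ?_⟩
  · have heq : (fun i j : ℕ => i < I.nm ∧ exec W full I.encode 3 i 0 0 = (j : ℤ) + 1) =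
        MM (Topo.num (I.nm * I.nw) (AC I)) (mnI I) (wnI I) (uI I) (vI I) := by
      funext i j
      apply propext
      constructor
      · rintro ⟨hi, h⟩
        have h2 : m4 3 i 0 0 = (j : ℤ) + 1 := h
        rw [hout i hi] at h2
        exact (out_iff hsort hu i j).mp h2
      · intro h
        have hi : i < I.nm := (hstab.1.1 i j h).1
        refine ⟨hi, ?_⟩
        show m4 3 i 0 0 = (j : ℤ) + 1
        rw [hout i hi]
        exact (out_iff hsort hu i j).mpr h
    rw [heq]
    exact hstab
  · show steps W pre1 I.encode + (steps W pre2 m1 + (steps W core m2 + 1)) ≤ _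
    omega

end Full

end Pool.Agent.Helper91.SM
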