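import Pool.Agent.Helper91.SM.Net

/-!
Iteration of the inexact step and closeness to the exact network.
-/

namespace Pool.Agent.Helper91.SM.Net

open Finset

variable {V : Type*} [Fintype V] [DecidableEq V]

/-- closeness of the smoothed history to the exact one, at every cut -/
lemma closeness {m w : ℕ → V} {S0 : V → ℝ} {wt : ℕ → ℝ} {τ C1 : ℝ} {y y0 : ℕ → ℝ} {n : ℕ}
    (hmw : ∀ t < n, m t ≠ w t) (hwt : ∀ t < n, 1 ≤ wt t) (hτ : 0 < τ)
    (hC1 : ∀ t < n, ff m w S0 wt τ y t + |dd m w S0 wt τ y t| + 1 ≤ C1)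
    (hy0 : ∀ t < n, y0 t = (|zz m w S0 y0 t| - zz m w S0 y0 t) / 2)
    (hz0 : ∀ t < n, |zz m w S0 y0 t| ≤ 1) :
    ∀ k ≤ n, ∑ v, (St m w S0 y k v - St m w S0 y0 k v) ^ 2 ≤
      2 * (τ ^ 2 * ∑ t ∈ range n, wt t) + 2 * (C1 * Dtot m w S0 wt τ y n) := by
  intro k hk
  have hE := energy m w n hmw (fun t v => St m w S0 y t v - St m w S0 y0 t v)
    (fun t => y t - y0 t)
    (by
      intro t _ v
      simp only [St]
      ring) k hk
  have h00 : ∀ v, St m w S0 y 0 v - St m w S0 y0 0 v = 0 := by intro v; simp [St]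
  simp only [h00] at hE
  have hz : (∑ v : V, (0:ℝ) ^ 2) = 0 := by simp
  rw [hz, zero_add] at hE
  rw [hE]
  have hterm : ∀ t ∈ range k, (y t - y0 t) *
      ((St m w S0 y t (m t) - St m w S0 y0 t (m t)) -
        (St m w S0 y t (w t) - St m w S0 y0 t (w t)) + (y t - y0 t)) ≤
      τ ^ 2 * wt t + C1 * |dd m w S0 wt τ y t| := by
    intro t ht
    have ht' : t < n := lt_of_lt_of_le (Finset.mem_range.mp ht) hk
    have e3 := sf_sq (τ := τ) (wt := wt t) (z := zz m w S0 y t) (hwt t ht')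
    have hC := hC1 t ht'
    have hfa := sf_abs (τ := τ) (wt := wt t) (z := zz m w S0 y t) (hwt t ht')
    have ed : dd m w S0 wt τ y t = y t - (ff m w S0 wt τ y t - zz m w S0 y t) / 2 := rfl
    have hy := hy0 t ht'
    have hz1 := hz0 t ht'
    have ez : zz m w S0 y t = St m w S0 y t (m t) - St m w S0 y t (w t) := rfl
    have ez0 : zz m w S0 y0 t = St m w S0 y0 t (m t) - St m w S0 y0 t (w t) := rfl
    have hff : ff m w S0 wt τ y t = sf τ (wt t) (zz m w S0 y t) := rfl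
    rw [← hff] at e3 hfa
    set f := ff m w S0 wt τ y t
    set z := zz m w S0 y t
    set d := dd m w S0 wt τ y t
    set z0 := zz m w S0 y0 t
    have e4 : (St m w S0 y t (m t) - St m w S0 y0 t (m t)) -
        (St m w S0 y t (w t) - St m w S0 y0 t (w t)) = z - z0 := by rw [ez, ez0]; ring
    rw [e4]
    have ey : y t = (f - z) / 2 + d := by rw [ed]; ring
    rw [ey, hy]
    have hid : ((f - z) / 2 + d - (|z0| - z0) / 2) *
        (z - z0 + ((f - z) / 2 + d - (|z0| - z0) / 2)) =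
        (f ^ 2 - z ^ 2) / 4 - (f - z) * ((|z0| + z0) / 4) - (f + z) * ((|z0| - z0) / 4)
          + (|z0| ^ 2 - z0 ^ 2) / 4 + d * (f - |z0|) + d ^ 2 := by ring
    rw [hid, e3, sq_abs]
    have hza := abs_le.mp hfa
    have hz0a : -|z0| ≤ z0 := neg_abs_le z0
    have hz0b : z0 ≤ |z0| := le_abs_self z0
    have p1 : 0 ≤ (f - z) * ((|z0| + z0) / 4) := mul_nonneg (by linarith [hza.2]) (by linarith)
    have p2 : 0 ≤ (f + z) * ((|z0| - z0) / 4) := mul_nonneg (by linarith [hza.1]) (by linarith)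
    have hf0 : 0 ≤ f := le_trans (abs_nonneg _) hfa
    have p3 : d * (f - |z0|) + d ^ 2 ≤ C1 * |d| := by
      have q1 : d * (f - |z0|) ≤ |d| * (f + 1) := by
        calc d * (f - |z0|) ≤ |d * (f - |z0|)| := le_abs_self _
          _ = |d| * |(f - |z0| : ℝ)| := abs_mul _ _
          _ ≤ |d| * (f + 1) := by
            apply mul_le_mul_of_nonneg_left _ (abs_nonneg _)
            rw [abs_le]
            constructor <;> linarith [abs_nonneg z0]
      have q2 : d ^ 2 = |d| * |d| := by rw [abs_mul_abs_self]; ring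
      have q3 : |d| * (f + |d| + 1) ≤ |d| * C1 := mul_le_mul_of_nonneg_left hC (abs_nonneg _)
      nlinarith
    linarith
  have hs := Finset.sum_le_sum hterm
  have hC0 : 0 ≤ ∑ t ∈ range k, C1 * |dd m w S0 wt τ y t| := by
    refine Finset.sum_nonneg fun t ht => ?_
    have ht' : t < n := lt_of_lt_of_le (Finset.mem_range.mp ht) hk
    have := hC1 t ht'
    have : 0 ≤ C1 := by
      have h1 : 0 ≤ ff m w S0 wt τ y t := sf_nonneg _ _ _
      have h2 := abs_nonneg (dd m w S0 wt τ y t)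
      linarith
    positivity
  have hmono : ∑ t ∈ range k, (τ ^ 2 * wt t + C1 * |dd m w S0 wt τ y t|) ≤
      ∑ t ∈ range n, (τ ^ 2 * wt t + C1 * |dd m w S0 wt τ y t|) := by
    refine Finset.sum_le_sum_of_subset_of_nonneg (Finset.range_mono hk) ?_
    intro t ht _
    have ht' := Finset.mem_range.mp ht
    have := hC1 t ht'
    have h1 : 0 ≤ ff m w S0 wt τ y t := sf_nonneg _ _ _
    have h2 := abs_nonneg (dd m w S0 wt τ y t)
    have h3 := hwt t ht'
    have : 0 ≤ C1 := by linarith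
    positivity
  have e5 : ∑ t ∈ range n, (τ ^ 2 * wt t + C1 * |dd m w S0 wt τ y t|) =
      τ ^ 2 * ∑ t ∈ range n, wt t + C1 * Dtot m w S0 wt τ y n := by
    rw [Finset.sum_add_distrib, ← Finset.mul_sum, ← Finset.mul_sum]
    rfl
  rw [e5] at hmono
  linarith

/-- the real recursion -/
lemma recur {N : ℕ} {D τ lam : ℕ → ℝ} {M W C1 E0 τf : ℝ}
    (hD0 : D 0 = 0) (hDn : ∀ k ≤ N, 0 ≤ D k)
    (hτs : ∀ k < N, τ (k + 1) = (1 - lam k) * τ k)
    (hlam : ∀ k < N, 0 < lam k ∧ lam k < 1 ∧ lam k / (1 - lam k) ≤ M)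
    (hτf : 0 < τf) (hτ : ∀ k ≤ N, τf ≤ τ k) (hW : 0 ≤ W) (hC1 : 0 ≤ C1) (hE0 : 0 ≤ E0)
    (hD : ∀ k < N, D (k + 1) ≤ (1 - lam k) * (D k + (lam k / (1 - lam k)) ^ 2 / τ k *
      (τ k ^ 2 * W + C1 * D k)) + E0) :
    ∀ k ≤ N, D k / τ k ≤ k * (M ^ 2 * W + E0 / τf) * (1 + M ^ 2 * C1 / τf) ^ k := by
  intro k
  induction k with
  | zero => intro _; simp [hD0]
  | succ k ih =>
    intro hk
    have ih' := ih (by omega)
    obtain ⟨hl0, hl1, hlM⟩ := hlam k (by omega)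
    have hc : 0 < 1 - lam k := by linarith
    have hτk : 0 < τ k := lt_of_lt_of_le hτf (hτ k (by omega))
    have hτk1 : 0 < τ (k + 1) := lt_of_lt_of_le hτf (hτ (k + 1) hk)
    have hM0 : 0 ≤ lam k / (1 - lam k) := by positivity
    have hM2 : (lam k / (1 - lam k)) ^ 2 ≤ M ^ 2 := by gcongr
    have hDk := hDn k (by omega)
    set x := M ^ 2 * C1 / τf with hx
    set B := M ^ 2 * W + E0 / τf with hB
    have hx0 : 0 ≤ x := by positivity
    have hB0 : 0 ≤ B := by positivity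
    have h1 : D (k + 1) / τ (k + 1) ≤ D k / τ k * (1 + x) + B := by
      have e1 : D (k + 1) / τ (k + 1) ≤ ((1 - lam k) * (D k + (lam k / (1 - lam k)) ^ 2 / τ k *
          (τ k ^ 2 * W + C1 * D k)) + E0) / τ (k + 1) := by
        gcongr
        exact hD k (by omega)
      have e2 : ((1 - lam k) * (D k + (lam k / (1 - lam k)) ^ 2 / τ k *
          (τ k ^ 2 * W + C1 * D k)) + E0) / τ (k + 1) =
          D k / τ k + (lam k / (1 - lam k)) ^ 2 * (W + C1 / τ k * (D k / τ k)) +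
            E0 / τ (k + 1) := by
        rw [add_div, hτs k (by omega)]
        have : (1 - lam k) ≠ 0 := hc.ne'
        have : τ k ≠ 0 := hτk.ne'
        congr 1
        field_simp
      have e3 : (lam k / (1 - lam k)) ^ 2 * (W + C1 / τ k * (D k / τ k)) ≤
          M ^ 2 * (W + C1 / τf * (D k / τ k)) := by
        have : C1 / τ k ≤ C1 / τf := by
          apply div_le_div_of_nonneg_left hC1 hτf (hτ k (by omega))
        gcongr
      have e4 : E0 / τ (k + 1) ≤ E0 / τf :=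
        div_le_div_of_nonneg_left hE0 hτf (hτ (k + 1) hk)
      have e5 : M ^ 2 * (W + C1 / τf * (D k / τ k)) = M ^ 2 * W + x * (D k / τ k) := by
        rw [hx]; ring
      rw [e2] at e1
      rw [hB]
      linarith
    have h2 : D k / τ k * (1 + x) ≤ k * B * (1 + x) ^ k * (1 + x) := by gcongr
    have h3 : B ≤ B * (1 + x) ^ (k + 1) := by
      have : (1:ℝ) ≤ (1 + x) ^ (k + 1) := one_le_pow₀ (by linarith)
      nlinarith
    have h4 : ((k + 1 : ℕ) : ℝ) * B * (1 + x) ^ (k + 1) =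
        k * B * (1 + x) ^ k * (1 + x) + B * (1 + x) ^ (k + 1) := by
      push_cast; ring
    rw [h4]
    linarith

/-- sup bound of one step -/
lemma sup_step {m w : ℕ → V} {S0 : V → ℝ} {lam e Bd : ℝ} {y y' a : ℕ → ℝ} {n : ℕ}
    (hmw : ∀ t < n, m t ≠ w t) (ha : ∀ t < n, 0 ≤ a t ∧ a t ≤ 1)
    (h0 : ∀ v, 0 ≤ S0 v ∧ S0 v ≤ 1) (hl0 : 0 ≤ lam) (hl1 : lam ≤ 1) (he : 0 ≤ e)
    (hB1 : 1 ≤ Bd) (hB : ∀ t ≤ n, ∀ v, |St m w S0 y t v| ≤ Bd)
    (hy : ∀ t < n, |y' t - ((1 - lam) * y t + lam * xi m w S0 a t)| ≤ e) :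
    ∀ t ≤ n, ∀ v, |St m w S0 y' t v| ≤ Bd + n * e := by
  intro t ht v
  have hd := St_bound_diff (m := m) (w := w) (S0 := S0) (y := y')
    (y' := fun i => (1 - lam) * y i + lam * xi m w S0 a i) (e := e) (n := n) he hy t ht v
  rw [St_lin] at hd
  have hh := Hs_mem hmw ha h0 t ht v
  have hs := hB t ht v
  have h1 : |(1 - lam) * St m w S0 y t v + lam * Hs m w S0 a t v| ≤ Bd := by
    refine (abs_add_le _ _).trans ?_
    rw [abs_mul, abs_mul, abs_of_nonneg hl0, abs_of_nonneg (by linarith : (0:ℝ) ≤ 1 - lam),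
      abs_of_nonneg hh.1]
    have a1 : (1 - lam) * |St m w S0 y t v| ≤ (1 - lam) * Bd :=
      mul_le_mul_of_nonneg_left hs (by linarith)
    have a2 : lam * Hs m w S0 a t v ≤ lam * Bd :=
      mul_le_mul_of_nonneg_left (by linarith [hh.2]) hl0
    linarith
  have h2 : (t : ℝ) * e ≤ n * e := by
    have : (t : ℝ) ≤ n := by exact_mod_cast ht
    gcongr
  have h3 := abs_sub_abs_le_abs_sub (St m w S0 y' t v)
    ((1 - lam) * St m w S0 y t v + lam * Hs m w S0 a t v)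
  linarith

/-- bound of the constant C1 from a sup bound -/
lemma const_bound {m w : ℕ → V} {S0 : V → ℝ} {wt : ℕ → ℝ} {τ : ℝ} {y : ℕ → ℝ} {n : ℕ}
    (hmw : ∀ t < n, m t ≠ w t) (hwt : ∀ t < n, 1 ≤ wt t ∧ wt t ≤ 18) (hτ : 0 < τ) (hτ1 : τ ≤ 1)
    (hB : ∀ t ≤ n, ∀ v, |St m w S0 y t v| ≤ 7) :
    ∀ t < n, ff m w S0 wt τ y t + |dd m w S0 wt τ y t| + 1 ≤ 64 := by
  intro t ht
  have h1 := abs_le.mp (hB t (by omega) (m t))
  have h2 := abs_le.mp (hB t (by omega) (w t))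
  have h3 := abs_le.mp (hB (t + 1) (by omega) (m t))
  have hy : St m w S0 y (t + 1) (m t) = St m w S0 y t (m t) + y t := by
    simp [St, dip, hmw t ht]
  have hya : |y t| ≤ 14 := by
    rw [abs_le]; constructor <;> linarith
  have hz : |zz m w S0 y t| ≤ 14 := by
    unfold zz
    rw [abs_le]; constructor <;> linarith
  have hf : ff m w S0 wt τ y t ≤ 23 := by
    unfold ff sf
    apply Real.sqrt_le_iff.mpr
    refine ⟨by norm_num, ?_⟩
    have e1 : zz m w S0 y t ^ 2 ≤ 14 ^ 2 := sq_le_sq' (abs_le.mp hz).1 (abs_le.mp hz).2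
    have e2 : τ ^ 2 * wt t ≤ 1 * 18 := by
      apply mul_le_mul _ (hwt t ht).2 (by linarith [(hwt t ht).1]) (by norm_num)
      nlinarith
    nlinarith
  have hf0 : 0 ≤ ff m w S0 wt τ y t := sf_nonneg _ _ _
  have hd : |dd m w S0 wt τ y t| ≤ 33 := by
    unfold dd
    rw [abs_le] at *
    constructor <;> linarith [hya.1, hya.2, hz.1, hz.2]
  linarith

/-- the whole iteration -/
theorem ipm {m w : ℕ → V} {S0 : V → ℝ} {wt : ℕ → ℝ} {n N : ℕ} {Y : ℕ → ℕ → ℝ}
    {τ lam : ℕ → ℝ} {M τf e : ℝ}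
    (hmw : ∀ t < n, m t ≠ w t) (hwt : ∀ t < n, 1 ≤ wt t ∧ wt t ≤ 18)
    (h0 : ∀ v, 0 ≤ S0 v ∧ S0 v ≤ 1)
    (hτ0 : τ 0 = 1) (hτs : ∀ k < N, τ (k + 1) = (1 - lam k) * τ k)
    (hlam : ∀ k < N, 0 < lam k ∧ lam k < 1 ∧ lam k / (1 - lam k) ≤ M)
    (hτf : 0 < τf) (hτ : ∀ k ≤ N, τf ≤ τ k) (hM : M ≤ τf) (he : 0 ≤ e)
    (hNe : (N : ℝ) * (n * e) ≤ 1)
    (hB0 : ∀ t ≤ n, ∀ v, |St m w S0 (Y 0) t v| ≤ 6)
    (hd0 : ∀ t < n, dd m w S0 wt 1 (Y 0) t = 0)
    (hY : ∀ k < N, ∀ t < n, |Y (k + 1) t - ((1 - lam k) * Y k t +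
      lam k * xi m w S0 (al m w S0 wt (τ k) (Y k)) t)| ≤ e) :
    (∀ t < n, ff m w S0 wt (τ N) (Y N) t + |dd m w S0 wt (τ N) (Y N) t| + 1 ≤ 64) ∧
    Dtot m w S0 wt (τ N) (Y N) n ≤ τ N * (N * (M ^ 2 * (∑ t ∈ range n, wt t) +
      n * ((1 + 2 * n) * e) / τf) * (1 + M ^ 2 * 64 / τf) ^ N) := by
  have hτpos : ∀ k ≤ N, 0 < τ k := fun k hk => lt_of_lt_of_le hτf (hτ k hk)
  have hτ1 : ∀ k ≤ N, τ k ≤ 1 := by
    intro k
    induction k with
    | zero => intro _; rw [hτ0]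
    | succ k ih =>
      intro hk
      rw [hτs k (by omega)]
      have h1 := ih (by omega)
      have h2 := hlam k (by omega)
      have h3 := hτpos k (by omega)
      nlinarith
  have hal : ∀ k ≤ N, ∀ t < n, 0 ≤ al m w S0 wt (τ k) (Y k) t ∧
      al m w S0 wt (τ k) (Y k) t ≤ 1 := fun k hk t ht =>
    slope_mem (hwt t ht).1 (hτpos k hk)
  have hBk : ∀ k ≤ N, ∀ t ≤ n, ∀ v, |St m w S0 (Y k) t v| ≤ 6 + k * (n * e) := by
    intro k
    induction k with
    | zero => intro _ t ht v; simpa using hB0 t ht v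
    | succ k ih =>
      intro hk t ht v
      have h1 := ih (by omega)
      have h2 := hlam k (by omega)
      have hk0 : (0:ℝ) ≤ k * (n * e) := by positivity
      have := sup_step hmw (hal k (by omega)) h0 h2.1.le h2.2.1.le he (by linarith) h1
        (hY k (by omega)) t ht v
      push_cast
      linarith
  have hB7 : ∀ k ≤ N, ∀ t ≤ n, ∀ v, |St m w S0 (Y k) t v| ≤ 7 := by
    intro k hk t ht v
    have h1 := hBk k hk t ht v
    have h2 : (k : ℝ) * (n * e) ≤ N * (n * e) := by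
      have : (k : ℝ) ≤ N := by exact_mod_cast hk
      have : 0 ≤ (n : ℝ) * e := by positivity
      gcongr
    linarith
  have hC : ∀ k ≤ N, ∀ t < n, ff m w S0 wt (τ k) (Y k) t +
      |dd m w S0 wt (τ k) (Y k) t| + 1 ≤ 64 := fun k hk =>
    const_bound hmw hwt (hτpos k hk) (hτ1 k hk) (hB7 k hk)
  refine ⟨hC N le_rfl, ?_⟩
  have hrec := recur (N := N) (D := fun k => Dtot m w S0 wt (τ k) (Y k) n) (τ := τ) (lam := lam)
    (M := M) (W := ∑ t ∈ range n, wt t) (C1 := 64) (E0 := n * ((1 + 2 * n) * e)) (τf := τf)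
    (by
      simp only [Dtot, hτ0]
      exact Finset.sum_eq_zero fun t ht => by rw [hd0 t (Finset.mem_range.mp ht), abs_zero])
    (fun k _ => Dtot_nonneg _ _ _ _ _ _ _) hτs hlam hτf hτ
    (Finset.sum_nonneg fun t ht => by
      have := (hwt t (Finset.mem_range.mp ht)).1
      linarith)
    (by norm_num) (by positivity)
    (by
      intro k hk
      have hst := step (m := m) (w := w) (S0 := S0) (wt := wt) (τ := τ k) (lam := lam k) (e := e)
        (C1 := 64) (y := Y k) (y' := Y (k + 1)) (n := n) hmw (fun t ht => (hwt t ht).1)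
        (hτpos k hk.le) h0 (hlam k hk).1 (hlam k hk).2.1
        ((hlam k hk).2.2.trans (hM.trans (hτ k hk.le))) he (hC k hk.le) (hY k hk)
      simp only [hτs k hk]
      exact hst) N le_rfl
  have hτN := hτpos N le_rfl
  rw [div_le_iff₀ hτN] at hrec
  linarith

end Pool.Agent.Helper91.SM.Net
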