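import Pool.Agent.Helper91.SM.Greedy
import Pool.Agent.Helper91.SM.Ipm

/-!
The network with short wires attached to a sequence of edges.
Persons of block `k`: `6k` (copy of the man), `6k+1` (copy of the woman), `6k+2` (auxiliary
woman), `6k+3` (auxiliary man), `6k+4`, `6k+5` (dummies).
-/

namespace Pool.Agent.Helper91.SM.Gadget

open Finset Pool.Agent.Helper91.SM.Greedy

/-- one plus the last `j < k` with `p j`, or zero -/
def last (p : ℕ → Bool) : ℕ → ℕ
  | 0 => 0
  | k + 1 => if p k then k + 1 else last p k

lemma last_le (p : ℕ → Bool) (k : ℕ) : last p k ≤ k := by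
  induction k with
  | zero => exact le_rfl
  | succ k ih => unfold last; split_ifs <;> omega

lemma last_pos {p : ℕ → Bool} {k : ℕ} (h : last p k ≠ 0) : p (last p k - 1) = true := by
  induction k with
  | zero => exact absurd rfl h
  | succ k ih =>
    unfold last at h ⊢
    split_ifs with h1
    · simpa using h1
    · exact ih (by simpa [h1] using h)

lemma last_max {p : ℕ → Bool} {k j : ℕ} (h1 : last p k ≤ j) (h2 : j < k) : p j = false := by
  induction k with
  | zero => omega
  | succ k ih =>
    unfold last at h1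
    split_ifs at h1 with h3
    · omega
    · by_cases h4 : j = k
      · subst h4; simpa using h3
      · exact ih h1 (by omega)

lemma last_eq_zero {p : ℕ → Bool} {k : ℕ} (h : ∀ j < k, p j = false) : last p k = 0 := by
  induction k with
  | zero => rfl
  | succ k ih =>
    unfold last
    rw [if_neg (by simp [h k (by omega)])]
    exact ih (fun j hj => h j (by omega))

lemma last_eq {p : ℕ → Bool} {k j : ℕ} (hj : j < k) (h1 : p j = true)
    (h2 : ∀ i, j < i → i < k → p i = false) : last p k = j + 1 := by
  induction k with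
  | zero => omega
  | succ k ih =>
    unfold last
    by_cases h3 : j = k
    · subst h3; simp [h1]
    · rw [if_neg (by simp [h2 k (by omega) (by omega)])]
      exact ih (by omega) (fun i a b => h2 i a (by omega))

/-- previous edge with the same first / second end -/
def lu (u : ℕ → ℕ) (k : ℕ) : ℕ := last (fun j => decide (u j = u k)) k

/-- first ends of the gates of block `k` -/
def gmB (v : ℕ → ℕ) (k i : ℕ) : ℕ :=
  if i = 1 then (if lu v k = 0 then 6 * k + 5 else 6 * (lu v k - 1) + 3)
  else if i = 4 then 6 * k + 3 else 6 * k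

/-- second ends of the gates of block `k` -/
def gwB (u : ℕ → ℕ) (k i : ℕ) : ℕ :=
  if i = 0 then (if lu u k = 0 then 6 * k + 4 else 6 * (lu u k - 1) + 2)
  else if i = 3 then 6 * k + 2 else 6 * k + 1

def gm (v : ℕ → ℕ) (g : ℕ) : ℕ := gmB v (g / 5) (g % 5)
def gw (u : ℕ → ℕ) (g : ℕ) : ℕ := gwB u (g / 5) (g % 5)

/-- initial values -/
def s0 (x : ℕ) : Bool := decide (x % 6 = 1) || decide (x % 6 = 2) || decide (x % 6 = 5)

lemma lu_le (u : ℕ → ℕ) (k : ℕ) : lu u k ≤ k := last_le _ _

lemma gmB_lt {v : ℕ → ℕ} {k i G : ℕ} (hk : k < G) : gmB v k i < 6 * G := by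
  have := lu_le v k
  unfold gmB
  split_ifs <;> omega

lemma gwB_lt {u : ℕ → ℕ} {k i G : ℕ} (hk : k < G) : gwB u k i < 6 * G := by
  have := lu_le u k
  unfold gwB
  split_ifs <;> omega

lemma gm_lt {v : ℕ → ℕ} {g G : ℕ} (hg : g < 5 * G) : gm v g < 6 * G := gmB_lt (by omega)
lemma gw_lt {u : ℕ → ℕ} {g G : ℕ} (hg : g < 5 * G) : gw u g < 6 * G := gwB_lt (by omega)

lemma gmB_ne_gwB {u v : ℕ → ℕ} {k i : ℕ} : gmB v k i ≠ gwB u k i := by
  have := lu_le v k
  have := lu_le u k
  unfold gmB gwB
  split_ifs <;> omega

lemma gm_ne_gw (u v : ℕ → ℕ) (g : ℕ) : gm v g ≠ gw u g := gmB_ne_gwB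

lemma gm5 (v : ℕ → ℕ) (k i : ℕ) (hi : i < 5) : gm v (5 * k + i) = gmB v k i := by
  unfold gm
  congr 1 <;> omega

lemma gw5 (u : ℕ → ℕ) (k i : ℕ) (hi : i < 5) : gw u (5 * k + i) = gwB u k i := by
  unfold gw
  congr 1 <;> omega

/-- evolution with natural labels -/
def SN (u v : ℕ → ℕ) (y : ℕ → ℝ) : ℕ → ℕ → ℝ
  | 0 => fun x => if s0 x then 1 else 0
  | g + 1 => fun x => SN u v y g x +
      y g * ((if x = gm v g then 1 else 0) - (if x = gw u g then 1 else 0))

lemma SN_succ (u v : ℕ → ℕ) (y : ℕ → ℝ) (g x : ℕ) : SN u v y (g + 1) x = SN u v y g x +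
      y g * ((if x = gm v g then 1 else 0) - (if x = gw u g then 1 else 0)) := rfl

/-- exact Boolean evolution -/
def ex (u v : ℕ → ℕ) : ℕ → ℕ → Bool
  | 0 => s0
  | g + 1 => fun x => if x = gm v g then ex u v g (gm v g) || ex u v g (gw u g)
      else if x = gw u g then ex u v g (gm v g) && ex u v g (gw u g) else ex u v g x

lemma ex_succ (u v : ℕ → ℕ) (g x : ℕ) : ex u v (g + 1) x =
    if x = gm v g then ex u v g (gm v g) || ex u v g (gw u g)
      else if x = gw u g then ex u v g (gm v g) && ex u v g (gw u g) else ex u v g x := rfl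

lemma ex_untouched {u v : ℕ → ℕ} {g x : ℕ} (h1 : gm v g ≠ x) (h2 : gw u g ≠ x) :
    ex u v (g + 1) x = ex u v g x := by
  rw [ex_succ, if_neg h1.symm, if_neg h2.symm]

lemma SN_untouched {u v : ℕ → ℕ} {y : ℕ → ℝ} {g x : ℕ} (h1 : gm v g ≠ x) (h2 : gw u g ≠ x) :
    SN u v y (g + 1) x = SN u v y g x := by
  rw [SN_succ, if_neg h1.symm, if_neg h2.symm]; ring

/-- touched persons of a block -/
def touched (u v : ℕ → ℕ) (k x : ℕ) : Prop :=
  (6 * k ≤ x ∧ x < 6 * k + 6) ∨ (lu u k ≠ 0 ∧ x = 6 * (lu u k - 1) + 2) ∨
    (lu v k ≠ 0 ∧ x = 6 * (lu v k - 1) + 3)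

lemma not_touched {u v : ℕ → ℕ} {k x i : ℕ} (h : ¬ touched u v k x) :
    gmB v k i ≠ x ∧ gwB u k i ≠ x := by
  unfold touched at h
  push Not at h
  obtain ⟨h1, h2, h3⟩ := h
  unfold gmB gwB
  constructor
  · split_ifs with a b c
    · intro hx; have := h1 (by omega); omega
    · intro hx; exact h3 b hx.symm
    · intro hx; have := h1 (by omega); omega
    · intro hx; have := h1 (by omega); omega
  · split_ifs with a b c
    · intro hx; have := h1 (by omega); omega
    · intro hx; exact h2 b hx.symm
    · intro hx; have := h1 (by omega); omega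
    · intro hx; have := h1 (by omega); omega

lemma ex_block_untouched {u v : ℕ → ℕ} {k x : ℕ} (h : ¬ touched u v k x) (i : ℕ) (hi : i ≤ 5) :
    ex u v (5 * k + i) x = ex u v (5 * k) x := by
  induction i with
  | zero => rfl
  | succ i ih =>
    rw [← Nat.add_assoc, ex_untouched, ih (by omega)]
    · rw [gm5 _ _ _ (by omega)]; exact (not_touched h).1
    · rw [gw5 _ _ _ (by omega)]; exact (not_touched h).2

lemma SN_block_untouched {u v : ℕ → ℕ} {y : ℕ → ℝ} {k x : ℕ} (h : ¬ touched u v k x) (i : ℕ)
    (hi : i ≤ 5) : SN u v y (5 * k + i) x = SN u v y (5 * k) x := by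
  induction i with
  | zero => rfl
  | succ i ih =>
    rw [← Nat.add_assoc, SN_untouched, ih (by omega)]
    · rw [gm5 _ _ _ (by omega)]; exact (not_touched h).1
    · rw [gw5 _ _ _ (by omega)]; exact (not_touched h).2

/-- the exact state at the block boundaries -/
lemma ex_inv {u v : ℕ → ℕ} (huv : ∀ j j', u j ≠ v j') (k : ℕ) :
    (∀ x, 6 * k ≤ x → ex u v (5 * k) x = s0 x) ∧
    (∀ j < k, (∀ j', j < j' → j' < k → u j' ≠ u j) →
      ex u v (5 * k) (6 * j + 2) = run u v (fun _ => false) 0 k (u j)) ∧
    (∀ j < k, (∀ j', j < j' → j' < k → v j' ≠ v j) →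
      ex u v (5 * k) (6 * j + 3) = !(run u v (fun _ => false) 0 k (v j))) := by
  induction k with
  | zero =>
    refine ⟨fun x _ => rfl, fun j hj => by omega, fun j hj => by omega⟩
  | succ k ih =>
    obtain ⟨ih1, ih2, ih3⟩ := ih
    set o := run u v (fun _ => false) 0 k with ho
    have ho1 : ∀ x, run u v (fun _ => false) 0 (k + 1) x = gstep (u k) (v k) o x := by
      intro x
      show gstep (u (0 + k)) (v (0 + k)) o x = _
      rw [Nat.zero_add]
    have h5 : 5 * (k + 1) = 5 * k + 4 + 1 := by ring
    -- values in the block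
    have a0 : ex u v (5 * k) (6 * k) = false := by
      rw [ih1 _ le_rfl]; simp [s0, Nat.mul_mod_right]
    have mk : ∀ i, i < 6 → (6 * k + i) % 6 = i := by intro i hi; omega
    have a1 : ex u v (5 * k) (6 * k + 1) = true := by
      rw [ih1 _ (by omega)]; simp [s0, mk 1 (by omega)]
    have a2 : ex u v (5 * k) (6 * k + 2) = true := by
      rw [ih1 _ (by omega)]; simp [s0, mk 2 (by omega)]
    have a3 : ex u v (5 * k) (6 * k + 3) = false := by
      rw [ih1 _ (by omega)]; simp [s0, mk 3 (by omega)]
    have a4 : ex u v (5 * k) (6 * k + 4) = false := by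
      rw [ih1 _ (by omega)]; simp [s0, mk 4 (by omega)]
    have a5 : ex u v (5 * k) (6 * k + 5) = true := by
      rw [ih1 _ (by omega)]; simp [s0, mk 5 (by omega)]
    have hu0 : ex u v (5 * k) (gwB u k 0) = o (u k) := by
      unfold gwB
      rw [if_pos rfl]
      by_cases h : lu u k = 0
      · rw [if_pos h, a4]
        symm
        rw [ho]
        apply run_untouched
        intro j _ hj
        refine ⟨?_, fun h' => huv k j h'.symm⟩
        intro h'
        have := last_max (p := fun i => decide (u i = u k)) (k := k) (j := j)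
          (by unfold lu at h; omega) (by omega)
        simp [h'] at this
      · rw [if_neg h]
        have h1 := last_pos (p := fun i => decide (u i = u k)) (k := k) h
        have h2 := lu_le u k
        have h1' : u (lu u k - 1) = u k := by simpa [lu] using h1
        rw [ih2 (lu u k - 1) (by omega), h1']
        intro j' hj1 hj2 h'
        have := last_max (p := fun i => decide (u i = u k)) (k := k) (j := j')
          (by unfold lu at hj1 h; omega) hj2
        rw [h1'] at h'
        simp [h'] at this
    have hv0 : ex u v (5 * k) (gmB v k 1) = !(o (v k)) := by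
      unfold gmB
      rw [if_pos rfl]
      by_cases h : lu v k = 0
      · rw [if_pos h, a5]
        have : o (v k) = false := by
          rw [ho]
          apply run_untouched
          intro j _ hj
          refine ⟨fun h' => huv j k h', ?_⟩
          intro h'
          have := last_max (p := fun i => decide (v i = v k)) (k := k) (j := j)
            (by unfold lu at h; omega) (by omega)
          simp [h'] at this
        rw [this]; rfl
      · rw [if_neg h]
        have h1 := last_pos (p := fun i => decide (v i = v k)) (k := k) h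
        have h2 := lu_le v k
        have h1' : v (lu v k - 1) = v k := by simpa [lu] using h1
        rw [ih3 (lu v k - 1) (by omega), h1']
        intro j' hj1 hj2 h'
        have := last_max (p := fun i => decide (v i = v k)) (k := k) (j := j')
          (by unfold lu at hj1 h; omega) hj2
        rw [h1'] at h'
        simp [h'] at this
    have hluu := lu_le u k
    have hluv := lu_le v k
    have g0m : gm v (5 * k) = 6 * k := by
      have := gm5 v k 0 (by omega); rw [Nat.add_zero] at this; rw [this]; simp [gmB]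
    have g0w : gw u (5 * k) = gwB u k 0 := by
      have := gw5 u k 0 (by omega); rw [Nat.add_zero] at this; rw [this]
    have g1m : gm v (5 * k + 1) = gmB v k 1 := gm5 v k 1 (by omega)
    have g1w : gw u (5 * k + 1) = 6 * k + 1 := by rw [gw5 u k 1 (by omega)]; simp [gwB]
    have g2m : gm v (5 * k + 2) = 6 * k := by rw [gm5 v k 2 (by omega)]; simp [gmB]
    have g2w : gw u (5 * k + 2) = 6 * k + 1 := by rw [gw5 u k 2 (by omega)]; simp [gwB]
    have g3m : gm v (5 * k + 3) = 6 * k := by rw [gm5 v k 3 (by omega)]; simp [gmB]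
    have g3w : gw u (5 * k + 3) = 6 * k + 2 := by rw [gw5 u k 3 (by omega)]; simp [gwB]
    have g4m : gm v (5 * k + 4) = 6 * k + 3 := by rw [gm5 v k 4 (by omega)]; simp [gmB]
    have g4w : gw u (5 * k + 4) = 6 * k + 1 := by rw [gw5 u k 4 (by omega)]; simp [gwB]
    have hw0ne : gwB u k 0 ≠ 6 * k ∧ gwB u k 0 ≠ 6 * k + 1 ∧ gwB u k 0 ≠ 6 * k + 2 ∧
        gwB u k 0 ≠ 6 * k + 3 ∧ gwB u k 0 ≠ gmB v k 1 := by
      unfold gwB gmB
      refine ⟨?_, ?_, ?_, ?_, ?_⟩ <;> split_ifs <;> omega
    have hm1ne : gmB v k 1 ≠ 6 * k ∧ gmB v k 1 ≠ 6 * k + 1 ∧ gmB v k 1 ≠ 6 * k + 2 ∧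
        gmB v k 1 ≠ 6 * k + 3 := by
      unfold gmB
      refine ⟨?_, ?_, ?_, ?_⟩ <;> split_ifs <;> omega
    obtain ⟨w1, w2, w3, w4, w5⟩ := hw0ne
    obtain ⟨n1, n2, n3, n4⟩ := hm1ne
    -- after gate 0
    have b0 : ex u v (5 * k + 1) (6 * k) = o (u k) := by
      rw [ex_succ, g0m, if_pos rfl, a0, g0w, hu0]; rfl
    have b1 : ex u v (5 * k + 1) (6 * k + 1) = true := by
      rw [ex_untouched (by rw [g0m]; omega) (by rw [g0w]; exact w2), a1]
    have b2 : ex u v (5 * k + 1) (6 * k + 2) = true := by
      rw [ex_untouched (by rw [g0m]; omega) (by rw [g0w]; exact w3), a2]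
    have b3 : ex u v (5 * k + 1) (6 * k + 3) = false := by
      rw [ex_untouched (by rw [g0m]; omega) (by rw [g0w]; exact w4), a3]
    have bm : ex u v (5 * k + 1) (gmB v k 1) = !(o (v k)) := by
      rw [ex_untouched (by rw [g0m]; exact n1.symm) (by rw [g0w]; exact w5), hv0]
    -- after gate 1
    have c0 : ex u v (5 * k + 1 + 1) (6 * k) = o (u k) := by
      rw [ex_untouched (by rw [g1m]; exact n1) (by rw [g1w]; omega), b0]
    have c1 : ex u v (5 * k + 1 + 1) (6 * k + 1) = !(o (v k)) := by
      rw [ex_succ, g1m, if_neg n2.symm, g1w, if_pos rfl, bm, b1]; simp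
    have c2 : ex u v (5 * k + 1 + 1) (6 * k + 2) = true := by
      rw [ex_untouched (by rw [g1m]; exact n3) (by rw [g1w]; omega), b2]
    have c3 : ex u v (5 * k + 1 + 1) (6 * k + 3) = false := by
      rw [ex_untouched (by rw [g1m]; exact n4) (by rw [g1w]; omega), b3]
    -- after gate 2
    have d0 : ex u v (5 * k + 2 + 1) (6 * k) = (o (u k) || !(o (v k))) := by
      rw [ex_succ, g2m, if_pos rfl, g2w, c0, c1]
    have d1 : ex u v (5 * k + 2 + 1) (6 * k + 1) = (o (u k) && !(o (v k))) := by
      rw [ex_succ, g2m, if_neg (by omega), g2w, if_pos rfl, c0, c1]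
    have d2 : ex u v (5 * k + 2 + 1) (6 * k + 2) = true := by
      rw [ex_untouched (by rw [g2m]; omega) (by rw [g2w]; omega), c2]
    have d3 : ex u v (5 * k + 2 + 1) (6 * k + 3) = false := by
      rw [ex_untouched (by rw [g2m]; omega) (by rw [g2w]; omega), c3]
    -- after gate 3
    have e1 : ex u v (5 * k + 3 + 1) (6 * k + 1) = (o (u k) && !(o (v k))) := by
      rw [ex_untouched (by rw [g3m]; omega) (by rw [g3w]; omega), d1]
    have e2 : ex u v (5 * k + 3 + 1) (6 * k + 2) = (o (u k) || !(o (v k))) := by
      rw [ex_succ, g3m, if_neg (by omega), g3w, if_pos rfl, d0, d2]; simp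
    have e3 : ex u v (5 * k + 3 + 1) (6 * k + 3) = false := by
      rw [ex_untouched (by rw [g3m]; omega) (by rw [g3w]; omega), d3]
    -- after gate 4
    have f2 : ex u v (5 * k + 4 + 1) (6 * k + 2) = (o (u k) || !(o (v k))) := by
      rw [ex_untouched (by rw [g4m]; omega) (by rw [g4w]; omega), e2]
    have f3 : ex u v (5 * k + 4 + 1) (6 * k + 3) = (o (u k) && !(o (v k))) := by
      rw [ex_succ, g4m, if_pos rfl, g4w, e3, e1]; rfl
    have hunt : ∀ x, ¬ touched u v k x → ex u v (5 * (k + 1)) x = ex u v (5 * k) x := by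
      intro x hx
      exact ex_block_untouched hx 5 le_rfl
    refine ⟨?_, ?_, ?_⟩
    · intro x hx
      rw [hunt x, ih1 x (by omega)]
      unfold touched
      omega
    · intro j hj hlast
      by_cases hjk : j = k
      · subst hjk
        rw [h5, f2, ho1]
        have := huv j j
        cases h1 : o (u j) <;> cases h2 : o (v j) <;> simp [gstep, h1, h2]
      · have hne : u k ≠ u j := hlast k (by omega) (by omega)
        rw [hunt, ih2 j (by omega) (fun j' a b => hlast j' a (by omega)), ho1]
        · simp [gstep, hne.symm, huv j k]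
        · unfold touched
          push Not
          refine ⟨by omega, ?_, by omega⟩
          intro hl hx
          have hj : lu u k - 1 = j := by omega
          have h1 := last_pos (p := fun i => decide (u i = u k)) (k := k) hl
          have h1' : u (lu u k - 1) = u k := by simpa [lu] using h1
          rw [hj] at h1'
          exact hne h1'.symm
    · intro j hj hlast
      by_cases hjk : j = k
      · subst hjk
        rw [h5, f3, ho1]
        have := huv j j
        cases h1 : o (u j) <;> cases h2 : o (v j) <;> simp [gstep, h1, h2]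
      · have hne : v k ≠ v j := hlast k (by omega) (by omega)
        rw [hunt, ih3 j (by omega) (fun j' a b => hlast j' a (by omega)), ho1]
        · simp [gstep, hne.symm, (huv k j).symm]
        · unfold touched
          push Not
          refine ⟨by omega, by omega, ?_⟩
          intro hl hx
          have hj : lu v k - 1 = j := by omega
          have h1 := last_pos (p := fun i => decide (v i = v k)) (k := k) hl
          have h1' : v (lu v k - 1) = v k := by simpa [lu] using h1
          rw [hj] at h1'
          exact hne h1'.symm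

end Pool.Agent.Helper91.SM.Gadget
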