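import Pool.Agent.Helper91.SM.Gadget

/-!
Initial point of the homotopy (all transfers equal to 2), its weights and bounds.
-/

namespace Pool.Agent.Helper91.SM.Gadget

open Finset Pool.Agent.Helper91.SM.Greedy

/-- weights -/
def wB (u v : ℕ → ℕ) (k i : ℕ) : ℕ :=
  if i = 0 then (if lu u k = 0 then 4 else 6)
  else if i = 1 then (if lu v k = 0 then 4 else 6) else 10

def wg (u v : ℕ → ℕ) (g : ℕ) : ℕ := wB u v (g / 5) (g % 5)

lemma wg_bound (u v : ℕ → ℕ) (g : ℕ) : 1 ≤ wg u v g ∧ wg u v g ≤ 18 := by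
  unfold wg wB
  constructor <;> split_ifs <;> omega

lemma wg5 (u v : ℕ → ℕ) (k i : ℕ) (hi : i < 5) : wg u v (5 * k + i) = wB u v k i := by
  unfold wg
  congr 1 <;> omega

lemma SN_gm {u v : ℕ → ℕ} {y : ℕ → ℝ} (g : ℕ) :
    SN u v y (g + 1) (gm v g) = SN u v y g (gm v g) + y g := by
  rw [SN_succ, if_pos rfl, if_neg (gm_ne_gw u v g)]; ring

lemma SN_gw {u v : ℕ → ℕ} {y : ℕ → ℝ} (g : ℕ) :
    SN u v y (g + 1) (gw u g) = SN u v y g (gw u g) - y g := by
  rw [SN_succ, if_neg (gm_ne_gw u v g).symm, if_pos rfl]; ring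

/-- the initial evolution -/
noncomputable def SI (u v : ℕ → ℕ) : ℕ → ℕ → ℝ := SN u v (fun _ => 2)

lemma SI_gm {u v : ℕ → ℕ} (g : ℕ) : SI u v (g + 1) (gm v g) = SI u v g (gm v g) + 2 := SN_gm g
lemma SI_gw {u v : ℕ → ℕ} (g : ℕ) : SI u v (g + 1) (gw u g) = SI u v g (gw u g) - 2 := SN_gw g
lemma SI_un {u v : ℕ → ℕ} {g x : ℕ} (h1 : gm v g ≠ x) (h2 : gw u g ≠ x) :
    SI u v (g + 1) x = SI u v g x := SN_untouched h1 h2

/-- block boundary facts for the initial point -/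
def Bd (u v : ℕ → ℕ) (k : ℕ) : Prop :=
  (∀ x, 6 * k ≤ x → SI u v (5 * k) x = if s0 x then 1 else 0) ∧
  (∀ x < 6 * k, |SI u v (5 * k) x| ≤ 6) ∧
  (∀ j < k, (∀ j', j < j' → j' < k → u j' ≠ u j) → SI u v (5 * k) (6 * j + 2) = -1) ∧
  (∀ j < k, (∀ j', j < j' → j' < k → v j' ≠ v j) → SI u v (5 * k) (6 * j + 3) = 2)

lemma gate_facts (u v : ℕ → ℕ) (k : ℕ) :
    (gm v (5 * k) = 6 * k ∧ gw u (5 * k) = gwB u k 0) ∧
    (gm v (5 * k + 1) = gmB v k 1 ∧ gw u (5 * k + 1) = 6 * k + 1) ∧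
    (gm v (5 * k + 2) = 6 * k ∧ gw u (5 * k + 2) = 6 * k + 1) ∧
    (gm v (5 * k + 3) = 6 * k ∧ gw u (5 * k + 3) = 6 * k + 2) ∧
    (gm v (5 * k + 4) = 6 * k + 3 ∧ gw u (5 * k + 4) = 6 * k + 1) := by
  refine ⟨⟨?_, ?_⟩, ⟨?_, ?_⟩, ⟨?_, ?_⟩, ⟨?_, ?_⟩, ?_, ?_⟩
  · have := gm5 v k 0 (by omega); rw [Nat.add_zero] at this; rw [this]; simp [gmB]
  · have := gw5 u k 0 (by omega); rw [Nat.add_zero] at this; rw [this]
  · exact gm5 v k 1 (by omega)
  · rw [gw5 u k 1 (by omega)]; simp [gwB]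
  · rw [gm5 v k 2 (by omega)]; simp [gmB]
  · rw [gw5 u k 2 (by omega)]; simp [gwB]
  · rw [gm5 v k 3 (by omega)]; simp [gmB]
  · rw [gw5 u k 3 (by omega)]; simp [gwB]
  · rw [gm5 v k 4 (by omega)]; simp [gmB]
  · rw [gw5 u k 4 (by omega)]; simp [gwB]

lemma block_facts {u v : ℕ → ℕ} {k : ℕ} (h : Bd u v k) :
    Bd u v (k + 1) ∧
    (∀ i < 5, SI u v (5 * k + i) (gm v (5 * k + i)) -
        SI u v (5 * k + i) (gw u (5 * k + i)) = (wB u v k i : ℝ) / 2 - 2) ∧
    (∀ i ≤ 5, ∀ x, |SI u v (5 * k + i) x| ≤ 6) := by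
  obtain ⟨ih1, ihb, ih2, ih3⟩ := h
  obtain ⟨⟨g0m, g0w⟩, ⟨g1m, g1w⟩, ⟨g2m, g2w⟩, ⟨g3m, g3w⟩, g4m, g4w⟩ := gate_facts u v k
  have hluu := lu_le u k
  have hluv := lu_le v k
  have h5 : 5 * (k + 1) = 5 * k + 4 + 1 := by ring
  have mk : ∀ i, i < 6 → (6 * k + i) % 6 = i := by intro i hi; omega
  have a0 : SI u v (5 * k) (6 * k) = 0 := by
    rw [ih1 _ le_rfl]; simp [s0, Nat.mul_mod_right]
  have a1 : SI u v (5 * k) (6 * k + 1) = 1 := by
    rw [ih1 _ (by omega)]; simp [s0, mk 1 (by omega)]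
  have a2 : SI u v (5 * k) (6 * k + 2) = 1 := by
    rw [ih1 _ (by omega)]; simp [s0, mk 2 (by omega)]
  have a3 : SI u v (5 * k) (6 * k + 3) = 0 := by
    rw [ih1 _ (by omega)]; simp [s0, mk 3 (by omega)]
  have a4 : SI u v (5 * k) (6 * k + 4) = 0 := by
    rw [ih1 _ (by omega)]; simp [s0, mk 4 (by omega)]
  have a5 : SI u v (5 * k) (6 * k + 5) = 1 := by
    rw [ih1 _ (by omega)]; simp [s0, mk 5 (by omega)]
  have hu0 : SI u v (5 * k) (gwB u k 0) = if lu u k = 0 then 0 else -1 := by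
    unfold gwB
    rw [if_pos rfl]
    by_cases h : lu u k = 0
    · rw [if_pos h, if_pos h, a4]
    · rw [if_neg h, if_neg h]
      have h1 := last_pos (p := fun i => decide (u i = u k)) (k := k) h
      have h1' : u (lu u k - 1) = u k := by simpa [lu] using h1
      apply ih2 (lu u k - 1) (by omega)
      intro j' hj1 hj2 h'
      have := last_max (p := fun i => decide (u i = u k)) (k := k) (j := j')
        (by unfold lu at hj1 h; omega) hj2
      rw [h1'] at h'
      simp [h'] at this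
  have hv0 : SI u v (5 * k) (gmB v k 1) = if lu v k = 0 then 1 else 2 := by
    unfold gmB
    rw [if_pos rfl]
    by_cases h : lu v k = 0
    · rw [if_pos h, if_pos h, a5]
    · rw [if_neg h, if_neg h]
      have h1 := last_pos (p := fun i => decide (v i = v k)) (k := k) h
      have h1' : v (lu v k - 1) = v k := by simpa [lu] using h1
      apply ih3 (lu v k - 1) (by omega)
      intro j' hj1 hj2 h'
      have := last_max (p := fun i => decide (v i = v k)) (k := k) (j := j')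
        (by unfold lu at hj1 h; omega) hj2
      rw [h1'] at h'
      simp [h'] at this
  have hw0ne : gwB u k 0 ≠ 6 * k ∧ gwB u k 0 ≠ 6 * k + 1 ∧ gwB u k 0 ≠ 6 * k + 2 ∧
      gwB u k 0 ≠ 6 * k + 3 ∧ gwB u k 0 ≠ gmB v k 1 := by
    unfold gwB gmB
    refine ⟨?_, ?_, ?_, ?_, ?_⟩ <;> split_ifs <;> omega
  have hm1ne : gmB v k 1 ≠ 6 * k ∧ gmB v k 1 ≠ 6 * k + 1 ∧ gmB v k 1 ≠ 6 * k + 2 ∧
      gmB v k 1 ≠ 6 * k + 3 := by
    unfold gmB
    refine ⟨?_, ?_, ?_, ?_⟩ <;> split_ifs <;> omega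
  obtain ⟨w1, w2, w3, w4, w5⟩ := hw0ne
  obtain ⟨n1, n2, n3, n4⟩ := hm1ne
  -- after gate 0
  have b0 : SI u v (5 * k + 1) (6 * k) = 2 := by
    have := SI_gm (u := u) (v := v) (5 * k); rw [g0m, a0] at this; linarith
  have bw : SI u v (5 * k + 1) (gwB u k 0) = (if lu u k = 0 then 0 else -1) - 2 := by
    have := SI_gw (u := u) (v := v) (5 * k); rw [g0w, hu0] at this; exact this
  have b1 : SI u v (5 * k + 1) (6 * k + 1) = 1 := by
    rw [SI_un (by rw [g0m]; omega) (by rw [g0w]; exact w2), a1]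
  have b2 : SI u v (5 * k + 1) (6 * k + 2) = 1 := by
    rw [SI_un (by rw [g0m]; omega) (by rw [g0w]; exact w3), a2]
  have b3 : SI u v (5 * k + 1) (6 * k + 3) = 0 := by
    rw [SI_un (by rw [g0m]; omega) (by rw [g0w]; exact w4), a3]
  have bm : SI u v (5 * k + 1) (gmB v k 1) = if lu v k = 0 then 1 else 2 := by
    rw [SI_un (by rw [g0m]; exact n1.symm) (by rw [g0w]; exact w5), hv0]
  -- after gate 1
  have c0 : SI u v (5 * k + 1 + 1) (6 * k) = 2 := by
    rw [SI_un (by rw [g1m]; exact n1) (by rw [g1w]; omega), b0]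
  have c1 : SI u v (5 * k + 1 + 1) (6 * k + 1) = -1 := by
    have := SI_gw (u := u) (v := v) (5 * k + 1); rw [g1w, b1] at this; linarith
  have cm : SI u v (5 * k + 1 + 1) (gmB v k 1) = (if lu v k = 0 then 1 else 2) + 2 := by
    have := SI_gm (u := u) (v := v) (5 * k + 1); rw [g1m, bm] at this; exact this
  have c2 : SI u v (5 * k + 1 + 1) (6 * k + 2) = 1 := by
    rw [SI_un (by rw [g1m]; exact n3) (by rw [g1w]; omega), b2]
  have c3 : SI u v (5 * k + 1 + 1) (6 * k + 3) = 0 := by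
    rw [SI_un (by rw [g1m]; exact n4) (by rw [g1w]; omega), b3]
  -- after gate 2
  have d0 : SI u v (5 * k + 2 + 1) (6 * k) = 4 := by
    have := SI_gm (u := u) (v := v) (5 * k + 2); rw [g2m, c0] at this; linarith
  have d1 : SI u v (5 * k + 2 + 1) (6 * k + 1) = -3 := by
    have := SI_gw (u := u) (v := v) (5 * k + 2); rw [g2w, c1] at this; linarith
  have d2 : SI u v (5 * k + 2 + 1) (6 * k + 2) = 1 := by
    rw [SI_un (by rw [g2m]; omega) (by rw [g2w]; omega), c2]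
  have d3 : SI u v (5 * k + 2 + 1) (6 * k + 3) = 0 := by
    rw [SI_un (by rw [g2m]; omega) (by rw [g2w]; omega), c3]
  -- after gate 3
  have e0 : SI u v (5 * k + 3 + 1) (6 * k) = 6 := by
    have := SI_gm (u := u) (v := v) (5 * k + 3); rw [g3m, d0] at this; linarith
  have e1 : SI u v (5 * k + 3 + 1) (6 * k + 1) = -3 := by
    rw [SI_un (by rw [g3m]; omega) (by rw [g3w]; omega), d1]
  have e2 : SI u v (5 * k + 3 + 1) (6 * k + 2) = -1 := by
    have := SI_gw (u := u) (v := v) (5 * k + 3); rw [g3w, d2] at this; linarith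
  have e3 : SI u v (5 * k + 3 + 1) (6 * k + 3) = 0 := by
    rw [SI_un (by rw [g3m]; omega) (by rw [g3w]; omega), d3]
  -- after gate 4
  have f1 : SI u v (5 * k + 4 + 1) (6 * k + 1) = -5 := by
    have := SI_gw (u := u) (v := v) (5 * k + 4); rw [g4w, e1] at this; linarith
  have f2 : SI u v (5 * k + 4 + 1) (6 * k + 2) = -1 := by
    rw [SI_un (by rw [g4m]; omega) (by rw [g4w]; omega), e2]
  have f3 : SI u v (5 * k + 4 + 1) (6 * k + 3) = 2 := by
    have := SI_gm (u := u) (v := v) (5 * k + 4); rw [g4m, e3] at this; linarith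
  -- all values are bounded
  have hall0 : ∀ x, |SI u v (5 * k) x| ≤ 6 := by
    intro x
    by_cases hx : x < 6 * k
    · exact ihb x hx
    · rw [ih1 x (by omega)]; split_ifs <;> norm_num
  have hstep : ∀ g, (∀ x, |SI u v g x| ≤ 6) → |SI u v (g + 1) (gm v g)| ≤ 6 →
      |SI u v (g + 1) (gw u g)| ≤ 6 → ∀ x, |SI u v (g + 1) x| ≤ 6 := by
    intro g hg h1 h2 x
    by_cases hx1 : gm v g = x
    · rw [← hx1]; exact h1
    · by_cases hx2 : gw u g = x
      · rw [← hx2]; exact h2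
      · rw [SI_un hx1 hx2]; exact hg x
  have hall1 : ∀ x, |SI u v (5 * k + 1) x| ≤ 6 :=
    hstep (5 * k) hall0 (by rw [g0m, b0]; norm_num)
      (by rw [g0w, bw]; split_ifs <;> norm_num)
  have hall2 : ∀ x, |SI u v (5 * k + 1 + 1) x| ≤ 6 :=
    hstep (5 * k + 1) hall1 (by rw [g1m, cm]; split_ifs <;> norm_num)
      (by rw [g1w, c1]; norm_num)
  have hall3 : ∀ x, |SI u v (5 * k + 2 + 1) x| ≤ 6 :=
    hstep (5 * k + 2) hall2 (by rw [g2m, d0]; norm_num) (by rw [g2w, d1]; norm_num)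
  have hall4 : ∀ x, |SI u v (5 * k + 3 + 1) x| ≤ 6 :=
    hstep (5 * k + 3) hall3 (by rw [g3m, e0]; norm_num) (by rw [g3w, e2]; norm_num)
  have hall5 : ∀ x, |SI u v (5 * k + 4 + 1) x| ≤ 6 :=
    hstep (5 * k + 4) hall4 (by rw [g4m, f3]; norm_num) (by rw [g4w, f1]; norm_num)
  have hunt : ∀ x, ¬ touched u v k x → SI u v (5 * (k + 1)) x = SI u v (5 * k) x := by
    intro x hx
    exact SN_block_untouched hx 5 le_rfl
  refine ⟨⟨?_, ?_, ?_, ?_⟩, ?_, ?_⟩
  · intro x hx
    rw [hunt x, ih1 x (by omega)]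
    unfold touched
    omega
  · intro x _
    rw [h5]; exact hall5 x
  · intro j hj hlast
    by_cases hjk : j = k
    · subst hjk
      rw [h5, f2]
    · have hne : u k ≠ u j := hlast k (by omega) (by omega)
      rw [hunt, ih2 j (by omega) (fun j' a b => hlast j' a (by omega))]
      unfold touched
      push Not
      refine ⟨by omega, ?_, by omega⟩
      intro hl hx
      have hj : lu u k - 1 = j := by omega
      have h1 := last_pos (p := fun i => decide (u i = u k)) (k := k) hl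
      have h1' : u (lu u k - 1) = u k := by simpa [lu] using h1
      rw [hj] at h1'
      exact hne h1'.symm
  · intro j hj hlast
    by_cases hjk : j = k
    · subst hjk
      rw [h5, f3]
    · have hne : v k ≠ v j := hlast k (by omega) (by omega)
      rw [hunt, ih3 j (by omega) (fun j' a b => hlast j' a (by omega))]
      unfold touched
      push Not
      refine ⟨by omega, by omega, ?_⟩
      intro hl hx
      have hj : lu v k - 1 = j := by omega
      have h1 := last_pos (p := fun i => decide (v i = v k)) (k := k) hl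
      have h1' : v (lu v k - 1) = v k := by simpa [lu] using h1
      rw [hj] at h1'
      exact hne h1'.symm
  · intro i hi
    have hi' : i = 0 ∨ i = 1 ∨ i = 2 ∨ i = 3 ∨ i = 4 := by omega
    rcases hi' with rfl | rfl | rfl | rfl | rfl
    · rw [Nat.add_zero, g0m, g0w, a0, hu0]
      unfold wB
      rw [if_pos rfl]
      split_ifs <;> norm_num
    · rw [g1m, g1w, bm, b1]
      unfold wB
      rw [if_neg (show ¬ (1:ℕ) = 0 by norm_num), if_pos rfl]
      split_ifs <;> norm_num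
    · rw [g2m, g2w, c0, c1]; unfold wB; norm_num
    · rw [g3m, g3w, d0, d2]; unfold wB; norm_num
    · rw [g4m, g4w, e3, e1]; unfold wB; norm_num
  · intro i hi
    have hi' : i = 0 ∨ i = 1 ∨ i = 2 ∨ i = 3 ∨ i = 4 ∨ i = 5 := by omega
    rcases hi' with rfl | rfl | rfl | rfl | rfl | rfl
    · exact hall0
    · exact hall1
    · exact hall2
    · exact hall3
    · exact hall4
    · exact hall5

lemma bd_all (u v : ℕ → ℕ) (k : ℕ) : Bd u v k := by
  induction k with
  | zero =>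
    refine ⟨fun x _ => rfl, fun x hx => by omega, fun j hj => by omega, fun j hj => by omega⟩
  | succ k ih => exact (block_facts ih).1

lemma SI_z (u v : ℕ → ℕ) (g : ℕ) :
    SI u v g (gm v g) - SI u v g (gw u g) = (wg u v g : ℝ) / 2 - 2 := by
  have h := (block_facts (bd_all u v (g / 5))).2.1 (g % 5) (by omega)
  have e : 5 * (g / 5) + g % 5 = g := Nat.div_add_mod g 5
  rw [e] at h
  exact h

lemma SI_bound (u v : ℕ → ℕ) (g x : ℕ) : |SI u v g x| ≤ 6 := by
  have h := (block_facts (bd_all u v (g / 5))).2.2 (g % 5) (by omega) x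
  have e : 5 * (g / 5) + g % 5 = g := Nat.div_add_mod g 5
  rw [e] at h
  exact h

end Pool.Agent.Helper91.SM.Gadget
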