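import Pool.Agent.Helper91.SM.Gadget2

/-!
Transfer of the analysis to natural labels, and the Hamming bound for the rounded history.
-/

namespace Pool.Agent.Helper91.SM.Gadget

open Finset Pool.Agent.Helper91.SM.Greedy Pool.Agent.Helper91.SM.Net

/-- harmonic evolution with natural labels -/
def HN (u v : ℕ → ℕ) (al : ℕ → ℝ) : ℕ → ℕ → ℝ
  | 0 => fun x => if s0 x then 1 else 0
  | g + 1 => fun x => HN u v al g x +
      (-(al g) * (HN u v al g (gm v g) - HN u v al g (gw u g))) *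
        ((if x = gm v g then 1 else 0) - (if x = gw u g then 1 else 0))

def xiN (u v : ℕ → ℕ) (al : ℕ → ℝ) (g : ℕ) : ℝ :=
  -(al g) * (HN u v al g (gm v g) - HN u v al g (gw u g))

/-- difference of the inputs -/
def zN (u v : ℕ → ℕ) (y : ℕ → ℝ) (g : ℕ) : ℝ := SN u v y g (gm v g) - SN u v y g (gw u g)

noncomputable def alN (u v : ℕ → ℕ) (τ : ℝ) (y : ℕ → ℝ) (g : ℕ) : ℝ :=
  slope τ (wg u v g) (zN u v y g)

section FinNet

variable (u v : ℕ → ℕ) {P : ℕ} (hP : 0 < P)

def mF (g : ℕ) : Fin P := ⟨gm v g % P, Nat.mod_lt _ hP⟩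
def wF (g : ℕ) : Fin P := ⟨gw u g % P, Nat.mod_lt _ hP⟩
def S0F : Fin P → ℝ := fun x => if s0 x.val then 1 else 0

lemma mF_val {G g : ℕ} (hPG : P = 6 * G) (hg : g < 5 * G) : (mF v hP g).val = gm v g := by
  subst hPG; exact Nat.mod_eq_of_lt (gm_lt hg)
lemma wF_val {G g : ℕ} (hPG : P = 6 * G) (hg : g < 5 * G) : (wF u hP g).val = gw u g := by
  subst hPG; exact Nat.mod_eq_of_lt (gw_lt hg)

lemma mF_ne_wF {G g : ℕ} (hPG : P = 6 * G) (hg : g < 5 * G) : mF v hP g ≠ wF u hP g := by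
  intro h
  have := congrArg Fin.val h
  rw [mF_val v hP hPG hg, wF_val u hP hPG hg] at this
  exact gm_ne_gw u v g this

lemma dip_val {G g : ℕ} (hPG : P = 6 * G) (hg : g < 5 * G) (x : Fin P) :
    dip (mF v hP g) (wF u hP g) x =
      (if x.val = gm v g then 1 else 0) - (if x.val = gw u g then 1 else 0) := by
  unfold dip
  have h1 : (x = mF v hP g) ↔ x.val = gm v g := by
    rw [Fin.ext_iff, mF_val v hP hPG hg]
  have h2 : (x = wF u hP g) ↔ x.val = gw u g := by
    rw [Fin.ext_iff, wF_val u hP hPG hg]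
  simp only [h1, h2]

lemma St_SN {G : ℕ} (hPG : P = 6 * G) (y : ℕ → ℝ) : ∀ t ≤ 5 * G, ∀ x : Fin P,
    St (mF v hP) (wF u hP) S0F y t x = SN u v y t x.val := by
  intro t
  induction t with
  | zero => intro _ x; rfl
  | succ t ih =>
    intro ht x
    simp only [St, SN_succ, ih (by omega), dip_val u v hP hPG (show t < 5 * G by omega)]

lemma Hs_HN {G : ℕ} (hPG : P = 6 * G) (al : ℕ → ℝ) : ∀ t ≤ 5 * G, ∀ x : Fin P,
    Hs (mF v hP) (wF u hP) S0F al t x = HN u v al t x.val := by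
  intro t
  induction t with
  | zero => intro _ x; rfl
  | succ t ih =>
    intro ht x
    have ht' : t < 5 * G := by omega
    simp only [Hs, HN, ih (by omega), dip_val u v hP hPG ht', mF_val v hP hPG ht',
      wF_val u hP hPG ht']

lemma xi_xiN {G : ℕ} (hPG : P = 6 * G) (al : ℕ → ℝ) {t : ℕ} (ht : t < 5 * G) :
    xi (mF v hP) (wF u hP) S0F al t = xiN u v al t := by
  unfold xi xiN
  rw [Hs_HN u v hP hPG al t ht.le, Hs_HN u v hP hPG al t ht.le, mF_val v hP hPG ht,
    wF_val u hP hPG ht]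

lemma zz_zN {G : ℕ} (hPG : P = 6 * G) (y : ℕ → ℝ) {t : ℕ} (ht : t < 5 * G) :
    zz (mF v hP) (wF u hP) S0F y t = zN u v y t := by
  unfold zz zN
  rw [St_SN u v hP hPG y t ht.le, St_SN u v hP hPG y t ht.le, mF_val v hP hPG ht,
    wF_val u hP hPG ht]

end FinNet

/-- exact transfers -/
def y0 (u v : ℕ → ℕ) (g : ℕ) : ℝ := if ex u v g (gm v g) = false ∧ ex u v g (gw u g) = true
  then 1 else 0

lemma SN_y0 (u v : ℕ → ℕ) (g x : ℕ) : SN u v (y0 u v) g x = if ex u v g x then 1 else 0 := by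
  induction g generalizing x with
  | zero => rfl
  | succ g ih =>
    rw [SN_succ, ex_succ, ih]
    have hne := gm_ne_gw u v g
    unfold y0
    by_cases h1 : x = gm v g
    · subst h1
      rw [if_pos rfl, if_pos rfl, if_neg hne]
      cases ha : ex u v g (gm v g) <;> cases hb : ex u v g (gw u g) <;> simp
    · by_cases h2 : x = gw u g
      · subst h2
        rw [if_neg h1, if_pos rfl, if_neg h1, if_pos rfl]
        cases ha : ex u v g (gm v g) <;> cases hb : ex u v g (gw u g) <;> simp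
      · rw [if_neg h1, if_neg h2, if_neg h1, if_neg h2]; ring

lemma zN_y0 (u v : ℕ → ℕ) (g : ℕ) : |zN u v (y0 u v) g| ≤ 1 ∧
    y0 u v g = (|zN u v (y0 u v) g| - zN u v (y0 u v) g) / 2 := by
  unfold zN
  rw [SN_y0, SN_y0]
  unfold y0
  cases ha : ex u v g (gm v g) <;> cases hb : ex u v g (gw u g) <;> norm_num

theorem ipm_nat {u v : ℕ → ℕ} {G N : ℕ} (hG : 0 < G) {Y : ℕ → ℕ → ℝ} {τ lam : ℕ → ℝ}
    {M τf e : ℝ} (hτ0 : τ 0 = 1) (hτs : ∀ k < N, τ (k + 1) = (1 - lam k) * τ k)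
    (hlam : ∀ k < N, 0 < lam k ∧ lam k < 1 ∧ lam k / (1 - lam k) ≤ M)
    (hτf : 0 < τf) (hτ : ∀ k ≤ N, τf ≤ τ k) (hM : M ≤ τf) (he : 0 ≤ e)
    (hNe : (N : ℝ) * ((5 * G : ℕ) * e) ≤ 1)
    (hY0 : ∀ g < 5 * G, Y 0 g = 2)
    (hY : ∀ k < N, ∀ g < 5 * G, |Y (k + 1) g - ((1 - lam k) * Y k g +
      lam k * xiN u v (alN u v (τ k) (Y k)) g)| ≤ e) :
    ∀ t ≤ 5 * G, ∑ x ∈ range (6 * G), (SN u v (Y N) t x - if ex u v t x then 1 else 0) ^ 2 ≤
      2 * (τ N ^ 2 * ∑ g ∈ range (5 * G), (wg u v g : ℝ)) +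
      2 * (64 * (τ N * (N * (M ^ 2 * (∑ g ∈ range (5 * G), (wg u v g : ℝ)) +
        (5 * G : ℕ) * ((1 + 2 * (5 * G : ℕ)) * e) / τf) * (1 + M ^ 2 * 64 / τf) ^ N))) := by
  intro t ht
  have hP : 0 < 6 * G := by omega
  set m := mF (P := 6 * G) v hP with hm
  set w := wF (P := 6 * G) u hP with hw
  have hmw : ∀ t < 5 * G, m t ≠ w t := fun g hg => mF_ne_wF u v hP rfl hg
  have hwt : ∀ g < 5 * G, 1 ≤ ((wg u v g : ℕ) : ℝ) ∧ ((wg u v g : ℕ) : ℝ) ≤ 18 := by
    intro g _
    have := wg_bound u v g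
    constructor
    · exact_mod_cast this.1
    · exact_mod_cast this.2
  have h0 : ∀ x : Fin (6 * G), 0 ≤ (S0F x : ℝ) ∧ (S0F x : ℝ) ≤ 1 := by
    intro x; unfold S0F; split_ifs <;> norm_num
  have hSN0 : ∀ t ≤ 5 * G, ∀ x, SN u v (Y 0) t x = SI u v t x := by
    intro t
    induction t with
    | zero => intro _ x; rfl
    | succ t ih =>
      intro ht x
      unfold SI at ih ⊢
      rw [SN_succ, SN_succ, ih (by omega), hY0 t (by omega)]
  have hz0' : ∀ g < 5 * G, zz m w S0F (Y 0) g = (wg u v g : ℝ) / 2 - 2 := by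
    intro g hg
    rw [zz_zN u v hP rfl _ hg]
    unfold zN
    rw [hSN0 g hg.le, hSN0 g hg.le, SI_z]
  have hmain := Net.ipm (m := m) (w := w) (S0 := S0F) (wt := fun g => (wg u v g : ℝ))
    (n := 5 * G) (N := N) (Y := Y) (τ := τ) (lam := lam) (M := M) (τf := τf) (e := e)
    hmw hwt h0 hτ0 hτs hlam hτf hτ hM he hNe
    (by
      intro t ht x
      rw [St_SN u v hP rfl _ t ht, hSN0 t ht]
      exact SI_bound _ _ _ _)
    (by
      intro g hg
      have hz := hz0' g hg
      have hy := hY0 g hg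
      have hw1 := (hwt g hg).1
      unfold dd ff sf
      rw [hy, hz]
      have e1 : ((wg u v g : ℝ) / 2 - 2) ^ 2 + 4 * 1 ^ 2 * (wg u v g : ℝ) =
          ((wg u v g : ℝ) / 2 + 2) ^ 2 := by ring
      rw [e1, Real.sqrt_sq (by positivity)]
      ring)
    (by
      intro k hk g hg
      have h1 := hY k hk g hg
      have h2 : xi m w S0F (al m w S0F (fun g => (wg u v g : ℝ)) (τ k) (Y k)) g =
          xiN u v (alN u v (τ k) (Y k)) g := by
        rw [xi_xiN u v hP rfl _ hg]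
        -- al agrees with alN below 5G, and HN only uses those
        have hH : ∀ t ≤ 5 * G, ∀ x, HN u v (al m w S0F (fun g => (wg u v g : ℝ)) (τ k) (Y k)) t x =
            HN u v (alN u v (τ k) (Y k)) t x := by
          intro t
          induction t with
          | zero => intro _ x; rfl
          | succ t ih =>
            intro ht x
            have : al m w S0F (fun g => (wg u v g : ℝ)) (τ k) (Y k) t = alN u v (τ k) (Y k) t := by
              unfold al alN
              rw [zz_zN u v hP rfl _ (show t < 5 * G by omega)]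
            simp only [HN, ih (by omega), this]
        unfold xiN
        rw [hH g hg.le, hH g hg.le]
        have : al m w S0F (fun g => (wg u v g : ℝ)) (τ k) (Y k) g = alN u v (τ k) (Y k) g := by
          unfold al alN
          rw [zz_zN u v hP rfl _ hg]
        rw [this]
      rw [h2]; exact h1)
  obtain ⟨hC, hD⟩ := hmain
  have hcl := closeness (m := m) (w := w) (S0 := S0F) (wt := fun g => (wg u v g : ℝ))
    (τ := τ N) (C1 := 64) (y := Y N) (y0 := y0 u v) (n := 5 * G) hmw (fun g hg => (hwt g hg).1)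
    (lt_of_lt_of_le hτf (hτ N le_rfl)) hC
    (by
      intro g hg
      rw [zz_zN u v hP rfl _ hg]
      exact (zN_y0 u v g).2)
    (by
      intro g hg
      rw [zz_zN u v hP rfl _ hg]
      exact (zN_y0 u v g).1) t ht
  have e1 : ∑ x : Fin (6 * G), (St m w S0F (Y N) t x - St m w S0F (y0 u v) t x) ^ 2 =
      ∑ x ∈ range (6 * G), (SN u v (Y N) t x - if ex u v t x then 1 else 0) ^ 2 := by
    rw [← Fin.sum_univ_eq_sum_range
      (fun x => (SN u v (Y N) t x - if ex u v t x then 1 else 0) ^ 2)]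
    refine Finset.sum_congr rfl fun x _ => ?_
    rw [St_SN u v hP rfl _ t ht, St_SN u v hP rfl _ t ht, SN_y0]
  rw [e1] at hcl
  refine hcl.trans ?_
  have := mul_le_mul_of_nonneg_left hD (by norm_num : (0:ℝ) ≤ 64)
  linarith

end Pool.Agent.Helper91.SM.Gadget
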