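import Pool.Agent.Helper91.SM.Gadget3

/-!
Rounding of the smoothed history: the Hamming bound at every cut.
-/

namespace Pool.Agent.Helper91.SM.Gadget

open Finset Pool.Agent.Helper91.SM.Greedy Pool.Agent.Helper91.SM.Net

/-- the rounded occupation states before edge `t` -/
def occHat (u v : ℕ → ℕ) (aH dH : ℕ → Bool) (t x : ℕ) : Bool :=
  if last (fun j => decide (u j = x)) t ≠ 0 then aH (last (fun j => decide (u j = x)) t - 1)
  else if last (fun j => decide (v j = x)) t ≠ 0 then
    dH (last (fun j => decide (v j = x)) t - 1)
  else false

lemma SN_persist_u {u v : ℕ → ℕ} {y : ℕ → ℝ} {j t : ℕ} (hjt : j < t)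
    (h : ∀ j', j < j' → j' < t → u j' ≠ u j) :
    SN u v y (5 * t) (6 * j + 2) = SN u v y (5 * (j + 1)) (6 * j + 2) := by
  induction t with
  | zero => omega
  | succ t ih =>
    by_cases h1 : j = t
    · subst h1; rfl
    · rw [← ih (by omega) (fun j' a b => h j' a (by omega))]
      refine SN_block_untouched (k := t) ?_ 5 le_rfl
      unfold touched
      push Not
      refine ⟨by omega, ?_, by omega⟩
      intro hl hx
      have hj : lu u t - 1 = j := by omega
      have h1 := last_pos (p := fun i => decide (u i = u t)) (k := t) hl
      have h1' : u (lu u t - 1) = u t := by simpa [lu] using h1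
      rw [hj] at h1'
      exact h t (by omega) (by omega) h1'.symm

lemma SN_persist_v {u v : ℕ → ℕ} {y : ℕ → ℝ} {j t : ℕ} (hjt : j < t)
    (h : ∀ j', j < j' → j' < t → v j' ≠ v j) :
    SN u v y (5 * t) (6 * j + 3) = SN u v y (5 * (j + 1)) (6 * j + 3) := by
  induction t with
  | zero => omega
  | succ t ih =>
    by_cases h1 : j = t
    · subst h1; rfl
    · rw [← ih (by omega) (fun j' a b => h j' a (by omega))]
      refine SN_block_untouched (k := t) ?_ 5 le_rfl
      unfold touched
      push Not
      refine ⟨by omega, by omega, ?_⟩
      intro hl hx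
      have hj : lu v t - 1 = j := by omega
      have h1 := last_pos (p := fun i => decide (v i = v t)) (k := t) hl
      have h1' : v (lu v t - 1) = v t := by simpa [lu] using h1
      rw [hj] at h1'
      exact h t (by omega) (by omega) h1'.symm

lemma last_props {f : ℕ → ℕ} {x t : ℕ} (h : last (fun j => decide (f j = x)) t ≠ 0) :
    last (fun j => decide (f j = x)) t - 1 < t ∧
    f (last (fun j => decide (f j = x)) t - 1) = x ∧
    ∀ j', last (fun j => decide (f j = x)) t - 1 < j' → j' < t → f j' ≠ x := by
  have h1 := last_le (fun j => decide (f j = x)) t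
  refine ⟨by omega, by simpa using last_pos h, ?_⟩
  intro j' a b
  have := last_max (p := fun j => decide (f j = x)) (k := t) (j := j') (by omega) b
  simpa using this

/-- the gadget person carrying the state of `x` before edge `t` -/
def idm (u v : ℕ → ℕ) (t x : ℕ) : ℕ :=
  if last (fun j => decide (u j = x)) t ≠ 0 then 6 * (last (fun j => decide (u j = x)) t - 1) + 2
  else 6 * (last (fun j => decide (v j = x)) t - 1) + 3

theorem ham_occHat {G P : ℕ} {u v : ℕ → ℕ} (huv : ∀ j j', u j ≠ v j')
    {y : ℕ → ℝ} {R : ℝ} {aH dH : ℕ → Bool}
    (hR : ∀ t ≤ 5 * G, ∑ x ∈ range (6 * G), (SN u v y t x - if ex u v t x then 1 else 0) ^ 2 ≤ R)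
    (haH : ∀ j < G, aH j = decide (1 / 2 < SN u v y (5 * (j + 1)) (6 * j + 2)))
    (hdH : ∀ j < G, dH j = decide (SN u v y (5 * (j + 1)) (6 * j + 3) ≤ 1 / 2)) :
    ∀ t ≤ G, (ham P (occHat u v aH dH t) (run u v (fun _ => false) 0 t) : ℝ) ≤ 4 * R := by
  intro t ht
  set o := run u v (fun _ => false) 0 t with ho
  set bad := (range P).filter (fun x => occHat u v aH dH t x ≠ o x) with hbad
  have hham : ham P (occHat u v aH dH t) o = bad.card := by
    unfold ham
    rw [hbad, Finset.card_filter]
    refine Finset.sum_congr rfl fun x _ => ?_
    by_cases h : occHat u v aH dH t x = o x <;> simp [h]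
  set F : ℕ → ℝ := fun z => (SN u v y (5 * t) z - if ex u v (5 * t) z then 1 else 0) ^ 2 with hF
  obtain ⟨_, hex2, hex3⟩ := ex_inv huv t
  -- properties of bad points
  have key : ∀ x ∈ bad, idm u v t x < 6 * G ∧ 1 / 4 ≤ F (idm u v t x) := by
    intro x hx
    rw [hbad, Finset.mem_filter] at hx
    have hne := hx.2
    by_cases h1 : last (fun j => decide (u j = x)) t ≠ 0
    · obtain ⟨a1, a2, a3⟩ := last_props (f := u) h1
      have e1 : occHat u v aH dH t x = aH (last (fun j => decide (u j = x)) t - 1) := by
        unfold occHat; rw [if_pos h1]
      have e2 : idm u v t x = 6 * (last (fun j => decide (u j = x)) t - 1) + 2 := by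
        unfold idm; rw [if_pos h1]
      set j := last (fun j => decide (u j = x)) t - 1
      refine ⟨by rw [e2]; omega, ?_⟩
      have e3 := hex2 j a1 (fun j' b c => by rw [a2]; exact a3 j' b c)
      have e4 := SN_persist_u (u := u) (v := v) (y := y) a1 (fun j' b c => by rw [a2]; exact a3 j' b c)
      rw [e1, haH j (by omega)] at hne
      rw [a2, ← ho] at e3
      simp only [hF]
      rw [e2, e3, e4]
      set s := SN u v y (5 * (j + 1)) (6 * j + 2)
      cases hox : o x
      · rw [hox] at hne
        have : 1 / 2 < s := by simpa using hne
        simp only [Bool.false_eq_true, if_false]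
        nlinarith
      · rw [hox] at hne
        have : s ≤ 1 / 2 := by simpa using hne
        simp only [if_true]
        nlinarith
    · by_cases h2 : last (fun j => decide (v j = x)) t ≠ 0
      · obtain ⟨a1, a2, a3⟩ := last_props (f := v) h2
        have e1 : occHat u v aH dH t x = dH (last (fun j => decide (v j = x)) t - 1) := by
          unfold occHat; rw [if_neg h1, if_pos h2]
        have e2 : idm u v t x = 6 * (last (fun j => decide (v j = x)) t - 1) + 3 := by
          unfold idm; rw [if_neg h1]
        set j := last (fun j => decide (v j = x)) t - 1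
        refine ⟨by rw [e2]; omega, ?_⟩
        have e3 := hex3 j a1 (fun j' b c => by rw [a2]; exact a3 j' b c)
        have e4 := SN_persist_v (u := u) (v := v) (y := y) a1 (fun j' b c => by rw [a2]; exact a3 j' b c)
        rw [e1, hdH j (by omega)] at hne
        rw [a2, ← ho] at e3
        simp only [hF]
        rw [e2, e3, e4]
        set s := SN u v y (5 * (j + 1)) (6 * j + 3)
        cases hox : o x
        · rw [hox] at hne
          have : s ≤ 1 / 2 := by simpa using hne
          simp only [Bool.not_false, if_true]
          nlinarith
        · rw [hox] at hne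
          have : 1 / 2 < s := by simpa using hne
          simp only [Bool.not_true, Bool.false_eq_true, if_false]
          nlinarith
      · exfalso
        apply hne
        have e1 : occHat u v aH dH t x = false := by
          unfold occHat; rw [if_neg h1, if_neg h2]
        rw [e1, ho]
        symm
        apply run_untouched
        intro k _ hk
        push Not at h1 h2
        constructor
        · have := last_max (p := fun j => decide (u j = x)) (k := t) (j := k) (by omega) (by omega)
          simpa using this
        · have := last_max (p := fun j => decide (v j = x)) (k := t) (j := k) (by omega) (by omega)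
          simpa using this
  have hinj : Set.InjOn (idm u v t) (bad : Set ℕ) := by
    intro x hx x' hx' he
    rw [Finset.mem_coe, hbad, Finset.mem_filter] at hx hx'
    -- if neither last is nonzero then occHat is false = o
    have hz : ∀ x, occHat u v aH dH t x ≠ o x →
        last (fun j => decide (u j = x)) t ≠ 0 ∨ last (fun j => decide (v j = x)) t ≠ 0 := by
      intro x hne
      by_contra hcon
      push Not at hcon
      obtain ⟨h1, h2⟩ := hcon
      apply hne
      have e1 : occHat u v aH dH t x = false := by
        unfold occHat; rw [if_neg (by simpa using h1), if_neg (by simpa using h2)]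
      rw [e1, ho]
      symm
      apply run_untouched
      intro k _ hk
      constructor
      · have := last_max (p := fun j => decide (u j = x)) (k := t) (j := k) (by omega) (by omega)
        simpa using this
      · have := last_max (p := fun j => decide (v j = x)) (k := t) (j := k) (by omega) (by omega)
        simpa using this
    have h1 := hz x hx.2
    have h2 := hz x' hx'.2
    unfold idm at he
    by_cases a : last (fun j => decide (u j = x)) t ≠ 0
    · by_cases b : last (fun j => decide (u j = x')) t ≠ 0
      · rw [if_pos a, if_pos b] at he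
        have e1 := (last_props (f := u) a).2.1
        have e2 := (last_props (f := u) b).2.1
        have : last (fun j => decide (u j = x)) t - 1 = last (fun j => decide (u j = x')) t - 1 := by
          omega
        rw [this] at e1
        exact e1.symm.trans e2
      · rw [if_pos a, if_neg b] at he
        omega
    · by_cases b : last (fun j => decide (u j = x')) t ≠ 0
      · rw [if_neg a, if_pos b] at he
        omega
      · rw [if_neg a, if_neg b] at he
        have a' : last (fun j => decide (v j = x)) t ≠ 0 := h1.resolve_left a
        have b' : last (fun j => decide (v j = x')) t ≠ 0 := h2.resolve_left b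
        have e1 := (last_props (f := v) a').2.1
        have e2 := (last_props (f := v) b').2.1
        have : last (fun j => decide (v j = x)) t - 1 = last (fun j => decide (v j = x')) t - 1 := by
          omega
        rw [this] at e1
        exact e1.symm.trans e2
  have h1 : (bad.card : ℝ) * (1 / 4) ≤ ∑ x ∈ bad, F (idm u v t x) := by
    rw [← nsmul_eq_mul]
    exact Finset.card_nsmul_le_sum _ _ _ (fun x hx => (key x hx).2)
  have h2 : ∑ x ∈ bad, F (idm u v t x) = ∑ z ∈ bad.image (idm u v t), F z :=
    (Finset.sum_image hinj).symm
  have h3 : ∑ z ∈ bad.image (idm u v t), F z ≤ ∑ z ∈ range (6 * G), F z := by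
    refine Finset.sum_le_sum_of_subset_of_nonneg ?_ (fun _ _ _ => sq_nonneg _)
    intro z hz
    rw [Finset.mem_image] at hz
    obtain ⟨x, hx, rfl⟩ := hz
    exact Finset.mem_range.mpr (key x hx).1
  have h4 := hR (5 * t) (by omega)
  rw [hham]
  have : ∑ z ∈ range (6 * G), F z ≤ R := h4
  linarith

end Pool.Agent.Helper91.SM.Gadget
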