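import Mathlib

/-!
The greedy process along a sequence of edges `(u k, v k)`, single flips, Hamming contraction.
-/

namespace Pool.Agent.Helper91.SM.Greedy

open Finset

/-- one greedy step: the edge `(a, b)` is matched if both ends are free -/
def gstep (a b : ℕ) (s : ℕ → Bool) (x : ℕ) : Bool :=
  s x || (!(s a) && !(s b) && (decide (x = a) || decide (x = b)))

/-- `run u v s t n`: process the edges `t, ..., t + n - 1` from the state `s` -/
def run (u v : ℕ → ℕ) (s : ℕ → Bool) (t : ℕ) : ℕ → ℕ → Bool
  | 0 => s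
  | n + 1 => gstep (u (t + n)) (v (t + n)) (run u v s t n)

lemma run_add (u v : ℕ → ℕ) (s : ℕ → Bool) (t n k : ℕ) :
    run u v s t (n + k) = run u v (run u v s t n) (t + n) k := by
  induction k with
  | zero => rfl
  | succ k ih =>
    show gstep (u (t + (n + k))) (v (t + (n + k))) (run u v s t (n + k)) =
      gstep (u (t + n + k)) (v (t + n + k)) _
    rw [ih, Nat.add_assoc]

/-- flip the state at `x` -/
def flip (s : ℕ → Bool) (x y : ℕ) : Bool := if y = x then !(s y) else s y

/-- the movement of the difference token at an edge with end states `A`, `C` -/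
def phi (A C : Bool) (a b x : ℕ) : ℕ :=
  if x = a then (if C then a else b) else if x = b then (if A then b else a) else x

lemma gstep_flip {a b : ℕ} (hab : a ≠ b) (s : ℕ → Bool) (x : ℕ) :
    gstep a b (flip s x) = flip (gstep a b s) (phi (s a) (s b) a b x) := by
  funext y
  have hba : b ≠ a := hab.symm
  unfold gstep flip phi
  by_cases h1 : x = a
  · subst h1
    by_cases h2 : y = x
    · subst h2
      cases hsa : s y <;> cases hsb : s b <;> simp [hsa, hsb, hab, hba]
    · by_cases h3 : y = b
      · subst h3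
        cases hsa : s x <;> cases hsb : s y <;> simp [hsa, hsb, hab, hba]
      · cases hsa : s x <;> cases hsb : s b <;> simp [hsa, hsb, hab, hba, h2, h3]
  · by_cases h4 : x = b
    · subst h4
      by_cases h2 : y = x
      · subst h2
        cases hsa : s a <;> cases hsb : s y <;> simp [hsa, hsb, hab, hba]
      · by_cases h3 : y = a
        · subst h3
          cases hsa : s x <;> cases hsb : s y <;> simp [hsa, hsb, hab, hba]
        · cases hsa : s x <;> cases hsb : s a <;> simp [hsa, hsb, hab, hba, h2, h3]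
    · have h1' : a ≠ x := fun h => h1 h.symm
      have h4' : b ≠ x := fun h => h4 h.symm
      by_cases h2 : y = x
      · subst h2
        cases hsa : s a <;> cases hsb : s b <;> simp [h1, h4, h1', h4']
      · simp [h1, h4, h1', h4', h2]

/-- location of the token after `n` steps -/
def loc (u v : ℕ → ℕ) (s : ℕ → Bool) (t : ℕ) (x : ℕ) : ℕ → ℕ
  | 0 => x
  | n + 1 => phi (run u v s t n (u (t + n))) (run u v s t n (v (t + n))) (u (t + n)) (v (t + n))
      (loc u v s t x n)

lemma run_flip {u v : ℕ → ℕ} {t n : ℕ} (huv : ∀ k, t ≤ k → k < t + n → u k ≠ v k)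
    (s : ℕ → Bool) (x : ℕ) :
    run u v (flip s x) t n = flip (run u v s t n) (loc u v s t x n) := by
  induction n with
  | zero => rfl
  | succ n ih =>
    show gstep _ _ (run u v (flip s x) t n) = _
    rw [ih (fun k h1 h2 => huv k h1 (by omega)), gstep_flip (huv (t + n) (by omega) (by omega))]
    rfl

/-- Hamming distance on `[0, P)` -/
def ham (P : ℕ) (s s' : ℕ → Bool) : ℕ := ∑ x ∈ range P, if s x = s' x then 0 else 1

lemma ham_triangle (P : ℕ) (s s' s'' : ℕ → Bool) : ham P s s'' ≤ ham P s s' + ham P s' s'' := by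
  unfold ham
  rw [← Finset.sum_add_distrib]
  refine Finset.sum_le_sum fun x _ => ?_
  split_ifs with h1 h2 h3 h2 h3 <;> simp_all

lemma ham_symm (P : ℕ) (s s' : ℕ → Bool) : ham P s s' = ham P s' s := by
  unfold ham
  refine Finset.sum_congr rfl fun x _ => ?_
  by_cases h : s x = s' x
  · simp [h]
  · simp [h, Ne.symm h]

lemma ham_gstep {P a b : ℕ} (hab : a ≠ b) (ha : a < P) (hb : b < P) (s s' : ℕ → Bool) :
    ham P (gstep a b s) (gstep a b s') ≤ ham P s s' := by
  unfold ham
  have hmem : a ∈ range P := mem_range.mpr ha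
  have hmem2 : b ∈ (range P).erase a := mem_erase.mpr ⟨hab.symm, mem_range.mpr hb⟩
  rw [← Finset.add_sum_erase _ _ hmem, ← Finset.add_sum_erase _ _ hmem2,
    ← Finset.add_sum_erase _ _ hmem, ← Finset.add_sum_erase _ _ hmem2, ← Nat.add_assoc,
    ← Nat.add_assoc]
  have hrest : (∑ x ∈ ((range P).erase a).erase b,
      if gstep a b s x = gstep a b s' x then 0 else 1) =
      ∑ x ∈ ((range P).erase a).erase b, if s x = s' x then 0 else 1 := by
    refine Finset.sum_congr rfl fun x hx => ?_
    rw [Finset.mem_erase, Finset.mem_erase] at hx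
    simp [gstep, hx.1, hx.2.1]
  rw [hrest]
  apply Nat.add_le_add_right
  unfold gstep
  cases h1 : s a <;> cases h2 : s b <;> cases h3 : s' a <;> cases h4 : s' b <;> simp

lemma ham_run {P : ℕ} {u v : ℕ → ℕ} {t n : ℕ}
    (huv : ∀ k, t ≤ k → k < t + n → u k ≠ v k ∧ u k < P ∧ v k < P) (s s' : ℕ → Bool) :
    ham P (run u v s t n) (run u v s' t n) ≤ ham P s s' := by
  induction n with
  | zero => exact le_rfl
  | succ n ih =>
    obtain ⟨h1, h2, h3⟩ := huv (t + n) (by omega) (by omega)
    exact (ham_gstep h1 h2 h3 _ _).trans (ih (fun k a b => huv k a (by omega)))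

/-- only the states of the ends matter -/
lemma run_congr {P : ℕ} {u v : ℕ → ℕ} {t n : ℕ}
    (huv : ∀ k, t ≤ k → k < t + n → u k < P ∧ v k < P) {s s' : ℕ → Bool}
    (h : ∀ x < P, s x = s' x) : ∀ x < P, run u v s t n x = run u v s' t n x := by
  induction n with
  | zero => exact h
  | succ n ih =>
    intro x hx
    have ih' := ih (fun k a b => huv k a (by omega))
    obtain ⟨h2, h3⟩ := huv (t + n) (by omega) (by omega)
    show gstep _ _ _ x = gstep _ _ _ x
    unfold gstep
    rw [ih' x hx, ih' _ h2, ih' _ h3]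

lemma run_mono {u v : ℕ → ℕ} {s : ℕ → Bool} {t n x : ℕ} (k : ℕ) (h : run u v s t n x = true) :
    run u v s t (n + k) x = true := by
  induction k with
  | zero => exact h
  | succ k ih =>
    show gstep _ _ (run u v s t (n + k)) x = true
    simp [gstep, ih]

lemma run_untouched {u v : ℕ → ℕ} {s : ℕ → Bool} {t n x : ℕ}
    (h : ∀ k, t ≤ k → k < t + n → u k ≠ x ∧ v k ≠ x) : run u v s t n x = s x := by
  induction n with
  | zero => rfl
  | succ n ih =>
    obtain ⟨h1, h2⟩ := h (t + n) (by omega) (by omega)
    show gstep _ _ (run u v s t n) x = s x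
    rw [← ih (fun k a b => h k a (by omega))]
    simp [gstep, h1.symm, h2.symm]

end Pool.Agent.Helper91.SM.Greedy
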