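import Mathlib

/-!
A parallel random access machine, as a small data-parallel programming language.
-/

namespace Pool.Agent.Helper91.SM

open Finset

/-- A memory: array number, three indices, value. -/
abbrev Mem := ℕ → ℕ → ℕ → ℕ → ℤ

/-- Expressions: integer constants, index variables, entries of arrays (with computed indices),
`+`, `-`, `*`, integer division, comparison (value `1` or `0`) and bounded sums. -/
inductive Term : Type
  | const (c : ℤ) : Term
  | var (v : ℕ) : Term
  | get (r : ℕ) (i j k : Term) : Term
  | add (s t : Term) : Term
  | sub (s t : Term) : Term
  | mul (s t : Term) : Term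
  | div (s t : Term) : Term
  | lt (s t : Term) : Term
  | sum (v : ℕ) (t : Term) : Term

/-- Value of an expression in memory `m` for the values `e` of the index variables; the variable
of a bounded sum runs through `0, ..., W - 1`. -/
def eval (W : ℕ) (m : Mem) : Term → (ℕ → ℤ) → ℤ
  | .const c, _ => c
  | .var v, e => e v
  | .get r i j k, e =>
      m r (eval W m i e).toNat (eval W m j e).toNat (eval W m k e).toNat
  | .add s t, e => eval W m s e + eval W m t e
  | .sub s t, e => eval W m s e - eval W m t e
  | .mul s t, e => eval W m s e * eval W m t e
  | .div s t, e => eval W m s e / eval W m t e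
  | .lt s t, e => if eval W m s e < eval W m t e then 1 else 0
  | .sum v t, e => ∑ x ∈ range W, eval W m t (Function.update e v (x : ℤ))

/-- Parallel time needed to evaluate an expression: every operation costs one unit, and a sum of
`W` terms is formed by a balanced tree, which costs `⌈log₂ W⌉ + 1` further units. -/
def cost (W : ℕ) : Term → ℕ
  | .const _ => 1
  | .var _ => 1
  | .get _ i j k => cost W i + cost W j + cost W k + 1
  | .add s t => cost W s + cost W t + 1
  | .sub s t => cost W s + cost W t + 1
  | .mul s t => cost W s + cost W t + 1
  | .div s t => cost W s + cost W t + 1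
  | .lt s t => cost W s + cost W t + 1
  | .sum _ t => cost W t + Nat.clog 2 W + 1

/-- Programs: parallel assignment of a whole array, sequential composition, counted loop. -/
inductive Prog : Type
  | assign (r : ℕ) (t : Term) : Prog
  | seq (p q : Prog) : Prog
  | loop (r : ℕ) (t : Term) (p : Prog) : Prog

/-- A memory word holds an integer of absolute value less than `W`. -/
def store (W : ℕ) (z : ℤ) : ℤ := if |z| < (W : ℤ) then z else 0

/-- Index variables `0, 1, 2` carry the index of the array entry that is computed. -/
def env (i j k : ℕ) : ℕ → ℤ
  | 0 => i
  | 1 => j
  | 2 => k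
  | _ => 0

/-- Put the value of a loop counter into array `r`. -/
def setc (W r i : ℕ) (m : Mem) : Mem := Function.update m r (fun _ _ _ => store W i)

/-- Apply `f 0`, then `f 1`, ..., then `f (n - 1)`. -/
def loopIter (f : ℕ → Mem → Mem) : ℕ → Mem → Mem
  | 0, m => m
  | n + 1, m => f n (loopIter f n m)

/-- Execution with word bound `W`.  The assignment `r := t` computes all entries of array `r`
with indices below `W` simultaneously from the old memory. -/
def exec (W : ℕ) : Prog → Mem → Mem
  | .assign r t, m => Function.update m r
      (fun i j k => if i < W ∧ j < W ∧ k < W then store W (eval W m t (env i j k)) else 0)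
  | .seq p q, m => exec W q (exec W p m)
  | .loop r t p, m =>
      loopIter (fun i m' => exec W p (setc W r i m')) (eval W m t (env 0 0 0)).toNat m

/-- Parallel running time. -/
def time (W : ℕ) : Prog → Mem → ℕ
  | .assign _ t, _ => cost W t
  | .seq p q, m => time W p m + time W q (exec W p m)
  | .loop r t p, m => cost W t + ∑ i ∈ range (eval W m t (env 0 0 0)).toNat,
      (time W p (setc W r i (loopIter (fun i m' => exec W p (setc W r i m')) i m)) + 1)

end Pool.Agent.Helper91.SM
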