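import Mathlib

/-!
Smoothed comparator networks: evolutions of a finite family of wires under transfers along
gates, the harmonic (linearised) evolution, the energy identity.
-/

namespace Pool.Agent.Helper91.SM.Net

open Finset

variable {V : Type*} [Fintype V] [DecidableEq V]

/-- the vector delta_m - delta_w -/
def dip (a b v : V) : ℝ := (if v = a then 1 else 0) - (if v = b then 1 else 0)

lemma sum_dip (X : V → ℝ) (a b : V) : ∑ v, X v * dip a b v = X a - X b := by
  simp [dip, mul_sub, Finset.sum_sub_distrib]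

lemma sum_dip_sq {a b : V} (h : a ≠ b) : ∑ v, dip a b v * dip a b v = 2 := by
  rw [sum_dip]
  simp [dip, h, h.symm]
  norm_num

/-- wires evolve by the transfers `y t` along the gates `(m t, w t)` -/
def St (m w : ℕ → V) (S0 : V → ℝ) (y : ℕ → ℝ) : ℕ → V → ℝ
  | 0 => S0
  | t + 1 => fun v => St m w S0 y t v + y t * dip (m t) (w t) v

lemma energy_step (X : V → ℝ) (p : ℝ) {a b : V} (h : a ≠ b) :
    ∑ v, (X v + p * dip a b v) ^ 2 = ∑ v, X v ^ 2 + 2 * (p * (X a - X b + p)) := by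
  have h1 : ∀ v, (X v + p * dip a b v) ^ 2 =
      X v ^ 2 + 2 * p * (X v * dip a b v) + p ^ 2 * (dip a b v * dip a b v) := by
    intro v; ring
  simp only [h1, Finset.sum_add_distrib, ← Finset.mul_sum]
  rw [sum_dip, sum_dip_sq h]
  ring

/-- general energy identity -/
lemma energy (m w : ℕ → V) (n : ℕ) (hmw : ∀ t < n, m t ≠ w t) (X : ℕ → V → ℝ) (p : ℕ → ℝ)
    (hX : ∀ t < n, ∀ v, X (t + 1) v = X t v + p t * dip (m t) (w t) v) :
    ∀ k ≤ n, ∑ v, X k v ^ 2 =
      ∑ v, X 0 v ^ 2 + 2 * ∑ t ∈ range k, p t * (X t (m t) - X t (w t) + p t) := by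
  intro k hk
  induction k with
  | zero => simp
  | succ k ih =>
    have h1 : ∑ v, X (k + 1) v ^ 2 = ∑ v, (X k v + p k * dip (m k) (w k) v) ^ 2 := by
      refine Finset.sum_congr rfl fun v _ => ?_
      rw [hX k (by omega) v]
    rw [h1, energy_step _ _ (hmw k (by omega)), ih (by omega), Finset.sum_range_succ]
    ring

/-- the harmonic evolution with slopes `al` -/
def Hs (m w : ℕ → V) (S0 : V → ℝ) (al : ℕ → ℝ) : ℕ → V → ℝ
  | 0 => S0
  | t + 1 => fun v => Hs m w S0 al t v +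
      (-(al t) * (Hs m w S0 al t (m t) - Hs m w S0 al t (w t))) * dip (m t) (w t) v

/-- the transfers of the harmonic evolution -/
def xi (m w : ℕ → V) (S0 : V → ℝ) (al : ℕ → ℝ) (t : ℕ) : ℝ :=
  -(al t) * (Hs m w S0 al t (m t) - Hs m w S0 al t (w t))

lemma Hs_succ (m w : ℕ → V) (S0 : V → ℝ) (al : ℕ → ℝ) (t : ℕ) (v : V) :
    Hs m w S0 al (t + 1) v = Hs m w S0 al t v + xi m w S0 al t * dip (m t) (w t) v := rfl

lemma mix_mem {c lo hi : ℝ} (hc : 0 ≤ c) (hc1 : c ≤ 1) (X : V → ℝ) (a b : V)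
    (hX : ∀ v, lo ≤ X v ∧ X v ≤ hi) (hab : a ≠ b) :
    ∀ v, lo ≤ X v + (-c * (X a - X b)) * dip a b v ∧
      X v + (-c * (X a - X b)) * dip a b v ≤ hi := by
  intro v
  have ha := hX a
  have hb := hX b
  have hv := hX v
  unfold dip
  by_cases h1 : v = a
  · subst h1
    simp only [if_true, if_neg hab]
    constructor <;> nlinarith
  · by_cases h2 : v = b
    · subst h2
      simp only [if_true, if_neg h1]
      constructor <;> nlinarith
    · simp [h1, h2, hv.1, hv.2]

lemma Hs_mem {m w : ℕ → V} {S0 : V → ℝ} {al : ℕ → ℝ} {n : ℕ} {lo hi : ℝ}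
    (hmw : ∀ t < n, m t ≠ w t) (hal : ∀ t < n, 0 ≤ al t ∧ al t ≤ 1)
    (h0 : ∀ v, lo ≤ S0 v ∧ S0 v ≤ hi) :
    ∀ t ≤ n, ∀ v, lo ≤ Hs m w S0 al t v ∧ Hs m w S0 al t v ≤ hi := by
  intro t
  induction t with
  | zero => intro _ v; exact h0 v
  | succ t ih =>
    intro ht
    exact mix_mem (hal t (by omega)).1 (hal t (by omega)).2 _ _ _ (ih (by omega))
      (hmw t (by omega))

/-- stability of the harmonic evolution in the slopes -/
lemma Hs_perturb {m w : ℕ → V} {S0 : V → ℝ} {al be : ℕ → ℝ} {n : ℕ}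
    (hmw : ∀ t < n, m t ≠ w t) (hal : ∀ t < n, 0 ≤ al t ∧ al t ≤ 1)
    (hbe : ∀ t < n, 0 ≤ be t ∧ be t ≤ 1)
    (h0 : ∀ v, 0 ≤ S0 v ∧ S0 v ≤ 1) :
    ∀ t ≤ n, ∀ v, |Hs m w S0 al t v - Hs m w S0 be t v| ≤ ∑ i ∈ range t, |al i - be i| := by
  intro t
  induction t with
  | zero => intro _ v; simp [Hs]
  | succ t ih =>
    intro ht v
    have ih' := ih (by omega)
    have hb := Hs_mem hmw hbe h0 t (by omega)
    have hm := hmw t (by omega)
    have ha1 := hal t (by omega)
    set X := Hs m w S0 al t with hX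
    set Y := Hs m w S0 be t with hY
    set E := ∑ i ∈ range t, |al i - be i| with hE
    have hmix := mix_mem (lo := -E) (hi := E) ha1.1 ha1.2 (fun v => X v - Y v) (m t) (w t)
      (fun v => abs_le.mp (ih' v)) hm v
    have key : Hs m w S0 al (t + 1) v - Hs m w S0 be (t + 1) v =
        ((X v - Y v) + (-(al t) * ((X (m t) - Y (m t)) - (X (w t) - Y (w t)))) *
          dip (m t) (w t) v) + (be t - al t) * (Y (m t) - Y (w t)) * dip (m t) (w t) v := by
      simp only [Hs, ← hX, ← hY]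
      ring
    have hd : |(be t - al t) * (Y (m t) - Y (w t)) * dip (m t) (w t) v| ≤ |al t - be t| := by
      rw [abs_mul, abs_mul, abs_sub_comm (be t)]
      have h1 : |Y (m t) - Y (w t)| ≤ 1 := by
        rw [abs_le]; constructor <;> linarith [(hb (m t)).1, (hb (m t)).2, (hb (w t)).1, (hb (w t)).2]
      have h2 : |dip (m t) (w t) v| ≤ 1 := by
        unfold dip
        split_ifs <;> norm_num
      calc |al t - be t| * |Y (m t) - Y (w t)| * |dip (m t) (w t) v|
          ≤ |al t - be t| * 1 * 1 := by gcongr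
        _ = |al t - be t| := by ring
    rw [key, Finset.sum_range_succ]
    refine (abs_add_le _ _).trans ?_
    refine add_le_add ?_ hd
    rw [abs_le]
    exact ⟨by linarith [hmix.1], by linarith [hmix.2]⟩

lemma St_bound_diff {m w : ℕ → V} {S0 : V → ℝ} {y y' : ℕ → ℝ} {e : ℝ} {n : ℕ}
    (he : 0 ≤ e) (h : ∀ t < n, |y t - y' t| ≤ e) :
    ∀ t ≤ n, ∀ v, |St m w S0 y t v - St m w S0 y' t v| ≤ t * e := by
  intro t
  induction t with
  | zero => intro _ v; simp [St]
  | succ t ih =>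
    intro ht v
    have h1 := ih (by omega) v
    have h2 := h t (by omega)
    have hd : |dip (m t) (w t) v| ≤ 1 := by
      unfold dip
      split_ifs <;> norm_num
    have key : St m w S0 y (t + 1) v - St m w S0 y' (t + 1) v =
      (St m w S0 y t v - St m w S0 y' t v) + (y t - y' t) * dip (m t) (w t) v := by
      simp only [St]; ring
    rw [key]
    refine (abs_add_le _ _).trans ?_
    rw [abs_mul]
    have h3 : |y t - y' t| * |dip (m t) (w t) v| ≤ e * 1 := by gcongr
    push_cast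
    linarith

/-- linear combination of evolutions -/
lemma St_lin (m w : ℕ → V) (S0 : V → ℝ) (al y : ℕ → ℝ) (lam : ℝ) :
    ∀ t v, St m w S0 (fun i => (1 - lam) * y i + lam * xi m w S0 al i) t v =
      (1 - lam) * St m w S0 y t v + lam * Hs m w S0 al t v := by
  intro t
  induction t with
  | zero => intro v; simp only [St, Hs]; ring
  | succ t ih =>
    intro v
    simp only [St, ih, Hs_succ]
    ring

/-! ### the smoothed gate -/

/-- the smoothing function -/
noncomputable def sf (τ wt z : ℝ) : ℝ := √(z ^ 2 + 4 * τ ^ 2 * wt)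

/-- the slope of the smoothed gate -/
noncomputable def slope (τ wt z : ℝ) : ℝ := (1 - z / sf τ wt z) / 2

lemma sf_arg {τ wt z : ℝ} (hw : 1 ≤ wt) : 0 ≤ z ^ 2 + 4 * τ ^ 2 * wt := by positivity

lemma sf_sq {τ wt z : ℝ} (hw : 1 ≤ wt) : sf τ wt z ^ 2 = z ^ 2 + 4 * τ ^ 2 * wt :=
  Real.sq_sqrt (sf_arg hw)

lemma sf_nonneg (τ wt z : ℝ) : 0 ≤ sf τ wt z := Real.sqrt_nonneg _

lemma sf_ge {τ wt z : ℝ} (hw : 1 ≤ wt) (hτ : 0 < τ) : 2 * τ ≤ sf τ wt z := by
  apply Real.le_sqrt_of_sq_le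
  nlinarith [sq_nonneg z, sq_nonneg τ]

lemma sf_pos {τ wt z : ℝ} (hw : 1 ≤ wt) (hτ : 0 < τ) : 0 < sf τ wt z := by
  linarith [sf_ge (z := z) hw hτ]

lemma sf_abs {τ wt z : ℝ} (hw : 1 ≤ wt) : |z| ≤ sf τ wt z := by
  apply Real.abs_le_sqrt
  nlinarith [sq_nonneg τ]

lemma slope_mul {τ wt z : ℝ} (hw : 1 ≤ wt) (hτ : 0 < τ) :
    slope τ wt z * sf τ wt z = (sf τ wt z - z) / 2 := by
  have := (sf_pos (z := z) hw hτ).ne'
  unfold slope; field_simp

lemma slope_mul' {τ wt z : ℝ} (hw : 1 ≤ wt) (hτ : 0 < τ) :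
    (1 - slope τ wt z) * sf τ wt z = (sf τ wt z + z) / 2 := by
  have := (sf_pos (z := z) hw hτ).ne'
  unfold slope; field_simp; ring

lemma slope_mem {τ wt z : ℝ} (hw : 1 ≤ wt) (hτ : 0 < τ) :
    0 ≤ slope τ wt z ∧ slope τ wt z ≤ 1 := by
  have h1 := sf_pos (z := z) hw hτ
  have h2 := abs_le.mp (sf_abs (τ := τ) (z := z) hw)
  have h3 : z / sf τ wt z ≤ 1 := by rw [div_le_one h1]; exact h2.2
  have h4 : -1 ≤ z / sf τ wt z := by rw [le_div_iff₀ h1]; linarith [h2.1]
  unfold slope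
  constructor <;> linarith

lemma slope_prod {τ wt z : ℝ} (hw : 1 ≤ wt) (hτ : 0 < τ) :
    slope τ wt z * (1 - slope τ wt z) * sf τ wt z ^ 2 = τ ^ 2 * wt := by
  have h1 := slope_mul (z := z) hw hτ
  have h2 := slope_mul' (z := z) hw hτ
  have h3 := sf_sq (τ := τ) (z := z) hw
  calc slope τ wt z * (1 - slope τ wt z) * sf τ wt z ^ 2
      = (slope τ wt z * sf τ wt z) * ((1 - slope τ wt z) * sf τ wt z) := by ring
    _ = (sf τ wt z ^ 2 - z ^ 2) / 4 := by rw [h1, h2]; ring
    _ = τ ^ 2 * wt := by rw [h3]; ring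

lemma sf_lip {τ wt z z' : ℝ} (hw : 1 ≤ wt) (hτ : 0 < τ) :
    |sf τ wt z - sf τ wt z'| ≤ |z - z'| := by
  have h1 := sf_pos (z := z) hw hτ
  have h2 := sf_pos (z := z') hw hτ
  have h3 := sf_sq (τ := τ) (z := z) hw
  have h4 := sf_sq (τ := τ) (z := z') hw
  have h5 := sf_abs (τ := τ) (z := z) hw
  have h6 := sf_abs (τ := τ) (z := z') hw
  have h7 : (sf τ wt z - sf τ wt z') * (sf τ wt z + sf τ wt z') = (z - z') * (z + z') := by
    nlinarith
  have h8 : |sf τ wt z - sf τ wt z'| * (sf τ wt z + sf τ wt z') ≤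
      |z - z'| * (sf τ wt z + sf τ wt z') := by
    calc |sf τ wt z - sf τ wt z'| * (sf τ wt z + sf τ wt z')
        = |sf τ wt z - sf τ wt z'| * |sf τ wt z + sf τ wt z'| := by
          rw [abs_of_pos (by linarith : 0 < sf τ wt z + sf τ wt z')]
      _ = |(z - z') * (z + z')| := by rw [← abs_mul, h7]
      _ = |z - z'| * |z + z'| := abs_mul _ _
      _ ≤ |z - z'| * (sf τ wt z + sf τ wt z') := by
          apply mul_le_mul_of_nonneg_left _ (abs_nonneg _)
          exact (abs_add_le z z').trans (by linarith)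
  exact le_of_mul_le_mul_right h8 (by linarith)

lemma sf_scale {τ wt z c : ℝ} (hc : 0 ≤ c) :
    sf (c * τ) wt (c * z) = c * sf τ wt z := by
  unfold sf
  have : (c * z) ^ 2 + 4 * (c * τ) ^ 2 * wt = c ^ 2 * (z ^ 2 + 4 * τ ^ 2 * wt) := by ring
  rw [this, Real.sqrt_mul (sq_nonneg c), Real.sqrt_sq hc]

/-- second order Taylor bound for the smoothed gate -/
lemma sf_taylor {τ wt z h : ℝ} (hw : 1 ≤ wt) (hτ : 0 < τ) (hh : |h| ≤ τ) :
    |sf τ wt (z + h) - sf τ wt z - h * (z / sf τ wt z)| ≤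
      2 * h ^ 2 * (slope τ wt z * (1 - slope τ wt z)) / τ := by
  have h1 := sf_pos (z := z) hw hτ
  have h1' := sf_ge (z := z) hw hτ
  have h2 := sf_pos (z := z + h) hw hτ
  have h3 := sf_sq (τ := τ) (z := z) hw
  have h4 := sf_sq (τ := τ) (z := z + h) hw
  have h5 := abs_le.mp (sf_abs (τ := τ) (z := z) hw)
  have hp := slope_prod (z := z) hw hτ
  have hl := abs_le.mp (sf_lip (z := z + h) (z' := z) hw hτ)
  have hsl := slope_mem (z := z) hw hτ
  set f := sf τ wt z with hf
  set g := sf τ wt (z + h) with hg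
  set A := slope τ wt z * (1 - slope τ wt z) with hA
  have hA0 : 0 ≤ A := mul_nonneg hsl.1 (by linarith [hsl.2])
  have hab := abs_le.mp hh
  have e1 : z + h - z = h := by ring
  rw [e1] at hl
  -- (g - f - h z/f) * (g + f + h z / f) = 4 τ² w h² / f² = 4 A h²
  have key : (g - f - h * (z / f)) * (g + f + h * (z / f)) = 4 * A * h ^ 2 := by
    have e2 : (g - f - h * (z / f)) * (g + f + h * (z / f)) =
        g ^ 2 - (f + h * (z / f)) ^ 2 := by ring
    rw [e2, h4]
    have e3 : (f + h * (z / f)) ^ 2 = f ^ 2 + 2 * h * z + h ^ 2 * (z / f) ^ 2 := by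
      field_simp
      ring
    rw [e3, h3]
    have e4 : (z / f) ^ 2 = 1 - 4 * A := by
      rw [div_pow]
      rw [div_eq_iff (by positivity)]
      have : 4 * A * f ^ 2 = 4 * τ ^ 2 * wt := by linarith [hp]
      nlinarith
    rw [e4]; ring
  have hzf : |z / f| ≤ 1 := by
    rw [abs_div, abs_of_pos h1, div_le_one h1]
    exact abs_le.mpr h5
  have hhz : |h * (z / f)| ≤ |h| := by
    rw [abs_mul]
    calc |h| * |z / f| ≤ |h| * 1 := by gcongr
      _ = |h| := mul_one _
  have hden : f ≤ g + f + h * (z / f) := by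
    have := abs_le.mp hhz
    have h9 : -|h| ≤ g - f := by
      have := hl.1
      linarith
    linarith [this.1]
  have hden0 : 0 < g + f + h * (z / f) := by linarith
  have hR0 : 0 ≤ g - f - h * (z / f) := by
    by_contra hcon
    push Not at hcon
    have : (g - f - h * (z / f)) * (g + f + h * (z / f)) < 0 := mul_neg_of_neg_of_pos hcon hden0
    rw [key] at this
    have : 0 ≤ 4 * A * h ^ 2 := by positivity
    linarith
  rw [abs_of_nonneg hR0, le_div_iff₀ hτ]
  have : (g - f - h * (z / f)) * (2 * τ) ≤ (g - f - h * (z / f)) * (g + f + h * (z / f)) :=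
    mul_le_mul_of_nonneg_left (by linarith) hR0
  rw [key] at this
  linarith

/-! ### network quantities -/

section Network

variable (m w : ℕ → V) (S0 : V → ℝ) (wt : ℕ → ℝ) (τ : ℝ) (y : ℕ → ℝ)

/-- difference of the two inputs of gate `t` -/
def zz (t : ℕ) : ℝ := St m w S0 y t (m t) - St m w S0 y t (w t)

/-- value of the smoothing function at gate `t` -/
noncomputable def ff (t : ℕ) : ℝ := sf τ (wt t) (zz m w S0 y t)

/-- slope at gate `t` -/
noncomputable def al (t : ℕ) : ℝ := slope τ (wt t) (zz m w S0 y t)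

/-- defect of gate `t` -/
noncomputable def dd (t : ℕ) : ℝ := y t - (ff m w S0 wt τ y t - zz m w S0 y t) / 2

/-- total defect -/
noncomputable def Dtot (n : ℕ) : ℝ := ∑ t ∈ range n, |dd m w S0 wt τ y t|

lemma Dtot_nonneg (n : ℕ) : 0 ≤ Dtot m w S0 wt τ y n :=
  Finset.sum_nonneg fun _ _ => abs_nonneg _

end Network

/-- the energy inequality -/
lemma energy_ineq {m w : ℕ → V} {S0 : V → ℝ} {wt : ℕ → ℝ} {τ : ℝ} {y : ℕ → ℝ} {n : ℕ}
    (hmw : ∀ t < n, m t ≠ w t) (hwt : ∀ t < n, 1 ≤ wt t) (hτ : 0 < τ)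
    (h0 : ∀ v, 0 ≤ S0 v ∧ S0 v ≤ 1) :
    ∑ t ∈ range n, al m w S0 wt τ y t * (1 - al m w S0 wt τ y t) *
      (Hs m w S0 (al m w S0 wt τ y) t (m t) - Hs m w S0 (al m w S0 wt τ y) t (w t)) ^ 2 ≤
    ∑ t ∈ range n, (τ ^ 2 * wt t + |dd m w S0 wt τ y t| *
      (ff m w S0 wt τ y t + |dd m w S0 wt τ y t| + 1)) := by
  set a := al m w S0 wt τ y with ha
  set H := Hs m w S0 a with hH
  set S := St m w S0 y with hS
  have hE := energy m w n hmw (fun t v => H t v - S t v) (fun t => xi m w S0 a t - y t)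
    (by
      intro t _ v
      simp only [hH, hS, Hs_succ, St]
      ring) n le_rfl
  have h00 : ∀ v, H 0 v - S 0 v = 0 := by intro v; simp [hH, hS, Hs, St]
  simp only [h00] at hE
  have hpos : 0 ≤ ∑ v, (H n v - S n v) ^ 2 := Finset.sum_nonneg fun _ _ => sq_nonneg _
  have hE' : 0 ≤ ∑ t ∈ range n, (xi m w S0 a t - y t) *
      ((H t (m t) - S t (m t)) - (H t (w t) - S t (w t)) + (xi m w S0 a t - y t)) := by
    have : (∑ v : V, (0:ℝ) ^ 2) = 0 := by simp
    rw [this] at hE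
    linarith
  have hal : ∀ t < n, 0 ≤ a t ∧ a t ≤ 1 := fun t ht => slope_mem (hwt t ht) hτ
  have hterm : ∀ t ∈ range n, (xi m w S0 a t - y t) *
      ((H t (m t) - S t (m t)) - (H t (w t) - S t (w t)) + (xi m w S0 a t - y t)) ≤
      (τ ^ 2 * wt t + |dd m w S0 wt τ y t| * (ff m w S0 wt τ y t + |dd m w S0 wt τ y t| + 1)) -
      a t * (1 - a t) * (H t (m t) - H t (w t)) ^ 2 := by
    intro t ht
    rw [Finset.mem_range] at ht
    have hb := Hs_mem hmw hal h0 t (by omega)
    have hm := hb (m t)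
    have hw' := hb (w t)
    have e1 : a t * ff m w S0 wt τ y t = (ff m w S0 wt τ y t - zz m w S0 y t) / 2 :=
      slope_mul (hwt t ht) hτ
    have e2 : (1 - a t) * ff m w S0 wt τ y t = (ff m w S0 wt τ y t + zz m w S0 y t) / 2 :=
      slope_mul' (hwt t ht) hτ
    have e3 : a t * (1 - a t) * ff m w S0 wt τ y t ^ 2 = τ ^ 2 * wt t :=
      slope_prod (hwt t ht) hτ
    have hf0 : 0 ≤ ff m w S0 wt τ y t := sf_nonneg _ _ _
    have ez : zz m w S0 y t = S t (m t) - S t (w t) := rfl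
    have ed : dd m w S0 wt τ y t = y t - (ff m w S0 wt τ y t - zz m w S0 y t) / 2 := rfl
    set f := ff m w S0 wt τ y t
    set z := zz m w S0 y t
    set d := dd m w S0 wt τ y t
    have exi : xi m w S0 a t = -(a t) * (H t (m t) - H t (w t)) := rfl
    rw [exi]
    set ζ := H t (m t) - H t (w t) with hζ
    have hζ1 : |ζ| ≤ 1 := by
      rw [abs_le]; constructor <;> linarith [hm.1, hm.2, hw'.1, hw'.2]
    have ey : y t = a t * f + d := by rw [e1]; linarith
    have e4 : (H t (m t) - S t (m t)) - (H t (w t) - S t (w t)) = ζ - z := by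
      rw [ez]; ring
    rw [e4, ey]
    have ez2 : z = (1 - a t) * f - a t * f := by rw [e1, e2]; ring
    have hid : (-(a t) * ζ - (a t * f + d)) * (ζ - z + (-(a t) * ζ - (a t * f + d))) =
        a t * (1 - a t) * f ^ 2 - a t * (1 - a t) * ζ ^ 2 + d * f + d ^ 2
          - (1 - 2 * a t) * ζ * d := by
      rw [ez2]; ring
    rw [hid, e3]
    have hd1 : d * f ≤ |d| * f := mul_le_mul_of_nonneg_right (le_abs_self d) hf0
    have hd2 : d ^ 2 = |d| * |d| := by rw [abs_mul_abs_self]; ring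
    have hd3 : -((1 - 2 * a t) * ζ * d) ≤ |d| := by
      have : |(1 - 2 * a t) * ζ * d| ≤ |d| := by
        rw [abs_mul, abs_mul]
        have h1 : |1 - 2 * a t| ≤ 1 := by
          rw [abs_le]; constructor <;> linarith [(hal t ht).1, (hal t ht).2]
        calc |1 - 2 * a t| * |ζ| * |d| ≤ 1 * 1 * |d| := by gcongr
          _ = |d| := by ring
      exact (neg_le_abs _).trans this
    nlinarith
  have hsum := Finset.sum_le_sum hterm
  rw [Finset.sum_sub_distrib] at hsum
  linarith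

/-- the inexact step -/
lemma step {m w : ℕ → V} {S0 : V → ℝ} {wt : ℕ → ℝ} {τ lam e C1 : ℝ} {y y' : ℕ → ℝ} {n : ℕ}
    (hmw : ∀ t < n, m t ≠ w t) (hwt : ∀ t < n, 1 ≤ wt t) (hτ : 0 < τ)
    (h0 : ∀ v, 0 ≤ S0 v ∧ S0 v ≤ 1) (hl0 : 0 < lam) (hl1 : lam < 1)
    (hlτ : lam / (1 - lam) ≤ τ) (he : 0 ≤ e)
    (hC1 : ∀ t < n, ff m w S0 wt τ y t + |dd m w S0 wt τ y t| + 1 ≤ C1)
    (hy : ∀ t < n, |y' t - ((1 - lam) * y t + lam * xi m w S0 (al m w S0 wt τ y) t)| ≤ e) :
    Dtot m w S0 wt ((1 - lam) * τ) y' n ≤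
      (1 - lam) * (Dtot m w S0 wt τ y n + (lam / (1 - lam)) ^ 2 / τ *
        (τ ^ 2 * ∑ t ∈ range n, wt t + C1 * Dtot m w S0 wt τ y n)) + n * ((1 + 2 * n) * e) := by
  set a := al m w S0 wt τ y with ha
  set H := Hs m w S0 a with hH
  set S := St m w S0 y with hS
  have hc : 0 < 1 - lam := by linarith
  have hal : ∀ t < n, 0 ≤ a t ∧ a t ≤ 1 := fun t ht => slope_mem (hwt t ht) hτ
  set μ := lam / (1 - lam) with hμ
  have hμ0 : 0 < μ := div_pos hl0 hc
  have hμe : (1 - lam) * μ = lam := by rw [hμ]; field_simp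
  -- pointwise bound
  have hpt : ∀ t < n, |dd m w S0 wt ((1 - lam) * τ) y' t| ≤
      (1 - lam) * (|dd m w S0 wt τ y t| + μ ^ 2 / τ *
        (a t * (1 - a t) * (H t (m t) - H t (w t)) ^ 2)) + (1 + 2 * n) * e := by
    intro t ht
    have hb := Hs_mem hmw hal h0 t (by omega)
    set ζ := H t (m t) - H t (w t) with hζ
    have hζ1 : |ζ| ≤ 1 := by
      rw [abs_le]
      constructor <;> linarith [(hb (m t)).1, (hb (m t)).2, (hb (w t)).1, (hb (w t)).2]
    set yl : ℕ → ℝ := fun i => (1 - lam) * y i + lam * xi m w S0 a i with hyl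
    have hd := St_bound_diff (m := m) (w := w) (S0 := S0) (y := y') (y' := yl) (e := e) (n := n)
      he hy t (by omega)
    have hlin := St_lin m w S0 a y lam t
    set f := sf τ (wt t) (zz m w S0 y t) with hf
    set z := zz m w S0 y t with hz
    have hz' : |zz m w S0 y' t - (1 - lam) * (z + μ * ζ)| ≤ 2 * n * e := by
      have e1 : (1 - lam) * (z + μ * ζ) = St m w S0 yl t (m t) - St m w S0 yl t (w t) := by
        rw [hlin, hlin, hz, zz, hζ]
        have : (1 - lam) * (μ * (H t (m t) - H t (w t))) = lam * (H t (m t) - H t (w t)) := by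
          rw [← mul_assoc, hμe]
        rw [mul_add, this]
        simp only [hH, hS]
        ring
      rw [e1, zz]
      have h1 := hd (m t)
      have h2 := hd (w t)
      have h3 : (t : ℝ) ≤ n := by exact_mod_cast ht.le
      have h4 : (t : ℝ) * e ≤ n * e := by gcongr
      have e2 : St m w S0 y' t (m t) - St m w S0 y' t (w t) -
          (St m w S0 yl t (m t) - St m w S0 yl t (w t)) =
          (St m w S0 y' t (m t) - St m w S0 yl t (m t)) -
          (St m w S0 y' t (w t) - St m w S0 yl t (w t)) := by ring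
      rw [e2]
      refine (abs_sub _ _).trans ?_
      linarith
    -- defect
    have hdd : dd m w S0 wt ((1 - lam) * τ) y' t =
        y' t - (sf ((1 - lam) * τ) (wt t) (zz m w S0 y' t) - zz m w S0 y' t) / 2 := rfl
    have hfl := sf_lip (τ := (1 - lam) * τ) (wt := wt t) (z := zz m w S0 y' t)
      (z' := (1 - lam) * (z + μ * ζ)) (hwt t ht) (by positivity)
    rw [sf_scale hc.le] at hfl
    have htay := sf_taylor (τ := τ) (wt := wt t) (z := z) (h := μ * ζ) (hwt t ht) hτ
      (by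
        rw [abs_mul, abs_of_pos hμ0]
        calc μ * |ζ| ≤ μ * 1 := by gcongr
          _ ≤ τ := by linarith)
    have hat : slope τ (wt t) z = a t := rfl
    rw [hat] at htay
    have hyt := hy t ht
    have hxi : xi m w S0 a t = -(a t) * ζ := rfl
    rw [hxi] at hyt
    have haz : a t = (1 - z / f) / 2 := rfl
    have hddt : dd m w S0 wt τ y t = y t - (f - z) / 2 := rfl
    -- exact part
    have hex : (1 - lam) * y t + lam * (-(a t) * ζ) -
        ((1 - lam) * sf τ (wt t) (z + μ * ζ) - (1 - lam) * (z + μ * ζ)) / 2 =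
        (1 - lam) * (dd m w S0 wt τ y t -
          (sf τ (wt t) (z + μ * ζ) - f - μ * ζ * (z / f)) / 2) := by
      rw [hddt, haz]
      have : lam = (1 - lam) * μ := hμe.symm
      have e5 : lam * (-((1 - z / f) / 2) * ζ) = (1 - lam) * (μ * (-((1 - z / f) / 2) * ζ)) := by
        linear_combination (-(-((1 - z / f) / 2) * ζ)) * hμe
      rw [e5]; ring
    rw [hdd]
    have e6 : y' t - (sf ((1 - lam) * τ) (wt t) (zz m w S0 y' t) - zz m w S0 y' t) / 2 =
        (y' t - ((1 - lam) * y t + lam * (-(a t) * ζ))) +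
        ((1 - lam) * y t + lam * (-(a t) * ζ) -
        ((1 - lam) * sf τ (wt t) (z + μ * ζ) - (1 - lam) * (z + μ * ζ)) / 2) -
        (sf ((1 - lam) * τ) (wt t) (zz m w S0 y' t) -
          (1 - lam) * sf τ (wt t) (z + μ * ζ)) / 2 +
        (zz m w S0 y' t - (1 - lam) * (z + μ * ζ)) / 2 := by ring
    rw [e6, hex]
    have b1 : |(1 - lam) * (dd m w S0 wt τ y t -
          (sf τ (wt t) (z + μ * ζ) - f - μ * ζ * (z / f)) / 2)| ≤
        (1 - lam) * (|dd m w S0 wt τ y t| + μ ^ 2 / τ * (a t * (1 - a t) * ζ ^ 2)) := by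
      rw [abs_mul, abs_of_pos hc]
      apply mul_le_mul_of_nonneg_left _ hc.le
      refine (abs_sub _ _).trans ?_
      have : |(sf τ (wt t) (z + μ * ζ) - f - μ * ζ * (z / f)) / 2| ≤
          μ ^ 2 / τ * (a t * (1 - a t) * ζ ^ 2) := by
        rw [abs_div, abs_of_pos (by norm_num : (0:ℝ) < 2), div_le_iff₀ (by norm_num)]
        refine htay.trans (le_of_eq ?_)
        field_simp
      linarith
    have t1 := abs_add_le ((y' t - ((1 - lam) * y t + lam * (-(a t) * ζ))) +
        (1 - lam) * (dd m w S0 wt τ y t -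
          (sf τ (wt t) (z + μ * ζ) - f - μ * ζ * (z / f)) / 2) -
        (sf ((1 - lam) * τ) (wt t) (zz m w S0 y' t) -
          (1 - lam) * sf τ (wt t) (z + μ * ζ)) / 2)
        ((zz m w S0 y' t - (1 - lam) * (z + μ * ζ)) / 2)
    have t2 := abs_sub ((y' t - ((1 - lam) * y t + lam * (-(a t) * ζ))) +
        (1 - lam) * (dd m w S0 wt τ y t -
          (sf τ (wt t) (z + μ * ζ) - f - μ * ζ * (z / f)) / 2))
        ((sf ((1 - lam) * τ) (wt t) (zz m w S0 y' t) -
          (1 - lam) * sf τ (wt t) (z + μ * ζ)) / 2)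
    have t3 := abs_add_le (y' t - ((1 - lam) * y t + lam * (-(a t) * ζ)))
        ((1 - lam) * (dd m w S0 wt τ y t -
          (sf τ (wt t) (z + μ * ζ) - f - μ * ζ * (z / f)) / 2))
    rw [abs_div, abs_of_pos (by norm_num : (0:ℝ) < 2)] at t1 t2
    linarith
  unfold Dtot
  have hsum := Finset.sum_le_sum (s := range n) (fun t ht => hpt t (Finset.mem_range.mp ht))
  have hen := energy_ineq (y := y) hmw hwt hτ h0
  have hen2 : ∑ t ∈ range n, (τ ^ 2 * wt t + |dd m w S0 wt τ y t| *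
      (ff m w S0 wt τ y t + |dd m w S0 wt τ y t| + 1)) ≤
      τ ^ 2 * ∑ t ∈ range n, wt t + C1 * ∑ t ∈ range n, |dd m w S0 wt τ y t| := by
    rw [Finset.mul_sum, Finset.mul_sum, ← Finset.sum_add_distrib]
    refine Finset.sum_le_sum fun t ht => ?_
    have := hC1 t (Finset.mem_range.mp ht)
    have h2 := mul_le_mul_of_nonneg_left this (abs_nonneg (dd m w S0 wt τ y t))
    linarith
  refine hsum.trans ?_
  rw [Finset.sum_add_distrib, ← Finset.mul_sum, Finset.sum_add_distrib, ← Finset.mul_sum]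
  have hconst : ∑ _t ∈ range n, (1 + 2 * (n : ℝ)) * e = n * ((1 + 2 * n) * e) := by simp
  rw [hconst]
  have h5 : 0 ≤ μ ^ 2 / τ := by positivity
  have h6 := mul_le_mul_of_nonneg_left (hen.trans hen2) h5
  have h7 := mul_le_mul_of_nonneg_left (add_le_add_left h6 (∑ t ∈ range n, |dd m w S0 wt τ y t|)) hc.le
  linarith

end Pool.Agent.Helper91.SM.Net
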