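import Pool.Agent.Helper91.SM.Model

/-!
Stable marriage with incomplete lists: instances, stable matchings, input encoding.
-/

namespace Pool.Agent.Helper91.SM

open Finset

/-- An instance with men `0, ..., nm - 1` and women `0, ..., nw - 1`; `men i` and `women j` are the
preference lists, most preferred first. -/
structure SMI where
  nm : ℕ
  nw : ℕ
  men : ℕ → List ℕ
  women : ℕ → List ℕ
  men_lt : ∀ i < nm, ∀ j ∈ men i, j < nw
  women_lt : ∀ j < nw, ∀ i ∈ women j, i < nm
  men_nodup : ∀ i < nm, (men i).Nodup
  women_nodup : ∀ j < nw, (women j).Nodup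
  both : ∀ i < nm, ∀ j < nw, (j ∈ men i ↔ i ∈ women j)

namespace SMI

/-- total length of the preference lists, plus the number of persons -/
def size (I : SMI) : ℕ :=
  ∑ i ∈ range I.nm, ((I.men i).length + 1) + ∑ j ∈ range I.nw, ((I.women j).length + 1)

/-- the pairs can be ranked so that all preference lists are increasing -/
def Acyclic (I : SMI) : Prop := ∃ ρ : ℕ → ℕ → ℕ,
  (∀ i < I.nm, (I.men i).Pairwise (fun j j' => ρ i j < ρ i j')) ∧
  (∀ j < I.nw, (I.women j).Pairwise (fun i i' => ρ i j < ρ i' j))

/-- `x` comes before `y` in the list `l` -/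
def Prefers (l : List ℕ) (x y : ℕ) : Prop := l.idxOf x < l.idxOf y

/-- `M` is a set of mutually acceptable pairs in which every person occurs at most once -/
def IsMatching (I : SMI) (M : ℕ → ℕ → Prop) : Prop :=
  (∀ i j, M i j → i < I.nm ∧ j < I.nw ∧ j ∈ I.men i) ∧
  (∀ i j j', M i j → M i j' → j = j') ∧ (∀ i i' j, M i j → M i' j → i = i')

/-- the acceptable pair `(i, j)` is not matched, and each of the two is unmatched or prefers the
other one to the partner -/
def Blocks (I : SMI) (M : ℕ → ℕ → Prop) (i j : ℕ) : Prop :=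
  i < I.nm ∧ j < I.nw ∧ j ∈ I.men i ∧ ¬ M i j ∧
  (∀ j', M i j' → Prefers (I.men i) j j') ∧ (∀ i', M i' j → Prefers (I.women j) i i')

/-- stable matchings -/
def Stable (I : SMI) (M : ℕ → ℕ → Prop) : Prop := I.IsMatching M ∧ ∀ i j, ¬ I.Blocks M i j

/-- the `k`-th entry of a list, plus one; zero beyond the end -/
def code (l : List ℕ) (k : ℕ) : ℤ := match l[k]? with
  | some x => (x : ℤ) + 1
  | none => 0

/-- Input: array 0 holds the numbers of men and women, row `i` of array 1 holds the list of man `i`,
row `j` of array 2 holds the list of woman `j`. -/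
def encode (I : SMI) : Mem := fun r i k _ =>
  if r = 0 then (if i = 0 then (I.nm : ℤ) else if i = 1 then (I.nw : ℤ) else 0)
  else if r = 1 ∧ i < I.nm then code (I.men i) k
  else if r = 2 ∧ i < I.nw then code (I.women i) k
  else 0

end SMI

end Pool.Agent.Helper91.SM
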